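import Pool.Agent.W_d799b0_h42.BinA

/-!
# Integers in binary: polynomial time arithmetic

An integer `z` is represented by the tree of the pair `(decide (z < 0), |z| in binary)`.
PROOFS. `pf_int` of a pair (sign, absolute value): `PF.cast` (`toD` of an integer is by definition
the tree of the pair; `-(n : ℤ)` for `n = 0` has sign `false`, so test `decide (0 < n)`, which is
`PN.lt (PN.const 0)`). Then every operation is computed from `hf.neg'`, `PN (natAbs)` by a case
distinction with `PN.ite`/`PF.and`, e.g. the sum of `x` and `y` has absolute value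
`|x| + |y|` if the signs agree and `max - min` otherwise.
`sz_int`: `sz_pair`, `sz_bool`, `sz_bn`. `size_le_sz_int`: `size_le_sz`.
-/

set_option autoImplicit false

namespace Pool.Agent.PolyTime

open Function
open Pool.Agent.W_d799b0_h82 (Bn)

instance : ToD ℤ := ⟨fun z => toD (decide (z < 0), Bn.mk z.natAbs)⟩

variable {γ : Type} [ToD γ]

theorem ZBin_toD (z : ℤ) : toD z = toD (decide (z < 0), Bn.mk z.natAbs) := rfl

theorem ZBin_sz (z : ℤ) : sz z = sz (decide (z < 0), Bn.mk z.natAbs) := rfl

theorem sz_int (z : ℤ) : sz z ≤ 4 * Nat.size z.natAbs + 5 := by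
  rw [ZBin_sz, sz_pair]
  have h1 := sz_bool (decide (z < 0))
  have h2 := sz_bn z.natAbs
  omega

theorem size_le_sz_int (z : ℤ) : Nat.size z.natAbs ≤ sz z := by
  rw [ZBin_sz, sz_pair]
  have h2 := size_le_sz z.natAbs
  omega

theorem ZBin_pair {f : γ → ℤ} (hf : PF f) :
    PF (fun c => (decide (f c < 0), Bn.mk (f c).natAbs)) :=
  hf.cast (fun _ => rfl)

theorem PF.zNeg {f : γ → ℤ} (hf : PF f) : PF (fun c => decide (f c < 0)) :=
  (ZBin_pair hf).fst

theorem PN.zAbs {f : γ → ℤ} (hf : PF f) : PN (fun c => (f c).natAbs) :=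
  (ZBin_pair hf).snd

/-- an integer from its sign (`true` for minus) and its absolute value -/
theorem PF.zOf {p : γ → Bool} {n : γ → ℕ} (hp : PF p) (hn : PN n) :
    PF (fun c => if p c then -(n c : ℤ) else (n c : ℤ)) := by
  have h1 : PF (fun c => (p c && decide (0 < n c), Bn.mk (n c))) :=
    PF.pair (hp.and ((PN.const 0).lt hn)) hn
  refine h1.cast (fun c => ?_)
  rw [ZBin_toD]
  congr 2
  · rcases Nat.eq_zero_or_pos (n c) with h | h
    · cases p c <;> simp [h]
    · cases p c <;> simp [h]
  · cases p c <;> simp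

theorem ZBin_of {p : γ → Bool} {n : γ → ℕ} {f : γ → ℤ} (hp : PF p) (hn : PN n)
    (h : ∀ c, f c = if p c then -(n c : ℤ) else (n c : ℤ)) : PF f :=
  (PF.zOf hp hn).cast (fun c => by rw [h c])

theorem PF.zOfPN {n : γ → ℕ} (hn : PN n) : PF (fun c => (n c : ℤ)) :=
  ZBin_of (PF.const false) hn (fun _ => rfl)

/-- from unary to binary -/
theorem PF.zOfNat {n : γ → ℕ} (hn : PF n) : PF (fun c => (n c : ℤ)) :=
  PF.zOfPN (PN.ofNat hn)

theorem PF.zneg {f : γ → ℤ} (hf : PF f) : PF (fun c => -f c) := by
  refine ZBin_of hf.zNeg.not (PN.zAbs hf) (fun c => ?_)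
  by_cases h : f c < 0
  · simp only [h, decide_true, Bool.not_true, Bool.false_eq_true, if_false]
    omega
  · simp only [h, decide_false, Bool.not_false, if_true]
    omega

theorem PF.zadd {f g : γ → ℤ} (hf : PF f) (hg : PF g) : PF (fun c => f c + g c) := by
  have hs : PF (fun c => decide (f c < 0) == decide (g c < 0)) := hf.zNeg.boolEq hg.zNeg
  have hl : PF (fun c => decide ((f c).natAbs < (g c).natAbs)) := (PN.zAbs hf).lt (PN.zAbs hg)
  have hp : PF (fun c => if (decide (f c < 0) == decide (g c < 0)) then decide (f c < 0) else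
      (if decide ((f c).natAbs < (g c).natAbs) then decide (g c < 0) else decide (f c < 0))) :=
    PF.ite hs hf.zNeg (PF.ite hl hg.zNeg hf.zNeg)
  have hn : PN (fun c => if (decide (f c < 0) == decide (g c < 0)) then
      (f c).natAbs + (g c).natAbs else
      (if decide ((f c).natAbs < (g c).natAbs) then (g c).natAbs - (f c).natAbs else
        (f c).natAbs - (g c).natAbs)) :=
    PN.ite hs ((PN.zAbs hf).add (PN.zAbs hg))
      (PN.ite hl ((PN.zAbs hg).sub (PN.zAbs hf)) ((PN.zAbs hf).sub (PN.zAbs hg)))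
  refine ZBin_of hp hn (fun c => ?_)
  generalize f c = x
  generalize g c = y
  by_cases h1 : x < 0 <;> by_cases h2 : y < 0 <;> by_cases h3 : x.natAbs < y.natAbs <;>
    simp [h1, h2, h3, -Nat.cast_natAbs] <;> omega

theorem PF.zsub {f g : γ → ℤ} (hf : PF f) (hg : PF g) : PF (fun c => f c - g c) :=
  (hf.zadd hg.zneg).cast (fun c => by rw [sub_eq_add_neg])

theorem PF.zmul {f g : γ → ℤ} (hf : PF f) (hg : PF g) : PF (fun c => f c * g c) := by
  have hs : PF (fun c => !(decide (f c < 0) == decide (g c < 0))) :=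
    (hf.zNeg.boolEq hg.zNeg).not
  have hn : PN (fun c => (f c).natAbs * (g c).natAbs) := (PN.zAbs hf).mul (PN.zAbs hg)
  refine ZBin_of hs hn (fun c => ?_)
  generalize f c = x
  generalize g c = y
  have ex : (x.natAbs : ℤ) = if x < 0 then -x else x := by
    split_ifs <;> omega
  have ey : (y.natAbs : ℤ) = if y < 0 then -y else y := by
    split_ifs <;> omega
  rw [Nat.cast_mul, ex, ey]
  by_cases h1 : x < 0 <;> by_cases h2 : y < 0 <;> simp [h1, h2]

theorem PF.zpow {f : γ → ℤ} (hf : PF f) (n : ℕ) : PF (fun c => f c ^ n) := by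
  induction n with
  | zero => exact (PF.const (1 : ℤ)).cast (fun c => by rw [pow_zero])
  | succ n ih => exact (ih.zmul hf).cast (fun c => by rw [pow_succ])

theorem PF.zlt {f g : γ → ℤ} (hf : PF f) (hg : PF g) : PF (fun c => decide (f c < g c)) := by
  have h1 : PF (fun c => decide ((f c).natAbs < (g c).natAbs)) := (PN.zAbs hf).lt (PN.zAbs hg)
  have h2 : PF (fun c => decide ((g c).natAbs < (f c).natAbs)) := (PN.zAbs hg).lt (PN.zAbs hf)
  have h3 : PF (fun c => if decide (f c < 0) then
      (if decide (g c < 0) then decide ((g c).natAbs < (f c).natAbs) else true) else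
      (if decide (g c < 0) then false else decide ((f c).natAbs < (g c).natAbs))) :=
    PF.ite hf.zNeg (PF.ite hg.zNeg h2 (PF.const true)) (PF.ite hg.zNeg (PF.const false) h1)
  refine h3.cast (fun c => ?_)
  congr 1
  generalize f c = x
  generalize g c = y
  by_cases h1 : x < 0 <;> by_cases h2 : y < 0 <;> simp [h1, h2] <;> omega

theorem PF.zle {f g : γ → ℤ} (hf : PF f) (hg : PF g) : PF (fun c => decide (f c ≤ g c)) :=
  (hg.zlt hf).not.cast (fun c => by
    congr 1
    rw [← decide_not, decide_eq_decide, not_lt])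

theorem PF.zeq {f g : γ → ℤ} (hf : PF f) (hg : PF g) : PF (fun c => decide (f c = g c)) :=
  ((hf.zle hg).and (hg.zle hf)).cast (fun c => by
    congr 1
    rw [← Bool.decide_and, decide_eq_decide]
    exact le_antisymm_iff)

/-- the size of the values -/
theorem PF.zbound {f : γ → ℤ} (hf : PF f) :
    ∃ P : Polynomial ℕ, ∀ c, (f c).natAbs < 2 ^ P.eval (sz c) := by
  obtain ⟨P, hP⟩ := hf.bound
  refine ⟨P, fun c => Nat.size_le.1 ?_⟩
  exact (size_le_sz_int (f c)).trans (hP c)

end Pool.Agent.PolyTime
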