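import Pool.Agent.W_d799b0_h54.FDefs
import Pool.Agent.W_d799b0_h54.ZBin
import Pool.Agent.W_d799b0_h82.Parse
import Pool.Agent.W_d799b0_h82.Cor

/-!
# Encodings of weighted queries and of moves

`pf_of_encW`: as `pf_of_reduction` (Parse): parse from the right with the state
(current bits, current strings, queries); at the symbol `sign b` the current bits are the digits of
the weight: push `(if b then -(val cur) else val cur, strings)`; `val_bits` (BinA). Sizes: the new
weight has at most as many digits as there are current bits (`sz_int`, `size_val_le`), so that each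
step adds a constant (or use a linear bound and `pf_foldr` with a bound for suffixes).
`toEncW`: as `toEncQ` (Cor); the digits `Nat.bits (natAbs)` are `PN.bits`.
`pf_of_encM`: the output string `m.1 :: m.2.1 :: m.2.2` as a tree (`PF` of `headD`, `tail`), with
`treePair`/`strTree` (Conv; compare `pf_of_verifier`).
`toEncM`: from `PF F` to the machine (compare `raw_of_pf`, `treeStr`, `pairTree`).
`pf_of_manyOne`, `to_manyOne`: `Poly.comp` with `treeStr`, `strTree`.
-/

set_option autoImplicit false

open Turing Computability

namespace Pool.Agent.W_d799b0_h54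

open Pool.Agent.PolyTime Function
open Pool.Agent.W_d799b0_h82

/-- one step of parsing from the right; state `(current bits, current strings, queries)` -/
private def FEnc_step (t : Bool × Bool × Bool) (s : List Bool × List (List Bool) × List WQuery) :
    List Bool × List (List Bool) × List WQuery :=
  if t.1 then (t.2.2 :: s.1, s.2.1, s.2.2)
  else if t.2.1 then ([], s.1 :: s.2.1, s.2.2)
  else ([], [], ((if t.2.2 then -(val s.1 : ℤ) else (val s.1 : ℤ)), s.2.1) :: s.2.2)

private theorem FEnc_bits (y : List Bool) (s : List Bool) (Y : List (List Bool))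
    (Q : List WQuery) :
    ((y.map Sym.bit).map symC).foldr FEnc_step (s, Y, Q) = (y ++ s, Y, Q) := by
  induction y with
  | nil => rfl
  | cons b y ih =>
    rw [List.map_cons, List.map_cons, List.foldr_cons, ih]
    rfl

private theorem FEnc_strs (Ys : List (List Bool)) (Y : List (List Bool)) (Q : List WQuery) :
    ((Ys.flatMap fun y => Sym.sep :: y.map Sym.bit).map symC).foldr FEnc_step ([], Y, Q) =
      ([], Ys ++ Y, Q) := by
  induction Ys with
  | nil => rfl
  | cons y Ys ih =>
    rw [List.flatMap_cons, List.map_append, List.foldr_append, ih, List.map_cons,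
      List.foldr_cons, FEnc_bits]
    simp [FEnc_step, symC]

private theorem FEnc_queries (L : List WQuery) (Q : List WQuery) :
    ((encW L).map symC).foldr FEnc_step ([], [], Q) = ([], [], L ++ Q) := by
  induction L with
  | nil => rfl
  | cons q L ih =>
    have h : encW (q :: L) = (Sym.sign (decide (q.1 < 0)) ::
        (q.1.natAbs.bits.map Sym.bit ++ q.2.flatMap fun y => Sym.sep :: y.map Sym.bit)) ++
        encW L := rfl
    have hv : (if decide (q.1 < 0) then -(val (Nat.bits q.1.natAbs) : ℤ)
        else (val (Nat.bits q.1.natAbs) : ℤ)) = q.1 := by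
      rw [val_bits]
      by_cases hq : q.1 < 0
      · rw [if_pos (by simpa using hq)]
        omega
      · rw [if_neg (by simpa using hq)]
        omega
    rw [h, List.map_append, List.foldr_append, ih, List.map_cons, List.foldr_cons,
      List.map_append, List.foldr_append, FEnc_strs, FEnc_bits, List.append_nil, List.append_nil]
    simp only [FEnc_step, symC, Bool.false_eq_true, if_false]
    rw [hv]
    rfl

private theorem FEnc_sz_bits (l : List Bool) : sz (Bn.mk (val l)) ≤ sz l := by
  rw [sz_bn_bits]
  show sz (Nat.bits (val l)) ≤ sz l
  induction l with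
  | nil => simp [val]
  | cons b l ih =>
    rw [bits_val_cons]
    unfold nrm
    split
    · have := sz_pos (b :: l)
      rw [sz_nil]
      omega
    · rw [sz_cons, sz_cons]
      omega

private theorem FEnc_sz_int (b : Bool) (l : List Bool) :
    sz (if b then -(val l : ℤ) else (val l : ℤ)) ≤ sz l + 4 := by
  have h1 : (if b then -(val l : ℤ) else (val l : ℤ)).natAbs = val l := by
    cases b <;> simp
  have h2 : ∀ z : ℤ, sz z = sz (decide (z < 0)) + sz (Bn.mk z.natAbs) + 1 := fun z =>
    sz_pair (decide (z < 0)) (Bn.mk z.natAbs)
  rw [h2, h1]
  have h3 := FEnc_sz_bits l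
  have h4 := sz_bool (decide ((if b then -(val l : ℤ) else (val l : ℤ)) < 0))
  omega

private theorem FEnc_size (t : Bool × Bool × Bool)
    (s : List Bool × List (List Bool) × List WQuery) : sz (FEnc_step t s) ≤ sz s + 10 := by
  obtain ⟨t1, t2, t3⟩ := t
  obtain ⟨s1, s2, s3⟩ := s
  have h1 := sz_bool t3
  have h2 := sz_pos s1
  have h3 := FEnc_sz_int t3 s1
  cases t1 <;> cases t2 <;> simp only [FEnc_step, Bool.false_eq_true, if_true, if_false,
    sz_pair, sz_cons, sz_nil] <;> omega

private theorem FEnc_pf_step {γ : Type} [ToD γ] {t : γ → Bool × Bool × Bool}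
    {s : γ → List Bool × List (List Bool) × List WQuery} (ht : PF t) (hs : PF s) :
    PF (fun c => FEnc_step (t c) (s c)) := by
  unfold FEnc_step
  refine PF.ite ht.fst ?_ (PF.ite ht.snd.fst ?_ ?_)
  · exact (ht.snd.snd.cons hs.fst).pair (hs.snd.fst.pair hs.snd.snd)
  · exact (PF.const []).pair ((hs.fst.cons hs.snd.fst).pair hs.snd.snd)
  · exact (PF.const []).pair ((PF.const []).pair
      (((PF.zOf ht.snd.snd (PN.val hs.fst)).pair hs.snd.fst).cons hs.snd.snd))

private theorem FEnc_parse : PF (fun l : List (Bool × Bool × Bool) =>
    (l.foldr FEnc_step ([], [], [])).2.2) := by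
  have h : PF (fun c : List (Bool × Bool × Bool) => c.foldr FEnc_step ([], [], [])) := by
    refine pf_foldr_add (γ := List (Bool × Bool × Bool)) (α := Bool × Bool × Bool)
      (β := List Bool × List (List Bool) × List WQuery) (f := fun _ a s => FEnc_step a s)
      (b := fun _ => ([], [], [])) (l := fun c => c) ?_ (PF.const _) PF.id' 10 ?_
    · exact FEnc_pf_step PF.fst'.snd PF.snd'
    · intro c a _ s
      have := FEnc_size a s
      simpa using this
  exact h.snd.snd

private theorem FEnc_tree : Poly encW en (fun L : List WQuery => (encW L).map symC) := by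
  let _ : Inhabited Sym := ⟨Sym.sep⟩
  let _ : Fintype Sym := ⟨{Sym.bit true, Sym.bit false, Sym.sign true, Sym.sign false, Sym.sep},
    by
      intro x
      rcases x with b | b | _
      · cases b <;> simp
      · cases b <;> simp
      · simp⟩
  have h := Poly.toTree (fun s : Sym => toD (symC s))
  refine h.restrict encW (fun _ => rfl) (fun L => ?_)
  change (D.ofList ((encW L).map fun s : Sym => toD (symC s))).enc =
    (D.ofList (((encW L).map symC).map toD)).enc
  rw [List.map_map]
  rfl

private def FEnc_cd : Sym → ℕ
  | .bit false => 0
  | .bit true => 1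
  | .sign false => 2
  | .sign true => 3
  | .sep => 4

private def FEnc_dec : ℕ → Sym
  | 0 => .bit false
  | 1 => .bit true
  | 2 => .sign false
  | 3 => .sign true
  | _ => .sep

theorem pf_of_encW {f : List Bool → List WQuery}
    (h : Nonempty (TM2ComputableInPolyTime (fun x : List Bool => x) encW f)) : PF f := by
  let _ : Inhabited Sym := ⟨Sym.sep⟩
  let _ : Fintype Sym := ⟨{Sym.bit true, Sym.bit false, Sym.sign true, Sym.sign false, Sym.sep},
    by
      intro x
      rcases x with b | b | _
      · cases b <;> simp
      · cases b <;> simp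
      · simp⟩
  have h1 : Poly en encW f := Poly.comp treeStr h
  have h2 : Poly en en (fun x => (encW (f x)).map symC) :=
    Poly.comp (f := f) (g := fun L : List WQuery => (encW L).map symC) h1 FEnc_tree
  have h3 : Poly en en (fun x => (((encW (f x)).map symC).foldr FEnc_step ([], [], [])).2.2) :=
    Poly.comp (f := fun x => (encW (f x)).map symC)
      (g := fun l : List (Bool × Bool × Bool) => (l.foldr FEnc_step ([], [], [])).2.2) h2
      FEnc_parse
  have h4 : (fun x => (((encW (f x)).map symC).foldr FEnc_step ([], [], [])).2.2) = f := by
    funext x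
    rw [FEnc_queries]
    simp
  rw [h4] at h3
  exact h3

theorem toEncW {f : List Bool → List WQuery} (h : PF f) :
    Nonempty (TM2ComputableInPolyTime (fun x : List Bool => x) encW f) := by
  let _ : Fintype Sym := ⟨{.bit false, .bit true, .sign false, .sign true, .sep}, by
    intro x
    rcases x with b | b | _
    · cases b <;> simp
    · cases b <;> simp
    · simp⟩
  let _ : Inhabited Sym := ⟨.sep⟩
  have h1 : Poly (fun x : List Bool => x) en f := Poly.comp strTree h
  have hb : PF (fun b : Bool => if b then (1 : ℕ) else 0) :=
    PF.ite PF.id' (PF.const 1) (PF.const 0)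
  have h2 : PF (fun L : List WQuery => L.flatMap fun q =>
      (if decide (q.1 < 0) then 3 else 2) :: ((q.1.natAbs.bits.map fun b => if b then 1 else 0) ++
        q.2.flatMap fun y => 4 :: y.map fun b => if b then 1 else 0)) := by
    refine PF.flatMap (g := fun (_ : List WQuery) (q : WQuery) =>
      (if decide (q.1 < 0) then 3 else 2) :: ((q.1.natAbs.bits.map fun b => if b then 1 else 0) ++
        q.2.flatMap fun y => 4 :: y.map fun b => if b then 1 else 0)) ?_ PF.id'
    refine PF.cons (PF.ite (PF.zNeg PF.snd'.fst) (PF.const 3) (PF.const 2)) (PF.append ?_ ?_)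
    · exact PF.map (g := fun (_ : List WQuery × WQuery) (b : Bool) => if b then (1 : ℕ) else 0)
        (hb.comp PF.snd') (PN.bits (PN.zAbs PF.snd'.fst))
    · refine PF.flatMap (g := fun (_ : List WQuery × WQuery) (y : List Bool) =>
        4 :: y.map fun b => if b then 1 else 0) ?_ PF.snd'.snd
      exact PF.cons (PF.const 4) (PF.map (g := fun (_ : (List WQuery × WQuery) × List Bool)
        (b : Bool) => if b then (1 : ℕ) else 0) (hb.comp PF.snd') PF.snd')
  have h3 : ∀ L : List WQuery, (encW L).map FEnc_cd = L.flatMap fun q =>
      (if decide (q.1 < 0) then 3 else 2) :: ((q.1.natAbs.bits.map fun b => if b then 1 else 0) ++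
        q.2.flatMap fun y => 4 :: y.map fun b => if b then 1 else 0) := by
    intro L
    unfold encW
    rw [List.map_flatMap]
    congr 1
    funext q
    rw [List.map_cons, List.map_append, List.map_flatMap, List.map_map]
    congr 1
    · cases decide (q.1 < 0) <;> rfl
    · congr 1
      · apply List.map_congr_left
        intro b _
        cases b <;> rfl
      · congr 1
        funext y
        rw [List.map_cons, List.map_map]
        congr 1
        apply List.map_congr_left
        intro b _
        cases b <;> rfl
  have h4 : Poly en (fun w : List Sym => en (w.map FEnc_cd)) encW := by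
    refine h2.restrict id (fun _ => rfl) ?_
    intro L
    rw [h3]
    rfl
  have h5 : Poly (fun w : List Sym => en (w.map FEnc_cd)) (fun w : List Sym => w) (fun w => w) :=
    Poly.rawOfNat 4 FEnc_dec FEnc_cd (by
      intro a
      rcases a with b | b | _
      · cases b <;> simp [FEnc_cd]
      · cases b <;> simp [FEnc_cd]
      · simp [FEnc_cd]) (by
      intro a
      rcases a with b | b | _
      · cases b <;> rfl
      · cases b <;> rfl
      · rfl)
  have h6 := Poly.comp h1 (Poly.comp h4 h5)
  exact h6.restrict id (fun _ => rfl) (fun _ => rfl)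

theorem pf_of_encM {F : List Bool × List Bool → Move}
    (h : Nonempty (TM2ComputableInPolyTime
      (encodingProd (encodingList Bool) (encodingList Bool)).encode encM F)) : PF F := by
  have h1 : Poly en encM F := Poly.comp treePair h
  have h2 : Poly encM en (fun m : Move => encM m) :=
    strTree.restrict encM (fun _ => rfl) (fun _ => rfl)
  have h3 : PF (fun l : List Bool => (l.headD false, (l.tail.headD false, l.tail.tail))) :=
    (pf_headD (PF.const false) PF.id').pair
      ((pf_headD (PF.const false) PF.id'.tail).pair PF.id'.tail.tail)
  have h4 := Poly.comp h1 (Poly.comp h2 h3)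
  exact h4.restrict id (fun _ => rfl) (fun _ => rfl)

theorem toEncM {F : List Bool × List Bool → Move} (h : PF F) :
    Nonempty (TM2ComputableInPolyTime
      (encodingProd (encodingList Bool) (encodingList Bool)).encode encM F) := by
  have h1 : Poly (encodingProd (encodingList Bool) (encodingList Bool)).encode en F :=
    Poly.comp pairTree h
  have h2 : PF (fun m : Move => m.1 :: m.2.1 :: m.2.2) :=
    PF.id'.fst.cons (PF.id'.snd.fst.cons PF.id'.snd.snd)
  have h3 : Poly en (fun x : List Bool => x) (fun m : Move => m.1 :: m.2.1 :: m.2.2) :=
    Poly.comp h2 treeStr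
  have h4 : Poly en encM (fun m : Move => m) := h3.restrict id (fun _ => rfl) (fun _ => rfl)
  exact Poly.comp (f := F) (g := fun m : Move => m) h1 h4

theorem pf_of_manyOne {f : List Bool → List Bool}
    (h : Nonempty (TM2ComputableInPolyTime (fun x : List Bool => x) (fun y : List Bool => y) f)) :
    PF f := by
  have h1 : Poly (fun x : List Bool => x) en f :=
    Poly.comp (f := f) (g := fun x : List Bool => x) h strTree
  exact Poly.comp (f := fun x : List Bool => x) (g := f) treeStr h1

theorem to_manyOne {f : List Bool → List Bool} (h : PF f) :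
    Nonempty (TM2ComputableInPolyTime (fun x : List Bool => x) (fun y : List Bool => y) f) := by
  have h1 : Poly en (fun y : List Bool => y) f :=
    Poly.comp (f := f) (g := fun x : List Bool => x) h treeStr
  exact Poly.comp (f := fun x : List Bool => x) (g := f) strTree h1

theorem toVerifier {g : List Bool × List Bool → Bool} (h : PF g) :
    Nonempty (TM2ComputableInPolyTime
      (encodingProd (encodingList Bool) (encodingList Bool)).encode encodeBool g) := by
  exact Poly.comp pairTree h.toPB

end Pool.Agent.W_d799b0_h54
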