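import Pool.Agent.W_d799b0_h54.ZBin

/-!
# Division of integers

PROOF of `PN.div`: long division, as in `PN.mod` (`modS`, `mod_fold`, BinA) but the state is the
pair (remainder, quotient): for the next bit `b` (most significant first) `s' = b + 2 s`; if
`s' < m` then `(s', 2 q)` else `(s' - m, 2 q + 1)`. For `m = 0` the result must be `0`
(`n / 0 = 0`): use `PN.ite` on `m = 0`. State invariants: `s < m` (for `m > 0`), and after the bits
`l` the numbers satisfy `value l = q * m + s`; sizes: `s ≤` value and `q ≤` value of the bits read,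
so `Nat.size` at most the length (`size_val_le`). One can use `PF.foldl'` with the state type
`Bn × Bn`, or two folds. `Int.tdiv`: `Int.tdiv` rounds toward zero: the absolute value is
`|x| / |y|` and the sign is negative iff the signs of `x` and `y` differ (`Int.natAbs_tdiv`,
`PF.zOf`).
-/

set_option autoImplicit false

namespace Pool.Agent.PolyTime

open Function
open Pool.Agent.W_d799b0_h82 (Bn)

variable {γ : Type} [ToD γ]

/-- one step of long division: the state is the pair (remainder, quotient) -/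
private def ZDiv_S (m : ℕ) (s : Bn × Bn) (b : Bool) : Bn × Bn :=
  (Bn.mk (modS m s.1.n b), Bn.mk ((!decide (b.toNat + 2 * s.1.n < m)).toNat + 2 * s.2.n))

private theorem ZDiv_fst (m : ℕ) (l : List Bool) :
    (l.foldl (ZDiv_S m) (Bn.mk 0, Bn.mk 0)).1.n = W_d799b0_h82.val l.reverse % m := by
  rw [← mod_fold]
  induction l using List.reverseRecOn with
  | nil => rfl
  | append_singleton l b ih =>
    rw [List.foldl_append, List.foldl_append, List.foldl_cons, List.foldl_nil, List.foldl_cons,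
      List.foldl_nil, ← ih]
    rfl

private theorem ZDiv_lt (m : ℕ) (l : List Bool) :
    (l.foldl (ZDiv_S m) (Bn.mk 0, Bn.mk 0)).2.n < 2 ^ l.length := by
  induction l using List.reverseRecOn with
  | nil => simp
  | append_singleton l b ih =>
    rw [List.foldl_append, List.foldl_cons, List.foldl_nil, List.length_append,
      List.length_singleton, pow_succ, ZDiv_S]
    generalize l.foldl (ZDiv_S m) (Bn.mk 0, Bn.mk 0) = t at ih ⊢
    have h1 : (!decide (b.toNat + 2 * t.1.n < m)).toNat ≤ 1 := Bool.toNat_le _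
    change (!decide (b.toNat + 2 * t.1.n < m)).toNat + 2 * t.2.n < 2 ^ l.length * 2
    omega

private theorem ZDiv_snd {m : ℕ} (hm : 0 < m) (l : List Bool) :
    (l.foldl (ZDiv_S m) (Bn.mk 0, Bn.mk 0)).2.n = W_d799b0_h82.val l.reverse / m := by
  induction l using List.reverseRecOn with
  | nil => simp [W_d799b0_h82.val]
  | append_singleton l b ih =>
    have h0 := ZDiv_fst m l
    rw [List.foldl_append, List.foldl_cons, List.foldl_nil, List.reverse_append,
      List.reverse_singleton, List.singleton_append, W_d799b0_h82.val, ZDiv_S]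
    generalize l.foldl (ZDiv_S m) (Bn.mk 0, Bn.mk 0) = t at ih h0 ⊢
    generalize W_d799b0_h82.val l.reverse = v at ih h0 ⊢
    change (!decide (b.toNat + 2 * t.1.n < m)).toNat + 2 * t.2.n = (b.toNat + 2 * v) / m
    rw [ih, h0]
    have h1 := Nat.div_add_mod v m
    have h2 := Nat.mod_lt v hm
    have h3 : b.toNat ≤ 1 := Bool.toNat_le b
    have h4 : b.toNat + 2 * v = m * (2 * (v / m)) + (b.toNat + 2 * (v % m)) := by
      have h5 : m * (2 * (v / m)) = 2 * (m * (v / m)) := by ring
      rw [h5]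
      omega
    rw [h4, Nat.mul_add_div hm]
    by_cases h6 : b.toNat + 2 * (v % m) < m
    · rw [Nat.div_eq_of_lt h6]
      simp [h6]
    · have h7 : (b.toNat + 2 * (v % m)) / m = 1 :=
        Nat.div_eq_of_lt_le (by omega) (by omega)
      rw [h7]
      simp [h6]
      omega

theorem PN.div {f g : γ → ℕ} (hf : PN f) (hg : PN g) : PN (fun c => f c / g c) := by
  obtain ⟨P, hP⟩ := hf.bound
  have h : PF (fun c => (Nat.bits (f c)).reverse.foldl (ZDiv_S (g c)) (Bn.mk 0, Bn.mk 0)) := by
    refine PF.foldl' (f := fun c s b => ZDiv_S (g c) s b) ?_ (PF.const (Bn.mk 0, Bn.mk 0))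
      hf.bits.reverse (Polynomial.C 8 * P + 3) ?_
    · have h1 : PN (fun x : (γ × (Bn × Bn)) × Bool => x.2.toNat + 2 * x.1.2.1.n) :=
        PN.dbl (PN.ofBn PF.id'.fst.snd.fst) PF.id'.snd
      have h2 : PN (fun x : (γ × (Bn × Bn)) × Bool => g x.1.1) := PN.comp hg PF.id'.fst.fst
      have h3 : PN (fun x : (γ × (Bn × Bn)) × Bool => modS (g x.1.1) x.1.2.1.n x.2) :=
        (PN.ite (h1.lt h2) h1 (h1.sub h2)).congr (fun x => by
          rw [modS]
          by_cases h : x.2.toNat + 2 * x.1.2.1.n < g x.1.1 <;> simp [h])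
      have h4 : PN (fun x : (γ × (Bn × Bn)) × Bool =>
          (!decide (x.2.toNat + 2 * x.1.2.1.n < g x.1.1)).toNat + 2 * x.1.2.2.n) :=
        PN.dbl (PN.ofBn PF.id'.fst.snd.snd) (h1.lt h2).not
      exact PF.pair h3 h4
    · intro c l' hl'
      rw [show (fun s b => ZDiv_S (g c) s b) = ZDiv_S (g c) from rfl]
      have h1 : l'.length ≤ P.eval (sz c) := by
        have := hl'.length_le
        rw [List.length_reverse, Nat.size_eq_bits_len] at this
        exact this.trans (hP c)
      have h2 := ZDiv_fst (g c) l'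
      have h3 := ZDiv_lt (g c) l'
      generalize l'.foldl (ZDiv_S (g c)) (Bn.mk 0, Bn.mk 0) = t at h2 h3 ⊢
      obtain ⟨⟨s⟩, ⟨q⟩⟩ := t
      rw [sz_pair]
      have h4 : Nat.size s ≤ P.eval (sz c) := by
        change s = _ at h2
        rw [h2]
        refine (Nat.size_le_size (Nat.mod_le _ _)).trans ((size_val_le _).trans ?_)
        rw [List.length_reverse]
        exact h1
      have h5 : Nat.size q ≤ P.eval (sz c) := (Nat.size_le.2 h3).trans h1
      have h6 := sz_bn s
      have h7 := sz_bn q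
      simp only [Polynomial.eval_add, Polynomial.eval_mul, Polynomial.eval_C,
        Polynomial.eval_ofNat]
      omega
  refine (PN.ite (hg.eq (PN.const 0)) (PN.const 0) (PN.ofBn h.snd)).congr (fun c => ?_)
  by_cases h0 : g c = 0
  · simp [h0]
  · rw [ZDiv_snd (Nat.pos_of_ne_zero h0), List.reverse_reverse, val_bits]
    simp [h0]

theorem PF.ztdiv {f g : γ → ℤ} (hf : PF f) (hg : PF g) :
    PF (fun c => Int.tdiv (f c) (g c)) := by
  have h := PF.zOf ((PF.zNeg hf).boolEq (PF.zNeg hg)).not (PN.div (PN.zAbs hf) (PN.zAbs hg))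
  refine h.cast (fun c => ?_)
  congr 1
  generalize f c = x
  generalize g c = y
  rcases lt_or_ge x 0 with hx | hx <;> rcases lt_or_ge y 0 with hy | hy
  · obtain ⟨a, rfl⟩ : ∃ a : ℕ, x = -(a : ℤ) := ⟨x.natAbs, by omega⟩
    obtain ⟨b, rfl⟩ : ∃ b : ℕ, y = -(b : ℤ) := ⟨y.natAbs, by omega⟩
    rw [Int.neg_tdiv, Int.tdiv_neg, neg_neg, ← Int.ofNat_tdiv]
    simp only [Int.natAbs_neg, Int.natAbs_natCast]
    rw [decide_eq_true hx, decide_eq_true hy]
    simp
  · obtain ⟨a, rfl⟩ : ∃ a : ℕ, x = -(a : ℤ) := ⟨x.natAbs, by omega⟩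
    obtain ⟨b, rfl⟩ : ∃ b : ℕ, y = (b : ℤ) := ⟨y.natAbs, by omega⟩
    rw [Int.neg_tdiv, ← Int.ofNat_tdiv]
    simp only [Int.natAbs_neg, Int.natAbs_natCast]
    rw [decide_eq_true hx, decide_eq_false (not_lt.2 hy)]
    simp
  · obtain ⟨a, rfl⟩ : ∃ a : ℕ, x = (a : ℤ) := ⟨x.natAbs, by omega⟩
    obtain ⟨b, rfl⟩ : ∃ b : ℕ, y = -(b : ℤ) := ⟨y.natAbs, by omega⟩
    rw [Int.tdiv_neg, ← Int.ofNat_tdiv]
    simp only [Int.natAbs_neg, Int.natAbs_natCast]
    rw [decide_eq_false (not_lt.2 hx), decide_eq_true hy]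
    simp
  · obtain ⟨a, rfl⟩ : ∃ a : ℕ, x = (a : ℤ) := ⟨x.natAbs, by omega⟩
    obtain ⟨b, rfl⟩ : ∃ b : ℕ, y = (b : ℤ) := ⟨y.natAbs, by omega⟩
    rw [← Int.ofNat_tdiv]
    simp only [Int.natAbs_natCast]
    rw [decide_eq_false (not_lt.2 hx), decide_eq_false (not_lt.2 hy)]
    simp

end Pool.Agent.PolyTime
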