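import Pool.Agent.W_d799b0_h54.AlgG

/-!
# Integer vectors, quadratic forms, outlier removal, and the tests of the algorithm

A vector is a list of integers; only the first `d` coordinates count, coordinates beyond the end of
the list are zero. For a list `F` of vectors `form d F = (det M, adj M)` with
`M = 1 + ∑ v ∈ F, v vᵀ`, computed by rank one updates.
-/

set_option autoImplicit false

namespace Pool.Agent.W_d799b0_h54

open Pool.Agent.W_d799b0_h82

/-- the `i`-th coordinate -/
def cd (v : List ℤ) (i : ℕ) : ℤ := v.getD i 0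

/-- the scalar product of the first `d` coordinates -/
def dotZ (d : ℕ) (u v : List ℤ) : ℤ := ((List.range d).map fun i => cd u i * cd v i).sum

/-- the product of a matrix and a vector -/
def mulV (d : ℕ) (N : List (List ℤ)) (v : List ℤ) : List ℤ :=
  (List.range d).map fun i => dotZ d (N.getD i []) v

/-- the quadratic form with the matrix `N` -/
def qf (d : ℕ) (N : List (List ℤ)) (v : List ℤ) : ℤ := dotZ d v (mulV d N v)

/-- rank one update of determinant and adjugate -/
def upd (d : ℕ) (s : ℤ × List (List ℤ)) (v : List ℤ) : ℤ × List (List ℤ) :=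
  (s.1 + qf d s.2 v, (List.range d).map fun i => (List.range d).map fun j =>
    ((s.1 + qf d s.2 v) * cd (s.2.getD i []) j -
      cd (mulV d s.2 v) i * cd (mulV d s.2 v) j).tdiv s.1)

/-- the unit matrix -/
def idM (d : ℕ) : List (List ℤ) :=
  (List.range d).map fun i => (List.range d).map fun j => if i = j then 1 else 0

/-- determinant and adjugate of `1 + ∑ v ∈ F, v vᵀ` -/
def form (d : ℕ) (F : List (List ℤ)) : ℤ × List (List ℤ) := F.foldl (upd d) (1, idM d)

/-- an outlier -/
def outl (d β n : ℕ) (s : ℤ × List (List ℤ)) (v : List ℤ) : Bool :=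
  decide ((β : ℤ) * s.1 < n * qf d s.2 v)

/-- remove the first outlier -/
def cstep (d β n : ℕ) (F : List (Pt × List ℤ)) : List (Pt × List ℤ) :=
  F.eraseP fun p => outl d β n (form d (F.map fun p => p.2)) p.2

/-- remove outliers as long as there are any -/
def clean (d β : ℕ) (F : List (Pt × List ℤ)) : List (Pt × List ℤ) :=
  (cstep d β F.length)^[F.length] F

/-- the sum of a list of vectors -/
def vsum (d : ℕ) (L : List (List ℤ)) : List ℤ :=
  (List.range d).map fun i => (L.map fun v => cd v i).sum

/-- `a u - b v` -/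
def comb (d : ℕ) (a b : ℤ) (u v : List ℤ) : List ℤ :=
  (List.range d).map fun i => a * cd u i - b * cd v i

/-- the vectors of the family `F` that belong to the points of the seed `s` -/
def smpV (r w : ℕ) (F : List (Pt × List ℤ)) (s : Seed) : List (List ℤ) :=
  (List.range w).flatMap fun l => (F.filter fun p => decide (p.1 = pt r s l)).map fun p => p.2

/-- the test for seeds; `F` is the cleaned family -/
def accT (d β r w : ℕ) (F : List (Pt × List ℤ)) (s : Seed) : Bool :=
  decide (64 * (β : ℤ) * qf d (form d (F.map fun p => p.2)).2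
      (comb d ((r : ℤ) ^ 3) w (vsum d (smpV r w F s)) (vsum d (F.map fun p => p.2))) ≤
    (r : ℤ) ^ 3 * (w : ℤ) ^ 2 * (form d (F.map fun p => p.2)).1)

/-- the vectors of the family, with signs changed where the test on `v` fails -/
def sgnV (r : ℕ) (F : List (Pt × List ℤ)) (v : List Bool) : List (List ℤ) :=
  F.map fun p => if chi r p.1 v then p.2 else p.2.map fun a => -a

/-- the filter of the small search; `F` is the cleaned family -/
def kpT (d β r : ℕ) (F : List (Pt × List ℤ)) (v : List Bool) : Bool :=
  decide ((r : ℤ) ^ 3 * (form d (F.map fun p => p.2)).1 ≤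
    4 * (β : ℤ) * qf d (form d (F.map fun p => p.2)).2 (vsum d (sgnV r F v)))

/-- the parameter `β` -/
def beta (E : Env) : ℕ := eK E / 2

section

variable (dm : Env → ℕ) (h : Env → Inst → List ℤ)

/-- the vectors of all points in the large case -/
def famL (E : Env) (ph : List (List Seed)) (σ : List Seed) : List (Pt × List ℤ) :=
  (pts (eR E)).map fun u => (u, h E (instL E ph σ u))

/-- the vectors of all points in the small case -/
def famS (E : Env) (ph : List (List Seed)) (i0 b0 j : ℕ) : List (Pt × List ℤ) :=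
  (pts (eR E)).map fun u => (u, h E (instS E ph i0 b0 j u))

/-- the test for seeds -/
def accV : Acc := fun E ph σ s =>
  accT (dm E) (beta E) (eR E) (eW E) (clean (dm E) (beta E) (famL h E ph σ)) s

/-- the filter of the small search -/
def kpV : Kp := fun E ph i0 b0 j v =>
  kpT (dm E) (beta E) (eR E) (clean (dm E) (beta E) (famS h E ph i0 b0 j)) v

end

/-- The conditions on the vectors `h I` of the instances: the hyperplane given by `w` separates the
instances in the universal language from the others, with a margin, and the determinants are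
small. -/
structure RedV (V : List Bool → List Bool → Bool) (h : Inst → List ℤ) (E : Env) (d : ℕ)
    (w : Fin d → ℤ) : Prop where
  pos : 0 < ∑ i, w i ^ 2
  corr : ∀ I, Used E I → (Theta V I ↔ 0 < ∑ i : Fin d, w i * cd (h I) i)
  sep : ∀ I, Used E I → ∑ i, w i ^ 2 ≤ (∑ i : Fin d, w i * cd (h I) i) ^ 2
  pos_beta : 0 < beta E
  big : ∀ F : List (List ℤ), F.length ≤ eR E ^ 3 → (∀ v ∈ F, ∃ I, Used E I ∧ v = h I) →
    (form d F).1 ≤ 2 ^ beta E

/-- the matrix `1 + ∑ v ∈ F, v vᵀ` -/
def MM (d : ℕ) (F : List (List ℤ)) : Matrix (Fin d) (Fin d) ℤ := fun i j =>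
  (if i = j then 1 else 0) + (F.map fun v => cd v i * cd v j).sum

/-- the first `d` coordinates as real numbers -/
def rv (d : ℕ) (v : List ℤ) : Fin d → ℝ := fun i => (cd v i : ℝ)

/-- The cleaned family of the vectors `H u` for all points `u`, in real terms: `T` is the set of
the points that are kept and `ψ` is a linear map to euclidean space which turns the quadratic form
into the square of the norm. -/
structure Pack (d β r : ℕ) (H : Pt → List ℤ) (T : Finset (ZMod r × ZMod r × ZMod r))
    (ψ : (Fin d → ℝ) →ₗ[ℝ] EuclideanSpace ℝ (Fin d)) : Prop where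
  ne : T.Nonempty
  pos : 0 < (form d ((clean d β ((pts r).map fun u => (u, H u))).map fun p => p.2)).1
  nrm : ∀ v : List ℤ,
    ((qf d (form d ((clean d β ((pts r).map fun u => (u, H u))).map fun p => p.2)).2 v : ℤ) : ℝ) =
      ((form d ((clean d β ((pts r).map fun u => (u, H u))).map fun p => p.2)).1 : ℝ) *
        ‖ψ (rv d v)‖ ^ 2
  small : ∀ u ∈ T, (r : ℝ) ^ 3 * ‖ψ (rv d (H (toPt u)))‖ ^ 2 ≤ β
  dual : ∀ w : Fin d → ℝ, ∃ a : EuclideanSpace ℝ (Fin d),
    (∀ z, inner ℝ a (ψ z) = ∑ i, w i * z i) ∧
      ‖a‖ ^ 2 = ∑ i, w i ^ 2 + ∑ u ∈ T, (∑ i, w i * rv d (H (toPt u)) i) ^ 2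
  sum : ∀ f : Pt → List ℤ → EuclideanSpace ℝ (Fin d),
    ((clean d β ((pts r).map fun u => (u, H u))).map fun p => f p.1 p.2).sum =
      ∑ u ∈ T, f (toPt u) (H (toPt u))

open Classical in
/-- the vectors of the points that are kept -/
noncomputable def yv (d r : ℕ) (H : Pt → List ℤ) (T : Finset (ZMod r × ZMod r × ZMod r))
    (ψ : (Fin d → ℝ) →ₗ[ℝ] EuclideanSpace ℝ (Fin d)) (u : ZMod r × ZMod r × ZMod r) :
    EuclideanSpace ℝ (Fin d) :=
  if u ∈ T then ψ (rv d (H (toPt u))) else 0

end Pool.Agent.W_d799b0_h54
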