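import Pool.Agent.W_d799b0_h54.ZDiv
import Pool.Agent.W_d799b0_h54.VDefs
import Pool.Agent.W_d799b0_h82.PFunL

/-!
# Polynomial time: sums, scalar products, quadratic forms

PROOF of `PF.zsum`: `List.sum` is a fold; the partial sums satisfy
`|sum l'| ≤ (length l) * 2 ^ (sz l)`, so `Nat.size |sum l'| ≤ 2 * sz l + 1` (`size_le_sz_int`,
`sz_mem`, `sz_int`); use `PF.foldl'` (state `ℤ`, bound by `sz_int`), or `pf_foldl_add`:
every step adds at most `Nat.size`: `Nat.size |s + a| ≤ max (size s) (size a) + 1`. (The sum of the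
list as `foldl`: `List.sum_eq_foldl` or `List.foldl_eq_foldr`/`List.sum_eq_foldr`.)
`cd`: `pf_getD` with default `0`. The others: `PF.map`, `PF.range`, `PF.zsum`, with explicit
`(g := fun c i => ...)`.
-/

set_option autoImplicit false

namespace Pool.Agent.PolyTime

open Function
open Pool.Agent.W_d799b0_h82 (Bn Pt Seed)

variable {γ : Type} [ToD γ]

private theorem ZSum_lt (l : List ℤ) : l.sum.natAbs < 2 ^ sz l := by
  induction l with
  | nil => simp
  | cons a l ih =>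
    rw [List.sum_cons, sz_cons]
    have h1 : a.natAbs < 2 ^ sz a :=
      (Nat.lt_size_self _).trans_le (Nat.pow_le_pow_right (by norm_num) (size_le_sz_int a))
    have h2 := Int.natAbs_add_le a l.sum
    have h3 : 2 ^ sz a ≤ 2 ^ (sz a + sz l) := Nat.pow_le_pow_right (by norm_num) (by omega)
    have h4 : 2 ^ sz l ≤ 2 ^ (sz a + sz l) := Nat.pow_le_pow_right (by norm_num) (by omega)
    rw [pow_succ]
    omega

private theorem ZSum_foldl (l : List ℤ) (s : ℤ) : l.foldl (fun s a => s + a) s = s + l.sum := by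
  induction l generalizing s with
  | nil => simp
  | cons a l ih => rw [List.foldl_cons, ih, List.sum_cons, add_assoc]

theorem PF.zsum {l : γ → List ℤ} (hl : PF l) : PF (fun c => (l c).sum) := by
  obtain ⟨P, hP⟩ := hl.bound
  have h : PF (fun c => (l c).foldl (fun s a => s + a) 0) := by
    refine PF.foldl' (f := fun _ s a => s + a) (PF.id'.fst.snd.zadd PF.id'.snd) (PF.const 0) hl
      (4 * P + 5) ?_
    intro c l' hl'
    rw [ZSum_foldl, zero_add]
    have h1 := sz_int l'.sum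
    have h2 : Nat.size l'.sum.natAbs ≤ sz l' := Nat.size_le.2 (ZSum_lt l')
    have h3 := sz_prefix hl'
    have h4 := hP c
    simp only [Polynomial.eval_add, Polynomial.eval_mul, Polynomial.eval_ofNat]
    omega
  exact h.cast (fun c => by rw [ZSum_foldl, zero_add])

theorem PF.cd {v : γ → List ℤ} {i : γ → ℕ} (hv : PF v) (hi : PF i) :
    PF (fun c => W_d799b0_h54.cd (v c) (i c)) := by
  unfold W_d799b0_h54.cd
  exact W_d799b0_h82.pf_getD hi (PF.const 0) hv

theorem PF.dotZ {d : γ → ℕ} {u v : γ → List ℤ} (hd : PF d) (hu : PF u) (hv : PF v) :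
    PF (fun c => W_d799b0_h54.dotZ (d c) (u c) (v c)) := by
  unfold W_d799b0_h54.dotZ
  exact PF.zsum (PF.map (g := fun c i => W_d799b0_h54.cd (u c) i * W_d799b0_h54.cd (v c) i)
    ((PF.cd (hu.comp PF.fst') PF.snd').zmul (PF.cd (hv.comp PF.fst') PF.snd')) hd.range)

theorem PF.mulV {d : γ → ℕ} {N : γ → List (List ℤ)} {v : γ → List ℤ} (hd : PF d) (hN : PF N)
    (hv : PF v) : PF (fun c => W_d799b0_h54.mulV (d c) (N c) (v c)) := by
  unfold W_d799b0_h54.mulV
  exact PF.map (g := fun c i => W_d799b0_h54.dotZ (d c) ((N c).getD i []) (v c))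
    (PF.dotZ (hd.comp PF.fst') (W_d799b0_h82.pf_getD PF.snd' (PF.const []) (hN.comp PF.fst'))
      (hv.comp PF.fst')) hd.range

theorem PF.qf {d : γ → ℕ} {N : γ → List (List ℤ)} {v : γ → List ℤ} (hd : PF d) (hN : PF N)
    (hv : PF v) : PF (fun c => W_d799b0_h54.qf (d c) (N c) (v c)) := by
  unfold W_d799b0_h54.qf
  exact PF.dotZ hd hv (PF.mulV hd hN hv)

theorem PF.upd {d : γ → ℕ} {s : γ → ℤ × List (List ℤ)} {v : γ → List ℤ} (hd : PF d) (hs : PF s)
    (hv : PF v) : PF (fun c => W_d799b0_h54.upd (d c) (s c) (v c)) := by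
  unfold W_d799b0_h54.upd
  refine (hs.fst.zadd (PF.qf hd hs.snd hv)).pair ?_
  have hq : PF (fun c => (s c).1 + W_d799b0_h54.qf (d c) (s c).2 (v c)) :=
    hs.fst.zadd (PF.qf hd hs.snd hv)
  have hm : PF (fun c => W_d799b0_h54.mulV (d c) (s c).2 (v c)) := PF.mulV hd hs.snd hv
  have h1 : PF (fun x : γ × ℕ => x.1) := PF.fst'
  have h2 : PF (fun x : (γ × ℕ) × ℕ => x.1.1) := PF.fst'.fst
  refine PF.map (g := fun c i => (List.range (d c)).map fun j =>
    (((s c).1 + W_d799b0_h54.qf (d c) (s c).2 (v c)) * W_d799b0_h54.cd ((s c).2.getD i []) j -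
      W_d799b0_h54.cd (W_d799b0_h54.mulV (d c) (s c).2 (v c)) i *
        W_d799b0_h54.cd (W_d799b0_h54.mulV (d c) (s c).2 (v c)) j).tdiv (s c).1) ?_ hd.range
  refine PF.map (g := fun (x : γ × ℕ) j =>
    (((s x.1).1 + W_d799b0_h54.qf (d x.1) (s x.1).2 (v x.1)) *
        W_d799b0_h54.cd ((s x.1).2.getD x.2 []) j -
      W_d799b0_h54.cd (W_d799b0_h54.mulV (d x.1) (s x.1).2 (v x.1)) x.2 *
        W_d799b0_h54.cd (W_d799b0_h54.mulV (d x.1) (s x.1).2 (v x.1)) j).tdiv (s x.1).1) ?_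
    (hd.comp h1).range
  exact PF.ztdiv (PF.zsub
    (PF.zmul (hq.comp h2) (PF.cd (W_d799b0_h82.pf_getD PF.fst'.snd (PF.const []) (hs.snd.comp h2))
      PF.snd'))
    (PF.zmul (PF.cd (hm.comp h2) PF.fst'.snd) (PF.cd (hm.comp h2) PF.snd'))) (hs.fst.comp h2)

theorem PF.idM {d : γ → ℕ} (hd : PF d) : PF (fun c => W_d799b0_h54.idM (d c)) := by
  unfold W_d799b0_h54.idM
  have h1 : PF (fun x : γ × ℕ => x.1) := PF.fst'
  refine PF.map (g := fun c i => (List.range (d c)).map fun j => if i = j then (1 : ℤ) else 0) ?_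
    hd.range
  refine PF.map (g := fun (x : γ × ℕ) j => if x.2 = j then (1 : ℤ) else 0) ?_
    (hd.comp h1).range
  refine ((PF.fst'.snd.natEq PF.snd').ite (PF.const (1 : ℤ)) (PF.const (0 : ℤ))).cast
    (fun x => ?_)
  by_cases h : x.1.2 = x.2 <;> simp [h]

theorem PF.vsum {d : γ → ℕ} {L : γ → List (List ℤ)} (hd : PF d) (hL : PF L) :
    PF (fun c => W_d799b0_h54.vsum (d c) (L c)) := by
  unfold W_d799b0_h54.vsum
  refine PF.map (g := fun c i => ((L c).map fun v => W_d799b0_h54.cd v i).sum) ?_ hd.range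
  refine PF.zsum (PF.map (g := fun (x : γ × ℕ) v => W_d799b0_h54.cd v x.2) ?_
    (hL.comp PF.fst'))
  exact PF.cd PF.snd' PF.fst'.snd

theorem PF.comb {d : γ → ℕ} {a b : γ → ℤ} {u v : γ → List ℤ} (hd : PF d) (ha : PF a)
    (hb : PF b) (hu : PF u) (hv : PF v) :
    PF (fun c => W_d799b0_h54.comb (d c) (a c) (b c) (u c) (v c)) := by
  unfold W_d799b0_h54.comb
  refine PF.map (g := fun c i => a c * W_d799b0_h54.cd (u c) i - b c * W_d799b0_h54.cd (v c) i) ?_
    hd.range
  exact PF.zsub (PF.zmul (ha.comp PF.fst') (PF.cd (hu.comp PF.fst') PF.snd'))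
    (PF.zmul (hb.comp PF.fst') (PF.cd (hv.comp PF.fst') PF.snd'))

end Pool.Agent.PolyTime
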