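import Pool.Agent.W_d799b0_h82.UsedA
import Pool.Agent.W_d799b0_h82.SmallA

/-!
# The algorithm with arbitrary tests

The same algorithm as in `W_d799b0_h82/Alg.lean`, where the accuracy test for seeds is replaced by
an arbitrary test `acc E ph σ s` and the filter of the small search by an arbitrary test
`kp E ph i0 b0 j v` (`j` = length of `v`).
-/

set_option autoImplicit false

namespace Pool.Agent.W_d799b0_h54

open Pool.Agent.W_d799b0_h82

/-- a test for seeds -/
abbrev Acc := Env → List (List Seed) → List Seed → Seed → Bool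

/-- a test for prefixes -/
abbrev Kp := Env → List (List Seed) → ℕ → ℕ → ℕ → List Bool → Bool

section

variable (V : List Bool → List Bool → Bool) (acc : Acc) (kp : Kp)

/-- the seed `s` may be used -/
def goodSeedG (E : Env) (ph : List (List Seed)) (σ : List Seed) (s : Seed) : Bool :=
  distOK (eR E) (eW E) σ s && acc E ph σ s

/-- the first seed that may be used -/
def pickSeedG (E : Env) (ph : List (List Seed)) (σ : List Seed) : Seed :=
  ((seeds (eR E)).filter (goodSeedG acc E ph σ)).headD (zpt, zpt)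

/-- one step of the search -/
def stepSG (E : Env) (ph : List (List Seed)) (i0 b0 : ℕ) (L : List (List Bool)) (j : ℕ) :
    List (List Bool) :=
  ((extL L).filter (kp E ph i0 b0 (j + 1))).take (8 * eK E ^ 4)

/-- the candidates -/
def searchSG (E : Env) (ph : List (List Seed)) (i0 b0 : ℕ) : List (List Bool) :=
  (List.range (eN E)).foldl (stepSG kp E ph i0 b0) [[]]

/-- the small search finds a witness -/
def smallG (E : Env) (ph : List (List Seed)) : Bool :=
  (List.range (eR E)).any fun i0 => (List.range (eR E)).any fun b0 =>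
    (searchSG kp E ph i0 b0).any fun v => V (eX E) v

/-- One step of the main loop. -/
def stepG (E : Env) (s : St) : St :=
  if s.2.2.2 = 0 then s else
    if (s.2.2.1 ++ [pickSeedG acc E s.2.1 s.2.2.1]).length = s.2.2.2 then
      (s.1 || smallG V kp E (s.2.2.1 :: s.2.1),
        ((s.2.2.1 ++ [pickSeedG acc E s.2.1 s.2.2.1]) :: s.2.1, ([], s.2.2.2 / 2)))
    else
      (s.1 || smallG V kp E (s.2.2.1 :: s.2.1),
        (s.2.1, (s.2.2.1 ++ [pickSeedG acc E s.2.1 s.2.2.1], s.2.2.2)))

/-- The main loop. -/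
def loopG (E : Env) : St := (stepG V acc kp E)^[2 * eM E] (false, ([], ([], eM E)))

/-- The algorithm. -/
def runG (E : Env) : Bool := (loopG V acc kp E).1 || smallG V kp E (loopG V acc kp E).2.1

end

/-- What is needed of the tests. -/
structure GoodT (V : List Bool → List Bool → Bool) (acc : Acc) (kp : Kp) (E : Env) : Prop where
  seed : ∀ ph σ m, SInv E ph σ m → ∃ s ∈ seeds (eR E), goodSeedG acc E ph σ s = true
  large : ∀ ph σ m, SInv E ph σ m → w0 E ≤ (DD V E ph σ).ncard →
    ∀ s ∈ seeds (eR E), goodSeedG acc E ph σ s = true → (DD V E ph (σ ++ [s])).Nonempty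
  surv : ∀ ph i0 b0, b0 < eR E →
    (∀ j ≤ eN E, ∀ u, PtLt (eR E) u → Used E (instS E ph i0 b0 j u)) →
    ∀ a ∈ D0 V E ph, bB (eR E) a i0 = b0 →
      (∀ B0 ∈ D0 V E ph, bB (eR E) B0 i0 = b0 → B0 = a) →
      ∀ j ≤ eN E, kp E ph i0 b0 j (a.take j) = true
  few : ∀ ph i0 b0 j, j ≤ eN E → (∀ u, PtLt (eR E) u → Used E (instS E ph i0 b0 j u)) →
    ∀ Vs : Finset (List Bool), (∀ v ∈ Vs, v.length = j) →
      (∀ v ∈ Vs, kp E ph i0 b0 j v = true) → Vs.card ≤ 8 * eK E ^ 4

end Pool.Agent.W_d799b0_h54
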