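import Pool.Agent.W_d799b0_h42.AlgP4
import Pool.Agent.W_d799b0_h54.AlgG

/-! The algorithm with arbitrary tests runs in polynomial time if the tests do. The proofs are those
of `W_d799b0_h42/AlgP2.lean` to `AlgP4.lean`. -/

set_option autoImplicit false
set_option linter.unusedSectionVars false

namespace Pool.Agent.W_d799b0_h54

open Turing Function
open Pool.Agent.PolyTime
open Pool.Agent.W_d799b0_h82 (Bn Pt Seed Test Hd Inst Query Env St zpt)

/-- the accuracy test is computable in polynomial time -/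
abbrev PAcc (acc : Acc) : Prop :=
  PF (fun x : Env × (List (List Seed) × (List Seed × Seed)) => acc x.1 x.2.1 x.2.2.1 x.2.2.2)

/-- the filter is computable in polynomial time -/
abbrev PKp (kp : Kp) : Prop :=
  PF (fun x : Env × (List (List Seed) × (ℕ × (ℕ × (ℕ × List Bool)))) =>
    kp x.1 x.2.1 x.2.2.1 x.2.2.2.1 x.2.2.2.2.1 x.2.2.2.2.2)

section

variable {γ : Type} [ToD γ] {acc : Acc} {kp : Kp}

theorem PF.goodSeedG (ha : PAcc acc) {E : γ → Env}
    {ph : γ → List (List Seed)} {σ : γ → List Seed} {s : γ → Seed} (hE : PF E) (hph : PF ph)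
    (hσ : PF σ) (hs : PF s) : PF (fun c => W_d799b0_h54.goodSeedG acc (E c) (ph c) (σ c) (s c)) :=
  PF.and (PF.distOK hE.eR hE.eW hσ hs) (PF.comp (f := fun c => (E c, (ph c, (σ c, s c)))) ha
    (hE.pair (hph.pair (hσ.pair hs))))

theorem PF.pickSeedG (ha : PAcc acc) {E : γ → Env}
    {ph : γ → List (List Seed)} {σ : γ → List Seed} (hE : PF E) (hph : PF ph)
    (hσ : PF σ) : PF (fun c => W_d799b0_h54.pickSeedG acc (E c) (ph c) (σ c)) :=
  PF.headD (PF.filter (g := fun c s => W_d799b0_h54.goodSeedG acc (E c) (ph c) (σ c) s)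
    (PF.goodSeedG ha (hE.comp PF.id'.fst) (hph.comp PF.id'.fst) (hσ.comp PF.id'.fst) PF.id'.snd)
    hE.eR.seeds) (PF.const (zpt, zpt))

theorem PF.stepSG (hk : PKp kp) {E : γ → Env} {ph : γ → List (List Seed)}
    {i0 b0 j : γ → ℕ} {L : γ → List (List Bool)} (hE : PF E) (hph : PF ph) (hi : PF i0)
    (hb : PF b0) (hL : PF L) (hj : PF j) :
    PF (fun c => W_d799b0_h54.stepSG kp (E c) (ph c) (i0 c) (b0 c) (L c) (j c)) := by
  refine PF.take ((PF.const 8).mul (hE.eK.pow 4)) ?_
  refine PF.filter (g := fun c v => kp (E c) (ph c) (i0 c) (b0 c) (j c + 1) v) ?_ hL.extL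
  exact PF.comp (f := fun x : γ × List Bool =>
    (E x.1, (ph x.1, (i0 x.1, (b0 x.1, (j x.1 + 1, x.2)))))) hk
    ((hE.comp PF.id'.fst).pair ((hph.comp PF.id'.fst).pair ((hi.comp PF.id'.fst).pair
      ((hb.comp PF.id'.fst).pair ((hj.comp PF.id'.fst).succ.pair PF.id'.snd)))))

theorem stepSG_fold (kp : Kp) (E : Env) (ph : List (List Seed)) (i0 b0 : ℕ)
    (l : List ℕ) :
    (l.foldl (W_d799b0_h54.stepSG kp E ph i0 b0) [[]]).length ≤ 8 * W_d799b0_h82.eK E ^ 4 + 1 ∧
      ∀ v ∈ l.foldl (W_d799b0_h54.stepSG kp E ph i0 b0) [[]], v.length ≤ l.length := by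
  induction l using List.reverseRecOn with
  | nil => simp
  | append_singleton l j ih =>
    rw [List.foldl_append, List.foldl_cons, List.foldl_nil, List.length_append,
      List.length_singleton]
    generalize l.foldl (W_d799b0_h54.stepSG kp E ph i0 b0) [[]] = L at ih ⊢
    constructor
    · rw [W_d799b0_h54.stepSG]
      refine (List.length_take_le _ _).trans (Nat.le_succ _)
    · intro v hv
      rw [W_d799b0_h54.stepSG] at hv
      have h1 := List.mem_of_mem_take hv
      have h2 := List.mem_of_mem_filter h1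
      rw [W_d799b0_h82.extL, List.mem_flatMap] at h2
      obtain ⟨w, hw, hv2⟩ := h2
      have h3 := ih.2 w hw
      simp only [List.mem_cons, List.not_mem_nil, or_false] at hv2
      rcases hv2 with h | h <;> rw [h] <;> simp <;> omega

theorem PF.searchSG (hk : PKp kp) {E : γ → Env} {ph : γ → List (List Seed)}
    {i0 b0 : γ → ℕ} (hE : PF E) (hph : PF ph) (hi : PF i0) (hb : PF b0) :
    PF (fun c => W_d799b0_h54.searchSG kp (E c) (ph c) (i0 c) (b0 c)) := by
  obtain ⟨P, hP⟩ := ((PF.const 8).mul (hE.eK.pow 4)).bound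
  obtain ⟨Q, hQ⟩ := hE.eN.bound
  refine PF.foldl' (f := fun c L j => W_d799b0_h54.stepSG kp (E c) (ph c) (i0 c) (b0 c) L j)
    (PF.stepSG hk (hE.comp PF.id'.fst.fst) (hph.comp PF.id'.fst.fst) (hi.comp PF.id'.fst.fst)
      (hb.comp PF.id'.fst.fst) PF.id'.fst.snd PF.id'.snd) (PF.const [[]]) hE.eN.range
    ((P + 1) * (Polynomial.C 4 * Q + 2) + 1) ?_
  intro c l' hl'
  have h1 := stepSG_fold kp (E c) (ph c) (i0 c) (b0 c) l'
  rw [show (fun L j => W_d799b0_h54.stepSG kp (E c) (ph c) (i0 c) (b0 c) L j) =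
    W_d799b0_h54.stepSG kp (E c) (ph c) (i0 c) (b0 c) from rfl]
  generalize l'.foldl (W_d799b0_h54.stepSG kp (E c) (ph c) (i0 c) (b0 c)) [[]] = L at h1 ⊢
  have h2 := hP c
  have h3 := hQ c
  have h4 := hl'.length_le
  rw [List.length_range] at h4
  rw [sz_nat] at h2 h3
  have h5 := sz_le_length L (4 * Q.eval (sz c) + 1) (fun v hv => by
    have h6 := sz_bits_le v
    have h7 := h1.2 v hv
    omega)
  refine h5.trans ?_
  have h8 : ((P + 1) * (Polynomial.C 4 * Q + 2) + 1 : Polynomial ℕ).eval (sz c) =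
      (P.eval (sz c) + 1) * (4 * Q.eval (sz c) + 1 + 1) + 1 := by
    simp
  rw [h8]
  have h9 : L.length ≤ P.eval (sz c) + 1 := by
    have := h1.1
    omega
  exact Nat.succ_le_succ (Nat.mul_le_mul_right _ h9)

theorem PF.smallG {V : List Bool → List Bool → Bool}
    (hV : PF (fun x : List Bool × List Bool => V x.1 x.2)) (hk : PKp kp)
    {E : γ → Env} {ph : γ → List (List Seed)} (hE : PF E) (hph : PF ph) :
    PF (fun c => W_d799b0_h54.smallG V kp (E c) (ph c)) := by
  refine PF.any (g := fun c i0 => (List.range (W_d799b0_h82.eR (E c))).any fun b0 =>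
    (W_d799b0_h54.searchSG kp (E c) (ph c) i0 b0).any fun v => V (W_d799b0_h82.eX (E c)) v) ?_
    hE.eR.range
  refine PF.any (γ := γ × ℕ) (g := fun x b0 =>
    (W_d799b0_h54.searchSG kp (E x.1) (ph x.1) x.2 b0).any
      fun v => V (W_d799b0_h82.eX (E x.1)) v) ?_ (hE.comp PF.id'.fst).eR.range
  refine PF.any (γ := (γ × ℕ) × ℕ) (g := fun x v => V (W_d799b0_h82.eX (E x.1.1)) v) ?_
    (PF.searchSG hk (hE.comp PF.id'.fst.fst) (hph.comp PF.id'.fst.fst) PF.id'.fst.snd
      PF.id'.snd)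
  exact PF.comp (g := fun x : List Bool × List Bool => V x.1 x.2) hV
    ((hE.comp PF.id'.fst.fst.fst).eX.pair PF.id'.snd)

theorem PF.stepG {V : List Bool → List Bool → Bool}
    (hV : PF (fun x : List Bool × List Bool => V x.1 x.2)) (ha : PAcc acc) (hk : PKp kp)
    {E : γ → Env} {s : γ → St} (hE : PF E) (hs : PF s) :
    PF (fun c => W_d799b0_h54.stepG V acc kp (E c) (s c)) := by
  have hp : PF (fun c => (s c).2.1) := hs.snd.fst
  have hc : PF (fun c => (s c).2.2.1) := hs.snd.snd.fst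
  have hm : PF (fun c => (s c).2.2.2) := hs.snd.snd.snd
  have hq : PF (fun c => (s c).2.2.1 ++
      [W_d799b0_h54.pickSeedG acc (E c) (s c).2.1 (s c).2.2.1]) :=
    hc.append ((PF.pickSeedG ha hE hp hc).cons (PF.const []))
  have hsm : PF (fun c => ((s c).1 ||
      W_d799b0_h54.smallG V kp (E c) ((s c).2.2.1 :: (s c).2.1) : Bool)) :=
    hs.fst.or (PF.smallG hV hk hE (hc.cons hp))
  have hhalf : PF (fun c => (s c).2.2.2 / 2) :=
    PN.toNat (g := fun c => (s c).2.2.2) (PN.half (PN.ofNat hm)) hm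
      (fun c => Nat.div_le_self _ _)
  have h := PF.ite (hm.natEq (PF.const 0)) hs (PF.ite (hq.length.natEq hm)
    (hsm.pair ((hq.cons hp).pair ((PF.const ([] : List Seed)).pair hhalf)))
    (hsm.pair (hp.pair (hq.pair hm))))
  refine h.cast (fun c => ?_)
  rw [W_d799b0_h54.stepG]
  simp only [decide_eq_true_eq]

theorem stepG_size (V : List Bool → List Bool → Bool) (acc : Acc) (kp : Kp) (E : Env) (s : St)
    (A : ℕ) (hA : sz (W_d799b0_h82.seeds (W_d799b0_h82.eR E)) + sz ((zpt, zpt) : Seed) ≤ A) :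
    sz (W_d799b0_h54.stepG V acc kp E s).2 ≤ sz s.2 + A + 3 := by
  have h1 : sz (W_d799b0_h54.pickSeedG acc E s.2.1 s.2.2.1) ≤ A := by
    rw [W_d799b0_h54.pickSeedG]
    cases h : (W_d799b0_h82.seeds (W_d799b0_h82.eR E)).filter
        (W_d799b0_h54.goodSeedG acc E s.2.1 s.2.2.1) with
    | nil =>
      rw [List.headD_nil]
      omega
    | cons a l =>
      rw [List.headD_cons]
      have h2 : a ∈ W_d799b0_h82.seeds (W_d799b0_h82.eR E) :=
        List.mem_of_mem_filter (p := W_d799b0_h54.goodSeedG acc E s.2.1 s.2.2.1) (by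
          rw [h]; exact List.mem_cons_self)
      have h3 := sz_mem h2
      omega
  obtain ⟨f, ph, cur, m⟩ := s
  have h2 : sz (cur ++ [W_d799b0_h54.pickSeedG acc E ph cur]) + 1 =
      sz cur + (sz (W_d799b0_h54.pickSeedG acc E ph cur) + 1 + 1) := by
    rw [sz_append, sz_cons, sz_nil]
  simp only at h1
  rw [W_d799b0_h54.stepG]
  simp only
  split_ifs with h3 h4
  · simp only [sz_pair]
    omega
  · simp only [sz_pair, sz_cons, sz_nil, sz_nat]
    omega
  · simp only [sz_pair]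
    omega

theorem loopG_size (V : List Bool → List Bool → Bool) (acc : Acc) (kp : Kp) (E : Env)
    (A : ℕ) (hA : sz (W_d799b0_h82.seeds (W_d799b0_h82.eR E)) + sz ((zpt, zpt) : Seed) ≤ A)
    (s : St) (i : ℕ) :
    sz ((W_d799b0_h54.stepG V acc kp E)^[i] s) ≤ sz s.2 + 4 + i * (A + 3) := by
  have key : sz ((W_d799b0_h54.stepG V acc kp E)^[i] s).2 ≤ sz s.2 + i * (A + 3) := by
    induction i with
    | zero => simp
    | succ i ih =>
      rw [iterate_succ_apply']
      have h := stepG_size V acc kp E ((W_d799b0_h54.stepG V acc kp E)^[i] s) A hA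
      have h2 : (i + 1) * (A + 3) = i * (A + 3) + (A + 3) := by ring
      omega
  generalize (W_d799b0_h54.stepG V acc kp E)^[i] s = t at key ⊢
  obtain ⟨b, t⟩ := t
  rw [sz_pair]
  have := sz_bool b
  simp only at key
  omega

theorem PF.loopG {V : List Bool → List Bool → Bool}
    (hV : PF (fun x : List Bool × List Bool => V x.1 x.2)) (ha : PAcc acc) (hk : PKp kp)
    {E : γ → Env} (hE : PF E) : PF (fun c => W_d799b0_h54.loopG V acc kp (E c)) := by
  obtain ⟨P, hP⟩ := hE.eR.seeds.bound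
  obtain ⟨Q, hQ⟩ := hE.eM.bound
  obtain ⟨Z, hZ⟩ : ∃ Z, sz ((zpt, zpt) : Seed) = Z := ⟨_, rfl⟩
  refine PF.iter (f := fun c s => W_d799b0_h54.stepG V acc kp (E c) s)
    (PF.stepG hV ha hk (hE.comp PF.id'.fst) PF.id'.snd)
    ((PF.const false).pair ((PF.const []).pair ((PF.const []).pair hE.eM)))
    ((PF.const 2).mul hE.eM) (Q + 8 + Polynomial.C 2 * Q * (P + Polynomial.C Z + 3)) ?_
  intro c i hi
  have h1 := loopG_size V acc kp (E c) (P.eval (sz c) + Z) (by
    have := hP c
    omega) (false, ([], ([], W_d799b0_h82.eM (E c)))) i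
  refine h1.trans ?_
  have h2 := hQ c
  have h3 : i ≤ 2 * Q.eval (sz c) := by
    rw [sz_nat] at h2
    omega
  have h4 := Nat.mul_le_mul_right (P.eval (sz c) + Z + 3) h3
  have h5 : (Q + 8 + Polynomial.C 2 * Q * (P + Polynomial.C Z + 3) : Polynomial ℕ).eval (sz c) =
      Q.eval (sz c) + 8 + 2 * Q.eval (sz c) * (P.eval (sz c) + Z + 3) := by
    simp
  rw [h5]
  simp only [sz_pair, sz_nil]
  omega

/-- **The algorithm runs in polynomial time.** -/
theorem PF.runG {V : List Bool → List Bool → Bool}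
    (hV : PF (fun x : List Bool × List Bool => V x.1 x.2)) (ha : PAcc acc) (hk : PKp kp)
    {E : γ → Env} (hE : PF E) : PF (fun c => W_d799b0_h54.runG V acc kp (E c)) :=
  PF.or (PF.loopG hV ha hk hE).fst (PF.smallG hV hk hE (PF.loopG hV ha hk hE).snd.fst)

end

end Pool.Agent.W_d799b0_h54
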