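import Pool.Agent.W_d799b0_h82.CountB1
import Pool.Agent.W_d799b0_h82.CountB2

/-!
# Pairwise independent samples of vectors

PROOF. `sample_varR`: as `sample_var` (CountB1) with real-valued functions (`sb_one`, `sb_two` for
the reals). `sample_varV`: apply it to the coordinates `fun u => (y u) i` in
`EuclideanSpace ℝ (Fin d)` and sum over `i` (`EuclideanSpace.norm_sq_eq`).
`exists_seedV`: `r = card F`, `n = r ^ 3`, `w = card L`. As in `exists_seed` (CountB3) at most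
`r ^ 6 / 8 + r ^ 6 / 8` seeds violate the first two conditions (`bad_eval`, `bad_mult`). If `s`
violates the last one then `64 β ‖X s‖² > n w²`, and `∑ s ‖X s‖² ≤ r ^ 9 w ∑ ‖y u‖² ≤ r ^ 9 w β`
(`hy`), so their number is at most `64 β² r ^ 9 w / (n w²) = 64 β² r ^ 6 / w ≤ r ^ 6 / 4`.
-/

set_option autoImplicit false

open Finset

namespace Pool.Agent.W_d799b0_h54

open Pool.Agent.W_d799b0_h82

variable {F : Type} [Field F] [Fintype F] [DecidableEq F]

theorem sbR_one (g : F × F × F → ℝ) (l : F) :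
    ∑ s : (F × F × F) × (F × F × F), g (s.1 + l • s.2)
      = (Fintype.card F : ℝ) ^ 3 * ∑ u, g u := by
  rw [Fintype.sum_prod_type_right]
  have h : ∀ β : F × F × F, ∑ α : F × F × F, g (α + l • β) = ∑ u, g u := fun β =>
    Fintype.sum_equiv (Equiv.addRight (l • β)) _ _ (fun α => rfl)
  simp only [h, Finset.sum_const, Finset.card_univ, sb_card, nsmul_eq_mul]
  push_cast; ring

theorem sbR_two (g g' : F × F × F → ℝ) (l l' : F) (h : l ≠ l') :
    ∑ s : (F × F × F) × (F × F × F), g (s.1 + l • s.2) * g' (s.1 + l' • s.2)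
      = (∑ u, g u) * ∑ u, g' u := by
  rw [Finset.sum_mul_sum, ← Fintype.sum_prod_type']
  exact Fintype.sum_equiv (sbEquiv l l' h) _ _ (fun s => rfl)

theorem sample_varR (h : F × F × F → ℝ) (L : Finset F) :
    ∑ s : (F × F × F) × (F × F × F),
      ((Fintype.card F : ℝ) ^ 3 * ∑ l ∈ L, h (s.1 + l • s.2) - L.card * ∑ u, h u) ^ 2 ≤
      (Fintype.card F : ℝ) ^ 9 * L.card * ∑ u, h u ^ 2 := by
  classical
  set H := ∑ u, h u with hH
  set r : ℕ := Fintype.card F with hr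
  let g : F × F × F → ℝ := fun u => r ^ 3 * h u - H
  have hcardU : Fintype.card (F × F × F) = r ^ 3 := sb_card
  have hg0 : ∑ u, g u = 0 := by
    simp only [g]
    rw [Finset.sum_sub_distrib, ← Finset.mul_sum, Finset.sum_const, Finset.card_univ, hcardU,
      nsmul_eq_mul, ← hH]
    push_cast; ring
  have hg2 : ∑ u, g u * g u ≤ r ^ 6 * ∑ u, h u ^ 2 := by
    have h1 : ∀ u, g u * g u = r ^ 6 * h u ^ 2 - 2 * r ^ 3 * H * h u + H ^ 2 := fun u => by
      simp only [g]; ring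
    simp only [h1]
    rw [Finset.sum_add_distrib, Finset.sum_sub_distrib, ← Finset.mul_sum, ← Finset.mul_sum,
      Finset.sum_const, Finset.card_univ, hcardU, nsmul_eq_mul, ← hH]
    have h2 : 0 ≤ (r : ℝ) ^ 3 * H ^ 2 := by positivity
    push_cast
    nlinarith
  have hre : ∀ s : (F × F × F) × (F × F × F),
      (r : ℝ) ^ 3 * ∑ l ∈ L, h (s.1 + l • s.2) - L.card * H = ∑ l ∈ L, g (s.1 + l • s.2) := by
    intro s
    simp only [g]
    rw [Finset.sum_sub_distrib, ← Finset.mul_sum, Finset.sum_const, nsmul_eq_mul]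
  simp only [hre]
  have hsq : ∀ s : (F × F × F) × (F × F × F), (∑ l ∈ L, g (s.1 + l • s.2)) ^ 2
      = ∑ l ∈ L, ∑ l' ∈ L, g (s.1 + l • s.2) * g (s.1 + l' • s.2) := by
    intro s; rw [sq, Finset.sum_mul_sum]
  simp only [hsq]
  rw [Finset.sum_comm]
  have h3 : ∀ l ∈ L, ∑ s : (F × F × F) × (F × F × F), ∑ l' ∈ L,
      g (s.1 + l • s.2) * g (s.1 + l' • s.2) ≤ r ^ 3 * (r ^ 6 * ∑ u, h u ^ 2) := by
    intro l hl
    rw [Finset.sum_comm]
    have h4 : ∀ l' ∈ L, ∑ s : (F × F × F) × (F × F × F),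
        g (s.1 + l • s.2) * g (s.1 + l' • s.2)
        = if l' = l then (r : ℝ) ^ 3 * ∑ u, g u * g u else 0 := by
      intro l' hl'
      by_cases e : l' = l
      · subst e
        rw [if_pos rfl]
        exact sbR_one (fun u => g u * g u) l'
      · rw [if_neg e, sbR_two g g l l' (fun e' => e e'.symm), hg0, zero_mul]
    rw [Finset.sum_congr rfl h4, Finset.sum_ite_eq' L l, if_pos hl]
    exact mul_le_mul_of_nonneg_left hg2 (by positivity)
  refine (Finset.sum_le_sum h3).trans ?_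
  rw [Finset.sum_const, nsmul_eq_mul]
  have : (L.card : ℝ) * (r ^ 3 * (r ^ 6 * ∑ u, h u ^ 2))
      = r ^ 9 * L.card * ∑ u, h u ^ 2 := by ring
  rw [this]

theorem sample_varV {d : ℕ} (y : F × F × F → EuclideanSpace ℝ (Fin d)) (L : Finset F) :
    ∑ s : (F × F × F) × (F × F × F),
      ‖(Fintype.card F : ℝ) ^ 3 • ∑ l ∈ L, y (s.1 + l • s.2) -
        (L.card : ℝ) • ∑ u, y u‖ ^ 2 ≤
      (Fintype.card F : ℝ) ^ 9 * L.card * ∑ u, ‖y u‖ ^ 2 := by
  have h1 : ∀ s : (F × F × F) × (F × F × F),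
      ‖(Fintype.card F : ℝ) ^ 3 • ∑ l ∈ L, y (s.1 + l • s.2) -
        (L.card : ℝ) • ∑ u, y u‖ ^ 2 = ∑ i : Fin d, ((Fintype.card F : ℝ) ^ 3 *
          ∑ l ∈ L, y (s.1 + l • s.2) i - L.card * ∑ u, y u i) ^ 2 := by
    intro s
    rw [EuclideanSpace.norm_sq_eq]
    refine Finset.sum_congr rfl fun i _ => ?_
    rw [Real.norm_eq_abs, sq_abs]
    congr 1
    simp only [PiLp.sub_apply, PiLp.smul_apply, WithLp.ofLp_sum, Finset.sum_apply, smul_eq_mul]
  simp only [h1]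
  rw [Finset.sum_comm]
  refine (Finset.sum_le_sum fun i _ => sample_varR (fun u => y u i) L).trans (le_of_eq ?_)
  rw [← Finset.mul_sum, Finset.sum_comm]
  congr 1
  refine Finset.sum_congr rfl fun u _ => ?_
  rw [EuclideanSpace.norm_sq_eq]
  refine Finset.sum_congr rfl fun i _ => ?_
  rw [Real.norm_eq_abs, sq_abs]

/-- There is a seed with new evaluation points and nonvanishing multipliers for which the sample
is accurate. -/
theorem exists_seedV {d : ℕ} (y : F × F × F → EuclideanSpace ℝ (Fin d)) (β : ℕ) (hβ : 0 < β)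
    (hy : ∀ u, (Fintype.card F : ℝ) ^ 3 * ‖y u‖ ^ 2 ≤ β) (L U : Finset F)
    (hL : 256 * β ^ 2 ≤ L.card) (h1 : 8 * L.card * U.card ≤ Fintype.card F)
    (h2 : 8 * L.card ≤ Fintype.card F) :
    ∃ s : (F × F × F) × (F × F × F), (∀ l ∈ L, s.1.1 + l * s.2.1 ∉ U) ∧
      (∀ l ∈ L, s.1.2.1 + l * s.2.2.1 ≠ 0) ∧
      64 * (β : ℝ) * ‖(Fintype.card F : ℝ) ^ 3 • ∑ l ∈ L, y (s.1 + l • s.2) -
        (L.card : ℝ) • ∑ u, y u‖ ^ 2 ≤ (Fintype.card F : ℝ) ^ 3 * (L.card : ℝ) ^ 2 := by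
  classical
  obtain ⟨X, hX⟩ : ∃ X : (F × F × F) × (F × F × F) → ℝ, ∀ s, X s =
      ‖(Fintype.card F : ℝ) ^ 3 • ∑ l ∈ L, y (s.1 + l • s.2) - (L.card : ℝ) • ∑ u, y u‖ ^ 2 :=
    ⟨_, fun _ => rfl⟩
  have hvar : ∑ s, X s ≤ (Fintype.card F : ℝ) ^ 9 * L.card * ∑ u, ‖y u‖ ^ 2 := by
    simp only [hX]
    exact sample_varV y L
  simp only [← hX]
  set r : ℕ := Fintype.card F with hr
  have hr0 : 0 < r := Fintype.card_pos
  have ht1 : 0 < L.card := by
    have : 0 < 256 * β ^ 2 := by positivity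
    omega
  set B1 : Finset ((F × F × F) × (F × F × F)) :=
    univ.filter fun s => ∃ l ∈ L, s.1.1 + l * s.2.1 ∈ U with hB1
  set B2 : Finset ((F × F × F) × (F × F × F)) :=
    univ.filter fun s => ∃ l ∈ L, s.1.2.1 + l * s.2.2.1 = 0 with hB2
  set B3 : Finset ((F × F × F) × (F × F × F)) :=
    univ.filter fun s => (r : ℝ) ^ 3 * (L.card : ℝ) ^ 2 < 64 * (β : ℝ) * X s with hB3
  have hb1 : 8 * B1.card ≤ r ^ 6 := by
    calc 8 * B1.card ≤ 8 * (L.card * U.card * r ^ 5) := Nat.mul_le_mul_left _ (bad_eval L U)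
      _ = (8 * L.card * U.card) * r ^ 5 := by ring
      _ ≤ r * r ^ 5 := Nat.mul_le_mul_right _ h1
      _ = r ^ 6 := by ring
  have hb2 : 8 * B2.card ≤ r ^ 6 := by
    calc 8 * B2.card ≤ 8 * (L.card * r ^ 5) := Nat.mul_le_mul_left _ (bad_mult L)
      _ = (8 * L.card) * r ^ 5 := by ring
      _ ≤ r * r ^ 5 := Nat.mul_le_mul_right _ h2
      _ = r ^ 6 := by ring
  have hX0 : ∀ s, 0 ≤ X s := fun s => by
    rw [hX]
    positivity
  have hsum : ∑ u, ‖y u‖ ^ 2 ≤ (β : ℝ) := by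
    have h3 : ∑ u : F × F × F, (r : ℝ) ^ 3 * ‖y u‖ ^ 2 ≤ ∑ _u : F × F × F, (β : ℝ) :=
      Finset.sum_le_sum fun u _ => hy u
    rw [← Finset.mul_sum, Finset.sum_const, Finset.card_univ, sb_card, nsmul_eq_mul] at h3
    push_cast at h3
    exact le_of_mul_le_mul_left h3 (by positivity)
  have hb3 : 4 * B3.card ≤ r ^ 6 := by
    have h3 : (B3.card : ℝ) * ((r : ℝ) ^ 3 * (L.card : ℝ) ^ 2) ≤
        64 * (β : ℝ) * ((r : ℝ) ^ 9 * L.card * β) := by
      calc (B3.card : ℝ) * ((r : ℝ) ^ 3 * (L.card : ℝ) ^ 2)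
          = ∑ _s ∈ B3, (r : ℝ) ^ 3 * (L.card : ℝ) ^ 2 := by
            rw [Finset.sum_const, nsmul_eq_mul]
        _ ≤ ∑ s ∈ B3, 64 * (β : ℝ) * X s :=
            Finset.sum_le_sum fun s hs => (Finset.mem_filter.1 hs).2.le
        _ ≤ ∑ s, 64 * (β : ℝ) * X s :=
            Finset.sum_le_sum_of_subset_of_nonneg (Finset.subset_univ _) fun s _ _ =>
              mul_nonneg (by positivity) (hX0 s)
        _ = 64 * (β : ℝ) * ∑ s, X s := by rw [Finset.mul_sum]
        _ ≤ 64 * (β : ℝ) * ((r : ℝ) ^ 9 * L.card * β) := by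
            refine mul_le_mul_of_nonneg_left (hvar.trans ?_) (by positivity)
            exact mul_le_mul_of_nonneg_left hsum (by positivity)
    have h4 : B3.card * (r ^ 3 * L.card ^ 2) ≤ 64 * β * (r ^ 9 * L.card * β) := by
      exact_mod_cast h3
    have h6 : (4 * B3.card) * (r ^ 3 * L.card ^ 2) ≤ r ^ 6 * (r ^ 3 * L.card ^ 2) := by
      calc (4 * B3.card) * (r ^ 3 * L.card ^ 2) = 4 * (B3.card * (r ^ 3 * L.card ^ 2)) := by ring
        _ ≤ 4 * (64 * β * (r ^ 9 * L.card * β)) := Nat.mul_le_mul_left _ h4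
        _ = (256 * β ^ 2) * (r ^ 9 * L.card) := by ring
        _ ≤ L.card * (r ^ 9 * L.card) := Nat.mul_le_mul_right _ hL
        _ = r ^ 6 * (r ^ 3 * L.card ^ 2) := by ring
    exact Nat.le_of_mul_le_mul_right h6 (by positivity)
  have hcard : (B1 ∪ B2 ∪ B3).card < Fintype.card ((F × F × F) × (F × F × F)) := by
    have h7 : Fintype.card ((F × F × F) × (F × F × F)) = r ^ 6 := by
      simp only [Fintype.card_prod]; ring
    rw [h7]
    have h8 : (B1 ∪ B2 ∪ B3).card ≤ B1.card + B2.card + B3.card :=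
      (Finset.card_union_le _ _).trans (Nat.add_le_add_right (Finset.card_union_le _ _) _)
    have h9 : 0 < r ^ 6 := by positivity
    omega
  obtain ⟨s, hs⟩ : ∃ s, s ∉ B1 ∪ B2 ∪ B3 := by
    by_contra hcon
    push Not at hcon
    have : B1 ∪ B2 ∪ B3 = Finset.univ := Finset.eq_univ_iff_forall.2 hcon
    rw [this, Finset.card_univ] at hcard
    exact lt_irrefl _ hcard
  rw [Finset.mem_union, Finset.mem_union] at hs
  push Not at hs
  obtain ⟨⟨hs1, hs2⟩, hs3⟩ := hs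
  refine ⟨s, fun l hl hm => hs1 ?_, fun l hl hm => hs2 ?_, ?_⟩
  · exact Finset.mem_filter.2 ⟨Finset.mem_univ _, l, hl, hm⟩
  · exact Finset.mem_filter.2 ⟨Finset.mem_univ _, l, hl, hm⟩
  · by_contra hcon
    push Not at hcon
    exact hs3 (Finset.mem_filter.2 ⟨Finset.mem_univ _, hcon⟩)

end Pool.Agent.W_d799b0_h54
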