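import Pool.Agent.W_d799b0_h54.FormS

/-!
# Outlier removal

`form_remove`: by `form_spec` and `MM_perm` the pair `(D, N)` does not depend on the order, so
`form d (l1 ++ v :: l2) = upd d (D0, N0) v` with `(D0, N0) = form d (l1 ++ l2)` (compare entries by
`form_spec` only: `D = det`, `N = adj`). With `q0 = qf N0 v`: `D = D0 + q0`, and
`qf N v = (D q0 - q0^2) / D0 = q0` because `N = (D N0 - y yᵀ) / D0` (exact). So
`D0 = D - qf N v`.
`clean_spec`: let `F_i` be the list after `i` steps (`cstep` with `n = F.length`). If `F_i` contains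
an outlier `v` then `D(F_{i+1}) n = (D(F_i) - qf) n < D(F_i) (n - β)` (`List.exists_of_eraseP`,
`form_remove`). If this happened for all `i < n` then `F_n` would be empty (`List.length_eraseP_of_mem`),
`D(F_n) = 1`, and `n ^ n < 2 ^ β (n - β) ^ n` (`β ≤ n`), but
`(1 - β / n) ^ n ≤ exp (- β) < 2 ^ (- β)` (`Real.add_one_le_exp`, `Real.exp_one_gt_d9`).
So some `F_i`, `i < n`, has no outlier, `cstep` does not change it, and it is not empty
(its length is `n - i`). It is a sublist (`List.eraseP_sublist`).
-/

set_option autoImplicit false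

namespace Pool.Agent.W_d799b0_h54

open Pool.Agent.W_d799b0_h82

open Matrix in
/-- the matrix determinant lemma, for removal of a rank one matrix -/
private theorem CleanA_det (d : ℕ) (M M0 : Matrix (Fin d) (Fin d) ℤ) (x : Fin d → ℤ)
    (h : M.det ≠ 0) (h0 : ∀ i j, M i j = M0 i j + x i * x j) :
    M0.det = M.det - x ⬝ᵥ (M.adjugate *ᵥ x) := by
  have hinj : Function.Injective (Int.castRingHom ℚ) := Int.cast_injective
  apply hinj
  set f := Int.castRingHom ℚ with hf
  have hM : (f.mapMatrix M).det = f M.det := (RingHom.map_det f M).symm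
  have hMne : (f.mapMatrix M).det ≠ 0 := by
    rw [hM]
    intro h1
    exact h (hinj (by simpa using h1))
  have hu : IsUnit (f.mapMatrix M).det := isUnit_iff_ne_zero.mpr hMne
  have hM0 : f.mapMatrix M0 = f.mapMatrix M +
      replicateCol Unit (fun i => - f (x i)) * replicateRow Unit (fun i => f (x i)) := by
    ext i j
    simp only [RingHom.mapMatrix_apply, Matrix.map_apply, Matrix.add_apply, Matrix.mul_apply,
      replicateCol_apply, replicateRow_apply, Finset.univ_unique, Finset.sum_singleton, h0 i j,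
      map_add, map_mul]
    ring
  have key := det_add_replicateCol_mul_replicateRow (ι := Unit) hu (fun i => - f (x i))
    (fun i => f (x i))
  rw [← hM0] at key
  rw [RingHom.map_det, key]
  have hinv : (f.mapMatrix M)⁻¹ = (f M.det)⁻¹ • (f.mapMatrix M.adjugate) := by
    rw [Matrix.inv_def, hM, RingHom.map_adjugate, Ring.inverse_eq_inv']
  have hne : f M.det ≠ 0 := by rw [← hM]; exact hMne
  have hd : (1 + replicateRow Unit (fun i => f (x i)) * (f.mapMatrix M)⁻¹ *
      replicateCol Unit (fun i => - f (x i)) : Matrix Unit Unit ℚ).det =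
      1 - (f M.det)⁻¹ * f (x ⬝ᵥ (M.adjugate *ᵥ x)) := by
    rw [hinv, Matrix.det_unique, Matrix.add_apply, Matrix.one_apply_eq, Matrix.mul_assoc,
      Matrix.mul_apply, sub_eq_add_neg]
    congr 1
    simp only [Matrix.mul_apply, replicateRow_apply,
      replicateCol_apply, Matrix.smul_apply, RingHom.mapMatrix_apply, Matrix.map_apply, smul_eq_mul,
      dotProduct, mulVec, map_sum, map_mul, Finset.mul_sum, ← Finset.sum_neg_distrib]
    refine Finset.sum_congr rfl fun i _ => Finset.sum_congr rfl fun j _ => ?_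
    ring
  rw [hd, hM, map_sub, mul_sub, mul_one, ← mul_assoc, mul_inv_cancel₀ hne, one_mul]

theorem form_remove (d : ℕ) (l1 l2 : List (List ℤ)) (v : List ℤ) :
    (form d (l1 ++ l2)).1 =
      (form d (l1 ++ v :: l2)).1 - qf d (form d (l1 ++ v :: l2)).2 v := by
  rw [(form_spec d (l1 ++ l2)).1, (form_spec d (l1 ++ v :: l2)).1,
    qf_eq d _ _ (form_spec d (l1 ++ v :: l2)).2 v]
  apply CleanA_det
  · exact (MM_det_pos d _).ne'
  · intro i j
    have hp : (l1 ++ v :: l2).Perm ((l1 ++ l2) ++ [v]) :=
      List.perm_middle.trans (List.perm_append_singleton v (l1 ++ l2)).symm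
    rw [MM_perm d hp, MM_append]

theorem form_pos (d : ℕ) (F : List (List ℤ)) : 0 < (form d F).1 := by
  rw [(form_spec d F).1]
  exact MM_det_pos d F

private theorem CleanA_out (d β n : ℕ) (F : List (Pt × List ℤ))
    (h : ∃ p ∈ F, outl d β n (form d (F.map fun p => p.2)) p.2 = true) :
    (cstep d β n F).length + 1 = F.length ∧
      (n : ℤ) * (form d ((cstep d β n F).map fun p => p.2)).1 ≤
        ((n : ℤ) - β) * (form d (F.map fun p => p.2)).1 := by
  obtain ⟨p, hp, ho⟩ := h
  obtain ⟨a, l1, l2, -, ha, hF, hE⟩ :=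
    List.exists_of_eraseP (p := fun p => outl d β n (form d (F.map fun p => p.2)) p.2) hp ho
  have hc : cstep d β n F = l1 ++ l2 := hE
  rw [hc]
  constructor
  · rw [hF]; simp; omega
  · have hr := form_remove d (l1.map fun p => p.2) (l2.map fun p => p.2) a.2
    have hm : (F.map fun p => p.2) = (l1.map fun p => p.2) ++ a.2 :: (l2.map fun p => p.2) := by
      rw [hF]; simp
    rw [← hm] at hr
    rw [List.map_append, hr]
    have ha' : (β : ℤ) * (form d (F.map fun p => p.2)).1 <
        n * qf d (form d (F.map fun p => p.2)).2 a.2 := by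
      simpa [outl] using ha
    linarith [ha', mul_sub (n : ℤ) (form d (F.map fun p => p.2)).1
      (qf d (form d (F.map fun p => p.2)).2 a.2), sub_mul (n : ℤ) (β : ℤ)
      (form d (F.map fun p => p.2)).1]

private theorem CleanA_num (n β : ℕ) (hβ : 0 < β) (hβn : β ≤ n) :
    (2 : ℤ) ^ β * ((n : ℤ) - β) ^ n < (n : ℤ) ^ n := by
  have hn : (0 : ℝ) < n := by exact_mod_cast lt_of_lt_of_le hβ hβn
  have h1 : ((n : ℝ) - β) ^ n ≤ (n : ℝ) ^ n * Real.exp (-(β : ℝ)) := by
    have h2 : (1 : ℝ) - (β : ℝ) / n ≤ Real.exp (-((β : ℝ) / n)) := by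
      have := Real.add_one_le_exp (-((β : ℝ) / n))
      linarith
    have h3 : (0 : ℝ) ≤ 1 - (β : ℝ) / n := by
      rw [sub_nonneg, div_le_one hn]
      exact_mod_cast hβn
    have h4 := pow_le_pow_left₀ h3 h2 n
    rw [← Real.exp_nat_mul] at h4
    have h5 : (n : ℝ) * -((β : ℝ) / n) = -(β : ℝ) := by field_simp
    rw [h5] at h4
    have h6 : ((n : ℝ) - β) ^ n = (n : ℝ) ^ n * (1 - (β : ℝ) / n) ^ n := by
      rw [← mul_pow]; congr 1; field_simp
    rw [h6]
    exact mul_le_mul_of_nonneg_left h4 (by positivity)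
  have h7 : (2 : ℝ) ^ β < Real.exp (β : ℝ) := by
    have h8 : (2 : ℝ) < Real.exp 1 := by linarith [Real.exp_one_gt_d9]
    have h9 : Real.exp (β : ℝ) = Real.exp 1 ^ β := by
      rw [← Real.exp_nat_mul, mul_one]
    rw [h9]
    exact pow_lt_pow_left₀ h8 (by norm_num) hβ.ne'
  have h10 : (2 : ℝ) ^ β * Real.exp (-(β : ℝ)) < 1 := by
    rw [Real.exp_neg, ← div_eq_mul_inv, div_lt_one (Real.exp_pos _)]
    exact h7
  have h11 : (2 : ℝ) ^ β * ((n : ℝ) - β) ^ n < (n : ℝ) ^ n := by
    calc (2 : ℝ) ^ β * ((n : ℝ) - β) ^ n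
        ≤ (2 : ℝ) ^ β * ((n : ℝ) ^ n * Real.exp (-(β : ℝ))) :=
          mul_le_mul_of_nonneg_left h1 (by positivity)
      _ = (n : ℝ) ^ n * ((2 : ℝ) ^ β * Real.exp (-(β : ℝ))) := by ring
      _ < (n : ℝ) ^ n * 1 := mul_lt_mul_of_pos_left h10 (by positivity)
      _ = (n : ℝ) ^ n := mul_one _
  exact_mod_cast h11

theorem clean_spec (d β : ℕ) (F : List (Pt × List ℤ)) (hβ : 0 < β) (hβn : β ≤ F.length)
    (hD : (form d (F.map fun p => p.2)).1 ≤ 2 ^ β) :
    (clean d β F).Sublist F ∧ clean d β F ≠ [] ∧
      ∀ p ∈ clean d β F, (F.length : ℤ) * qf d (form d ((clean d β F).map fun p => p.2)).2 p.2 ≤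
        β * (form d ((clean d β F).map fun p => p.2)).1 := by
  set n := F.length with hn
  have hcl : clean d β F = (cstep d β n)^[n] F := rfl
  have hsub : ∀ i, ((cstep d β n)^[i] F).Sublist F := by
    intro i
    induction i with
    | zero => exact List.Sublist.refl _
    | succ i ih =>
      rw [Function.iterate_succ_apply']
      exact (List.eraseP_sublist ..).trans ih
  have hlen : ∀ i, n ≤ ((cstep d β n)^[i] F).length + i := by
    intro i
    induction i with
    | zero => simp [hn]
    | succ i ih =>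
      rw [Function.iterate_succ_apply']
      have h1 : ((cstep d β n)^[i] F).length ≤
          (cstep d β n ((cstep d β n)^[i] F)).length + 1 := by
        unfold cstep
        rw [List.length_eraseP]
        split <;> omega
      omega
  obtain ⟨i, hi, hno⟩ : ∃ i, i < n ∧ ∀ p ∈ (cstep d β n)^[i] F,
      outl d β n (form d (((cstep d β n)^[i] F).map fun p => p.2)) p.2 = false := by
    by_contra hcon
    have hout : ∀ i, i < n → ∃ p ∈ (cstep d β n)^[i] F,
        outl d β n (form d (((cstep d β n)^[i] F).map fun p => p.2)) p.2 = true := by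
      intro i hi
      by_contra hc
      apply hcon
      refine ⟨i, hi, fun p hp => ?_⟩
      by_contra ho
      exact hc ⟨p, hp, by simpa using ho⟩
    have hβn' : (0 : ℤ) ≤ (n : ℤ) - β := by
      have : (β : ℤ) ≤ n := by exact_mod_cast hβn
      linarith
    have hind : ∀ i, i ≤ n → ((cstep d β n)^[i] F).length + i = n ∧
        (n : ℤ) ^ i * (form d (((cstep d β n)^[i] F).map fun p => p.2)).1 ≤
          ((n : ℤ) - β) ^ i * (form d (F.map fun p => p.2)).1 := by
      intro i
      induction i with
      | zero => intro _; simp [hn]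
      | succ i ih =>
        intro hi
        obtain ⟨h1, h2⟩ := ih (by omega)
        obtain ⟨h3, h4⟩ := CleanA_out d β n _ (hout i (by omega))
        rw [Function.iterate_succ_apply']
        refine ⟨by omega, ?_⟩
        calc (n : ℤ) ^ (i + 1) *
              (form d ((cstep d β n ((cstep d β n)^[i] F)).map fun p => p.2)).1
            = (n : ℤ) ^ i * ((n : ℤ) *
              (form d ((cstep d β n ((cstep d β n)^[i] F)).map fun p => p.2)).1) := by ring
          _ ≤ (n : ℤ) ^ i * (((n : ℤ) - β) *
              (form d (((cstep d β n)^[i] F).map fun p => p.2)).1) :=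
              mul_le_mul_of_nonneg_left h4 (by positivity)
          _ = ((n : ℤ) - β) * ((n : ℤ) ^ i *
              (form d (((cstep d β n)^[i] F).map fun p => p.2)).1) := by ring
          _ ≤ ((n : ℤ) - β) * (((n : ℤ) - β) ^ i * (form d (F.map fun p => p.2)).1) :=
              mul_le_mul_of_nonneg_left h2 hβn'
          _ = ((n : ℤ) - β) ^ (i + 1) * (form d (F.map fun p => p.2)).1 := by ring
    obtain ⟨h1, h2⟩ := hind n le_rfl
    have h0 : (cstep d β n)^[n] F = [] := by
      apply List.eq_nil_of_length_eq_zero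
      omega
    rw [h0] at h2
    have h3 : (form d (([] : List (Pt × List ℤ)).map fun p => p.2)).1 = 1 := rfl
    rw [h3, mul_one] at h2
    have h4 := CleanA_num n β hβ hβn
    have h5 : ((n : ℤ) - β) ^ n * (form d (F.map fun p => p.2)).1 ≤
        ((n : ℤ) - β) ^ n * 2 ^ β :=
      mul_le_mul_of_nonneg_left hD (pow_nonneg hβn' n)
    linarith [mul_comm (((n : ℤ) - β) ^ n) (2 ^ β)]
  have hfix : cstep d β n ((cstep d β n)^[i] F) = (cstep d β n)^[i] F := by
    apply List.eraseP_of_forall_not
    intro p hp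
    simpa using hno p hp
  have hst' : ∀ j, (cstep d β n)^[j + i] F = (cstep d β n)^[i] F := by
    intro j
    rw [Function.iterate_add_apply]
    exact Function.iterate_fixed hfix j
  have hst : (cstep d β n)^[n] F = (cstep d β n)^[i] F := by
    have h1 := hst' (n - i)
    rwa [Nat.sub_add_cancel hi.le] at h1
  rw [hcl]
  refine ⟨hsub n, ?_, ?_⟩
  · rw [hst]
    intro h
    have := hlen i
    rw [h] at this
    simp at this
    omega
  · intro p hp
    rw [hst] at hp ⊢
    have := hno p hp
    simpa [outl] using this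

end Pool.Agent.W_d799b0_h54
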