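import Pool.Agent.W_d799b0_h54.FormP

/-!
# Outlier removal in polynomial time

`PF.eraseP`: fold from the right with the state `(l', l'.eraseP p)`:
`a, s ↦ (a :: s.1, if p a then s.1 else a :: s.2)` (`pf_foldr`, the state for a suffix `l'` has size
at most `2 * sz l + 1` since `eraseP` is a sublist; sizes of sublists: by induction, or bound
`sz (l'.eraseP p) ≤ sz l'` directly by induction on `l'`).
`PF.clean`: `PF.iter` with `f = fun c F' => cstep (d c) (β c) (F c).length F'`; the size does not
increase. Inside `cstep` the form of the whole list is a parameter: write the environment of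
`PF.eraseP` as `(c, F')`.
-/

set_option autoImplicit false

namespace Pool.Agent.PolyTime

open Function
open Pool.Agent.W_d799b0_h82 (Pt)

variable {γ α : Type} [ToD γ] [ToD α]

private theorem CleanP_sz_suffix {l' l : List α} (h : l' <:+ l) : sz l' ≤ sz l := by
  obtain ⟨t, rfl⟩ := h
  have := sz_append t l'
  have := sz_pos t
  omega

private theorem CleanP_sz_eraseP (p : α → Bool) (l : List α) : sz (l.eraseP p) ≤ sz l := by
  induction l with
  | nil => exact le_refl _
  | cons a l ih =>
    rw [List.eraseP_cons]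
    cases p a with
    | true =>
      rw [cond_true, sz_cons]
      omega
    | false =>
      rw [cond_false, sz_cons, sz_cons]
      omega

private theorem CleanP_foldr (p : α → Bool) (l : List α) :
    l.foldr (fun a (s : List α × List α) => (a :: s.1, if p a then s.1 else a :: s.2)) ([], []) =
      (l, l.eraseP p) := by
  induction l with
  | nil => rfl
  | cons a l ih =>
    rw [List.foldr_cons, ih, List.eraseP_cons]
    cases p a <;> rfl

theorem PF.eraseP {p : γ → α → Bool} {l : γ → List α} (hp : PF (fun x : γ × α => p x.1 x.2))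
    (hl : PF l) : PF (fun c => (l c).eraseP (p c)) := by
  obtain ⟨P, hP⟩ := hl.bound
  have hf : PF (fun x : (γ × α) × (List α × List α) =>
      (x.1.2 :: x.2.1, if p x.1.1 x.1.2 then x.2.1 else x.1.2 :: x.2.2)) := by
    have h1 : PF (fun x : (γ × α) × (List α × List α) => p x.1.1 x.1.2) :=
      hp.comp (PF.fst' (α := γ × α) (β := List α × List α))
    exact (PF.cons PF.fst'.snd PF.snd'.fst).pair
      (PF.ite h1 PF.snd'.fst (PF.cons PF.fst'.snd PF.snd'.snd))
  have h := W_d799b0_h82.pf_foldr (γ := γ) (α := α) (β := List α × List α)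
    (f := fun c a s => (a :: s.1, if p c a then s.1 else a :: s.2)) (b := fun _ => ([], []))
    (l := l) hf (PF.const _) hl (2 * P + 1) (by
      intro c l' hl'
      rw [CleanP_foldr (p c) l', sz_pair]
      have h1 := CleanP_sz_eraseP (p c) l'
      have h2 := CleanP_sz_suffix hl'
      have h3 := hP c
      simp only [Polynomial.eval_add, Polynomial.eval_mul, Polynomial.eval_ofNat,
        Polynomial.eval_one]
      omega)
  refine h.snd.cast (fun c => ?_)
  rw [CleanP_foldr (p c) (l c)]

private theorem CleanP_form {d : γ → ℕ} {F : γ → List (Pt × List ℤ)} (hd : PF d) (hF : PF F) :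
    PF (fun c => W_d799b0_h54.form (d c) ((F c).map fun p => p.2)) := by
  have h1 : PF (fun c => (F c).map fun p => p.2) :=
    PF.map (g := fun _ (p : Pt × List ℤ) => p.2) PF.snd'.snd hF
  exact PF.form (d := d) (F := fun c => (F c).map fun p => p.2) hd h1

private theorem CleanP_outl {d β n : γ → ℕ} {s : γ → ℤ × List (List ℤ)} {v : γ → List ℤ}
    (hd : PF d) (hβ : PF β) (hn : PF n) (hs : PF s) (hv : PF v) :
    PF (fun c => W_d799b0_h54.outl (d c) (β c) (n c) (s c) (v c)) := by
  have h1 : PF (fun c => ((β c : ℕ) : ℤ) * (s c).1) :=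
    PF.zmul (f := fun c => ((β c : ℕ) : ℤ)) (g := fun c => (s c).1) (PF.zOfNat hβ) hs.fst
  have h2 : PF (fun c => W_d799b0_h54.qf (d c) (s c).2 (v c)) :=
    PF.qf (d := d) (N := fun c => (s c).2) (v := v) hd hs.snd hv
  have h3 : PF (fun c => ((n c : ℕ) : ℤ) * W_d799b0_h54.qf (d c) (s c).2 (v c)) :=
    PF.zmul (f := fun c => ((n c : ℕ) : ℤ))
      (g := fun c => W_d799b0_h54.qf (d c) (s c).2 (v c)) (PF.zOfNat hn) h2
  exact PF.zlt (f := fun c => ((β c : ℕ) : ℤ) * (s c).1)
    (g := fun c => ((n c : ℕ) : ℤ) * W_d799b0_h54.qf (d c) (s c).2 (v c)) h1 h3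

theorem PF.cstep {d β n : γ → ℕ} {F : γ → List (Pt × List ℤ)} (hd : PF d) (hβ : PF β)
    (hn : PF n) (hF : PF F) : PF (fun c => W_d799b0_h54.cstep (d c) (β c) (n c) (F c)) := by
  have e1 : PF (fun x : γ × (Pt × List ℤ) => x.1) := PF.fst'
  have e2 : PF (fun x : γ × (Pt × List ℤ) => x.2.2) := PF.snd'.snd
  have d1 : PF (fun x : γ × (Pt × List ℤ) => d x.1) := PF.comp hd e1
  have b1 : PF (fun x : γ × (Pt × List ℤ) => β x.1) := PF.comp hβ e1
  have n1 : PF (fun x : γ × (Pt × List ℤ) => n x.1) := PF.comp hn e1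
  have s1 := PF.comp (CleanP_form hd hF) e1
  have hp := CleanP_outl d1 b1 n1 s1 e2
  obtain ⟨P0, hP0⟩ : ∃ P0 : γ → Pt × List ℤ → Bool, P0 = fun c y => W_d799b0_h54.outl (d c) (β c)
      (n c) (W_d799b0_h54.form (d c) ((F c).map fun p => p.2)) y.2 := ⟨_, rfl⟩
  have hp2 : PF (fun x : γ × (Pt × List ℤ) => P0 x.1 x.2) := by
    rw [hP0]
    exact hp
  have h := PF.eraseP hp2 hF
  have e : (fun c => W_d799b0_h54.cstep (d c) (β c) (n c) (F c)) =
      fun c => (F c).eraseP (P0 c) := by
    funext c
    rw [hP0]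
    rfl
  rw [e]
  exact h

theorem PF.clean {d β : γ → ℕ} {F : γ → List (Pt × List ℤ)} (hd : PF d) (hβ : PF β)
    (hF : PF F) : PF (fun c => W_d799b0_h54.clean (d c) (β c) (F c)) := by
  obtain ⟨P, hP⟩ := hF.bound
  have e1 : PF (fun x : γ × List (Pt × List ℤ) => x.1) := PF.fst'
  have hf : PF (fun x : γ × List (Pt × List ℤ) =>
      W_d799b0_h54.cstep (d x.1) (β x.1) (F x.1).length x.2) :=
    PF.cstep (hd.comp e1) (hβ.comp e1) (hF.comp e1).length PF.snd'
  have hsz : ∀ (c : γ) (i : ℕ),
      sz ((W_d799b0_h54.cstep (d c) (β c) (F c).length)^[i] (F c)) ≤ sz (F c) := by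
    intro c i
    induction i with
    | zero => exact le_refl _
    | succ i ih =>
      rw [iterate_succ_apply']
      exact (CleanP_sz_eraseP _ _).trans ih
  exact PF.iter (f := fun c F' => W_d799b0_h54.cstep (d c) (β c) (F c).length F')
    (b := F) (n := fun c => (F c).length) hf hF hF.length P
    (fun c i _ => (hsz c i).trans (hP c))

end Pool.Agent.PolyTime
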