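import Pool.Agent.W_d799b0_h54.VDefs
import Pool.Agent.W_d799b0_h82.SmallB
import Pool.Agent.W_d799b0_h82.PtsA

/-!
# The tests in real terms

PROOFS. `rv` is additive: `rv d (vsum d L) = ∑` of the `rv d v`, `rv d (comb d a b u v) =
a • rv d u - b • rv d v`, `rv d (v.map Neg.neg) = - rv d v` (evaluate coordinates; `cd` of a mapped
list, `cd` of `(List.range d).map f` at `i < d` is `f i`); `ψ` is linear. So
`ψ (rv d (vsum d L)) = (L.map fun v => ψ (rv d v)).sum`.
`accT_toSeed`: the inequality in the test is, by `hp.nrm` and `hp.pos` (cast to the reals, divide by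
the determinant), `64 β ‖ψ z‖² ≤ r³ w²`; the vectors of the family sum up to `∑ u ∈ T`
(`hp.sum` with `f = fun _ v => ψ (rv d v)`), and the sum over `smpV` is
`∑ l < w, ∑ p ∈ G, if p.1 = pt r s l then ψ (rv d p.2) else 0` (`List.map_flatMap`, sum of a filter),
`hp.sum` with `f = fun q v => if q = pt r s l then ψ (rv d v) else 0`, `pt_toSeed`, `toPt_inj`.
`kpT_iff`: `hp.sum` with `f = fun q v => if chi r q v' then ψ (rv d v) else - ψ (rv d v)`,
`chi_eq_sg`.
-/

set_option autoImplicit false

namespace Pool.Agent.W_d799b0_h54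

open Pool.Agent.W_d799b0_h82

variable {d β r : ℕ} {H : Pt → List ℤ} {T : Finset (ZMod r × ZMod r × ZMod r)}
  {ψ : (Fin d → ℝ) →ₗ[ℝ] EuclideanSpace ℝ (Fin d)}

private theorem PackB_cd_range (d : ℕ) (f : ℕ → ℤ) (i : ℕ) (hi : i < d) :
    cd ((List.range d).map f) i = f i := by
  unfold cd
  rw [List.getD_eq_getElem _ _ (by simpa using hi)]
  simp

private theorem PackB_rv_vsum (d : ℕ) (L : List (List ℤ)) :
    rv d (vsum d L) = (L.map fun v => rv d v).sum := by
  funext i
  have h1 : rv d (vsum d L) i = (((L.map fun v => cd v i).sum : ℤ) : ℝ) := by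
    unfold rv vsum
    rw [PackB_cd_range d _ i i.2]
  rw [h1]
  clear h1
  induction L with
  | nil => simp
  | cons a L ih =>
    simp only [List.map_cons, List.sum_cons, Pi.add_apply, Int.cast_add, ih]
    rfl

private theorem PackB_rv_comb (d : ℕ) (a b : ℤ) (u v : List ℤ) :
    rv d (comb d a b u v) = (a : ℝ) • rv d u - (b : ℝ) • rv d v := by
  funext i
  have h1 : rv d (comb d a b u v) i = ((a * cd u i - b * cd v i : ℤ) : ℝ) := by
    unfold rv comb
    rw [PackB_cd_range d _ i i.2]
  rw [h1]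
  simp [rv]

private theorem PackB_rv_neg (d : ℕ) (v : List ℤ) :
    rv d (v.map fun a => -a) = - rv d v := by
  funext i
  have h1 : cd (v.map fun a => -a) i = - cd v i := by
    unfold cd
    rcases lt_or_ge (i : ℕ) v.length with h | h
    · rw [List.getD_eq_getElem _ _ (by simpa using h), List.getD_eq_getElem _ _ h]
      simp
    · rw [List.getD_eq_default _ _ (by simpa using h), List.getD_eq_default _ _ h]
      simp
  simp [rv, h1]

private theorem PackB_psi_vsum (ψ : (Fin d → ℝ) →ₗ[ℝ] EuclideanSpace ℝ (Fin d))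
    (L : List (List ℤ)) :
    ψ (rv d (vsum d L)) = (L.map fun v => ψ (rv d v)).sum := by
  rw [PackB_rv_vsum, map_list_sum, List.map_map]
  rfl

private theorem PackB_sum_T [NeZero r] (hp : Pack d β r H T ψ) :
    ψ (rv d (vsum d ((clean d β ((pts r).map fun u => (u, H u))).map fun p => p.2))) =
      ∑ u, yv d r H T ψ u := by
  classical
  rw [PackB_psi_vsum, List.map_map]
  have h := hp.sum (fun _ v => ψ (rv d v))
  refine Eq.trans ?_ (h.trans ?_)
  · rfl
  · rw [← Finset.sum_subset (Finset.subset_univ T)]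
    · refine Finset.sum_congr rfl fun u hu => ?_
      unfold yv
      rw [if_pos hu]
    · intro u _ hu
      unfold yv
      rw [if_neg hu]

private theorem PackB_sum_filter {α M : Type} [AddCommMonoid M] (L : List α) (p : α → Prop)
    [DecidablePred p] (f : α → M) :
    ((L.filter fun a => decide (p a)).map f).sum = (L.map fun a => if p a then f a else 0).sum := by
  induction L with
  | nil => simp
  | cons a L ih =>
    by_cases h : p a
    · rw [List.filter_cons_of_pos (by simpa using h)]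
      simp [h, ih]
    · rw [List.filter_cons_of_neg (by simpa using h)]
      simp [h, ih]

private theorem PackB_sum_smp [NeZero r] (hp : Pack d β r H T ψ) (w : ℕ)
    (s : (ZMod r × ZMod r × ZMod r) × (ZMod r × ZMod r × ZMod r)) :
    ψ (rv d (vsum d (smpV r w (clean d β ((pts r).map fun u => (u, H u))) (toSeed s)))) =
      ∑ l ∈ Finset.range w, yv d r H T ψ (s.1 + (l : ZMod r) • s.2) := by
  classical
  rw [PackB_psi_vsum, smpV, List.map_flatMap]
  have hfm : ∀ (L : List ℕ) (g : ℕ → List (EuclideanSpace ℝ (Fin d))),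
      (L.flatMap g).sum = (L.map fun l => (g l).sum).sum := by
    intro L g
    induction L with
    | nil => simp
    | cons a L ih => simp [List.flatMap_cons, ih]
  rw [hfm]
  have hr : ∀ g : ℕ → EuclideanSpace ℝ (Fin d),
      ((List.range w).map g).sum = ∑ i ∈ Finset.range w, g i := by
    intro g
    simp [Finset.sum, Finset.range, Multiset.range]
  rw [hr]
  refine Finset.sum_congr rfl fun l _ => ?_
  rw [List.map_map, PackB_sum_filter]
  have h := hp.sum (fun q v => if q = pt r (toSeed s) l then ψ (rv d v) else 0)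
  refine Eq.trans ?_ (h.trans ?_)
  · rfl
  · simp only [pt_toSeed]
    have h2 : ∀ u : ZMod r × ZMod r × ZMod r,
        (toPt u = toPt (s.1 + (l : ZMod r) • s.2)) ↔ u = s.1 + (l : ZMod r) • s.2 :=
      fun u => ⟨fun h => toPt_inj r _ _ h, fun h => by rw [h]⟩
    simp only [h2]
    rw [Finset.sum_ite_eq']
    rfl

theorem accT_toSeed [NeZero r] (hp : Pack d β r H T ψ) (w : ℕ)
    (s : (ZMod r × ZMod r × ZMod r) × (ZMod r × ZMod r × ZMod r)) :
    accT d β r w (clean d β ((pts r).map fun u => (u, H u))) (toSeed s) = true ↔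
      64 * (β : ℝ) * ‖(r : ℝ) ^ 3 • ∑ l ∈ Finset.range w,
          yv d r H T ψ (s.1 + (l : ZMod r) • s.2) -
        (w : ℝ) • ∑ u, yv d r H T ψ u‖ ^ 2 ≤ (r : ℝ) ^ 3 * (w : ℝ) ^ 2 := by
  have hD : (0 : ℝ) <
      ((form d ((clean d β ((pts r).map fun u => (u, H u))).map fun p => p.2)).1 : ℝ) := by
    exact_mod_cast hp.pos
  have hn := hp.nrm (comb d ((r : ℤ) ^ 3) w
    (vsum d (smpV r w (clean d β ((pts r).map fun u => (u, H u))) (toSeed s)))
    (vsum d ((clean d β ((pts r).map fun u => (u, H u))).map fun p => p.2)))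
  rw [PackB_rv_comb, map_sub, map_smul, map_smul, PackB_sum_smp hp, PackB_sum_T hp] at hn
  push_cast at hn
  unfold accT
  rw [decide_eq_true_eq, ← Int.cast_le (R := ℝ)]
  push_cast
  rw [hn]
  set D := ((form d ((clean d β ((pts r).map fun u => (u, H u))).map fun p => p.2)).1 : ℝ)
  set X := ‖(r : ℝ) ^ 3 • ∑ l ∈ Finset.range w,
          yv d r H T ψ (s.1 + (l : ZMod r) • s.2) -
        (w : ℝ) • ∑ u, yv d r H T ψ u‖ ^ 2
  constructor
  · intro h
    have h' : (64 * (β : ℝ) * X) * D ≤ ((r : ℝ) ^ 3 * (w : ℝ) ^ 2) * D := by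
      calc (64 * (β : ℝ) * X) * D = 64 * (β : ℝ) * (D * X) := by ring
        _ ≤ _ := h
    exact le_of_mul_le_mul_right h' hD
  · intro h
    have h' := mul_le_mul_of_nonneg_right h hD.le
    calc 64 * (β : ℝ) * (D * X) = (64 * (β : ℝ) * X) * D := by ring
      _ ≤ _ := h'

theorem kpT_iff [Fact r.Prime] (hp : Pack d β r H T ψ) (v : List Bool) :
    kpT d β r (clean d β ((pts r).map fun u => (u, H u))) v = true ↔
      (r : ℝ) ^ 3 ≤ 4 * (β : ℝ) *
        ‖∑ u, ((sg (HH r) (bP r v) u : ℤ) : ℝ) • yv d r H T ψ u‖ ^ 2 := by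
  classical
  have : NeZero r := ⟨(Fact.out : r.Prime).ne_zero⟩
  have hD : (0 : ℝ) <
      ((form d ((clean d β ((pts r).map fun u => (u, H u))).map fun p => p.2)).1 : ℝ) := by
    exact_mod_cast hp.pos
  have hs : ψ (rv d (vsum d (sgnV r (clean d β ((pts r).map fun u => (u, H u))) v))) =
      ∑ u, ((sg (HH r) (bP r v) u : ℤ) : ℝ) • yv d r H T ψ u := by
    rw [PackB_psi_vsum, sgnV, List.map_map]
    have h := hp.sum (fun q x => if chi r q v then ψ (rv d x) else - ψ (rv d x))
    refine Eq.trans ?_ (h.trans ?_)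
    · refine congrArg List.sum (List.map_congr_left fun p _ => ?_)
      by_cases hc : chi r p.1 v
      · simp [hc]
      · simp [hc, PackB_rv_neg]
    · rw [← Finset.sum_subset (Finset.subset_univ T)]
      · refine Finset.sum_congr rfl fun u hu => ?_
        unfold yv
        rw [if_pos hu, chi_eq_sg]
        by_cases hc : chi r (toPt u) v
        · simp [hc]
        · simp [hc]
      · intro u _ hu
        unfold yv
        rw [if_neg hu, smul_zero]
  have hn := hp.nrm (vsum d (sgnV r (clean d β ((pts r).map fun u => (u, H u))) v))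
  rw [hs] at hn
  unfold kpT
  rw [decide_eq_true_eq, ← Int.cast_le (R := ℝ)]
  push_cast
  rw [hn]
  set D := ((form d ((clean d β ((pts r).map fun u => (u, H u))).map fun p => p.2)).1 : ℝ)
  set X := ‖∑ u, ((sg (HH r) (bP r v) u : ℤ) : ℝ) • yv d r H T ψ u‖ ^ 2
  constructor
  · intro h
    have h' : ((r : ℝ) ^ 3) * D ≤ (4 * (β : ℝ) * X) * D := by
      calc ((r : ℝ) ^ 3) * D ≤ 4 * (β : ℝ) * (D * X) := h
        _ = _ := by ring
    exact le_of_mul_le_mul_right h' hD
  · intro h
    have h' := mul_le_mul_of_nonneg_right h hD.le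
    calc ((r : ℝ) ^ 3) * D ≤ (4 * (β : ℝ) * X) * D := h'
      _ = _ := by ring

end Pool.Agent.W_d799b0_h54
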