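import Pool.Agent.W_d799b0_h54.PackA
import Pool.Agent.W_d799b0_h54.PackB
import Pool.Agent.W_d799b0_h82.Num

/-!
# The cleaned families of the algorithm

PROOFS. `beta_facts`: `beta E = eK E / 2`; `Params.w_large`, `Params.r_large`, `Params.pos_N`,
`Params.pos_r`. `packL`, `packS`: `exists_pack` with `H u = h E (instL E ph σ u)` and
`H u = h E (instS ..)`; the determinant bound is `RedV.big` (`length_pts`, `mem_pts`).
`Pack.ge`: by `hR.sep` each term of the sum in `dual` is at least `∑ w i ^ 2`, and `T` is not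
empty.
-/

set_option autoImplicit false

namespace Pool.Agent.W_d799b0_h54

open Pool.Agent.W_d799b0_h82

variable {V : List Bool → List Bool → Bool} {dm : Env → ℕ} {h : Env → Inst → List ℤ} {E : Env}

theorem beta_facts (hP : Params E) : 8 * beta E ≤ 4 * eK E ∧ beta E ≤ eR E ^ 3 ∧
    256 * beta E ^ 2 ≤ eW E ∧ 8 * beta E ^ 2 ≤ 8 * eK E ^ 4 ∧
      8 * beta E ^ 2 * (eN E * eR E ^ 2 + eR E) ≤ eR E ^ 3 := by
  have hN := hP.pos_N
  have hr := hP.pos_r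
  have hK := hP.pos_K
  have hrl := hP.r_large
  have hwl := hP.w_large
  have hb : 2 * beta E ≤ eK E := by
    unfold beta
    omega
  have hb2 : 4 * beta E ^ 2 ≤ eK E ^ 2 := by
    calc 4 * beta E ^ 2 = (2 * beta E) ^ 2 := by ring
      _ ≤ eK E ^ 2 := Nat.pow_le_pow_left hb 2
  have hK24 : eK E ^ 2 ≤ eK E ^ 4 := Nat.pow_le_pow_right hK (by norm_num)
  have hK4 : eK E ≤ eK E ^ 4 := Nat.le_self_pow (by norm_num) _
  have hNK : eK E ^ 4 ≤ eN E * eK E ^ 4 := Nat.le_mul_of_pos_left _ hN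
  have hr3 : eR E ≤ eR E ^ 3 := Nat.le_self_pow (by norm_num) _
  have hassoc : 16 * eN E * eK E ^ 4 = 16 * (eN E * eK E ^ 4) := by ring
  refine ⟨by omega, by omega, by omega, by omega, ?_⟩
  have h1 : eN E * eR E ^ 2 + eR E ≤ 2 * (eN E * eR E ^ 2) := by
    have h2 : eR E ≤ eR E ^ 2 := Nat.le_self_pow (by norm_num) _
    have h3 : eR E ^ 2 ≤ eN E * eR E ^ 2 := Nat.le_mul_of_pos_left _ hN
    omega
  calc 8 * beta E ^ 2 * (eN E * eR E ^ 2 + eR E)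
      ≤ (2 * eK E ^ 4) * (2 * (eN E * eR E ^ 2)) := Nat.mul_le_mul (by omega) h1
    _ = (4 * (eN E * eK E ^ 4)) * eR E ^ 2 := by ring
    _ ≤ eR E * eR E ^ 2 := Nat.mul_le_mul_right _ (by omega)
    _ = eR E ^ 3 := by ring

theorem packL {w : Fin (dm E) → ℤ} (hP : Params E) (hR : RedV V (h E) E (dm E) w)
    (ph : List (List Seed)) (σ : List Seed)
    (hU : ∀ u, PtLt (eR E) u → Used E (instL E ph σ u)) :
    ∃ T ψ, Pack (dm E) (beta E) (eR E) (fun u => h E (instL E ph σ u)) T ψ := by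
  have : NeZero (eR E) := ⟨hP.pos_r.ne'⟩
  refine exists_pack _ _ _ _ hR.pos_beta (beta_facts hP).2.1 (hR.big _ ?_ ?_)
  · rw [List.length_map, length_pts]
  · intro v hv
    obtain ⟨u, hu, rfl⟩ := List.mem_map.1 hv
    exact ⟨instL E ph σ u, hU u ((mem_pts _ u).1 hu), rfl⟩

theorem packS {w : Fin (dm E) → ℤ} (hP : Params E) (hR : RedV V (h E) E (dm E) w)
    (ph : List (List Seed)) (i0 b0 j : ℕ)
    (hU : ∀ u, PtLt (eR E) u → Used E (instS E ph i0 b0 j u)) :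
    ∃ T ψ, Pack (dm E) (beta E) (eR E) (fun u => h E (instS E ph i0 b0 j u)) T ψ := by
  have : NeZero (eR E) := ⟨hP.pos_r.ne'⟩
  refine exists_pack _ _ _ _ hR.pos_beta (beta_facts hP).2.1 (hR.big _ ?_ ?_)
  · rw [List.length_map, length_pts]
  · intro v hv
    obtain ⟨u, hu, rfl⟩ := List.mem_map.1 hv
    exact ⟨instS E ph i0 b0 j u, hU u ((mem_pts _ u).1 hu), rfl⟩

/-- The vector `a` that represents the hyperplane. -/
theorem Pack.ge {d β r : ℕ} {H : Pt → List ℤ} {T : Finset (ZMod r × ZMod r × ZMod r)}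
    {ψ : (Fin d → ℝ) →ₗ[ℝ] EuclideanSpace ℝ (Fin d)} [NeZero r] (hp : Pack d β r H T ψ)
    (w : Fin d → ℤ) (hw : 0 < ∑ i, w i ^ 2)
    (hsep : ∀ u : ZMod r × ZMod r × ZMod r, ∑ i, w i ^ 2 ≤ (∑ i : Fin d, w i * cd (H (toPt u)) i) ^ 2) :
    ∃ a : EuclideanSpace ℝ (Fin d), 0 < ‖a‖ ∧
      (∀ u, inner ℝ a (yv d r H T ψ u) =
        if u ∈ T then ((∑ i : Fin d, w i * cd (H (toPt u)) i : ℤ) : ℝ) else 0) ∧
      ‖a‖ ^ 2 ≤ 2 * ∑ u, (inner ℝ a (yv d r H T ψ u)) ^ 2 := by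
  classical
  obtain ⟨a, ha1, ha2⟩ := hp.dual (fun i => (w i : ℝ))
  have hsum : ∀ u : ZMod r × ZMod r × ZMod r, ∑ i, (w i : ℝ) * rv d (H (toPt u)) i =
      ((∑ i : Fin d, w i * cd (H (toPt u)) i : ℤ) : ℝ) := by
    intro u
    push_cast
    rfl
  have hin : ∀ u, inner ℝ a (yv d r H T ψ u) =
      if u ∈ T then ((∑ i : Fin d, w i * cd (H (toPt u)) i : ℤ) : ℝ) else 0 := by
    intro u
    unfold yv
    split_ifs with h
    · rw [ha1, hsum]
    · exact inner_zero_right _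
  have hw' : (0 : ℝ) < ∑ i, (w i : ℝ) ^ 2 := by exact_mod_cast hw
  have hS : ∑ u, (inner ℝ a (yv d r H T ψ u)) ^ 2 =
      ∑ u ∈ T, (∑ i, (w i : ℝ) * rv d (H (toPt u)) i) ^ 2 := by
    rw [← Finset.sum_subset (Finset.subset_univ T)]
    · refine Finset.sum_congr rfl fun u hu => ?_
      rw [hin, if_pos hu, hsum]
    · intro u _ hu
      rw [hin, if_neg hu, zero_pow two_ne_zero]
  have hge : ∑ i, (w i : ℝ) ^ 2 ≤ ∑ u ∈ T, (∑ i, (w i : ℝ) * rv d (H (toPt u)) i) ^ 2 := by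
    obtain ⟨u₀, hu₀⟩ := hp.ne
    have h1 : ∑ i, (w i : ℝ) ^ 2 ≤ (∑ i, (w i : ℝ) * rv d (H (toPt u₀)) i) ^ 2 := by
      rw [hsum]
      exact_mod_cast hsep u₀
    exact h1.trans (Finset.single_le_sum
      (f := fun u => (∑ i, (w i : ℝ) * rv d (H (toPt u)) i) ^ 2) (fun _ _ => sq_nonneg _) hu₀)
  refine ⟨a, ?_, hin, ?_⟩
  · have h1 : 0 < ‖a‖ ^ 2 := by
      rw [ha2]
      have h2 : 0 ≤ ∑ u ∈ T, (∑ i, (w i : ℝ) * rv d (H (toPt u)) i) ^ 2 :=
        Finset.sum_nonneg fun _ _ => sq_nonneg _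
      linarith
    have h3 : ‖a‖ ≠ 0 := fun h => by
      rw [h, zero_pow two_ne_zero] at h1
      exact lt_irrefl _ h1
    exact lt_of_le_of_ne (norm_nonneg a) h3.symm
  · rw [hS, ha2]
    linarith

end Pool.Agent.W_d799b0_h54
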