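import Pool.Agent.W_d799b0_h82.Correct
import Pool.Agent.W_d799b0_h54.AlgG

/-!
# The algorithm with arbitrary good tests is correct

The proofs are those of `SmallC`, `SeedEx` and `Correct` of `W_d799b0_h82`.
-/

set_option autoImplicit false

namespace Pool.Agent.W_d799b0_h54

open Pool.Agent.W_d799b0_h82

theorem search_invG (kp : Kp) (E : Env) (ph : List (List Seed)) (i0 b0 n : ℕ) :
    ((List.range n).foldl (stepSG kp E ph i0 b0) [[]]).Nodup ∧
      ∀ v ∈ (List.range n).foldl (stepSG kp E ph i0 b0) [[]], v.length = n := by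
  induction n with
  | zero => simp
  | succ n ih =>
    rw [List.range_succ, List.foldl_append, List.foldl_cons, List.foldl_nil]
    set L := (List.range n).foldl (stepSG kp E ph i0 b0) [[]]
    obtain ⟨h1, h2⟩ := ih
    unfold stepSG
    constructor
    · exact List.Nodup.sublist (List.take_sublist _ _) ((nodup_extL L h1).filter _)
    · intro v hv
      have h3 := List.mem_of_mem_filter (List.mem_of_mem_take hv)
      obtain ⟨w, hw, b, rfl⟩ := (mem_extL L v).1 h3
      rw [List.length_append, h2 w hw]
      rfl

theorem searchSG_length (kp : Kp) (E : Env) (ph : List (List Seed)) (i0 b0 : ℕ)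
    (v : List Bool) (hv : v ∈ searchSG kp E ph i0 b0) : v.length = eN E :=
  (search_invG kp E ph i0 b0 (eN E)).2 v hv

theorem smallG_sound (V : List Bool → List Bool → Bool) (kp : Kp) (E : Env)
    (ph : List (List Seed)) (h : smallG V kp E ph = true) :
    ∃ B : List Bool, B.length = eN E ∧ V (eX E) B = true := by
  unfold smallG at h
  simp only [List.any_eq_true] at h
  obtain ⟨i0, _, b0, _, v, hv, hV⟩ := h
  exact ⟨v, searchSG_length kp E ph i0 b0 v hv, hV⟩

theorem search_memG {V : List Bool → List Bool → Bool} {acc : Acc} {kp : Kp} {E : Env}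
    (hG : GoodT V acc kp E) (ph : List (List Seed)) (i0 b0 : ℕ) (hb : b0 < eR E)
    (hU : ∀ j ≤ eN E, ∀ u, PtLt (eR E) u → Used E (instS E ph i0 b0 j u))
    (a : List Bool) (ha : a ∈ D0 V E ph) (hab : bB (eR E) a i0 = b0)
    (huniq : ∀ B0 ∈ D0 V E ph, bB (eR E) B0 i0 = b0 → B0 = a)
    (n : ℕ) (hn : n ≤ eN E) :
    a.take n ∈ (List.range n).foldl (stepSG kp E ph i0 b0) [[]] := by
  induction n with
  | zero => simp
  | succ n ih =>
    have ih := ih (by omega)
    obtain ⟨h1, h2⟩ := search_invG kp E ph i0 b0 n
    rw [List.range_succ, List.foldl_append, List.foldl_cons, List.foldl_nil]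
    set L := (List.range n).foldl (stepSG kp E ph i0 b0) [[]]
    unfold stepSG
    set Fl := (extL L).filter (kp E ph i0 b0 (n + 1)) with hFl
    have hnd : Fl.Nodup := (nodup_extL L h1).filter _
    have hlen : Fl.length ≤ 8 * eK E ^ 4 := by
      rw [← List.toFinset_card_of_nodup hnd]
      apply hG.few ph i0 b0 (n + 1) hn (hU (n + 1) hn)
      · intro v hv
        have h3 := List.mem_of_mem_filter (List.mem_toFinset.1 hv)
        obtain ⟨w, hw, b, rfl⟩ := (mem_extL L v).1 h3
        rw [List.length_append, h2 w hw]
        rfl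
      · intro v hv
        exact (List.mem_filter.1 (List.mem_toFinset.1 hv)).2
    rw [List.take_of_length_le hlen, hFl, List.mem_filter]
    refine ⟨?_, hG.surv ph i0 b0 hb hU a ha hab huniq (n + 1) hn⟩
    rw [mem_extL]
    have hal : n < a.length := by rw [ha.1]; omega
    exact ⟨a.take n, ih, a[n], (List.take_append_getElem hal).symm⟩

theorem smallG_of_few {V : List Bool → List Bool → Bool} {acc : Acc} {kp : Kp} {E : Env}
    (hP : Params E) (hG : GoodT V acc kp E) (ph : List (List Seed))
    (hU : ∀ i0 < eR E, ∀ b0 < eR E, ∀ j ≤ eN E, ∀ u, PtLt (eR E) u →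
      Used E (instS E ph i0 b0 j u))
    (hne : (D0 V E ph).Nonempty) (hlt : (D0 V E ph).ncard < w0 E) :
    smallG V kp E ph = true := by
  obtain ⟨a, ha, i0, hi0, b0, hb0, hab, huniq⟩ := isolate V E hP ph hne hlt
  have h := search_memG hG ph i0 b0 hb0 (hU i0 hi0 b0 hb0) a ha hab huniq
    (eN E) le_rfl
  rw [List.take_of_length_le (by rw [ha.1])] at h
  unfold smallG
  simp only [List.any_eq_true, List.mem_range]
  exact ⟨i0, hi0, b0, hb0, a, h, ha.2.1⟩

theorem pickSeedG_good {V : List Bool → List Bool → Bool} {acc : Acc} {kp : Kp} {E : Env}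
    (hG : GoodT V acc kp E) (ph : List (List Seed)) (σ : List Seed) (m : ℕ)
    (h : SInv E ph σ m) :
    goodSeedG acc E ph σ (pickSeedG acc E ph σ) = true ∧
      PtLt (eR E) (pickSeedG acc E ph σ).1 ∧ PtLt (eR E) (pickSeedG acc E ph σ).2 := by
  obtain ⟨s, hs, hg⟩ := hG.seed ph σ m h
  have hmem : s ∈ (seeds (eR E)).filter (goodSeedG acc E ph σ) := List.mem_filter.2 ⟨hs, hg⟩
  have hp : pickSeedG acc E ph σ ∈ (seeds (eR E)).filter (goodSeedG acc E ph σ) := by
    unfold pickSeedG
    generalize (seeds (eR E)).filter (goodSeedG acc E ph σ) = l at hmem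
    cases l with
    | nil => simp at hmem
    | cons a t => simp
  rw [List.mem_filter, mem_seeds] at hp
  exact ⟨hp.2, hp.1⟩

/-- Adding a good seed preserves `PhOK`. -/
theorem phOK_snocG (acc : Acc) (E : Env) (ph : List (List Seed)) (σ : List Seed)
    (hσ : PhOK (eR E) (eW E) σ) (s : Seed) (hs : goodSeedG acc E ph σ s = true)
    (h1 : PtLt (eR E) s.1) (h2 : PtLt (eR E) s.2) : PhOK (eR E) (eW E) (σ ++ [s]) := by
  unfold goodSeedG at hs
  rw [Bool.and_eq_true] at hs
  have hd := hs.1
  unfold distOK at hd
  rw [List.all_eq_true] at hd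
  have hd' : ∀ l < eW E, pC (eR E) s l ≠ 0 ∧
      ∀ s' ∈ σ, ∀ l' < eW E, pI (eR E) s' l' ≠ pI (eR E) s l := by
    intro l hl
    have h3 := hd l (List.mem_range.2 hl)
    rw [Bool.and_eq_true] at h3
    refine ⟨by simpa using h3.1, fun s' hs' l' hl' => ?_⟩
    have h4 := h3.2
    rw [List.all_eq_true] at h4
    have h5 := h4 s' hs'
    rw [List.all_eq_true] at h5
    have h6 := h5 l' (List.mem_range.2 hl')
    simpa using h6
  obtain ⟨k1, k2, k3⟩ := hσ
  refine ⟨?_, ?_, ?_⟩
  · intro t ht
    rw [List.mem_append, List.mem_singleton] at ht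
    rcases ht with ht | rfl
    · exact k1 t ht
    · exact ⟨h1, h2⟩
  · intro t ht
    rw [List.mem_append, List.mem_singleton] at ht
    rcases ht with ht | rfl
    · exact k2 t ht
    · intro l hl
      exact (hd' l hl).1
  · rw [List.pairwise_append]
    refine ⟨k3, List.pairwise_singleton _ _, ?_⟩
    intro a ha b hb l hl l' hl'
    rw [List.mem_singleton] at hb
    subst hb
    exact (hd' l' hl').2 a ha l hl

/-- The first component of the state after one step. -/
theorem stepG_fst (V : List Bool → List Bool → Bool) (acc : Acc) (kp : Kp) (E : Env) (s : St) :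
    (stepG V acc kp E s).1 =
      if s.2.2.2 = 0 then s.1 else (s.1 || smallG V kp E (s.2.2.1 :: s.2.1)) := by
  unfold stepG
  split_ifs <;> rfl

theorem runG_sound (V : List Bool → List Bool → Bool) (acc : Acc) (kp : Kp) (E : Env)
    (h : runG V acc kp E = true) : ∃ B : List Bool, B.length = eN E ∧ V (eX E) B = true := by
  have key : ∀ (t : ℕ) (s : St), ((stepG V acc kp E)^[t] s).1 = true →
      s.1 = true ∨ ∃ B : List Bool, B.length = eN E ∧ V (eX E) B = true := by
    intro t
    induction t with
    | zero => intro s hs; exact Or.inl hs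
    | succ t ih =>
      intro s hs
      rw [Function.iterate_succ_apply] at hs
      rcases ih _ hs with h1 | h1
      · rw [stepG_fst] at h1
        split_ifs at h1 with h0
        · exact Or.inl h1
        · rw [Bool.or_eq_true] at h1
          rcases h1 with h1 | h1
          · exact Or.inl h1
          · exact Or.inr (smallG_sound V kp E _ h1)
      · exact Or.inr h1
  unfold runG at h
  rw [Bool.or_eq_true] at h
  rcases h with h | h
  · rcases key _ _ h with h1 | h1
    · exact absurd h1 (by simp)
    · exact h1
  · exact smallG_sound V kp E _ h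

theorem linv_stepG {V : List Bool → List Bool → Bool} {acc : Acc} {kp : Kp} {E : Env}
    (hP : Params E) (hG : GoodT V acc kp E) {t : ℕ} {s : St} (h : LInv V E t s) :
    LInv V E (t + 1) (stepG V acc kp E s) := by
  rcases h with h | h | h
  · left
    rw [stepG_fst]
    split_ifs
    · exact h
    · rw [h, Bool.true_or]
  · obtain ⟨hS, hne, hc⟩ := h
    obtain ⟨fd, ph, σ, m⟩ := s
    simp only at hS hne hc
    have hm0 : m ≠ 0 := by have := hS.pos; omega
    by_cases hsm : smallG V kp E (σ :: ph) = true
    · left
      rw [stepG_fst]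
      simp only [hm0, if_false, hsm, Bool.or_true]
    · have hw : w0 E ≤ (DD V E ph σ).ncard := by
        by_contra hlt
        rw [not_le] at hlt
        apply hsm
        refine smallG_of_few hP hG (σ :: ph) ?_ ?_ ?_
        · intro i0 hi b0 hb j hj u hu
          exact used_instS E hP ph σ m hS i0 b0 j hi hb hj u hu
        · exact (D0_nonempty_iff V E ph σ).2 hne
        · exact lt_of_le_of_lt (D0_ncard_le V E hP (2 * m) ph hS.inv σ) hlt
      obtain ⟨hg, h1, h2⟩ := pickSeedG_good hG ph σ m hS
      have hne' := hG.large ph σ m hS hw _ ((mem_seeds _ _).2 ⟨h1, h2⟩) hg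
      have hok' := phOK_snocG acc E ph σ hS.ok _ hg h1 h2
      right
      by_cases hlen : (σ ++ [pickSeedG acc E ph σ]).length = m
      · have hst : stepG V acc kp E (fd, (ph, (σ, m))) =
            (fd || smallG V kp E (σ :: ph),
              ((σ ++ [pickSeedG acc E ph σ]) :: ph, ([], m / 2))) := by
          unfold stepG
          simp only [hm0, if_false, hlen, if_true]
        rw [hst]
        have hokall : ∀ τ ∈ (σ ++ [pickSeedG acc E ph σ]) :: ph, PhOK (eR E) (eW E) τ := by
          intro τ hτ
          rw [List.mem_cons] at hτ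
          rcases hτ with rfl | hτ
          · exact hok'
          · exact hS.inv.ok τ hτ
        by_cases hm1 : m = 1
        · right
          refine ⟨?_, ⟨?_, hokall⟩, ?_⟩
          · show m / 2 = 0
            rw [hm1]
          · refine ⟨?_, ?_⟩
            · rw [hlen, hm1]
            · have := hS.inv.lens
              rw [hm1] at this
              exact this
          · exact (D0_nonempty_iff V E ph _).2 hne'
        · left
          have hev := hS.even hP hm1
          have hpos := hS.pos
          refine ⟨⟨?_, ⟨?_, hokall⟩, phOK_nil _ _, ?_⟩, ?_, ?_⟩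
          · show 0 < m / 2
            omega
          · refine ⟨?_, ?_⟩
            · show (σ ++ [pickSeedG acc E ph σ]).length = 2 * (m / 2)
              rw [hlen]
              exact hev
            · show Lens (eM E) (2 * (2 * (m / 2))) ph
              rw [← hev]
              exact hS.inv.lens
          · show 0 < m / 2
            omega
          · obtain ⟨B, hB, B', hB'⟩ := hne'
            exact ⟨B', ⟨B, hB, hB'⟩, [], link_nil _ _ _⟩
          · show (((σ ++ [pickSeedG acc E ph σ]) :: ph).map List.length).sum + 0 = t + 1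
            rw [List.map_cons, List.sum_cons, List.length_append, List.length_singleton]
            omega
      · have hst : stepG V acc kp E (fd, (ph, (σ, m))) =
            (fd || smallG V kp E (σ :: ph), (ph, (σ ++ [pickSeedG acc E ph σ], m))) := by
          unfold stepG
          simp only [hm0, if_false, hlen]
        rw [hst]
        left
        refine ⟨⟨hS.pos, hS.inv, hok', ?_⟩, hne', ?_⟩
        · show (σ ++ [pickSeedG acc E ph σ]).length < m
          have h3 := hS.lt
          rw [List.length_append, List.length_singleton] at hlen ⊢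
          omega
        · show (ph.map List.length).sum + (σ ++ [pickSeedG acc E ph σ]).length = t + 1
          rw [List.length_append, List.length_singleton]
          omega
  · right; right
    have hst : stepG V acc kp E s = s := by
      unfold stepG
      rw [if_pos h.1]
    rw [hst]
    exact h

theorem runG_complete {V : List Bool → List Bool → Bool} {acc : Acc} {kp : Kp} {E : Env}
    (hP : Params E) (hG : GoodT V acc kp E)
    (h : ∃ B : List Bool, B.length = eN E ∧ V (eX E) B = true) :
    runG V acc kp E = true := by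
  have h0 : LInv V E 0 (false, ([], ([], eM E))) := by
    right; left
    refine ⟨⟨hP.pos_M, ⟨?_, ?_⟩, phOK_nil _ _, ?_⟩, ?_, ?_⟩
    · show 2 * eM E = 2 * eM E
      rfl
    · intro τ hτ
      exact absurd hτ (by simp)
    · exact hP.pos_M
    · obtain ⟨B, hB1, hB2⟩ := h
      refine ⟨B, ⟨hB1, hB2, ?_⟩, [], link_nil _ _ _⟩
      intro τ hτ
      exact absurd hτ (by simp)
    · rfl
  have hall : ∀ t, LInv V E t ((stepG V acc kp E)^[t] (false, ([], ([], eM E)))) := by
    intro t
    induction t with
    | zero => exact h0
    | succ t ih =>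
      rw [Function.iterate_succ_apply']
      exact linv_stepG hP hG ih
  have hend : LInv V E (2 * eM E) (loopG V acc kp E) := hall (2 * eM E)
  unfold runG
  rw [Bool.or_eq_true]
  rcases hend with h1 | ⟨h1, -, h2⟩ | ⟨-, h1, h2⟩
  · exact Or.inl h1
  · exfalso
    have h3 := lens_sum (eM E) (2 * (loopG V acc kp E).2.2.2) (loopG V acc kp E).2.1 h1.inv.lens
    have h4 := h1.lt
    have h5 := h1.pos
    omega
  · right
    refine smallG_of_few hP hG _ ?_ h2 ?_
    · intro i0 hi b0 hb j hj u hu
      exact used_instS_final E hP _ h1 i0 b0 j hi hb hj u hu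
    · refine lt_of_le_of_lt (D0_ncard_le_pow V E hP 1 _ h1) ?_
      rw [mul_one]
      exact hP.pow_lt_w0

end Pool.Agent.W_d799b0_h54
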