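import Pool.Agent.W_d799b0_h54.FormS

/-!
# The quadratic form in euclidean space

`emb`: for a positive definite `M` write `M⁻¹ = Rᴴ R` (`Matrix.PosDef.inv`,
`Matrix.posSemidef_iff_eq_conjTranspose_mul_self` or `CStarAlgebra`/`sqrt` versions; or
diagonalise), `ψ z = R z` (as a linear map: `Matrix.toLin'`/`mulVecLin` followed by
`WithLp.toLp`/`(EuclideanSpace.equiv ..).symm`), `a = R M w`. Then
`⟪a, ψ z⟫ = (M w)ᵀ Rᵀ R z = wᵀ M M⁻¹ z = w . z`, `‖a‖² = wᵀ M M⁻¹ M w = wᵀ M w`.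
`exists_emb`: `M = (MM d F).map Int.cast` (`MM_posDef`), `M⁻¹ = adj / det`
(`Matrix.inv_def`, `RingHom.map_adjugate`), `form_spec`, `qf_eq`;
`wᵀ M w = ∑ w_i² + ∑ v ∈ F, (∑ i, w_i v_i)²` is `MM_quad`.
-/

set_option autoImplicit false

open Matrix

namespace Pool.Agent.W_d799b0_h54

open scoped MatrixOrder in
theorem exists_eq_transpose_mul {d : ℕ} (A : Matrix (Fin d) (Fin d) ℝ) (hA : A.PosSemidef) :
    ∃ B : Matrix (Fin d) (Fin d) ℝ, A = Bᵀ * B := by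
  obtain ⟨B, hB⟩ := CStarAlgebra.nonneg_iff_eq_star_mul_self.mp hA.nonneg
  exact ⟨B, hB⟩

theorem emb {d : ℕ} (M : Matrix (Fin d) (Fin d) ℝ) (hM : M.PosDef) :
    ∃ ψ : (Fin d → ℝ) →ₗ[ℝ] EuclideanSpace ℝ (Fin d),
      (∀ z, ‖ψ z‖ ^ 2 = z ⬝ᵥ (M⁻¹ *ᵥ z)) ∧
        ∀ w : Fin d → ℝ, ∃ a : EuclideanSpace ℝ (Fin d),
          (∀ z, inner ℝ a (ψ z) = w ⬝ᵥ z) ∧ ‖a‖ ^ 2 = w ⬝ᵥ (M *ᵥ w) := by
  obtain ⟨R, hR⟩ := exists_eq_transpose_mul M⁻¹ hM.inv.posSemidef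
  have hdet : IsUnit M.det := isUnit_iff_ne_zero.2 hM.det_pos.ne'
  have hsym : Mᵀ = M := by
    have := hM.isHermitian
    rw [Matrix.IsHermitian, Matrix.conjTranspose_eq_transpose_of_trivial] at this
    exact this
  let ψ : (Fin d → ℝ) →ₗ[ℝ] EuclideanSpace ℝ (Fin d) :=
    (WithLp.linearEquiv 2 ℝ (Fin d → ℝ)).symm.toLinearMap ∘ₗ R.mulVecLin
  have hψ : ∀ z i, ψ z i = (R *ᵥ z) i := fun z i => rfl
  have key : ∀ x z, inner ℝ (ψ x) (ψ z) = x ⬝ᵥ (M⁻¹ *ᵥ z) := by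
    intro x z
    rw [PiLp.inner_apply]
    have h1 : ∑ i, inner ℝ (ψ x i) (ψ z i) = (R *ᵥ x) ⬝ᵥ (R *ᵥ z) := by
      unfold dotProduct
      refine Finset.sum_congr rfl fun i _ => ?_
      rw [hψ, hψ]
      show (R *ᵥ z) i * (starRingEnd ℝ) ((R *ᵥ x) i) = _
      rw [conj_trivial, mul_comm]
    rw [h1, hR, ← Matrix.mulVec_mulVec, Matrix.dotProduct_mulVec x, Matrix.vecMul_transpose]
  refine ⟨ψ, fun z => ?_, fun w => ⟨ψ (M *ᵥ w), fun z => ?_, ?_⟩⟩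
  · rw [← real_inner_self_eq_norm_sq, key]
  · rw [key, Matrix.dotProduct_mulVec, ← Matrix.vecMul_transpose, hsym, Matrix.vecMul_vecMul,
      Matrix.mul_nonsing_inv M hdet, Matrix.vecMul_one]
  · rw [← real_inner_self_eq_norm_sq, key, Matrix.mulVec_mulVec, Matrix.nonsing_inv_mul M hdet,
      Matrix.one_mulVec, dotProduct_comm]

theorem exists_emb (d : ℕ) (F : List (List ℤ)) :
    ∃ ψ : (Fin d → ℝ) →ₗ[ℝ] EuclideanSpace ℝ (Fin d),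
      (∀ v : List ℤ, ((qf d (form d F).2 v : ℤ) : ℝ) =
        ((form d F).1 : ℝ) * ‖ψ (rv d v)‖ ^ 2) ∧
        ∀ w : Fin d → ℝ, ∃ a : EuclideanSpace ℝ (Fin d),
          (∀ z, inner ℝ a (ψ z) = ∑ i, w i * z i) ∧
            ‖a‖ ^ 2 = ∑ i, w i ^ 2 + (F.map fun v => (∑ i, w i * rv d v i) ^ 2).sum := by
  obtain ⟨M, hMdef⟩ : ∃ M : Matrix (Fin d) (Fin d) ℝ, M = (MM d F).map (Int.cast : ℤ → ℝ) :=
    ⟨_, rfl⟩
  have hM : M.PosDef := hMdef ▸ MM_posDef d F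
  obtain ⟨ψ, h1, h2⟩ := emb M hM
  obtain ⟨h3, h4⟩ := form_spec d F
  have hdet : M.det = ((MM d F).det : ℝ) := by
    have h5 := RingHom.map_det (Int.castRingHom ℝ) (MM d F)
    rw [eq_intCast] at h5
    rw [h5, hMdef]
    rfl
  have hadj : M.adjugate = ((MM d F).adjugate).map (Int.cast : ℤ → ℝ) := by
    have h5 := RingHom.map_adjugate (Int.castRingHom ℝ) (MM d F)
    rw [hMdef]
    exact h5.symm
  refine ⟨ψ, fun v => ?_, fun w => ?_⟩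
  · rw [h1, Matrix.inv_def, Matrix.smul_mulVec, dotProduct_smul, smul_eq_mul, h3, ← hdet,
      ← mul_assoc, Ring.mul_inverse_cancel _ (isUnit_iff_ne_zero.2 hM.det_pos.ne'), one_mul,
      hadj, qf_eq d _ _ h4 v]
    unfold dotProduct Matrix.mulVec dotProduct
    push_cast
    rfl
  · obtain ⟨a, h5, h6⟩ := h2 w
    refine ⟨a, fun z => h5 z, ?_⟩
    rw [h6, hMdef]
    exact MM_quad d F w

end Pool.Agent.W_d799b0_h54
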