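import Pool.Agent.W_d799b0_h54.TtA
import Pool.Agent.W_d799b0_h54.FEnc
import Pool.Agent.W_d799b0_h82.PNat

/-!
# Truth-table reductions with few answers `yes` are threshold reductions

PROOF. `pf_incL`: induction on the constant `k`. `pf_subL` is needed only for lists of length at
most `k`: `PF` of `fun c => subL ((l c).take k)` (`pf_foldr`, for a suffix of length `j ≤ k` the
state has at most `2 ^ j` lists, each a sublist of `l c`), and `l.take k = l` for `l ∈ incL k m`;
so write the reduction with `(subL (Y.take k))`.
`tt_thr`: `G Z = g (x, (List.range m).map fun i => Z.any fun j => decide (i = j))`,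
`m = (f x).length`, `str i = (f x).getD i []`. `I` = the increasing list of the `i < m` with
`(f x)[i] ∈ S`; `I.length ≤ k`; `G I` is the value of `g` at the list of the true answers.
-/

set_option autoImplicit false

open Turing Computability

namespace Pool.Agent.W_d799b0_h54

open Pool.Agent.PolyTime Function
open Pool.Agent.W_d799b0_h82

theorem pf_incL {γ : Type} [ToD γ] (k : ℕ) {m : γ → ℕ} (hm : PF m) :
    PF (fun c => incL k (m c)) := by
  induction k with
  | zero => exact PF.const [[]]
  | succ k ih =>
    have h1 : PF (fun c => (List.range (m c)).flatMap fun i =>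
        ((incL k (m c)).filter fun l => l.all fun j => decide (i < j)).map fun l => i :: l) := by
      refine PF.flatMap (g := fun c i =>
        ((incL k (m c)).filter fun l => l.all fun j => decide (i < j)).map fun l => i :: l) ?_
        hm.range
      refine PF.map (g := fun (x : γ × ℕ) l => x.2 :: l) ?_ ?_
      · exact PF.cons (PF.id'.fst.snd) PF.id'.snd
      · refine PF.filter (g := fun (x : γ × ℕ) (l : List ℕ) =>
          l.all fun j => decide (x.2 < j)) ?_ (ih.comp PF.id'.fst)
        refine PF.all (g := fun (x : (γ × ℕ) × List ℕ) j => decide (x.1.2 < j)) ?_ PF.id'.snd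
        exact PF.lt PF.id'.fst.fst.snd PF.id'.snd
    exact PF.cons (PF.const []) h1

private theorem TtB_sub_cons (a : ℕ) (l : List ℕ) :
    subL (a :: l) = subL l ++ (subL l).map fun z => a :: z := rfl

private theorem TtB_sub_len (l : List ℕ) : (subL l).length = 2 ^ l.length := by
  induction l with
  | nil => rfl
  | cons a l ih =>
    rw [TtB_sub_cons, List.length_append, List.length_map, ih, List.length_cons, pow_succ]
    omega

private theorem TtB_sub_sz (l : List ℕ) : ∀ z ∈ subL l, sz z ≤ sz l := by
  induction l with
  | nil =>
    intro z hz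
    have : z = [] := by simpa [subL] using hz
    rw [this]
  | cons a l ih =>
    intro z hz
    rw [TtB_sub_cons, List.mem_append, List.mem_map] at hz
    rw [sz_cons]
    rcases hz with hz | ⟨y, hy, rfl⟩
    · have := ih z hz
      omega
    · have := ih y hy
      rw [sz_cons]
      omega

private theorem TtB_pf_sub {γ : Type} [ToD γ] (k : ℕ) {l : γ → List ℕ} (hl : PF l) :
    PF (fun c => subL ((l c).take k)) := by
  obtain ⟨L, hL⟩ := hl.bound
  have h : PF (fun c => ((l c).take k).foldr
      (fun (a : ℕ) (s : List (List ℕ)) => s ++ s.map fun z => a :: z) [[]]) := by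
    refine pf_foldr (f := fun _ (a : ℕ) (s : List (List ℕ)) => s ++ s.map fun z => a :: z)
      (b := fun _ => [[]]) ?_ (PF.const [[]]) (pf_take (PF.const k) hl)
      (Polynomial.C (2 ^ k) * (L + 1) + 1) ?_
    · refine PF.append PF.id'.snd ?_
      refine PF.map (g := fun (x : (γ × ℕ) × List (List ℕ)) z => x.1.2 :: z) ?_ PF.id'.snd
      exact PF.cons PF.id'.fst.fst.snd PF.id'.snd
    · intro c l' hl'
      have h1 : sz l' ≤ L.eval (sz c) := by
        obtain ⟨t, ht⟩ := hl'
        have h2 := sz_append t l'
        rw [ht] at h2
        have h3 := sz_pos t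
        have h4 := sz_take (l c) k
        have h5 := hL c
        omega
      have h2 : l'.length ≤ k := hl'.length_le.trans (List.length_take_le _ _)
      have h3 : (subL l').length ≤ 2 ^ k := by
        rw [TtB_sub_len]
        exact Nat.pow_le_pow_right (by norm_num) h2
      have h4 := sz_le_length (subL l') (L.eval (sz c))
        (fun z hz => (TtB_sub_sz l' z hz).trans h1)
      have h5 : (subL l').length * (L.eval (sz c) + 1) ≤ 2 ^ k * (L.eval (sz c) + 1) :=
        Nat.mul_le_mul_right _ h3
      have h6 : (Polynomial.C (2 ^ k) * (L + 1) + 1 : Polynomial ℕ).eval (sz c) =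
          2 ^ k * (L.eval (sz c) + 1) + 1 := by
        simp
      rw [h6]
      change sz (subL l') ≤ _
      omega
  exact h

theorem tt_thr {k : ℕ} {A S : Set (List Bool)} (h : TtYesRed k A S) : ThrRed k A S := by
  classical
  obtain ⟨f, g, hf, hg, h⟩ := h
  have pf := pf_of_encL hf
  have pg := pf_of_verifier hg
  obtain ⟨G, hGdef⟩ : ∃ G : List Bool → List ℕ → Bool, ∀ x Z, G x Z =
    g (x, (List.range (f x).length).map fun i => Z.any fun j => decide (i = j)) := ⟨_, fun _ _ => rfl⟩
  have pG : PF (fun p : List Bool × List ℕ => G p.1 p.2) := by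
    have h1 : PF (fun p : List Bool × List ℕ => (List.range (f p.1).length).map
        fun i => p.2.any fun j => decide (i = j)) := by
      refine PF.map (g := fun (p : List Bool × List ℕ) i => p.2.any fun j => decide (i = j)) ?_
        (pf.comp PF.id'.fst).length.range
      refine PF.any (g := fun (q : (List Bool × List ℕ) × ℕ) j => decide (q.2 = j)) ?_
        PF.id'.fst.snd
      exact PF.natEq PF.id'.fst.snd PF.id'.snd
    exact (pg.comp (PF.id'.fst.pair h1)).cast (fun p => by rw [hGdef])
  let F : List Bool → List Query := fun x => (incL k (f x).length).flatMap fun Y =>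
    ((subL (Y.take k)).filter (G x)).map fun Z =>
      (decide ((Y.length - Z.length) % 2 = 0), Y.map fun i => (f x).getD i [])
  have hF : ∀ x, F x = ttQ k (f x).length (G x) (fun i => (f x).getD i []) := by
    intro x
    simp only [F, ttQ, List.flatMap]
    congr 1
    refine List.map_congr_left ?_
    intro Y hY
    rw [incL_mem] at hY
    rw [List.take_of_length_le hY.1]
  have pF : PF F := by
    refine PF.flatMap (g := fun x (Y : List ℕ) => ((subL (Y.take k)).filter (G x)).map fun Z =>
      (decide ((Y.length - Z.length) % 2 = 0), Y.map fun i => (f x).getD i [])) ?_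
      (pf_incL k pf.length)
    refine PF.map (g := fun (p : List Bool × List ℕ) (Z : List ℕ) =>
      (decide ((p.2.length - Z.length) % 2 = 0), p.2.map fun i => (f p.1).getD i [])) ?_ ?_
    · refine PF.pair ?_ ?_
      · exact PF.natEq (pf_mod (PF.id'.fst.snd.length.sub PF.id'.snd.length) (PF.const 2))
          (PF.const 0)
      · refine PF.map (g := fun (q : (List Bool × List ℕ) × List ℕ) i => (f q.1.1).getD i [])
          ?_ PF.id'.fst.snd
        exact pf_getD PF.id'.snd (PF.const []) (pf.comp PF.id'.fst.fst.fst)
    · refine PF.filter (g := fun (p : List Bool × List ℕ) Z => G p.1 Z) ?_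
        (TtB_pf_sub k PF.id'.snd)
      exact pG.comp (PF.id'.fst.fst.pair PF.id'.snd)
  refine ⟨F, toEncQ pF, ?_, ?_⟩
  · intro x q hq
    simp only [F, List.mem_flatMap, List.mem_map] at hq
    obtain ⟨Y, hY, Z, hZ, rfl⟩ := hq
    rw [incL_mem] at hY
    simpa using hY.1
  · intro x
    obtain ⟨h1, h2⟩ := h x
    rw [hF]
    obtain ⟨I, hIdef⟩ : ∃ I : List ℕ, I = (List.range (f x).length).filter
      (fun i => decide ((f x).getD i [] ∈ S)) := ⟨_, rfl⟩
    have hmem : ∀ i, i ∈ I ↔ i < (f x).length ∧ (f x).getD i [] ∈ S := by
      intro i
      rw [hIdef, List.mem_filter, List.mem_range, decide_eq_true_iff]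
    have hsorted : I.Pairwise (· < ·) := by
      rw [hIdef]
      exact List.Pairwise.filter _ List.pairwise_lt_range
    have hfx : (List.range (f x).length).map (fun i => (f x).getD i []) = f x := by
      refine List.ext_getElem (by simp) ?_
      intro i h3 h4
      simp [List.getD_eq_getElem?_getD, h4]
    have hlen : I.length ≤ k := by
      have h3 : ((f x).filter fun y => decide (y ∈ S)).length = I.length := by
        conv_lhs => rw [← hfx]
        rw [List.filter_map, List.length_map, hIdef]
        rfl
      omega
    rw [ttQ_weight S k (f x).length (G x) (fun i => (f x).getD i []) I hsorted hmem hlen]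
    have hG : G x I = g (x, (f x).map fun y => decide (y ∈ S)) := by
      rw [hGdef]
      congr 2
      conv_rhs => rw [← hfx]
      rw [List.map_map]
      refine List.map_congr_left ?_
      intro i hi
      rw [List.mem_range] at hi
      rw [Bool.eq_iff_iff, List.any_eq_true]
      simp only [Function.comp, decide_eq_true_iff]
      constructor
      · rintro ⟨j, hj, rfl⟩
        exact ((hmem i).1 hj).2
      · intro h3
        exact ⟨i, (hmem i).2 ⟨hi, h3⟩, rfl⟩
    rw [h2, ← hG]
    split_ifs with h3
    · simp [h3]
    · simp [h3]

end Pool.Agent.W_d799b0_h54
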