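import Pool.Agent.W_d799b0_h54.TurC
import Pool.Agent.W_d799b0_h54.TtB
import Pool.Agent.W_d799b0_h82.Cor2

/-!
# Threshold reductions are mixed; the converse directions

`thr_mix`: `f' x = (f x).map fun q => (if q.1 then 1 else -1, q.2)` (`pf_of_reduction`,
`toEncW`).
`InP.all`: `InP.red` (Cor2) gives `DisjRed A {[]}`, `DisjRed.thr` a threshold reduction of degree
`1`, `thr_mix`. `ManyOne`: `f x = [χ x]` and `L = {y | y.getD 0 false = true}` is in `LT1` with
`t = 0`, `w n i = if i = 0 then 1 else 0`. Oracle machines: halt at once with the verdict `χ x`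
(`toEncM`), oracle `∅`. Truth-table: no queries, `g (x, _) = χ x` (`toEncL`, `toVerifier`).
-/

set_option autoImplicit false

open Turing Computability

namespace Pool.Agent.W_d799b0_h54

open Pool.Agent.PolyTime Function
open Pool.Agent.W_d799b0_h82

open Classical in
private theorem FBack_wsum (S : Set (List Bool)) (L : List Query) :
    wsum S (L.map fun q => ((if q.1 then (1 : ℤ) else -1), q.2)) = weight S L := by
  unfold wsum weight
  rw [List.map_map]
  rfl

theorem thr_mix {k : ℕ} {A S : Set (List Bool)} (h : ThrRed k A S) : MixRed k A S := by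
  obtain ⟨f, hf, hk, hA⟩ := h
  have hp : PF f := pf_of_reduction hf
  refine ⟨fun x => (f x).map fun q => ((if q.1 then (1 : ℤ) else -1), q.2), toEncW ?_, ?_, ?_⟩
  · refine PF.map (g := fun (_ : List Bool) (q : Query) =>
      ((if q.1 then (1 : ℤ) else -1), q.2)) ?_ hp
    exact (PF.ite PF.snd'.fst (PF.const (1 : ℤ)) (PF.const (-1 : ℤ))).pair PF.snd'.snd
  · intro x q hq
    obtain ⟨r, hr, rfl⟩ := List.mem_map.1 hq
    refine ⟨hk x r hr, Or.inl ?_⟩
    show |(if r.1 then (1 : ℤ) else -1)| ≤ 1
    split <;> simp
  · intro x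
    rw [hA x, FBack_wsum]

theorem tally_single : Tally {([] : List Bool)} := by
  intro y hy b hb
  rw [Set.mem_singleton_iff] at hy
  subst hy
  simp at hb

theorem tally_empty : Tally (∅ : Set (List Bool)) := by
  intro y hy
  exact absurd hy (Set.notMem_empty y)

/-- the language used for many-one reductions -/
private def FBack_L : Set (List Bool) := {y | y.getD 0 false = true}

private theorem FBack_lt1 : LT1 FBack_L := by
  refine ⟨fun _ i => if i = 0 then 1 else 0, fun _ => 0, ?_⟩
  intro x
  show x.getD 0 false = true ↔ _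
  rcases x with _ | ⟨b, x⟩
  · simp
  · have h : ∑ i ∈ Finset.range (b :: x).length,
        (if (b :: x).getD i false then (if i = 0 then (1 : ℤ) else 0) else 0) =
        if b then 1 else 0 := by
      rw [List.length_cons, Finset.sum_range_succ', Finset.sum_eq_zero]
      · simp
      · intro i _
        simp
    rw [h]
    cases b <;> simp

private theorem FBack_machine {χ : List Bool → Bool} (h : PF χ) :
    Nonempty (TM2ComputableInPolyTime
      (encodingProd (encodingList Bool) (encodingList Bool)).encode encM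
      (fun c : List Bool × List Bool => ((false, χ c.1, []) : Move))) := by
  apply toEncM
  exact (PF.const false).pair ((h.comp PF.fst').pair (PF.const ([] : List Bool)))

private theorem FBack_answers (χ : List Bool → Bool) (x : List Bool) :
    Answers (fun c : List Bool × List Bool => ((false, χ c.1, []) : Move)) ∅ x [] := by
  refine ⟨?_, rfl⟩
  intro i hi
  exact absurd hi (Nat.not_lt_zero i)

theorem InP.all {A : Set (List Bool)} (h : InP A) :
    MixRed 1 A {[]} ∧ (∃ L, LT1 L ∧ ManyOne A L) ∧ TuringRed 0 A ∅ ∧ TuringYesRed 0 A ∅ ∧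
      TtYesRed 0 A ∅ := by
  have hred := InP.red h
  obtain ⟨χ, hχ, hA⟩ := h
  have h0 : PF χ := (PB.toPF (Poly.comp treeStr hχ : Poly en encodeBool χ))
  refine ⟨thr_mix (DisjRed.thr hred.1), ⟨FBack_L, FBack_lt1, fun x => [χ x], ?_, ?_⟩, ?_, ?_, ?_⟩
  · exact to_manyOne (h0.cons (PF.const ([] : List Bool)))
  · intro x
    rw [hA]
    rfl
  · refine ⟨0, _, FBack_machine h0, fun x => ⟨[], by simp, FBack_answers χ x, ?_, ?_⟩⟩
    · exact le_of_eq rfl
    · exact hA x
  · refine ⟨0, _, FBack_machine h0, fun x => ⟨[], by simp, FBack_answers χ x, ?_, ?_⟩⟩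
    · exact le_of_eq rfl
    · exact hA x
  · refine ⟨fun _ => [], fun c => χ c.1, toEncL (PF.const ([] : List (List Bool))),
      toVerifier (h0.comp PF.fst'), fun x => ⟨?_, ?_⟩⟩
    · exact le_of_eq rfl
    · exact hA x

end Pool.Agent.W_d799b0_h54
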