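import Pool.Agent.W_d799b0_h82.Defs

/-!
# Weighted threshold reductions, linear threshold functions, oracle machines: definitions
-/

set_option autoImplicit false

open Turing Computability

namespace Pool.Agent.W_d799b0_h54

open Pool.Agent.W_d799b0_h82

/-- A weighted query: an integer weight and a list of strings. It is satisfied by an oracle set if
all the strings are in the set. -/
abbrev WQuery := ℤ × List (List Bool)

open Classical in
/-- The sum of the weights of the satisfied queries. -/
noncomputable def wsum (S : Set (List Bool)) (L : List WQuery) : ℤ :=
  (L.map fun q => if ∀ y ∈ q.2, y ∈ S then q.1 else 0).sum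

/-- A list of weighted queries is written down query by query: a query is written as the sign of its
weight (`true` for negative), the binary digits of the absolute value of the weight (least
significant digit first), and its strings, each of them preceded by a separator. -/
def encW (L : List WQuery) : List Sym :=
  L.flatMap fun q => Sym.sign (decide (q.1 < 0)) ::
    (q.1.natAbs.bits.map Sym.bit ++ q.2.flatMap fun y => Sym.sep :: y.map Sym.bit)

/-- A string of ones. -/
def IsTally (y : List Bool) : Prop := ∀ b ∈ y, b = true

/-- A tally set contains only strings of ones. -/
def Tally (T : Set (List Bool)) : Prop := ∀ y ∈ T, IsTally y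

/-- `A` reduces to `S` by a polynomial-time mixed threshold reduction of degree `k`: in polynomial
time one computes from `x` a list of weighted queries, each of them asking for at most `k` strings;
the weights are `-1`, `0` or `1`, except that queries which ask for strings of ones only may have
arbitrary integer weights (written in binary); `x` is in `A` iff the sum of the weights of the
satisfied queries is positive. -/
def MixRed (k : ℕ) (A S : Set (List Bool)) : Prop :=
  ∃ f : List Bool → List WQuery,
    Nonempty (TM2ComputableInPolyTime (fun x : List Bool => x) encW f) ∧
    (∀ x, ∀ q ∈ f x, q.2.length ≤ k ∧ (|q.1| ≤ 1 ∨ ∀ y ∈ q.2, IsTally y)) ∧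
    ∀ x, x ∈ A ↔ 0 < wsum S (f x)

/-- `L` is decided by linear threshold gates: for every length `n` there are integer weights
`w n i` and an integer threshold `t n` such that a string `x` of length `n` is in `L` iff the sum of
the weights `w n i` over all `i` with `x i = 1` is greater than `t n`. There is no condition on how
the weights are found. -/
def LT1 (L : Set (List Bool)) : Prop :=
  ∃ (w : ℕ → ℕ → ℤ) (t : ℕ → ℤ), ∀ x : List Bool,
    x ∈ L ↔ t x.length < ∑ i ∈ Finset.range x.length, if x.getD i false then w x.length i else 0

/-- `A` is many-one reducible to `B`. -/
def ManyOne (A B : Set (List Bool)) : Prop :=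
  ∃ f : List Bool → List Bool,
    Nonempty (TM2ComputableInPolyTime (fun x : List Bool => x) (fun y : List Bool => y) f) ∧
    ∀ x, x ∈ A ↔ f x ∈ B

/-- A move of an oracle machine: `(true, b, q)`: the machine asks whether `q` is in the oracle and
predicts the answer `b`; `(false, b, _)`: the machine halts with the verdict `b`. -/
abbrev Move := Bool × Bool × List Bool

/-- A move is written as a string. -/
def encM (m : Move) : List Bool := m.1 :: m.2.1 :: m.2.2

/-- `a` is the complete list of the answers which the oracle `T` gives to the machine `F` on the
input `x`; the machine is given by its next move as a function of the input and of the answers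
received so far. -/
def Answers (F : List Bool × List Bool → Move) (T : Set (List Bool)) (x a : List Bool) : Prop :=
  (∀ i < a.length, (F (x, a.take i)).1 = true ∧
    (a.getD i false = true ↔ (F (x, a.take i)).2.2 ∈ T)) ∧ (F (x, a)).1 = false

/-- The number of wrong predictions. -/
def wrong (F : List Bool × List Bool → Move) (x a : List Bool) : ℕ :=
  ((List.range a.length).filter fun i => a.getD i false != (F (x, a.take i)).2.1).length

/-- `A` is accepted by a deterministic polynomial-time oracle machine with the oracle `T`, which
makes, on every input, at most `k` wrong predictions of the answers. -/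
def TuringRed (k : ℕ) (A T : Set (List Bool)) : Prop :=
  ∃ (t : Polynomial ℕ) (F : List Bool × List Bool → Move),
    Nonempty (TM2ComputableInPolyTime
      (encodingProd (encodingList Bool) (encodingList Bool)).encode encM F) ∧
    ∀ x, ∃ a : List Bool, a.length ≤ t.eval x.length ∧ Answers F T x a ∧ wrong F x a ≤ k ∧
      (x ∈ A ↔ (F (x, a)).2.1 = true)

/-- `A` is accepted by a deterministic polynomial-time oracle machine with the oracle `T`, which
gets, on every input, at most `k` answers `yes` (the predictions of the machine are ignored). -/
def TuringYesRed (k : ℕ) (A T : Set (List Bool)) : Prop :=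
  ∃ (t : Polynomial ℕ) (F : List Bool × List Bool → Move),
    Nonempty (TM2ComputableInPolyTime
      (encodingProd (encodingList Bool) (encodingList Bool)).encode encM F) ∧
    ∀ x, ∃ a : List Bool, a.length ≤ t.eval x.length ∧ Answers F T x a ∧ a.count true ≤ k ∧
      (x ∈ A ↔ (F (x, a)).2.1 = true)

open Classical in
/-- `A` is truth-table reducible to `S` with at most `k` answers `yes`: in polynomial time one
computes from `x` a list `f x` of strings, and from `x` and the list of the answers a verdict; on
every input at most `k` entries of the list are in `S`. -/
def TtYesRed (k : ℕ) (A S : Set (List Bool)) : Prop :=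
  ∃ (f : List Bool → List (List Bool)) (g : List Bool × List Bool → Bool),
    Nonempty (TM2ComputableInPolyTime (fun x : List Bool => x) encL f) ∧
    Nonempty (TM2ComputableInPolyTime
      (encodingProd (encodingList Bool) (encodingList Bool)).encode encodeBool g) ∧
    ∀ x, ((f x).filter fun y => decide (y ∈ S)).length ≤ k ∧
      (x ∈ A ↔ g (x, (f x).map fun y => decide (y ∈ S)) = true)

end Pool.Agent.W_d799b0_h54
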