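import Pool.Agent.W_d799b0_h54.FDefs
import Pool.Agent.W_d799b0_h54.VDefs
import Pool.Agent.W_d799b0_h82.PFun

/-!
# Vectors of lists of weighted queries: definitions

Tally labels (all strings are strings of ones) have one coordinate each. Other labels are mapped to
polynomials over the field with `p` elements; the coordinates are the pairs `(i, a)`, and the
coordinate of a label `Y` is the indicator of `hsh p Y i = a`.
-/

set_option autoImplicit false

namespace Pool.Agent.W_d799b0_h54

open Pool.Agent.PolyTime
open Pool.Agent.W_d799b0_h82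

/-- all strings are strings of ones -/
def tlB (Y : List (List Bool)) : Bool := Y.all fun y => y.all fun b => b

/-- the code of a tally label -/
def cdT (Λ : ℕ) (Y : List (List Bool)) : ℕ :=
  Y.foldr (fun y s => (y.length + 1) + (Λ + 2) * s) 0

/-- the value at `i` of the polynomial of the label `Y` -/
def hsh (p : ℕ) (Y : List (List Bool)) (i : ℕ) : ℕ := bB p (en Y ++ [true]) i

/-- the sum of the weights of the tally queries with code `j` -/
def gT (Λ : ℕ) (L : List WQuery) (j : ℕ) : ℤ :=
  (L.map fun q => if tlB q.2 && decide (cdT Λ q.2 = j) then q.1 else 0).sum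

/-- the sum of the weights of the other queries whose polynomial has the value `j % p` at `j / p` -/
def gH (p : ℕ) (L : List WQuery) (j : ℕ) : ℤ :=
  (L.map fun q => if !tlB q.2 && decide (hsh p q.2 (j / p) = j % p) then q.1 else 0).sum

/-- the vector -/
def vecW (c p d Λ : ℕ) (L : List WQuery) : List ℤ :=
  ((List.range d).map fun j => 2 * (c : ℤ) * p * gT Λ L j) ++
    (((List.range (p * p)).map fun j => 2 * (c : ℤ) * gH p L j) ++ [-((c : ℤ) * p)])

open Classical in
/-- the sum of the weights of the satisfied tally queries -/
noncomputable def wT (S : Set (List Bool)) (L : List WQuery) : ℤ :=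
  (L.map fun q => if tlB q.2 && decide (∀ y ∈ q.2, y ∈ S) then q.1 else 0).sum

open Classical in
/-- the sum of the weights of the other satisfied queries -/
noncomputable def wH (S : Set (List Bool)) (L : List WQuery) : ℤ :=
  (L.map fun q => if !tlB q.2 && decide (∀ y ∈ q.2, y ∈ S) then q.1 else 0).sum

/-- the lists of queries that occur -/
structure OkW (k Λ : ℕ) (L : List WQuery) : Prop where
  len : L.length ≤ Λ
  deg : ∀ q ∈ L, q.2.length ≤ k
  str : ∀ q ∈ L, ∀ y ∈ q.2, y.length ≤ Λ
  wt : ∀ q ∈ L, |q.1| ≤ 1 ∨ ∀ y ∈ q.2, IsTally y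

end Pool.Agent.W_d799b0_h54
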