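import Pool.Agent.W_d799b0_h54.FVec

/-!
# The tally coordinates

PROOF. `cdT_lt`: induction on the list of at most `k` strings of length at most `Λ`
(digits `y.length + 1 ≤ Λ + 1` in base `Λ + 2`). `cdT_inj`: the digits are positive, so the number of
digits and the lengths can be read off; strings of ones are determined by their length.
`tally_sum`: `aT j = 1` if some list `Y` of at most `k` strings of ones of length at most `Λ` with
`cdT Λ Y = j` is contained in `S`, otherwise `0`. Exchange the sums; for a tally query `q` of `L`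
only `j = cdT Λ q.2 < d` contributes, and `aT` of it is `1` iff all strings of `q.2` are in `S`
(`cdT_inj`).
-/

set_option autoImplicit false

namespace Pool.Agent.W_d799b0_h54

open Pool.Agent.W_d799b0_h82

theorem tlB_iff (Y : List (List Bool)) : tlB Y = true ↔ ∀ y ∈ Y, IsTally y := by
  simp only [tlB, IsTally, List.all_eq_true]

theorem cdT_lt (k Λ : ℕ) (Y : List (List Bool)) (hk : Y.length ≤ k)
    (hY : ∀ y ∈ Y, y.length ≤ Λ) : cdT Λ Y < (Λ + 2) ^ k := by
  induction Y generalizing k with
  | nil =>
    change 0 < (Λ + 2) ^ k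
    positivity
  | cons y Y ih =>
    obtain ⟨k, rfl⟩ : ∃ k', k = k' + 1 := by
      refine ⟨k - 1, ?_⟩
      rw [List.length_cons] at hk
      omega
    have h1 := ih k (by rw [List.length_cons] at hk; omega)
      (fun z hz => hY z (List.mem_cons_of_mem _ hz))
    have h2 := hY y List.mem_cons_self
    change (y.length + 1) + (Λ + 2) * cdT Λ Y < (Λ + 2) ^ (k + 1)
    have h3 : (Λ + 2) * (cdT Λ Y + 1) ≤ (Λ + 2) * (Λ + 2) ^ k :=
      Nat.mul_le_mul_left _ h1
    rw [pow_succ]
    nlinarith

theorem cdT_inj (Λ : ℕ) (Y Y' : List (List Bool)) (hY : ∀ y ∈ Y, y.length ≤ Λ)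
    (hY' : ∀ y ∈ Y', y.length ≤ Λ) (ht : ∀ y ∈ Y, IsTally y) (ht' : ∀ y ∈ Y', IsTally y)
    (h : cdT Λ Y = cdT Λ Y') : Y = Y' := by
  induction Y generalizing Y' with
  | nil =>
    cases Y' with
    | nil => rfl
    | cons y' Y' =>
      exfalso
      change 0 = (y'.length + 1) + (Λ + 2) * cdT Λ Y' at h
      omega
  | cons y Y ih =>
    cases Y' with
    | nil =>
      exfalso
      change (y.length + 1) + (Λ + 2) * cdT Λ Y = 0 at h
      omega
    | cons y' Y' =>
      change (y.length + 1) + (Λ + 2) * cdT Λ Y = (y'.length + 1) + (Λ + 2) * cdT Λ Y' at h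
      have h1 := hY y List.mem_cons_self
      have h2 := hY' y' List.mem_cons_self
      have h3 : y.length = y'.length := by
        have h4 := congrArg (· % (Λ + 2)) h
        simp only [Nat.add_mul_mod_self_left] at h4
        rw [Nat.mod_eq_of_lt (by omega), Nat.mod_eq_of_lt (by omega)] at h4
        omega
      have h4 : cdT Λ Y = cdT Λ Y' := by
        rw [h3] at h
        have h5 := Nat.add_left_cancel h
        exact Nat.eq_of_mul_eq_mul_left (by omega) h5
      have h5 : y = y' := by
        have e1 : y = List.replicate y.length true :=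
          List.eq_replicate_iff.2 ⟨rfl, ht y List.mem_cons_self⟩
        have e2 : y' = List.replicate y'.length true :=
          List.eq_replicate_iff.2 ⟨rfl, ht' y' List.mem_cons_self⟩
        rw [e1, e2, h3]
      rw [h5, ih Y' (fun z hz => hY z (List.mem_cons_of_mem _ hz))
        (fun z hz => hY' z (List.mem_cons_of_mem _ hz))
        (fun z hz => ht z (List.mem_cons_of_mem _ hz))
        (fun z hz => ht' z (List.mem_cons_of_mem _ hz)) h4]

theorem tally_sum (S : Set (List Bool)) (k Λ : ℕ) :
    ∃ aT : ℕ → ℤ, (∀ j, aT j = 0 ∨ aT j = 1) ∧ ∀ L : List WQuery, OkW k Λ L →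
      ∑ j ∈ Finset.range ((Λ + 2) ^ k), aT j * gT Λ L j = wT S L := by
  classical
  obtain ⟨aT, haT⟩ : ∃ aT : ℕ → ℤ, ∀ j, aT j = if (∃ Y : List (List Bool), Y.length ≤ k ∧
      (∀ y ∈ Y, y.length ≤ Λ) ∧ (∀ y ∈ Y, IsTally y) ∧ cdT Λ Y = j ∧ ∀ y ∈ Y, y ∈ S)
      then 1 else 0 := ⟨_, fun _ => rfl⟩
  refine ⟨aT, fun j => ?_, fun L hL => ?_⟩
  · rw [haT]
    split_ifs
    · exact Or.inr rfl
    · exact Or.inl rfl
  · have hdeg := hL.deg
    have hstr := hL.str
    clear hL
    induction L with
    | nil => simp [gT, wT]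
    | cons q L ih =>
      have ih' := ih (fun z hz => hdeg z (List.mem_cons_of_mem _ hz))
        (fun z hz => hstr z (List.mem_cons_of_mem _ hz))
      have h1 : ∀ j, gT Λ (q :: L) j =
          (if tlB q.2 && decide (cdT Λ q.2 = j) then q.1 else 0) + gT Λ L j := by
        intro j
        simp only [gT, List.map_cons, List.sum_cons]
      have h2 : wT S (q :: L) =
          (if tlB q.2 && decide (∀ y ∈ q.2, y ∈ S) then q.1 else 0) + wT S L := by
        simp only [wT, List.map_cons, List.sum_cons]
      rw [h2, ← ih']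
      simp only [h1, mul_add, Finset.sum_add_distrib]
      congr 1
      have hd := hdeg q List.mem_cons_self
      have hs := hstr q List.mem_cons_self
      by_cases ht : tlB q.2 = true
      · have htY := (tlB_iff q.2).1 ht
        have hlt := cdT_lt k Λ q.2 hd hs
        rw [Finset.sum_eq_single (cdT Λ q.2)]
        · have h3 : aT (cdT Λ q.2) = if (∀ y ∈ q.2, y ∈ S) then 1 else 0 := by
            rw [haT]
            by_cases h4 : ∀ y ∈ q.2, y ∈ S
            · rw [if_pos h4, if_pos ⟨q.2, hd, hs, htY, rfl, h4⟩]
            · rw [if_neg h4, if_neg]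
              rintro ⟨Y, _, a2, a3, a4, a5⟩
              apply h4
              rw [← cdT_inj Λ Y q.2 a2 hs a3 htY a4]
              exact a5
          rw [h3, ht]
          by_cases h4 : ∀ y ∈ q.2, y ∈ S
          · rw [if_pos h4, decide_eq_true h4, decide_eq_true rfl]
            simp
          · rw [if_neg h4, decide_eq_false h4]
            simp
        · intro j _ hj
          rw [decide_eq_false (fun h => hj h.symm)]
          simp
        · intro h
          exact absurd (Finset.mem_range.2 hlt) h
      · rw [Bool.not_eq_true] at ht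
        rw [ht]
        simp

end Pool.Agent.W_d799b0_h54
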