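import Pool.Agent.W_d799b0_h54.FVec
import Pool.Agent.W_d799b0_h54.FVecT
import Pool.Agent.W_d799b0_h82.HqA
import Pool.Agent.W_d799b0_h82.LinkA
import Pool.Agent.W_d799b0_h82.CountA
import Pool.Agent.W_d799b0_h82.NumB

/-!
# The other coordinates

PROOF. `hsh_agree`: the polynomials `bP p (en Y ++ [true])` (`bB_cast`; coefficients in `ZMod p`)
have leading coefficient `1` in degree `(en Y).length`, so they are different for different labels
(different lengths: different degrees; the same length: `bP_inj`, and `en` is injective,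
`en_injective`, with the instance `Inj (List (List Bool))` of PFun); their difference has degree
at most `lam - 1`, so at most `lam` roots (`Polynomial.card_roots'`). The values `hsh p Y i < p`.
`hash_sum`: `wgt j = #{Y ∈ R | hsh p Y (j / p) = j % p}`. For a query `q` (not tally):
`∑ j < p², wgt j [hsh p q.2 (j / p) = j % p] = ∑ i < p, #{Y ∈ R | hsh p Y i = hsh p q.2 i}
 = ∑ Y ∈ R, #{i < p | hsh p Y i = hsh p q.2 i} = p [q.2 ∈ R] + err`, `0 ≤ err ≤ card R * lam`.
(`j ↦ (j / p, j % p)` is a bijection of `range (p * p)` with `range p ×ˢ range p`.)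
Sum over the queries with the weights `q.1`, `|q.1| ≤ 1` (`OkW.wt`: a query that is not tally has
weight at most one), number of queries at most `Λ`; `q.2 ∈ R` iff all strings are in `S`.
Label sizes: `(en Y).length = sz Y ≤ k (4 Λ + 2) + 1`.
-/

set_option autoImplicit false

namespace Pool.Agent.W_d799b0_h54

open Pool.Agent.PolyTime
open Pool.Agent.W_d799b0_h82

theorem FVecH_coeff (p : ℕ) (B : List Bool) :
    (bP p (B ++ [true])).coeff B.length = 1 := by
  unfold bP
  rw [NumA_coeff, List.map_append, List.getD_append_right _ _ _ _ (by simp)]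
  simp

theorem FVecH_inj (p : ℕ) [Fact p.Prime] (B B' : List Bool)
    (h : bP p (B ++ [true]) = bP p (B' ++ [true])) : B = B' := by
  have aux : ∀ A A' : List Bool, bP p (A ++ [true]) = bP p (A' ++ [true]) →
      A.length ≤ A'.length := by
    intro A A' hh
    by_contra hlt
    have h1 := FVecH_coeff p A
    rw [hh] at h1
    unfold bP at h1
    rw [NumA_coeff, List.getD_eq_default _ _ (by simp; omega)] at h1
    simp at h1
  have hl : B.length = B'.length := le_antisymm (aux B B' h) (aux B' B h.symm)
  have h2 := bP_inj p (B ++ [true]) (B' ++ [true]) (by simp [hl]) h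
  exact (List.append_inj' h2 rfl).1

theorem hsh_agree (p lam : ℕ) (hp : p.Prime) (Y Y' : List (List Bool)) (hne : Y ≠ Y')
    (hY : (en Y).length + 1 ≤ lam) (hY' : (en Y').length + 1 ≤ lam) :
    ((Finset.range p).filter fun i => hsh p Y i = hsh p Y' i).card ≤ lam := by
  classical
  have : Fact p.Prime := ⟨hp⟩
  set P : Polynomial (ZMod p) := bP p (en Y ++ [true]) - bP p (en Y' ++ [true]) with hP
  have hP0 : P ≠ 0 := by
    intro h0
    rw [hP, sub_eq_zero] at h0
    exact hne (en_injective (FVecH_inj p _ _ h0))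
  have hdeg : P.degree < lam := by
    rw [hP]
    refine lt_of_le_of_lt (Polynomial.degree_sub_le _ _) (max_lt ?_ ?_)
    · refine lt_of_lt_of_le (bP_degree p _) ?_
      rw [List.length_append, List.length_singleton]
      exact_mod_cast hY
    · refine lt_of_lt_of_le (bP_degree p _) ?_
      rw [List.length_append, List.length_singleton]
      exact_mod_cast hY'
  have hnat : P.natDegree < lam := by
    rwa [Polynomial.natDegree_lt_iff_degree_lt hP0]
  have h1 : ((Finset.range p).filter fun i => hsh p Y i = hsh p Y' i).card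
      ≤ P.roots.toFinset.card := by
    refine Finset.card_le_card_of_injOn (fun i => (i : ZMod p)) ?_ ?_
    · intro i hi
      rw [Finset.mem_coe, Finset.mem_filter] at hi
      rw [Finset.mem_coe, Multiset.mem_toFinset, Polynomial.mem_roots hP0, Polynomial.IsRoot.def, hP,
        Polynomial.eval_sub, ← bB_cast, ← bB_cast]
      have h2 : bB p (en Y ++ [true]) i = bB p (en Y' ++ [true]) i := hi.2
      rw [h2, sub_self]
    · intro i hi j hj hij
      rw [Finset.mem_coe, Finset.mem_filter, Finset.mem_range] at hi hj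
      have h3 : (i : ZMod p) = (j : ZMod p) := hij
      rw [ZMod.natCast_eq_natCast_iff'] at h3
      rwa [Nat.mod_eq_of_lt hi.1, Nat.mod_eq_of_lt hj.1] at h3
  refine h1.trans ((Multiset.toFinset_card_le _).trans ((Polynomial.card_roots' P).trans hnat.le))

theorem sz_label (k Λ : ℕ) (Y : List (List Bool)) (hk : Y.length ≤ k)
    (hY : ∀ y ∈ Y, y.length ≤ Λ) : (en Y).length + 1 ≤ k * (4 * Λ + 2) + 2 := by
  rw [sz_eq_en]
  have h1 : sz Y ≤ Y.length * (4 * Λ + 1 + 1) + 1 := by
    refine sz_le_length Y _ ?_
    intro y hy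
    refine (sz_le_length y 3 (fun b _ => sz_bool b)).trans ?_
    have := hY y hy
    omega
  have h2 : Y.length * (4 * Λ + 1 + 1) ≤ k * (4 * Λ + 1 + 1) := Nat.mul_le_mul_right _ hk
  have h3 : k * (4 * Λ + 1 + 1) = k * (4 * Λ + 2) := by ring
  omega

theorem FVecH_range (p : ℕ) (hp : 0 < p) (f : ℕ → ℕ → ℤ) :
    ∑ j ∈ Finset.range (p * p), f (j / p) (j % p)
      = ∑ i ∈ Finset.range p, ∑ a ∈ Finset.range p, f i a := by
  rw [← Finset.sum_product']
  refine Finset.sum_nbij' (fun j => (j / p, j % p)) (fun x => x.1 * p + x.2) ?_ ?_ ?_ ?_ ?_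
  · intro j hj
    rw [Finset.mem_range] at hj
    rw [Finset.mem_product, Finset.mem_range, Finset.mem_range]
    exact ⟨Nat.div_lt_of_lt_mul hj, Nat.mod_lt _ hp⟩
  · rintro ⟨i, a⟩ hx
    rw [Finset.mem_product, Finset.mem_range, Finset.mem_range] at hx
    rw [Finset.mem_range]
    simp only at hx ⊢
    calc i * p + a < i * p + p := by omega
      _ = (i + 1) * p := by ring
      _ ≤ p * p := Nat.mul_le_mul_right _ hx.1
  · intro j _
    simp only
    rw [mul_comm]
    exact Nat.div_add_mod j p
  · rintro ⟨i, a⟩ hx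
    rw [Finset.mem_product, Finset.mem_range, Finset.mem_range] at hx
    simp only at hx ⊢
    rw [Prod.mk.injEq]
    constructor
    · rw [mul_comm, Nat.mul_add_div hp, Nat.div_eq_of_lt hx.2, add_zero]
    · rw [mul_comm, Nat.mul_add_mod, Nat.mod_eq_of_lt hx.2]
  · intro j _
    rfl

/-- the number of agreements -/
def FVecH_cnt (p : ℕ) (Y Y' : List (List Bool)) : ℕ :=
  ((Finset.range p).filter fun i => hsh p Y i = hsh p Y' i).card

/-- the weights -/
def FVecH_wgt (p : ℕ) (R : Finset (List (List Bool))) (j : ℕ) : ℤ :=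
  ((R.filter fun Y => hsh p Y (j / p) = j % p).card : ℤ)

theorem FVecH_double (p : ℕ) (hp : 0 < p) (R : Finset (List (List Bool))) (Z : List (List Bool)) :
    ∑ j ∈ Finset.range (p * p), FVecH_wgt p R j * (if hsh p Z (j / p) = j % p then 1 else 0)
      = ∑ Y ∈ R, (FVecH_cnt p Y Z : ℤ) := by
  have h1 := FVecH_range p hp (fun i a => ((R.filter fun Y => hsh p Y i = a).card : ℤ) *
    (if hsh p Z i = a then 1 else 0))
  unfold FVecH_wgt
  rw [h1]
  have h2 : ∀ i ∈ Finset.range p, ∑ a ∈ Finset.range p,
      ((R.filter fun Y => hsh p Y i = a).card : ℤ) * (if hsh p Z i = a then 1 else 0)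
      = ∑ Y ∈ R, (if hsh p Y i = hsh p Z i then (1 : ℤ) else 0) := by
    intro i _
    have hlt : hsh p Z i ∈ Finset.range p := Finset.mem_range.mpr (ev_lt _ hp _ _)
    simp only [mul_ite, mul_one, mul_zero]
    rw [Finset.sum_ite_eq, if_pos hlt, Finset.card_filter]
    push_cast
    rfl
  rw [Finset.sum_congr rfl h2, Finset.sum_comm]
  refine Finset.sum_congr rfl fun Y _ => ?_
  unfold FVecH_cnt
  rw [Finset.card_filter]
  push_cast
  rfl

theorem FVecH_self (p : ℕ) (Y : List (List Bool)) : FVecH_cnt p Y Y = p := by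
  unfold FVecH_cnt
  simp

theorem FVecH_query (p lam K : ℕ) (hp : p.Prime) (R : Finset (List (List Bool)))
    (hK : R.card ≤ K) (hR : ∀ Y ∈ R, (en Y).length + 1 ≤ lam) (Z : List (List Bool))
    (hZ : (en Z).length + 1 ≤ lam) :
    |∑ j ∈ Finset.range (p * p), FVecH_wgt p R j * (if hsh p Z (j / p) = j % p then 1 else 0)
      - p * (if Z ∈ R then 1 else 0)| ≤ (K * lam : ℕ) := by
  classical
  rw [FVecH_double p hp.pos]
  have h0 : ∑ Y ∈ R, (FVecH_cnt p Y Z : ℤ) - p * (if Z ∈ R then 1 else 0)
      = ∑ Y ∈ R, (if Y = Z then (0 : ℤ) else FVecH_cnt p Y Z) := by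
    have h1 : (p : ℤ) * (if Z ∈ R then 1 else 0) = ∑ Y ∈ R, (if Y = Z then (p : ℤ) else 0) := by
      rw [Finset.sum_ite_eq']
      split_ifs <;> simp
    rw [h1, ← Finset.sum_sub_distrib]
    refine Finset.sum_congr rfl fun Y _ => ?_
    by_cases h : Y = Z
    · rw [if_pos h, if_pos h, h, FVecH_self, sub_self]
    · rw [if_neg h, if_neg h, sub_zero]
  rw [h0, abs_of_nonneg (Finset.sum_nonneg fun Y _ => by split_ifs <;> positivity)]
  calc ∑ Y ∈ R, (if Y = Z then (0 : ℤ) else FVecH_cnt p Y Z)
      ≤ ∑ Y ∈ R, (lam : ℤ) := by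
        refine Finset.sum_le_sum fun Y hY => ?_
        by_cases h : Y = Z
        · rw [if_pos h]; positivity
        · rw [if_neg h]
          have := hsh_agree p lam hp Y Z h (hR Y hY) hZ
          unfold FVecH_cnt
          exact_mod_cast this
    _ = (R.card : ℤ) * lam := by rw [Finset.sum_const, nsmul_eq_mul]
    _ ≤ (K * lam : ℕ) := by
        push_cast
        have : (R.card : ℤ) ≤ K := by exact_mod_cast hK
        exact mul_le_mul_of_nonneg_right this (by positivity)

theorem hash_sum (S : Set (List Bool)) (k Λ K p : ℕ) (hp : p.Prime)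
    (R : Finset (List (List Bool))) (hK : R.card ≤ K)
    (hR1 : ∀ Y ∈ R, (∀ y ∈ Y, y ∈ S) ∧ Y.length ≤ k ∧ ∀ y ∈ Y, y.length ≤ Λ)
    (hR2 : ∀ Y : List (List Bool), Y.length ≤ k → (∀ y ∈ Y, y.length ≤ Λ) →
      (∀ y ∈ Y, y ∈ S) → Y ∈ R) :
    ∃ wgt : ℕ → ℤ, (∀ j, 0 ≤ wgt j ∧ wgt j ≤ K) ∧ ∀ L : List WQuery, OkW k Λ L →
      |∑ j ∈ Finset.range (p * p), wgt j * gH p L j - p * wH S L| ≤
        (Λ * K * (k * (4 * Λ + 2) + 2) : ℕ) := by
  classical
  refine ⟨FVecH_wgt p R, ?_, ?_⟩
  · intro j
    unfold FVecH_wgt
    refine ⟨by positivity, ?_⟩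
    exact_mod_cast (Finset.card_filter_le _ _).trans hK
  · intro L hL
    set lam := k * (4 * Λ + 2) + 2 with hlam
    have hRl : ∀ Y ∈ R, (en Y).length + 1 ≤ lam := fun Y hY =>
      sz_label k Λ Y (hR1 Y hY).2.1 (hR1 Y hY).2.2
    have key : ∀ M : List WQuery, (∀ q ∈ M, q.2.length ≤ k) →
        (∀ q ∈ M, ∀ y ∈ q.2, y.length ≤ Λ) → (∀ q ∈ M, |q.1| ≤ 1 ∨ ∀ y ∈ q.2, IsTally y) →
        |∑ j ∈ Finset.range (p * p), FVecH_wgt p R j * gH p M j - p * wH S M|
          ≤ (M.length : ℤ) * (K * lam : ℕ) := by
      intro M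
      induction M with
      | nil =>
        intro _ _ _
        simp [gH, wH]
      | cons q M ih =>
        intro h1 h2 h3
        have ihM := ih (fun q hq => h1 q (List.mem_cons_of_mem _ hq))
          (fun q hq => h2 q (List.mem_cons_of_mem _ hq))
          (fun q hq => h3 q (List.mem_cons_of_mem _ hq))
        have hq1 := h1 q List.mem_cons_self
        have hq2 := h2 q List.mem_cons_self
        have hq3 := h3 q List.mem_cons_self
        have hg : ∀ j, gH p (q :: M) j =
            (if !tlB q.2 && decide (hsh p q.2 (j / p) = j % p) then q.1 else 0) + gH p M j := by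
          intro j
          unfold gH
          rw [List.map_cons, List.sum_cons]
        have hw : wH S (q :: M) =
            (if !tlB q.2 && decide (∀ y ∈ q.2, y ∈ S) then q.1 else 0) + wH S M := by
          unfold wH
          rw [List.map_cons, List.sum_cons]
        have hone : |∑ j ∈ Finset.range (p * p), FVecH_wgt p R j *
            (if !tlB q.2 && decide (hsh p q.2 (j / p) = j % p) then q.1 else 0)
            - p * (if !tlB q.2 && decide (∀ y ∈ q.2, y ∈ S) then q.1 else 0)|
            ≤ (K * lam : ℕ) := by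
          cases ht : tlB q.2 with
          | true =>
            simp only [Bool.not_true, Bool.false_and, Bool.false_eq_true, if_false, mul_zero,
              Finset.sum_const_zero, sub_zero, abs_zero]
            positivity
          | false =>
            have hw1 : |q.1| ≤ 1 := by
              rcases hq3 with h | h
              · exact h
              · rw [← tlB_iff, ht] at h
                exact absurd h (by simp)
            have hmem : (∀ y ∈ q.2, y ∈ S) ↔ q.2 ∈ R :=
              ⟨fun h => hR2 q.2 hq1 hq2 h, fun h => (hR1 q.2 h).1⟩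
            have hq := FVecH_query p lam K hp R hK hRl q.2 (sz_label k Λ q.2 hq1 hq2)
            have e1 : ∑ j ∈ Finset.range (p * p), FVecH_wgt p R j *
                (if !false && decide (hsh p q.2 (j / p) = j % p) then q.1 else 0)
                - p * (if !false && decide (∀ y ∈ q.2, y ∈ S) then q.1 else 0)
                = q.1 * (∑ j ∈ Finset.range (p * p), FVecH_wgt p R j *
                  (if hsh p q.2 (j / p) = j % p then 1 else 0)
                  - p * (if q.2 ∈ R then 1 else 0)) := by
              rw [mul_sub, Finset.mul_sum]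
              congr 1
              · refine Finset.sum_congr rfl fun j _ => ?_
                simp only [Bool.not_false, Bool.true_and, decide_eq_true_eq]
                split_ifs <;> ring
              · simp only [Bool.not_false, Bool.true_and, decide_eq_true_eq]
                by_cases h : q.2 ∈ R
                · rw [if_pos (hmem.mpr h), if_pos h]; ring
                · rw [if_neg (fun hh => h (hmem.mp hh)), if_neg h]; ring
            rw [e1, abs_mul]
            calc |q.1| * _ ≤ 1 * (K * lam : ℕ) := mul_le_mul hw1 hq (abs_nonneg _) (by norm_num)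
              _ = _ := one_mul _
        have e2 : ∑ j ∈ Finset.range (p * p), FVecH_wgt p R j * gH p (q :: M) j
              - p * wH S (q :: M)
            = (∑ j ∈ Finset.range (p * p), FVecH_wgt p R j *
              (if !tlB q.2 && decide (hsh p q.2 (j / p) = j % p) then q.1 else 0)
              - p * (if !tlB q.2 && decide (∀ y ∈ q.2, y ∈ S) then q.1 else 0))
            + (∑ j ∈ Finset.range (p * p), FVecH_wgt p R j * gH p M j - p * wH S M) := by
          simp only [hg, hw, mul_add, Finset.sum_add_distrib]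
          ring
        rw [e2, List.length_cons]
        refine (abs_add_le _ _).trans ?_
        push_cast at hone ihM ⊢
        linarith
    refine (key L hL.deg hL.str hL.wt).trans ?_
    push_cast
    have h5 : (L.length : ℤ) ≤ Λ := by exact_mod_cast hL.len
    rw [mul_assoc]
    refine mul_le_mul_of_nonneg_right h5 ?_
    positivity

end Pool.Agent.W_d799b0_h54
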