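import Pool.Agent.W_d799b0_h54.FVecT
import Pool.Agent.W_d799b0_h54.FVecH
import Pool.Agent.W_d799b0_h82.Labels

/-!
# The vectors separate

PROOF. `w i = aT i` for `i < d = (Λ + 2) ^ k`, `w (d + j) = wgt j` for `j < p²`, `w (d + p²) = 1`.
`∑ w_i v_i = c (2 (p wT + ∑ wgt gH) - p) = c (2 p W - p + 2 err)`, `W = wsum S L = wT + wH`,
`|err| ≤ Λ K λ < p / 2`. If `0 < W` it is at least `c (p - 2 |err|) ≥ c`, otherwise at most
`- c (p - 2 |err|) ≤ - c`. And `∑ w² ≤ d + p² K² + 1 ≤ c ≤ c²`.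
`R` from `exists_labels` (Labels; filter the labels with at most `k` strings of length at most `Λ`
contained in `S`).
-/

set_option autoImplicit false

namespace Pool.Agent.W_d799b0_h54

open Pool.Agent.W_d799b0_h82

theorem wsum_eq_add (S : Set (List Bool)) (L : List WQuery) : wsum S L = wT S L + wH S L := by
  classical
  unfold wsum wT wH
  induction L with
  | nil => simp
  | cons q L ih =>
    simp only [List.map_cons, List.sum_cons]
    rw [ih]
    have h : (if ∀ y ∈ q.2, y ∈ S then q.1 else 0) =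
        (if (tlB q.2 && decide (∀ y ∈ q.2, y ∈ S)) = true then q.1 else 0) +
        (if (!tlB q.2 && decide (∀ y ∈ q.2, y ∈ S)) = true then q.1 else 0) := by
      by_cases h1 : ∀ y ∈ q.2, y ∈ S
      · cases h2 : tlB q.2 <;> simp [h1]
      · cases h2 : tlB q.2 <;> simp [h1]
    rw [h]
    ring

theorem cd_vecW_lt (c p d Λ : ℕ) (L : List WQuery) (i : ℕ) (hi : i < d) :
    cd (vecW c p d Λ L) i = 2 * (c : ℤ) * p * gT Λ L i := by
  unfold cd vecW
  rw [List.getD_append _ _ _ _ (by simpa using hi)]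
  simp [List.getD_eq_getElem?_getD, hi]

theorem cd_vecW_mid (c p d Λ : ℕ) (L : List WQuery) (j : ℕ) (hj : j < p * p) :
    cd (vecW c p d Λ L) (d + j) = 2 * (c : ℤ) * gH p L j := by
  unfold cd vecW
  rw [List.getD_append_right _ _ _ _ (by simp)]
  have h : d + j - ((List.range d).map fun j => 2 * (c : ℤ) * p * gT Λ L j).length = j := by
    simp
  rw [h, List.getD_append _ _ _ _ (by simpa using hj)]
  simp [List.getD_eq_getElem?_getD, hj]

theorem cd_vecW_last (c p d Λ : ℕ) (L : List WQuery) :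
    cd (vecW c p d Λ L) (d + p * p) = -((c : ℤ) * p) := by
  unfold cd vecW
  rw [List.getD_append_right _ _ _ _ (by simp)]
  have h : d + p * p - ((List.range d).map fun j => 2 * (c : ℤ) * p * gT Λ L j).length = p * p := by
    simp
  rw [h, List.getD_append_right _ _ _ _ (by simp)]
  simp

theorem vecW_sep (S : Set (List Bool)) (k Λ s K p c : ℕ)
    (hs : {y | y ∈ S ∧ y.length ≤ Λ}.ncard ≤ s) (hK : (s + 1) ^ k ≤ K) (hp : p.Prime)
    (hpl : 2 * (Λ * K * (k * (4 * Λ + 2) + 2)) < p)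
    (hc : (Λ + 2) ^ k + p * p * K ^ 2 + 1 ≤ c) :
    ∃ w : ℕ → ℤ, 0 < ∑ i ∈ Finset.range ((Λ + 2) ^ k + p * p + 1), w i ^ 2 ∧
      ∀ L : List WQuery, OkW k Λ L →
        (0 < wsum S L ↔ 0 < ∑ i ∈ Finset.range ((Λ + 2) ^ k + p * p + 1),
          w i * cd (vecW c p ((Λ + 2) ^ k) Λ L) i) ∧
        ∑ i ∈ Finset.range ((Λ + 2) ^ k + p * p + 1), w i ^ 2 ≤
          (∑ i ∈ Finset.range ((Λ + 2) ^ k + p * p + 1),
            w i * cd (vecW c p ((Λ + 2) ^ k) Λ L) i) ^ 2 := by
  classical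
  obtain ⟨R0, hR0, hR01, hR02⟩ := exists_labels S k Λ s hs
  obtain ⟨wgt, hw1, hw2⟩ := hash_sum S k Λ K p hp
    (R0.filter fun Y => Y.length ≤ k ∧ ∀ y ∈ Y, y.length ≤ Λ)
    (((Finset.card_filter_le _ _).trans hR0).trans hK)
    (fun Y hY => by
      rw [Finset.mem_filter] at hY
      exact ⟨hR01 Y hY.1, hY.2.1, hY.2.2⟩)
    (fun Y h1 h2 h3 => by
      rw [Finset.mem_filter]
      exact ⟨hR02 Y h1 h2 h3, h1, h2⟩)
  obtain ⟨aT, ha1, ha2⟩ := tally_sum S k Λ
  generalize hd : (Λ + 2) ^ k = d at *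
  set w : ℕ → ℤ := fun i => if i < d then aT i else if i < d + p * p then wgt (i - d) else 1
    with hwdef
  have wlt : ∀ i, i < d → w i = aT i := fun i hi => by
    simp only [hwdef]
    rw [if_pos hi]
  have wmid : ∀ j, j < p * p → w (d + j) = wgt j := fun j hj => by
    simp only [hwdef]
    rw [if_neg (by omega), if_pos (by omega), Nat.add_sub_cancel_left]
  have wlast : w (d + p * p) = 1 := by
    simp only [hwdef]
    rw [if_neg (by omega), if_neg (by omega)]
  have split : ∀ F : ℕ → ℤ, ∑ i ∈ Finset.range (d + p * p + 1), F i =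
      ∑ i ∈ Finset.range d, F i + ∑ j ∈ Finset.range (p * p), F (d + j) + F (d + p * p) := by
    intro F
    rw [Finset.sum_range_succ, Finset.sum_range_add]
  have hsq : ∑ i ∈ Finset.range (d + p * p + 1), w i ^ 2 ≤ (c : ℤ) := by
    rw [split]
    have h1 : ∑ i ∈ Finset.range d, w i ^ 2 ≤ (d : ℤ) := by
      calc ∑ i ∈ Finset.range d, w i ^ 2 ≤ ∑ i ∈ Finset.range d, (1 : ℤ) :=
            Finset.sum_le_sum fun i hi => by
              rw [wlt i (Finset.mem_range.1 hi)]
              rcases ha1 i with h | h <;> rw [h] <;> norm_num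
        _ = d := by simp
    have h2 : ∑ j ∈ Finset.range (p * p), w (d + j) ^ 2 ≤ ((p * p * K ^ 2 : ℕ) : ℤ) := by
      calc ∑ j ∈ Finset.range (p * p), w (d + j) ^ 2
          ≤ ∑ j ∈ Finset.range (p * p), ((K : ℤ) ^ 2) :=
            Finset.sum_le_sum fun j hj => by
              rw [wmid j (Finset.mem_range.1 hj)]
              exact pow_le_pow_left₀ (hw1 j).1 (hw1 j).2 2
        _ = ((p * p * K ^ 2 : ℕ) : ℤ) := by simp
    rw [wlast]
    have h3 : ((d + p * p * K ^ 2 + 1 : ℕ) : ℤ) ≤ (c : ℤ) := by exact_mod_cast hc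
    push_cast at h2 h3
    linarith
  have hpos : 0 < ∑ i ∈ Finset.range (d + p * p + 1), w i ^ 2 := by
    have h1 : w (d + p * p) ^ 2 ≤ ∑ i ∈ Finset.range (d + p * p + 1), w i ^ 2 :=
      Finset.single_le_sum (f := fun i => w i ^ 2) (fun i _ => sq_nonneg _)
        (Finset.mem_range.2 (Nat.lt_succ_self _))
    rw [wlast] at h1
    linarith
  have hc1 : (1 : ℤ) ≤ c := by
    have : 1 ≤ c := by omega
    exact_mod_cast this
  refine ⟨w, hpos, fun L hL => ?_⟩
  have hT := ha2 L hL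
  have hH := hw2 L hL
  have hsum : ∑ i ∈ Finset.range (d + p * p + 1), w i * cd (vecW c p d Λ L) i =
      c * (2 * (p * wT S L + ∑ j ∈ Finset.range (p * p), wgt j * gH p L j) - p) := by
    rw [split]
    have h1 : ∑ i ∈ Finset.range d, w i * cd (vecW c p d Λ L) i = 2 * c * p * wT S L := by
      rw [← hT, Finset.mul_sum]
      refine Finset.sum_congr rfl fun i hi => ?_
      rw [wlt i (Finset.mem_range.1 hi), cd_vecW_lt c p d Λ L i (Finset.mem_range.1 hi)]
      ring
    have h2 : ∑ j ∈ Finset.range (p * p), w (d + j) * cd (vecW c p d Λ L) (d + j) =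
        2 * c * ∑ j ∈ Finset.range (p * p), wgt j * gH p L j := by
      rw [Finset.mul_sum]
      refine Finset.sum_congr rfl fun j hj => ?_
      rw [wmid j (Finset.mem_range.1 hj), cd_vecW_mid c p d Λ L j (Finset.mem_range.1 hj)]
      ring
    rw [h1, h2, wlast, cd_vecW_last]
    ring
  rw [hsum, wsum_eq_add]
  set Sg : ℤ := ∑ j ∈ Finset.range (p * p), wgt j * gH p L j with hSg
  have hb := abs_le.1 hH
  have hE : 2 * ((Λ * K * (k * (4 * Λ + 2) + 2) : ℕ) : ℤ) + 1 ≤ (p : ℤ) := by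
    have : 2 * (Λ * K * (k * (4 * Λ + 2) + 2)) + 1 ≤ p := hpl
    exact_mod_cast this
  generalize ((Λ * K * (k * (4 * Λ + 2) + 2) : ℕ) : ℤ) = E at hb hE
  have hp0 : (0 : ℤ) < p := by exact_mod_cast hp.pos
  by_cases hW : 0 < wT S L + wH S L
  · have h1 : (1 : ℤ) ≤ 2 * (p * wT S L + Sg) - p := by
      have h2 : (p : ℤ) * 1 ≤ p * (wT S L + wH S L) := mul_le_mul_of_nonneg_left hW hp0.le
      have h3 := hb.1
      nlinarith
    have h4 : (c : ℤ) * 1 ≤ c * (2 * (p * wT S L + Sg) - p) :=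
      mul_le_mul_of_nonneg_left h1 (by linarith)
    refine ⟨⟨fun _ => by linarith, fun _ => hW⟩, hsq.trans ?_⟩
    nlinarith
  · have h1 : 2 * (p * wT S L + Sg) - p ≤ (-1 : ℤ) := by
      have h2 : (p : ℤ) * (wT S L + wH S L) ≤ p * 0 :=
        mul_le_mul_of_nonneg_left (not_lt.1 hW) hp0.le
      have h3 := hb.2
      nlinarith
    have h4 : (c : ℤ) * (2 * (p * wT S L + Sg) - p) ≤ c * (-1) :=
      mul_le_mul_of_nonneg_left h1 (by linarith)
    refine ⟨⟨fun h => absurd h hW, fun h => by linarith⟩, hsq.trans ?_⟩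
    nlinarith

end Pool.Agent.W_d799b0_h54
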