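import Mathlib

/-!
# Three inequalities in inner product spaces

`U` is the index set, `n = card U`, `y u` vectors with `n ‖y u‖² ≤ β`, `T` the indices that are
kept (`y u = 0` otherwise), `x u = ⟪a, y u⟫`.
`spread`: `|x u| ≤ ‖a‖ ‖y u‖`, so `∑ x u ² ≤ (max |x|) ∑ |x u| ≤ ‖a‖ √(β / n) ∑ |x u|`; with
`‖a‖² ≤ 2 ∑ x u²` this gives `‖a‖ ≤ 2 √(β/n) ∑ |x u|`, i.e. squared
`n ‖a‖² ≤ 4 β (∑ |x u|)²`.
`large_pos`: let `ρ = √(β / n)`, `A = ‖a‖ > 0`. At most `n / (8 β)` indices are bad, all others have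
`0 ≤ x u`. `∑ x u ≥ ∑ |x u| - 2 ∑_{bad} |x u| ≥ A / (2 ρ) - 2 (n / (8 β)) A ρ = A / (4 ρ)`.
If `64 β ‖n • z - w • ∑ y u‖² ≤ n w²` then `‖..‖ ≤ w / (8 ρ)` and
`⟪a, n z⟫ ≥ w A / (4 ρ) - A w / (8 ρ) > 0`.
`small_keep`: for signs `s u = ±1` with `s u x u = |x u|`: `⟪a, ∑ s u y u⟫ = ∑ |x u|`, Cauchy-Schwarz,
`spread`, divide by `A²`.
-/

set_option autoImplicit false

open Finset

namespace Pool.Agent.W_d799b0_h54

variable {U V : Type} [Fintype U] [DecidableEq U] [NormedAddCommGroup V] [InnerProductSpace ℝ V]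

/-- the constant `ρ` -/
theorem rho_spec {n β : ℝ} (hn : 0 < n) (hβ : 0 < β) :
    ∃ ρ : ℝ, 0 < ρ ∧ n * ρ ^ 2 = β := by
  refine ⟨Real.sqrt (β / n), Real.sqrt_pos.2 (div_pos hβ hn), ?_⟩
  rw [Real.sq_sqrt (div_pos hβ hn).le]
  field_simp

omit [DecidableEq U] in
theorem abs_inner_le (y : U → V) (a : V) (β ρ : ℝ) (hρ : 0 < ρ)
    (hn : 0 < (Fintype.card U : ℝ)) (hnρ : (Fintype.card U : ℝ) * ρ ^ 2 = β)
    (hy : ∀ u, (Fintype.card U : ℝ) * ‖y u‖ ^ 2 ≤ β) (u : U) :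
    |inner ℝ a (y u)| ≤ ρ * ‖a‖ := by
  have h1 : ‖y u‖ ≤ ρ := by
    have h2 : ‖y u‖ ^ 2 ≤ ρ ^ 2 := by
      refine le_of_mul_le_mul_left ?_ hn
      rw [hnρ]
      exact hy u
    exact le_of_sq_le_sq h2 hρ.le
  calc |inner ℝ a (y u)| ≤ ‖a‖ * ‖y u‖ := abs_real_inner_le_norm a (y u)
    _ ≤ ‖a‖ * ρ := mul_le_mul_of_nonneg_left h1 (norm_nonneg a)
    _ = ρ * ‖a‖ := mul_comm _ _

omit [DecidableEq U] in
theorem norm_le_sum (y : U → V) (a : V) (β ρ : ℝ) (hρ : 0 < ρ)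
    (hn : 0 < (Fintype.card U : ℝ)) (hnρ : (Fintype.card U : ℝ) * ρ ^ 2 = β)
    (hy : ∀ u, (Fintype.card U : ℝ) * ‖y u‖ ^ 2 ≤ β)
    (ha : ‖a‖ ^ 2 ≤ 2 * ∑ u, (inner ℝ a (y u)) ^ 2) :
    ‖a‖ ≤ 2 * ρ * ∑ u, |inner ℝ a (y u)| := by
  have h1 : ∑ u, (inner ℝ a (y u)) ^ 2 ≤ ρ * ‖a‖ * ∑ u, |inner ℝ a (y u)| := by
    rw [Finset.mul_sum]
    refine Finset.sum_le_sum fun u _ => ?_
    rw [← sq_abs, sq]
    exact mul_le_mul_of_nonneg_right (abs_inner_le y a β ρ hρ hn hnρ hy u) (abs_nonneg _)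
  rcases (norm_nonneg a).eq_or_lt with h2 | h2
  · rw [← h2]
    have h3 : 0 ≤ ∑ u, |inner ℝ a (y u)| := Finset.sum_nonneg fun _ _ => abs_nonneg _
    positivity
  · refine le_of_mul_le_mul_right ?_ h2
    calc ‖a‖ * ‖a‖ = ‖a‖ ^ 2 := (sq _).symm
      _ ≤ 2 * ∑ u, (inner ℝ a (y u)) ^ 2 := ha
      _ ≤ 2 * (ρ * ‖a‖ * ∑ u, |inner ℝ a (y u)|) := by linarith
      _ = 2 * ρ * (∑ u, |inner ℝ a (y u)|) * ‖a‖ := by ring

theorem spread (y : U → V) (a : V) (β : ℝ) (hβ : 0 < β)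
    (hy : ∀ u, (Fintype.card U : ℝ) * ‖y u‖ ^ 2 ≤ β)
    (ha : ‖a‖ ^ 2 ≤ 2 * ∑ u, (inner ℝ a (y u)) ^ 2) :
    (Fintype.card U : ℝ) * ‖a‖ ^ 2 ≤ 4 * β * (∑ u, |inner ℝ a (y u)|) ^ 2 := by
  rcases (Nat.cast_nonneg (α := ℝ) (Fintype.card U)).eq_or_lt with hn | hn
  · rw [← hn, zero_mul]
    positivity
  obtain ⟨ρ, hρ, hnρ⟩ := rho_spec hn hβ
  have h1 := norm_le_sum y a β ρ hρ hn hnρ hy ha
  have h2 : ‖a‖ ^ 2 ≤ (2 * ρ * ∑ u, |inner ℝ a (y u)|) ^ 2 :=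
    pow_le_pow_left₀ (norm_nonneg a) h1 2
  calc (Fintype.card U : ℝ) * ‖a‖ ^ 2
      ≤ (Fintype.card U : ℝ) * (2 * ρ * ∑ u, |inner ℝ a (y u)|) ^ 2 :=
        mul_le_mul_of_nonneg_left h2 hn.le
    _ = 4 * ((Fintype.card U : ℝ) * ρ ^ 2) * (∑ u, |inner ℝ a (y u)|) ^ 2 := by ring
    _ = 4 * β * (∑ u, |inner ℝ a (y u)|) ^ 2 := by rw [hnρ]

theorem large_pos (y : U → V) (a z : V) (β w : ℝ) (hβ : 0 < β) (hw : 0 < w) (ha0 : 0 < ‖a‖)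
    (hy : ∀ u, (Fintype.card U : ℝ) * ‖y u‖ ^ 2 ≤ β)
    (ha : ‖a‖ ^ 2 ≤ 2 * ∑ u, (inner ℝ a (y u)) ^ 2)
    (Bad : Finset U) (hBad : 8 * β * Bad.card ≤ Fintype.card U)
    (hgood : ∀ u, u ∉ Bad → 0 ≤ inner ℝ a (y u))
    (hz : 64 * β * ‖(Fintype.card U : ℝ) • z - w • ∑ u, y u‖ ^ 2 ≤ Fintype.card U * w ^ 2) :
    0 < inner ℝ a z := by
  have hn : 0 < (Fintype.card U : ℝ) := by
    rcases (Nat.cast_nonneg (α := ℝ) (Fintype.card U)).eq_or_lt with hn | hn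
    · exfalso
      have h1 := spread y a β hβ hy ha
      have h2 : Fintype.card U = 0 := by
        have := hn.symm
        exact_mod_cast this
      have : IsEmpty U := Fintype.card_eq_zero_iff.1 h2
      rw [Finset.univ_eq_empty, Finset.sum_empty, mul_zero] at ha
      nlinarith
    · exact hn
  obtain ⟨ρ, hρ, hnρ⟩ := rho_spec hn hβ
  have h1 := norm_le_sum y a β ρ hρ hn hnρ hy ha
  have h2 := abs_inner_le y a β ρ hρ hn hnρ hy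
  -- the sum of the inner products
  have h3 : ∑ u, |inner ℝ a (y u)| - 2 * (Bad.card * (ρ * ‖a‖)) ≤ ∑ u, inner ℝ a (y u) := by
    have h4 : ∑ u, |inner ℝ a (y u)| ≤ ∑ u, inner ℝ a (y u) +
        ∑ u ∈ Bad, 2 * |inner ℝ a (y u)| := by
      have h5 : ∑ u ∈ Bad, 2 * |inner ℝ a (y u)| =
          ∑ u, if u ∈ Bad then 2 * |inner ℝ a (y u)| else 0 := by
        rw [Finset.sum_ite_mem, Finset.univ_inter]
      rw [h5, ← Finset.sum_add_distrib]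
      refine Finset.sum_le_sum fun u _ => ?_
      split_ifs with h
      · have := neg_abs_le (inner ℝ a (y u))
        linarith
      · rw [abs_of_nonneg (hgood u h), add_zero]
    have h6 : ∑ u ∈ Bad, 2 * |inner ℝ a (y u)| ≤ Bad.card • (2 * (ρ * ‖a‖)) :=
      Finset.sum_le_card_nsmul _ _ _ fun u _ => by
        have := h2 u
        linarith
    rw [nsmul_eq_mul] at h6
    linarith
  -- the lower bound
  have h4 : ‖a‖ ≤ 4 * ρ * ∑ u, inner ℝ a (y u) := by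
    have h5 : 8 * ρ ^ 2 * Bad.card ≤ 1 := by
      refine le_of_mul_le_mul_left ?_ hn
      calc (Fintype.card U : ℝ) * (8 * ρ ^ 2 * Bad.card)
          = 8 * ((Fintype.card U : ℝ) * ρ ^ 2) * Bad.card := by ring
        _ = 8 * β * Bad.card := by rw [hnρ]
        _ ≤ Fintype.card U * 1 := by rw [mul_one]; exact hBad
    have h6 : 4 * ρ * (∑ u, |inner ℝ a (y u)| - 2 * (Bad.card * (ρ * ‖a‖))) ≤
        4 * ρ * ∑ u, inner ℝ a (y u) := mul_le_mul_of_nonneg_left h3 (by positivity)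
    have h7 : 8 * ρ ^ 2 * Bad.card * ‖a‖ ≤ 1 * ‖a‖ :=
      mul_le_mul_of_nonneg_right h5 (norm_nonneg a)
    nlinarith
  have h5 : ‖(Fintype.card U : ℝ) • z - w • ∑ u, y u‖ * (8 * ρ) ≤ w := by
    refine le_of_sq_le_sq ?_ hw.le
    refine le_of_mul_le_mul_left ?_ hn
    calc (Fintype.card U : ℝ) * (‖(Fintype.card U : ℝ) • z - w • ∑ u, y u‖ * (8 * ρ)) ^ 2
        = 64 * ((Fintype.card U : ℝ) * ρ ^ 2) *
          ‖(Fintype.card U : ℝ) • z - w • ∑ u, y u‖ ^ 2 := by ring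
      _ = 64 * β * ‖(Fintype.card U : ℝ) • z - w • ∑ u, y u‖ ^ 2 := by rw [hnρ]
      _ ≤ Fintype.card U * w ^ 2 := hz
  have h6 : (Fintype.card U : ℝ) * inner ℝ a z =
      inner ℝ a ((Fintype.card U : ℝ) • z - w • ∑ u, y u) + w * ∑ u, inner ℝ a (y u) := by
    rw [inner_sub_right, real_inner_smul_right, real_inner_smul_right, inner_sum]
    ring
  have h7 : -(‖a‖ * ‖(Fintype.card U : ℝ) • z - w • ∑ u, y u‖) ≤
      inner ℝ a ((Fintype.card U : ℝ) • z - w • ∑ u, y u) :=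
    (abs_le.1 (abs_real_inner_le_norm _ _)).1
  have h8 : 0 < 8 * ρ * ((Fintype.card U : ℝ) * inner ℝ a z) := by
    rw [h6]
    have h9 : ‖a‖ * (‖(Fintype.card U : ℝ) • z - w • ∑ u, y u‖ * (8 * ρ)) ≤ ‖a‖ * w :=
      mul_le_mul_of_nonneg_left h5 (norm_nonneg a)
    have h10 : w * ‖a‖ ≤ w * (4 * ρ * ∑ u, inner ℝ a (y u)) := mul_le_mul_of_nonneg_left h4 hw.le
    have h11 : 0 < w * ‖a‖ := mul_pos hw ha0
    have h12 : 8 * ρ * (-(‖a‖ * ‖(Fintype.card U : ℝ) • z - w • ∑ u, y u‖)) ≤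
        8 * ρ * inner ℝ a ((Fintype.card U : ℝ) • z - w • ∑ u, y u) :=
      mul_le_mul_of_nonneg_left h7 (by positivity)
    linarith
  have h9 : 0 < (Fintype.card U : ℝ) * inner ℝ a z :=
    (mul_pos_iff_of_pos_left (by positivity : (0 : ℝ) < 8 * ρ)).1 h8
  exact (mul_pos_iff_of_pos_left hn).1 h9

theorem small_keep (y : U → V) (a : V) (β : ℝ) (hβ : 0 < β) (ha0 : 0 < ‖a‖)
    (hy : ∀ u, (Fintype.card U : ℝ) * ‖y u‖ ^ 2 ≤ β)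
    (ha : ‖a‖ ^ 2 ≤ 2 * ∑ u, (inner ℝ a (y u)) ^ 2) (s : U → ℝ)
    (hs : ∀ u, s u * inner ℝ a (y u) = |inner ℝ a (y u)|) :
    (Fintype.card U : ℝ) ≤ 4 * β * ‖∑ u, s u • y u‖ ^ 2 := by
  have h1 := spread y a β hβ hy ha
  have h2 : inner ℝ a (∑ u, s u • y u) = ∑ u, |inner ℝ a (y u)| := by
    rw [inner_sum]
    refine Finset.sum_congr rfl fun u _ => ?_
    rw [real_inner_smul_right, hs u]
  have h3 : ∑ u, |inner ℝ a (y u)| ≤ ‖a‖ * ‖∑ u, s u • y u‖ := by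
    rw [← h2]
    exact real_inner_le_norm _ _
  have h4 : (∑ u, |inner ℝ a (y u)|) ^ 2 ≤ (‖a‖ * ‖∑ u, s u • y u‖) ^ 2 :=
    pow_le_pow_left₀ (Finset.sum_nonneg fun _ _ => abs_nonneg _) h3 2
  refine le_of_mul_le_mul_right ?_ (pow_pos ha0 2)
  calc (Fintype.card U : ℝ) * ‖a‖ ^ 2 ≤ 4 * β * (∑ u, |inner ℝ a (y u)|) ^ 2 := h1
    _ ≤ 4 * β * (‖a‖ * ‖∑ u, s u • y u‖) ^ 2 := mul_le_mul_of_nonneg_left h4 (by positivity)
    _ = 4 * β * ‖∑ u, s u • y u‖ ^ 2 * ‖a‖ ^ 2 := by ring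

end Pool.Agent.W_d799b0_h54
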