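import Pool.Agent.W_d799b0_h54.ConsA
import Pool.Agent.W_d799b0_h54.Spread
import Pool.Agent.W_d799b0_h82.LargeA

/-!
# The large case

PROOF (compare `large_step`, LargeB). `few_bad` gives `Bad` with `4 K card Bad ≤ r ^ 3`, so
`8 β card Bad ≤ r ^ 3` (`beta_facts`). `packL` (`used_instL`), `Pack.ge` gives `a` with
`⟪a, yv u⟫ = ∑ i w i cd (h ..) i` for `u ∈ T`, positive if `u ∉ Bad` (`RedV.corr`). The seed `s`
is `toSeed s'` (`hs1`, `exists_toPt`), the test is `accT_toSeed`, and `large_pos` with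
`z = ∑ l ∈ range w, yv (s'.1 + l • s'.2)` gives `0 < ⟪a, z⟫`; so for some `l < w` the point
`u = s'.1 + l • s'.2` is in `T` and `0 < ∑ i w i cd ..`, i.e. `Theta` holds for
`instL E ph σ (pt r s l)` (`pt_toSeed`); finish as in `large_step` (`theta_instL`,
`exists_link_snoc`, `exists_sym`).
(All seeds chosen by the algorithm are in `seeds r`; a seed `s` with numbers `≥ r` does not matter
because `pt r s l` only depends on the residues: if you prefer, replace `s` by its residues; here we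
ask for `hs1`.)
-/

set_option autoImplicit false

namespace Pool.Agent.W_d799b0_h54

open Pool.Agent.W_d799b0_h82

theorem largeV {V : List Bool → List Bool → Bool} {dm : Env → ℕ} {h : Env → Inst → List ℤ}
    {E : Env} {w : Fin (dm E) → ℤ} (hP : Params E) (hR : RedV V (h E) E (dm E) w)
    (ph : List (List Seed)) (σ : List Seed) (m : ℕ) (hS : SInv E ph σ m)
    (hD : w0 E ≤ (DD V E ph σ).ncard) (s : Seed) (hs1 : s ∈ seeds (eR E))
    (hs : goodSeedG (accV dm h) E ph σ s = true) : (DD V E ph (σ ++ [s])).Nonempty := by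
  classical
  have : NeZero (eR E) := ⟨hP.prime.ne_zero⟩
  obtain ⟨hb1, _, _, _, _⟩ := beta_facts hP
  obtain ⟨Bad, hB1, hB2⟩ := few_bad V E hP ph σ m hS hD
  have hused := fun u (hu : PtLt (eR E) u) => used_instL E hP ph σ m hS u hu
  obtain ⟨T, ψ, hp⟩ := packL hP hR ph σ hused
  obtain ⟨a, ha0, ha1, ha2⟩ := hp.ge w hR.pos
    (fun u => hR.sep _ (hused _ (toPt_lt (eR E) u)))
  rw [mem_seeds] at hs1
  obtain ⟨s1, hs1'⟩ := exists_toPt (eR E) s.1 hs1.1
  obtain ⟨s2, hs2'⟩ := exists_toPt (eR E) s.2 hs1.2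
  have hs' : s = toSeed (s1, s2) := by
    obtain ⟨a1, a2⟩ := s
    simp only at hs1' hs2'
    rw [toSeed, hs1', hs2']
  unfold goodSeedG at hs
  rw [Bool.and_eq_true] at hs
  have hacc := hs.2
  rw [hs'] at hacc
  have hacc' := (accT_toSeed hp (eW E) (s1, s2)).1 hacc
  have hβ : (0 : ℝ) < (beta E : ℝ) := by exact_mod_cast hR.pos_beta
  have hw : (0 : ℝ) < (eW E : ℝ) := by
    have : 0 < eW E := by rw [hP.w_eq]; positivity
    exact_mod_cast this
  have hcard : (Fintype.card (ZMod (eR E) × ZMod (eR E) × ZMod (eR E)) : ℝ) = (eR E : ℝ) ^ 3 := by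
    rw [Fintype.card_prod, Fintype.card_prod, ZMod.card]
    push_cast
    ring
  have hyv : ∀ u, (eR E : ℝ) ^ 3 *
      ‖yv (dm E) (eR E) (fun u => h E (instL E ph σ u)) T ψ u‖ ^ 2 ≤ beta E := by
    intro u
    unfold yv
    split_ifs with hu
    · exact hp.small u hu
    · simp
  have hpos := large_pos (yv (dm E) (eR E) (fun u => h E (instL E ph σ u)) T ψ) a
    (∑ l ∈ Finset.range (eW E), yv (dm E) (eR E) (fun u => h E (instL E ph σ u)) T ψ
      ((s1, s2).1 + (l : ZMod (eR E)) • (s1, s2).2)) (beta E) (eW E) hβ hw ha0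
    (by rw [hcard]; exact hyv) ha2 Bad (by
      rw [hcard]
      have h1 : 8 * beta E * Bad.card ≤ eR E ^ 3 :=
        (Nat.mul_le_mul_right _ hb1).trans hB1
      exact_mod_cast h1) (by
      intro u hu
      rw [ha1 u]
      split_ifs
      · have h1 := (hR.corr _ (hused _ (toPt_lt (eR E) u))).1 (hB2 u hu)
        exact_mod_cast h1.le
      · exact le_rfl) (by
      rw [hcard]
      exact hacc')
  rw [inner_sum] at hpos
  obtain ⟨l, hl, hlpos⟩ : ∃ l ∈ Finset.range (eW E), 0 < inner ℝ a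
      (yv (dm E) (eR E) (fun u => h E (instL E ph σ u)) T ψ
      ((s1, s2).1 + (l : ZMod (eR E)) • (s1, s2).2)) := by
    by_contra hcon
    push Not at hcon
    exact absurd hpos (not_lt.2 (Finset.sum_nonpos hcon))
  rw [ha1] at hlpos
  split_ifs at hlpos with hT
  · have h1 := pt_toSeed (eR E) (s1, s2) l
    rw [← h1, ← hs'] at hlpos
    have hpt := pt_lt (eR E) hP.prime.pos s l
    have h5 := (hR.corr _ (hused _ hpt)).2 (by exact_mod_cast hlpos)
    rw [theta_instL V E ph σ _ hpt] at h5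
    obtain ⟨B, hB, hB2⟩ := h5
    refine ⟨B, hB.1, ?_⟩
    rw [exists_link_snoc]
    refine ⟨hB.2, ?_⟩
    rw [exists_sym]
    exact ⟨l, by rw [← hP.w_eq]; exact Finset.mem_range.1 hl, hB2⟩
  · exact absurd hlpos (lt_irrefl _)

end Pool.Agent.W_d799b0_h54
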