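import Pool.Agent.W_d799b0_h54.ConsA
import Pool.Agent.W_d799b0_h54.Cheb
import Pool.Agent.W_d799b0_h82.SeedEx

/-!
# The algorithm always finds a seed

PROOF: the proof of `SeedEx_exists` (`W_d799b0_h82/SeedEx.lean`), with `exists_seedV` applied to
`y = yv ..` (`packL`, `used_instL`; `r ^ 3 ‖y u‖² ≤ β` is `Pack.small`, and `yv` is zero outside
`T`), `β = beta E` (`beta_facts`, `RedV.pos_beta`), `L` = image of `range w`, `U` = all evaluation
points of `σ`; `Params.coll`, `Params.eight_w`. The part about `distOK` is literally the same (copy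
it), and the last part is `accT_toSeed` (sum over `L` = sum over `range w`).
-/

set_option autoImplicit false

namespace Pool.Agent.W_d799b0_h54

open Pool.Agent.W_d799b0_h82

private theorem SeedV_inj (r w : ℕ) [NeZero r] (h : w < r) :
    Set.InjOn (fun l : ℕ => (l : ZMod r)) (Finset.range w : Set ℕ) := by
  intro a ha b hb hab
  simp only [Finset.coe_range, Set.mem_Iio] at ha hb
  have := congrArg ZMod.val hab
  simp only at this
  rwa [ZMod.val_natCast_of_lt (ha.trans h), ZMod.val_natCast_of_lt (hb.trans h)] at this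

theorem seedV {V : List Bool → List Bool → Bool} {dm : Env → ℕ} {h : Env → Inst → List ℤ}
    {E : Env} {w : Fin (dm E) → ℤ} (hP : Params E) (hR : RedV V (h E) E (dm E) w)
    (ph : List (List Seed)) (σ : List Seed) (m : ℕ) (hS : SInv E ph σ m) :
    ∃ s ∈ seeds (eR E), goodSeedG (accV dm h) E ph σ s = true := by
  classical
  have : Fact (eR E).Prime := ⟨hP.prime⟩
  have : NeZero (eR E) := ⟨hP.prime.ne_zero⟩
  obtain ⟨_, _, hb3, _, _⟩ := beta_facts hP
  have hused := fun u (hu : PtLt (eR E) u) => used_instL E hP ph σ m hS u hu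
  obtain ⟨T, ψ, hp⟩ := packL hP hR ph σ hused
  have hinj := SeedV_inj (eR E) (eW E) hP.w_lt_r
  let L : Finset (ZMod (eR E)) := (Finset.range (eW E)).image (fun l : ℕ => (l : ZMod (eR E)))
  let U : Finset (ZMod (eR E)) := (σ.toFinset ×ˢ Finset.range (eW E)).image
    (fun p => ((pI (eR E) p.1 p.2 : ℕ) : ZMod (eR E)))
  have hLc : L.card = eW E := by
    rw [Finset.card_image_of_injOn hinj, Finset.card_range]
  have hσ : σ.length ≤ eM E := by
    have h1 := lens_length _ _ _ hS.inv.lens
    have h2 := hS.lt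
    have h3 : 1 ≤ 2 ^ ph.length := Nat.one_le_two_pow
    have h4 : 2 * m * 1 ≤ 2 * m * 2 ^ ph.length := Nat.mul_le_mul_left _ h3
    omega
  have hUc : U.card ≤ eM E * eW E := by
    refine Finset.card_image_le.trans ?_
    rw [Finset.card_product, Finset.card_range]
    exact Nat.mul_le_mul_right _ ((List.toFinset_card_le σ).trans hσ)
  have hcard : Fintype.card (ZMod (eR E)) = eR E := ZMod.card _
  have hyv : ∀ u, (Fintype.card (ZMod (eR E)) : ℝ) ^ 3 *
      ‖yv (dm E) (eR E) (fun u => h E (instL E ph σ u)) T ψ u‖ ^ 2 ≤ (beta E : ℕ) := by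
    intro u
    rw [hcard]
    unfold yv
    split_ifs with hu
    · exact hp.small u hu
    · simp
  obtain ⟨s, h1, h2, h3⟩ := exists_seedV
    (yv (dm E) (eR E) (fun u => h E (instL E ph σ u)) T ψ) (beta E) hR.pos_beta hyv L U
    (by rw [hLc]; exact hb3)
    (by
      rw [hLc, hcard]
      exact (Nat.mul_le_mul_left _ hUc).trans hP.coll)
    (by rw [hLc, hcard]; exact hP.eight_w)
  refine ⟨toSeed s, (mem_seeds _ _).2 ⟨toPt_lt _ _, toPt_lt _ _⟩, ?_⟩
  have hpt := fun l => pt_toSeed (eR E) s l
  have hpI : ∀ l : ℕ, pI (eR E) (toSeed s) l = (s.1.1 + (l : ZMod (eR E)) * s.2.1).val := by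
    intro l
    have := congrArg (fun u : Pt => u.1.n) (hpt l)
    simpa [pt, toPt] using this
  have hpC : ∀ l : ℕ, pC (eR E) (toSeed s) l = (s.1.2.1 + (l : ZMod (eR E)) * s.2.2.1).val := by
    intro l
    have := congrArg (fun u : Pt => u.2.1.n) (hpt l)
    simpa [pt, toPt] using this
  have hmemL : ∀ l < eW E, ((l : ℕ) : ZMod (eR E)) ∈ L := by
    intro l hl
    exact Finset.mem_image.2 ⟨l, Finset.mem_range.2 hl, rfl⟩
  unfold goodSeedG
  rw [Bool.and_eq_true]
  constructor
  · unfold distOK
    rw [List.all_eq_true]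
    intro l hl
    rw [List.mem_range] at hl
    rw [Bool.and_eq_true]
    constructor
    · have h4 := h2 _ (hmemL l hl)
      have h5 : pC (eR E) (toSeed s) l ≠ 0 := by
        rw [hpC, Ne, ZMod.val_eq_zero]
        exact h4
      simp [h5]
    · rw [List.all_eq_true]
      intro s' hs'
      rw [List.all_eq_true]
      intro l' hl'
      rw [List.mem_range] at hl'
      have h5 : pI (eR E) s' l' ≠ pI (eR E) (toSeed s) l := by
        intro h6
        apply h1 _ (hmemL l hl)
        refine Finset.mem_image.2 ⟨(s', l'), ?_, ?_⟩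
        · exact Finset.mem_product.2 ⟨List.mem_toFinset.2 hs', Finset.mem_range.2 hl'⟩
        · simp only
          rw [h6, hpI, ZMod.natCast_zmod_val]
      simp [h5]
  · refine (accT_toSeed hp (eW E) s).2 ?_
    have h4 : ∑ l ∈ L, yv (dm E) (eR E) (fun u => h E (instL E ph σ u)) T ψ (s.1 + l • s.2) =
        ∑ l ∈ Finset.range (eW E), yv (dm E) (eR E) (fun u => h E (instL E ph σ u)) T ψ
          (s.1 + (l : ZMod (eR E)) • s.2) := Finset.sum_image hinj
    rw [h4, hLc, hcard] at h3
    exact h3

end Pool.Agent.W_d799b0_h54
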