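import Pool.Agent.W_d799b0_h54.ConsA
import Pool.Agent.W_d799b0_h54.Spread
import Pool.Agent.W_d799b0_h82.SmallB

/-!
# The small case: the prefixes of the isolated witness survive

PROOF (compare `survive`, SmallB1). Let `v = a.take j`. By `theta_instS` and isolation: for every
`u`, `Theta V (instS .. j (toPt u))` iff `chi r (toPt u) v`, iff `sg (HH r) (bP r v) u = 1`
(`chi_eq_sg`). `packS`, `Pack.ge`: `⟪a', yv u⟫ = x u` or `0`, `0 < x u` iff `Theta`, and `x u ≠ 0`
by `sep` and `pos` (a square is at least `∑ w² > 0`). So `sg u * ⟪a', yv u⟫ = |⟪a', yv u⟫|`.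
`small_keep` with `s u = sg u`, `kpT_iff`. (`card U = r ^ 3`.)
-/

set_option autoImplicit false

namespace Pool.Agent.W_d799b0_h54

open Pool.Agent.W_d799b0_h82

theorem survV {V : List Bool → List Bool → Bool} {dm : Env → ℕ} {h : Env → Inst → List ℤ}
    {E : Env} {w : Fin (dm E) → ℤ} (hP : Params E) (hR : RedV V (h E) E (dm E) w)
    (ph : List (List Seed)) (i0 b0 : ℕ) (hb : b0 < eR E)
    (hU : ∀ j ≤ eN E, ∀ u, PtLt (eR E) u → Used E (instS E ph i0 b0 j u))
    (a : List Bool) (ha : a ∈ D0 V E ph) (hab : bB (eR E) a i0 = b0)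
    (huniq : ∀ B0 ∈ D0 V E ph, bB (eR E) B0 i0 = b0 → B0 = a)
    (j : ℕ) (hj : j ≤ eN E) : kpV dm h E ph i0 b0 j (a.take j) = true := by
  classical
  have : Fact (eR E).Prime := ⟨hP.prime⟩
  have hr : 0 < eR E := hP.pos_r
  have : NeZero (eR E) := ⟨hr.ne'⟩
  set v : List Bool := a.take j with hv
  have hUse : ∀ u : ZMod (eR E) × ZMod (eR E) × ZMod (eR E),
      Used E (instS E ph i0 b0 j (toPt u)) := fun u => hU j hj (toPt u) (toPt_lt (eR E) u)
  have hchi : ∀ u : ZMod (eR E) × ZMod (eR E) × ZMod (eR E),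
      Theta V (instS E ph i0 b0 j (toPt u)) ↔ chi (eR E) (toPt u) v = true := by
    intro u
    rw [theta_instS V E hP ph i0 b0 j hb hj]
    constructor
    · rintro ⟨B0, hB0, h1, h2⟩
      rw [huniq B0 hB0 h1] at h2
      exact h2
    · intro h
      exact ⟨a, ha, hab, h⟩
  obtain ⟨T, ψ, hp⟩ := packS hP hR ph i0 b0 j (hU j hj)
  obtain ⟨a', ha0, hin, hge⟩ := hp.ge w hR.pos (fun u => hR.sep _ (hUse u))
  have hβ : (0 : ℝ) < (beta E : ℝ) := by exact_mod_cast hR.pos_beta
  have hcard : (Fintype.card (ZMod (eR E) × ZMod (eR E) × ZMod (eR E)) : ℝ) = (eR E : ℝ) ^ 3 := by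
    rw [Fintype.card_prod, Fintype.card_prod, ZMod.card]
    push_cast
    ring
  have hy : ∀ u, (Fintype.card (ZMod (eR E) × ZMod (eR E) × ZMod (eR E)) : ℝ) *
      ‖yv (dm E) (eR E) (fun u => h E (instS E ph i0 b0 j u)) T ψ u‖ ^ 2 ≤ (beta E : ℝ) := by
    intro u
    rw [hcard]
    unfold yv
    split_ifs with hu
    · exact hp.small u hu
    · simp only [norm_zero]
      norm_num
  have hs : ∀ u, ((sg (HH (eR E)) (bP (eR E) v) u : ℤ) : ℝ) *
      inner ℝ a' (yv (dm E) (eR E) (fun u => h E (instS E ph i0 b0 j u)) T ψ u) =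
        |inner ℝ a' (yv (dm E) (eR E) (fun u => h E (instS E ph i0 b0 j u)) T ψ u)| := by
    intro u
    rw [hin u, chi_eq_sg]
    have hc := hR.corr _ (hUse u)
    rw [hchi u] at hc
    by_cases hu : u ∈ T
    · rw [if_pos hu]
      by_cases hx : chi (eR E) (toPt u) v = true
      · have h1 := hc.1 hx
        rw [if_pos hx, abs_of_pos (by exact_mod_cast h1)]
        push_cast
        ring
      · have h0 : ¬ 0 < ∑ i : Fin (dm E), w i * cd (h E (instS E ph i0 b0 j (toPt u))) i :=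
          fun h0 => hx (hc.2 h0)
        have h1 := not_lt.1 h0
        rw [if_neg hx, abs_of_nonpos (by exact_mod_cast h1)]
        push_cast
        ring
    · rw [if_neg hu]
      simp
  have key := small_keep _ a' (beta E : ℝ) hβ ha0 hy hge _ hs
  rw [hcard] at key
  unfold kpV famS
  rw [kpT_iff hp v]
  exact key

end Pool.Agent.W_d799b0_h54
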