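import Pool.Agent.W_d799b0_h82.CountC1

/-!
# The list bound in an inner product space

`sg_orth_nonneg`: as in `sg_orth` (CountC1): for `i` with `v(i) = v'(i)` the inner sum is `r ^ 2`,
for the others it is `1 * 1 = 1`; so the sum is not negative.
`list_inner`: let `z v = ∑ u, s v u • y u`, `Z = ∑ v, ‖z v‖²`, `n = card U`, `L = card Vs`.
`Z = ∑ v ⟪z v, ∑ u s v u y u⟫ = ∑ u ⟪y u, ∑ v s v u z v⟫
  ≤ (∑ u ‖y u‖²)^(1/2) (∑ u ‖∑ v s v u z v‖²)^(1/2)`
and `∑ u ‖∑ v s v u z v‖² = ∑ v v', (∑ u s v u s v' u) ⟪z v, z v'⟫ ≤ n Z + γ (∑ v ‖z v‖)²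
 ≤ (n + γ L) Z`. So `Z ≤ β (n + γ L)`; with `n L ≤ 4 β Z` and `8 β² γ ≤ n`:
`n L ≤ 4 β² n + 4 β² γ L ≤ 4 β² n + n L / 2`, hence `L ≤ 8 β²`.
-/

set_option autoImplicit false

open Finset Polynomial

namespace Pool.Agent.W_d799b0_h54

open Pool.Agent.W_d799b0_h82

theorem sg_orth_nonneg {F : Type} [Field F] [Fintype F] [DecidableEq F] (H : Finset F)
    (hH : 2 * H.card = Fintype.card F + 1) (v v' : F[X]) : 0 ≤ ∑ u, sg H v u * sg H v' u := by
  rw [c1_sum_U]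
  refine Finset.sum_nonneg fun i _ => ?_
  by_cases h : v.eval i = v'.eval i
  · refine Finset.sum_nonneg fun p _ => ?_
    have h1 : sg H v (i, p.1, p.2) * sg H v' (i, p.1, p.2) = 1 := by
      unfold sg
      simp only
      rw [← h]
      split_ifs <;> norm_num
    rw [h1]; norm_num
  · have h2 := c1_sum_pair_two (fun x => if x ∈ H then (1 : ℤ) else -1)
      (fun x => if x ∈ H then (1 : ℤ) else -1) (v.eval i) (v'.eval i) h
    rw [c1_sum_ind H hH, mul_one] at h2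
    have h3 : ∑ p : F × F, sg H v (i, p.1, p.2) * sg H v' (i, p.1, p.2) = 1 := h2
    rw [h3]; norm_num

theorem list_inner {U V ι : Type} [Fintype U] [NormedAddCommGroup V] [InnerProductSpace ℝ V]
    (y : U → V) (β γ : ℝ) (hβ : 0 < β) (hγ : 0 ≤ γ) (hn : 0 < Fintype.card U)
    (hy : ∀ u, (Fintype.card U : ℝ) * ‖y u‖ ^ 2 ≤ β) (Vs : Finset ι) (s : ι → U → ℝ)
    (hs : ∀ v ∈ Vs, ∀ u, s v u ^ 2 ≤ 1)
    (horth : ∀ v ∈ Vs, ∀ v' ∈ Vs, v ≠ v' → |∑ u, s v u * s v' u| ≤ γ)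
    (hγn : 8 * β ^ 2 * γ ≤ Fintype.card U)
    (hz : ∀ v ∈ Vs, (Fintype.card U : ℝ) ≤ 4 * β * ‖∑ u, s v u • y u‖ ^ 2) :
    (Vs.card : ℝ) ≤ 8 * β ^ 2 := by
  classical
  set n : ℝ := (Fintype.card U : ℝ) with hndef
  have hn' : 0 < n := by rw [hndef]; exact_mod_cast hn
  set z : ι → V := fun v => ∑ u, s v u • y u with hzdef
  set Z : ℝ := ∑ v ∈ Vs, ‖z v‖ ^ 2 with hZdef
  have hZ0 : 0 ≤ Z := Finset.sum_nonneg fun v _ => by positivity
  set w : U → V := fun u => ∑ v ∈ Vs, s v u • z v with hwdef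
  -- Z = ∑ u ⟪y u, w u⟫
  have hZ1 : Z = ∑ u, inner ℝ (y u) (w u) := by
    rw [hZdef]
    have : ∀ v ∈ Vs, ‖z v‖ ^ 2 = ∑ u, s v u * inner ℝ (y u) (z v) := by
      intro v _
      rw [← real_inner_self_eq_norm_sq]
      conv_lhs => rw [hzdef]
      simp only
      rw [sum_inner]
      refine Finset.sum_congr rfl fun u _ => ?_
      rw [real_inner_smul_left]
    rw [Finset.sum_congr rfl this, Finset.sum_comm]
    refine Finset.sum_congr rfl fun u _ => ?_
    rw [hwdef]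
    simp only
    rw [inner_sum]
    refine Finset.sum_congr rfl fun v _ => ?_
    rw [real_inner_smul_right]
  -- Cauchy-Schwarz
  have hY : ∑ u, ‖y u‖ ^ 2 ≤ β := by
    have h1 : ∑ u, n * ‖y u‖ ^ 2 ≤ ∑ _u : U, β := Finset.sum_le_sum fun u _ => hy u
    rw [← Finset.mul_sum, Finset.sum_const, Finset.card_univ, nsmul_eq_mul] at h1
    exact le_of_mul_le_mul_left h1 hn'
  have hW : ∑ u, ‖w u‖ ^ 2 ≤ (n + γ * Vs.card) * Z := by
    have h1 : ∀ u, ‖w u‖ ^ 2 = ∑ v ∈ Vs, ∑ v' ∈ Vs, (s v u * s v' u) * inner ℝ (z v) (z v') := by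
      intro u
      rw [← real_inner_self_eq_norm_sq]
      conv_lhs => rw [hwdef]
      simp only
      rw [sum_inner]
      refine Finset.sum_congr rfl fun v _ => ?_
      rw [inner_sum]
      refine Finset.sum_congr rfl fun v' _ => ?_
      rw [real_inner_smul_left, real_inner_smul_right]
      ring
    have h2 : ∑ u, ‖w u‖ ^ 2
        = ∑ v ∈ Vs, ∑ v' ∈ Vs, (∑ u, s v u * s v' u) * inner ℝ (z v) (z v') := by
      simp only [h1]
      rw [Finset.sum_comm]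
      refine Finset.sum_congr rfl fun v _ => ?_
      rw [Finset.sum_comm]
      refine Finset.sum_congr rfl fun v' _ => ?_
      rw [Finset.sum_mul]
    have h3 : ∀ v ∈ Vs, ∀ v' ∈ Vs, (∑ u, s v u * s v' u) * inner ℝ (z v) (z v')
        ≤ (if v = v' then n * ‖z v‖ ^ 2 else 0) + γ * (‖z v‖ * ‖z v'‖) := by
      intro v hv v' hv'
      by_cases h : v = v'
      · subst h
        rw [if_pos rfl, real_inner_self_eq_norm_sq]
        have h4 : ∑ u, s v u * s v u ≤ n := by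
          calc ∑ u, s v u * s v u ≤ ∑ _u : U, (1 : ℝ) :=
                Finset.sum_le_sum fun u _ => by have := hs v hv u; nlinarith
            _ = n := by rw [Finset.sum_const, Finset.card_univ, nsmul_eq_mul, mul_one]
        have h5 : 0 ≤ γ * (‖z v‖ * ‖z v‖) := by positivity
        have h6 : (∑ u, s v u * s v u) * ‖z v‖ ^ 2 ≤ n * ‖z v‖ ^ 2 :=
          mul_le_mul_of_nonneg_right h4 (by positivity)
        linarith
      · rw [if_neg h, zero_add]
        calc (∑ u, s v u * s v' u) * inner ℝ (z v) (z v')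
            ≤ |(∑ u, s v u * s v' u) * inner ℝ (z v) (z v')| := le_abs_self _
          _ = |∑ u, s v u * s v' u| * |inner ℝ (z v) (z v')| := abs_mul _ _
          _ ≤ γ * (‖z v‖ * ‖z v'‖) :=
            mul_le_mul (horth v hv v' hv' h) (abs_real_inner_le_norm _ _) (abs_nonneg _) hγ
    have h4 : ∑ u, ‖w u‖ ^ 2 ≤ n * Z + γ * (∑ v ∈ Vs, ‖z v‖) ^ 2 := by
      rw [h2]
      refine (Finset.sum_le_sum fun v hv => Finset.sum_le_sum fun v' hv' => h3 v hv v' hv').trans ?_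
      have h5 : ∑ v ∈ Vs, ∑ v' ∈ Vs, ((if v = v' then n * ‖z v‖ ^ 2 else 0)
          + γ * (‖z v‖ * ‖z v'‖)) = n * Z + γ * (∑ v ∈ Vs, ‖z v‖) ^ 2 := by
        simp only [Finset.sum_add_distrib]
        congr 1
        · rw [hZdef, Finset.mul_sum]
          refine Finset.sum_congr rfl fun v hv => ?_
          rw [Finset.sum_ite_eq, if_pos hv]
        · rw [sq, Finset.sum_mul_sum, Finset.mul_sum]
          refine Finset.sum_congr rfl fun v hv => ?_
          rw [Finset.mul_sum]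
      exact h5.le
    have h6 : (∑ v ∈ Vs, ‖z v‖) ^ 2 ≤ Vs.card * Z := by
      rw [hZdef]
      exact sq_sum_le_card_mul_sum_sq
    have h7 : γ * (∑ v ∈ Vs, ‖z v‖) ^ 2 ≤ γ * (Vs.card * Z) := mul_le_mul_of_nonneg_left h6 hγ
    nlinarith
  have hCS : Z ^ 2 ≤ β * ((n + γ * Vs.card) * Z) := by
    have h1 : Z ≤ ∑ u, ‖y u‖ * ‖w u‖ := by
      rw [hZ1]
      exact Finset.sum_le_sum fun u _ => real_inner_le_norm _ _
    have h2 : (∑ u, ‖y u‖ * ‖w u‖) ^ 2 ≤ (∑ u, ‖y u‖ ^ 2) * ∑ u, ‖w u‖ ^ 2 :=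
      Finset.sum_mul_sq_le_sq_mul_sq _ _ _
    have h3 : Z ^ 2 ≤ (∑ u, ‖y u‖ * ‖w u‖) ^ 2 := pow_le_pow_left₀ hZ0 h1 2
    have h4 : (∑ u, ‖y u‖ ^ 2) * ∑ u, ‖w u‖ ^ 2 ≤ β * ((n + γ * Vs.card) * Z) :=
      mul_le_mul hY hW (Finset.sum_nonneg fun u _ => by positivity) hβ.le
    linarith
  rcases Finset.eq_empty_or_nonempty Vs with he | hne
  · rw [he]; simp; positivity
  have hL : (0 : ℝ) < Vs.card := by exact_mod_cast hne.card_pos
  have hnL : n * Vs.card ≤ 4 * β * Z := by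
    rw [hZdef, Finset.mul_sum]
    calc n * Vs.card = ∑ _v ∈ Vs, n := by rw [Finset.sum_const, nsmul_eq_mul]; ring
      _ ≤ _ := Finset.sum_le_sum fun v hv => hz v hv
  have hZpos : 0 < Z := by
    by_contra hcon
    have h0 : Z = 0 := le_antisymm (not_lt.1 hcon) hZ0
    rw [h0] at hnL
    have : 0 < n * Vs.card := by positivity
    linarith
  have hZle : Z ≤ β * (n + γ * Vs.card) := by
    have : Z * Z ≤ (β * (n + γ * Vs.card)) * Z := by nlinarith
    exact le_of_mul_le_mul_right this hZpos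
  have h8 : n * Vs.card ≤ 4 * β ^ 2 * n + 4 * β ^ 2 * γ * Vs.card := by
    have : 4 * β * Z ≤ 4 * β * (β * (n + γ * Vs.card)) :=
      mul_le_mul_of_nonneg_left hZle (by positivity)
    nlinarith
  have h9 : 4 * β ^ 2 * γ * Vs.card ≤ n * Vs.card / 2 := by
    have : 8 * β ^ 2 * γ * Vs.card ≤ n * Vs.card := mul_le_mul_of_nonneg_right hγn hL.le
    linarith
  have h10 : n * Vs.card ≤ n * (8 * β ^ 2) := by linarith
  exact le_of_mul_le_mul_left h10 hn'

end Pool.Agent.W_d799b0_h54
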