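import Pool.Agent.W_d799b0_h54.ConsA
import Pool.Agent.W_d799b0_h54.ListB
import Pool.Agent.W_d799b0_h82.SmallB

/-!
# The small case: few strings are kept

PROOF (compare `keep_card`, SmallB2). `packS`; `list_inner` with `U = F ^ 3`, `y = yv ..`
(`n ‖y u‖² ≤ β` is `Pack.small`; zero outside `T`), `s v u = sg (HH r) (bP r v) u` as a real number
(`sg` is `1` or `-1`), `γ = n' r ^ 2 + r` (`sg_orth`, `sg_orth_nonneg`, `bP_degree`, `bP_inj`,
`card_HH`), `hz` by `kpT_iff`; `beta_facts`: `8 β² ≤ 8 K ^ 4`.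
-/

set_option autoImplicit false

namespace Pool.Agent.W_d799b0_h54

open Pool.Agent.W_d799b0_h82

theorem fewV {V : List Bool → List Bool → Bool} {dm : Env → ℕ} {h : Env → Inst → List ℤ}
    {E : Env} {w : Fin (dm E) → ℤ} (hP : Params E) (hR : RedV V (h E) E (dm E) w)
    (ph : List (List Seed)) (i0 b0 j : ℕ) (hj : j ≤ eN E)
    (hU : ∀ u, PtLt (eR E) u → Used E (instS E ph i0 b0 j u))
    (Vs : Finset (List Bool)) (hlen : ∀ v ∈ Vs, v.length = j)
    (hk : ∀ v ∈ Vs, kpV dm h E ph i0 b0 j v = true) : Vs.card ≤ 8 * eK E ^ 4 := by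
  classical
  have hfact : Fact (eR E).Prime := ⟨hP.prime⟩
  have hr0 : 0 < eR E := hP.pos_r
  have hcardF : Fintype.card (ZMod (eR E)) = eR E := ZMod.card _
  have hcard3 : Fintype.card (ZMod (eR E) × ZMod (eR E) × ZMod (eR E)) = eR E ^ 3 := by
    rw [Fintype.card_prod, Fintype.card_prod, hcardF]; ring
  have hcard3' : ((Fintype.card (ZMod (eR E) × ZMod (eR E) × ZMod (eR E)) : ℕ) : ℝ) =
      (eR E : ℝ) ^ 3 := by
    rw [hcard3]
    push_cast
    rfl
  obtain ⟨T, ψ, hp⟩ := packS hP hR ph i0 b0 j hU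
  obtain ⟨-, -, -, hb4, hb5⟩ := beta_facts hP
  have hβ : (0 : ℝ) < (beta E : ℝ) := by exact_mod_cast hR.pos_beta
  have hHH : 2 * (HH (eR E)).card = Fintype.card (ZMod (eR E)) + 1 := by
    rw [hcardF]
    exact card_HH E hP
  have hdeg : ∀ v ∈ Vs, (bP (eR E) v).degree < (eN E : ℕ) := by
    intro v hv
    refine (bP_degree (eR E) v).trans_le ?_
    rw [hlen v hv]
    exact_mod_cast hj
  have key := list_inner (yv (dm E) (eR E) (fun u => h E (instS E ph i0 b0 j u)) T ψ)
    (beta E : ℝ) ((eN E : ℝ) * (eR E : ℝ) ^ 2 + eR E) hβ (by positivity)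
    (by rw [hcard3]; positivity) (by
      intro u
      rw [hcard3']
      by_cases hu : u ∈ T
      · have h1 := hp.small u hu
        unfold yv
        rw [if_pos hu]
        exact h1
      · unfold yv
        rw [if_neg hu, norm_zero]
        have : (eR E : ℝ) ^ 3 * 0 ^ 2 = 0 := by ring
        rw [this]
        exact hβ.le) Vs
    (fun v u => ((sg (HH (eR E)) (bP (eR E) v) u : ℤ) : ℝ)) (by
      intro v _ u
      unfold sg
      split_ifs <;> norm_num) (by
      intro v hv v' hv' hne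
      have hne' : bP (eR E) v ≠ bP (eR E) v' := fun he =>
        hne (bP_inj _ v v' ((hlen v hv).trans (hlen v' hv').symm) he)
      have h1 := sg_orth (HH (eR E)) hHH (eN E) _ _ (hdeg v hv) (hdeg v' hv') hne'
      have h2 := sg_orth_nonneg (HH (eR E)) hHH (bP (eR E) v) (bP (eR E) v')
      have h3 : (∑ u, ((sg (HH (eR E)) (bP (eR E) v) u : ℤ) : ℝ) *
          ((sg (HH (eR E)) (bP (eR E) v') u : ℤ) : ℝ)) =
          ((∑ u, sg (HH (eR E)) (bP (eR E) v) u * sg (HH (eR E)) (bP (eR E) v') u : ℤ) : ℝ) := by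
        push_cast
        rfl
      rw [h3, abs_of_nonneg (by exact_mod_cast h2)]
      rw [hcardF] at h1
      exact_mod_cast h1) (by
      rw [hcard3']
      exact_mod_cast hb5) (by
      intro v hv
      rw [hcard3']
      exact (kpT_iff hp v).1 (hk v hv))
  have key2 : Vs.card ≤ 8 * beta E ^ 2 := by exact_mod_cast key
  exact key2.trans hb4

end Pool.Agent.W_d799b0_h54
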