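import Pool.Agent.W_d799b0_h54.CleanP
import Pool.Agent.W_d799b0_h54.AlgGP

/-!
# The tests are computable in polynomial time

`PF.instL`, `PF.instS`, `PF.pts`, `PF.chi`, `PF.pt` and so on are in
`Pool/Agent/W_d799b0_h42/AlgP2.lean` to `AlgP4.lean` (look there for the exact names); equality of
points: `Pt` is a product of `Bn`, so `decide (p = q)` is the conjunction of `PF.bnEq` (as in
`PF.cast` with `Prod.ext_iff`), or `pf_eq` with an `Inj` instance.
-/

set_option autoImplicit false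

namespace Pool.Agent.PolyTime

open Function
open Pool.Agent.W_d799b0_h82 (Bn Pt Seed Test Hd Inst Env)
open Pool.Agent.W_d799b0_h54 (PAcc PKp accV kpV)

variable {γ : Type} [ToD γ]

private theorem TestP_ptEq {p q : γ → Pt} (hp : PF p) (hq : PF q) :
    PF (fun c => decide (p c = q c)) :=
  (hp.beqL hq).cast (fun c => by
    congr 1
    rw [Bool.eq_iff_iff, beq_iff_eq, decide_eq_true_iff])

private theorem TestP_map2 {F : γ → List (Pt × List ℤ)} (hF : PF F) :
    PF (fun c => (F c).map fun p => p.2) :=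
  PF.map (g := fun _ (p : Pt × List ℤ) => p.2) PF.id'.snd.snd hF

private theorem TestP_smpV {r w : γ → ℕ} {F : γ → List (Pt × List ℤ)} {s : γ → Seed}
    (hr : PF r) (hw : PF w) (hF : PF F) (hs : PF s) :
    PF (fun c => W_d799b0_h54.smpV (r c) (w c) (F c) (s c)) := by
  refine PF.flatMap (g := fun c l => ((F c).filter fun p =>
    decide (p.1 = W_d799b0_h82.pt (r c) (s c) l)).map fun p => p.2) ?_ hw.range
  refine TestP_map2 (F := fun x : γ × ℕ => (F x.1).filter fun p =>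
    decide (p.1 = W_d799b0_h82.pt (r x.1) (s x.1) x.2)) ?_
  refine PF.filter (γ := γ × ℕ) (g := fun x p =>
    decide (p.1 = W_d799b0_h82.pt (r x.1) (s x.1) x.2)) ?_ (hF.comp PF.id'.fst)
  exact TestP_ptEq PF.id'.snd.fst (PF.pt (hr.comp PF.id'.fst.fst) (hs.comp PF.id'.fst.fst)
    PF.id'.fst.snd)

private theorem TestP_sgnV {r : γ → ℕ} {F : γ → List (Pt × List ℤ)} {v : γ → List Bool}
    (hr : PF r) (hF : PF F) (hv : PF v) :
    PF (fun c => W_d799b0_h54.sgnV (r c) (F c) (v c)) := by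
  refine PF.map (g := fun c (p : Pt × List ℤ) =>
    if W_d799b0_h82.chi (r c) p.1 (v c) then p.2 else p.2.map fun a => -a) ?_ hF
  refine PF.ite (PF.chi (hr.comp PF.id'.fst) PF.id'.snd.fst (hv.comp PF.id'.fst))
    PF.id'.snd.snd ?_
  exact PF.map (γ := γ × (Pt × List ℤ)) (g := fun _ (a : ℤ) => -a) (PF.zneg PF.id'.snd)
    PF.id'.snd.snd

theorem PF.beta {E : γ → Env} (hE : PF E) : PF (fun c => W_d799b0_h54.beta (E c)) :=
  PN.toNat (g := fun c => W_d799b0_h82.eK (E c)) (PN.half (PN.ofNat hE.eK)) hE.eK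
    (fun _ => Nat.div_le_self _ _)

theorem PF.accT {d β r w : γ → ℕ} {F : γ → List (Pt × List ℤ)} {s : γ → Seed} (hd : PF d)
    (hβ : PF β) (hr : PF r) (hw : PF w) (hF : PF F) (hs : PF s) :
    PF (fun c => W_d799b0_h54.accT (d c) (β c) (r c) (w c) (F c) (s c)) := by
  have h1 : PF (fun c => W_d799b0_h54.form (d c) ((F c).map fun p => p.2)) :=
    PF.form hd (TestP_map2 hF)
  have h2 := PF.zpow (PF.zOfNat hr) 3
  have h3 := PF.zpow (PF.zOfNat hw) 2
  exact PF.zle (PF.zmul (PF.zmul (PF.const (64 : ℤ)) (PF.zOfNat hβ))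
    (PF.qf hd h1.snd (PF.comb hd h2 (PF.zOfNat hw) (PF.vsum hd (TestP_smpV hr hw hF hs))
      (PF.vsum hd (TestP_map2 hF))))) (PF.zmul (PF.zmul h2 h3) h1.fst)

theorem PF.kpT {d β r : γ → ℕ} {F : γ → List (Pt × List ℤ)} {v : γ → List Bool} (hd : PF d)
    (hβ : PF β) (hr : PF r) (hF : PF F) (hv : PF v) :
    PF (fun c => W_d799b0_h54.kpT (d c) (β c) (r c) (F c) (v c)) := by
  have h1 : PF (fun c => W_d799b0_h54.form (d c) ((F c).map fun p => p.2)) :=
    PF.form hd (TestP_map2 hF)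
  exact PF.zle (PF.zmul (PF.zpow (PF.zOfNat hr) 3) h1.fst)
    (PF.zmul (PF.zmul (PF.const (4 : ℤ)) (PF.zOfNat hβ))
      (PF.qf hd h1.snd (PF.vsum hd (TestP_sgnV hr hF hv))))

private theorem TestP_famL {h : Env → Inst → List ℤ}
    (hh : PF (fun x : Env × Inst => h x.1 x.2)) {E : γ → Env} {ph : γ → List (List Seed)}
    {σ : γ → List Seed} (hE : PF E) (hph : PF ph) (hσ : PF σ) :
    PF (fun c => W_d799b0_h54.famL h (E c) (ph c) (σ c)) :=
  PF.map (g := fun c u => (u, h (E c) (W_d799b0_h82.instL (E c) (ph c) (σ c) u)))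
    (PF.id'.snd.pair (PF.comp (f := fun x : γ × Pt =>
      (E x.1, W_d799b0_h82.instL (E x.1) (ph x.1) (σ x.1) x.2)) hh
      ((hE.comp PF.id'.fst).pair (PF.instL (hE.comp PF.id'.fst) (hph.comp PF.id'.fst)
        (hσ.comp PF.id'.fst) PF.id'.snd)))) hE.eR.pts

private theorem TestP_famS {h : Env → Inst → List ℤ}
    (hh : PF (fun x : Env × Inst => h x.1 x.2)) {E : γ → Env} {ph : γ → List (List Seed)}
    {i0 b0 j : γ → ℕ} (hE : PF E) (hph : PF ph) (hi : PF i0) (hb : PF b0) (hj : PF j) :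
    PF (fun c => W_d799b0_h54.famS h (E c) (ph c) (i0 c) (b0 c) (j c)) :=
  PF.map (g := fun c u => (u, h (E c)
      (W_d799b0_h82.instS (E c) (ph c) (i0 c) (b0 c) (j c) u)))
    (PF.id'.snd.pair (PF.comp (f := fun x : γ × Pt =>
      (E x.1, W_d799b0_h82.instS (E x.1) (ph x.1) (i0 x.1) (b0 x.1) (j x.1) x.2)) hh
      ((hE.comp PF.id'.fst).pair (PF.instS (hE.comp PF.id'.fst) (hph.comp PF.id'.fst)
        (hi.comp PF.id'.fst) (hb.comp PF.id'.fst) (hj.comp PF.id'.fst) PF.id'.snd)))) hE.eR.pts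

theorem pacc (dm : Env → ℕ) (h : Env → Inst → List ℤ) (hd : PF dm)
    (hh : PF (fun x : Env × Inst => h x.1 x.2)) : PAcc (accV dm h) := by
  have hE : PF (fun x : Env × (List (List Seed) × (List Seed × Seed)) => x.1) := PF.id'.fst
  have hD : PF (fun x : Env × (List (List Seed) × (List Seed × Seed)) => dm x.1) := hd.comp hE
  exact PF.accT hD (PF.beta hE) hE.eR hE.eW
    (PF.clean hD (PF.beta hE) (TestP_famL hh hE PF.id'.snd.fst PF.id'.snd.snd.fst))
    PF.id'.snd.snd.snd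

theorem pkp (dm : Env → ℕ) (h : Env → Inst → List ℤ) (hd : PF dm)
    (hh : PF (fun x : Env × Inst => h x.1 x.2)) : PKp (kpV dm h) := by
  have hE : PF (fun x : Env × (List (List Seed) × (ℕ × (ℕ × (ℕ × List Bool)))) => x.1) :=
    PF.id'.fst
  have hD : PF (fun x : Env × (List (List Seed) × (ℕ × (ℕ × (ℕ × List Bool)))) => dm x.1) :=
    hd.comp hE
  exact PF.kpT hD (PF.beta hE) hE.eR
    (PF.clean hD (PF.beta hE) (TestP_famS hh hE PF.id'.snd.fst PF.id'.snd.snd.fst
      PF.id'.snd.snd.snd.fst PF.id'.snd.snd.snd.snd.fst)) PF.id'.snd.snd.snd.snd.snd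

end Pool.Agent.PolyTime
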