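import Pool.Agent.W_d799b0_h42.NPT
import Pool.Agent.W_d799b0_h82.Parse
import Pool.Agent.W_d799b0_h82.Pad
import Pool.Agent.W_d799b0_h82.Size
import Pool.Agent.W_d799b0_h82.EnvB
import Pool.Agent.W_d799b0_h54.CorrectG
import Pool.Agent.W_d799b0_h54.LargeV
import Pool.Agent.W_d799b0_h54.SeedV
import Pool.Agent.W_d799b0_h54.SmallV1
import Pool.Agent.W_d799b0_h54.SmallV2
import Pool.Agent.W_d799b0_h54.TestP

/-!
# If all languages in NP have vector reductions then P = NP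

PROOF of `inP_of_vecRed` (compare `W_d799b0_h82/Main.lean`). `hA = (p, V, hV, hA)`,
`W = Vof p V`, `exists_lang` gives `L` in NP with `en I ∈ L ↔ Theta W I`. Let `dm0`, `f` be the
vector reduction of `L`. Put `NN E = 300 (|x| + 1) (M + 1) (e + 1)` (`used_sz`:
`(en I).length = sz I ≤ NN E` for used `I`), `dm E = dm0 (NN E)`, `h E I = f (NN E, en I)`.
Bounds (`PF.bound`, `sz_nat`, `sz_str_le`): polynomials `D`, `B` with `dm0 N ≤ D N` and
`|cd (f (N, x)) i| ≤ 2 ^ B N` for `x.length ≤ N` (an entry of `v` has `natAbs < 2 ^ sz v` by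
`size_le_sz_int`, `sz_mem`; entries beyond the end are `0`). Let
`Q = 2 (D (D + 4 + 12 X + 2 B) + 1)`, so `beta E = D (D + 4 + 12 N + 2 B) + 1` at `N = NN E`
(`eK_mkEnv`). `RedV.big`: `form_bound` with `n = r ^ 3`, `r < 2 ^ (4 e + 1)`, `e ≤ N`:
`(d (1 + n 4 ^ b)) ^ d ≤ (2 ^ (d + 1 + 3 (4 e + 1) + 2 b)) ^ d ≤ 2 ^ beta`. `w` from the vector
reduction (sums over `range` are sums over `Fin`: `Finset.sum_range`). Then `goodT`, `runG_sound`,
`runG_complete`, `PF.runG` with `pacc`, `pkp`, `pf_mkEnv`, `raw_of_pf`, `witness_iff`, `le_eN`.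
-/

set_option autoImplicit false

open Turing Computability

namespace Pool.Agent.W_d799b0_h54

open Pool.Agent.PolyTime Function
open Pool.Agent.W_d799b0_h82

/-- `A` has a vector reduction: for every length bound `N` there is a hyperplane (given by `w`) in
dimension `dm N` which separates the vectors `f (N, x)` with `x ∈ A` from those with `x ∉ A`, with a
margin that is at least the norm of `w`. -/
def VecRed (A : Set (List Bool)) : Prop :=
  ∃ (dm : ℕ → ℕ) (f : ℕ × List Bool → List ℤ), PF dm ∧ PF f ∧ ∀ N, ∃ w : ℕ → ℤ,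
    0 < ∑ i ∈ Finset.range (dm N), w i ^ 2 ∧ ∀ x : List Bool, x.length ≤ N →
      (x ∈ A ↔ 0 < ∑ i ∈ Finset.range (dm N), w i * cd (f (N, x)) i) ∧
      ∑ i ∈ Finset.range (dm N), w i ^ 2 ≤
        (∑ i ∈ Finset.range (dm N), w i * cd (f (N, x)) i) ^ 2

theorem goodT {V : List Bool → List Bool → Bool} {dm : Env → ℕ} {h : Env → Inst → List ℤ}
    {E : Env} {w : Fin (dm E) → ℤ} (hP : Params E) (hR : RedV V (h E) E (dm E) w) :
    GoodT V (accV dm h) (kpV dm h) E :=
  ⟨fun ph σ m hS => seedV hP hR ph σ m hS,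
    fun ph σ m hS hD s hs1 hs => largeV hP hR ph σ m hS hD s hs1 hs,
    fun ph i0 b0 hb hU a ha hab huniq j hj =>
      survV hP hR ph i0 b0 hb hU a ha hab huniq j hj,
    fun ph i0 b0 j hj hU Vs hlen hk => fewV hP hR ph i0 b0 j hj hU Vs hlen hk⟩

/-- the bound for the sizes of the instances -/
private def NN (E : Env) : ℕ := 300 * (((eX E).length + 1) * (eM E + 1) * (eE E + 1))

private theorem MainV_pfN : PF NN := by
  unfold NN
  exact (PF.const 300).mul ((((PF.eX PF.id').length.succ).mul (PF.eM PF.id').succ).mul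
    (PF.eE PF.id').succ)

private theorem MainV_entry {f : ℕ × List Bool → List ℤ} (hf : PF f) :
    ∃ B : Polynomial ℕ, ∀ (N : ℕ) (x : List Bool), x.length ≤ N →
      ∀ i, |cd (f (N, x)) i| ≤ 2 ^ B.eval N := by
  obtain ⟨P, hP⟩ := hf.bound
  refine ⟨P.comp (Polynomial.C 6 * Polynomial.X + Polynomial.C 3), fun N x hx i => ?_⟩
  have h1 : sz ((N, x) : ℕ × List Bool) ≤ 6 * N + 3 := by
    rw [sz_pair, sz_nat]
    have := sz_str_le x
    omega
  have h2 : sz (f (N, x)) ≤ P.eval (6 * N + 3) := (hP _).trans (eval_mono P h1)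
  rw [Polynomial.eval_comp, Polynomial.eval_add, Polynomial.eval_mul, Polynomial.eval_C,
    Polynomial.eval_C, Polynomial.eval_X]
  unfold cd
  rw [List.getD_eq_getElem?_getD]
  by_cases hi : i < (f (N, x)).length
  · rw [List.getElem?_eq_getElem hi, Option.getD_some]
    have h3 : sz ((f (N, x))[i]) < sz (f (N, x)) := sz_mem (List.getElem_mem hi)
    have h4 := size_le_sz_int ((f (N, x))[i])
    have h5 : ((f (N, x))[i]).natAbs < 2 ^ P.eval (6 * N + 3) :=
      Nat.size_le.1 (by omega)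
    rw [Int.abs_eq_natAbs]
    exact_mod_cast h5.le
  · rw [List.getElem?_eq_none (not_lt.1 hi), Option.getD_none]
    simp

private theorem MainV_dim {dm : ℕ → ℕ} (hdm : PF dm) :
    ∃ D : Polynomial ℕ, ∀ N : ℕ, dm N ≤ D.eval N := by
  obtain ⟨P, hP⟩ := hdm.bound
  refine ⟨P.comp (Polynomial.C 2 * Polynomial.X + 1), fun N => ?_⟩
  have h1 := hP N
  rw [sz_nat, sz_nat] at h1
  rw [Polynomial.eval_comp, Polynomial.eval_add, Polynomial.eval_mul, Polynomial.eval_C,
    Polynomial.eval_one, Polynomial.eval_X]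
  omega

private theorem MainV_arith (d b e r D N β : ℕ) (hd : d ≤ D) (he : e ≤ N)
    (hr : r < 2 ^ (4 * e + 1)) (hβ : D * (D + 4 + 12 * N + 2 * b) ≤ β) :
    ((d : ℤ) * (1 + ((r ^ 3 : ℕ) : ℤ) * 4 ^ b)) ^ d ≤ 2 ^ β := by
  have h1 : d ≤ 2 ^ d := Nat.lt_two_pow_self.le
  have h2 : r ^ 3 ≤ 2 ^ (3 * (4 * e + 1)) := by
    rw [show 3 * (4 * e + 1) = (4 * e + 1) * 3 by ring, pow_mul]
    exact Nat.pow_le_pow_left hr.le 3
  have h3 : 1 + r ^ 3 * 4 ^ b ≤ 2 ^ (3 * (4 * e + 1) + 2 * b + 1) := by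
    have h4 : (4 : ℕ) ^ b = 2 ^ (2 * b) := by rw [pow_mul]; norm_num
    have h5 : r ^ 3 * 4 ^ b ≤ 2 ^ (3 * (4 * e + 1) + 2 * b) := by
      rw [h4, pow_add]
      exact Nat.mul_le_mul_right _ h2
    have h6 : 1 ≤ 2 ^ (3 * (4 * e + 1) + 2 * b) := Nat.one_le_two_pow
    have h10 : 2 ^ (3 * (4 * e + 1) + 2 * b + 1) = 2 ^ (3 * (4 * e + 1) + 2 * b) * 2 :=
      pow_succ _ _
    omega
  have h7 : d * (1 + r ^ 3 * 4 ^ b) ≤ 2 ^ (d + 4 + 12 * e + 2 * b) := by
    have h8 : d + 4 + 12 * e + 2 * b = d + (3 * (4 * e + 1) + 2 * b + 1) := by ring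
    rw [h8, pow_add]
    exact Nat.mul_le_mul h1 h3
  have h9 : (d * (1 + r ^ 3 * 4 ^ b)) ^ d ≤ 2 ^ β := by
    refine (Nat.pow_le_pow_left h7 d).trans ?_
    rw [← pow_mul]
    refine Nat.pow_le_pow_right (by norm_num) (le_trans ?_ hβ)
    rw [Nat.mul_comm]
    exact Nat.mul_le_mul hd (by omega)
  exact_mod_cast h9

theorem inP_of_vecRed (h : ∀ A : Set (List Bool), InNP A → VecRed A)
    (A : Set (List Bool)) (hA : InNP A) : InP A := by
  obtain ⟨p, V, hV, hA⟩ := hA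
  have hW : PF (fun q : List Bool × List Bool => Vof p V q.1 q.2) :=
    pf_Vof p (pf_of_verifier hV)
  obtain ⟨L, hL, hLT⟩ := exists_lang hW
  obtain ⟨dm0, f, hdm0, hf, hw⟩ := h L hL
  obtain ⟨B, hB⟩ := MainV_entry hf
  obtain ⟨D, hD⟩ := MainV_dim hdm0
  have hdm : PF (fun E : Env => dm0 (NN E)) := hdm0.comp MainV_pfN
  have hh : PF (fun x : Env × Inst => f (NN x.1, en x.2)) :=
    hf.comp ((MainV_pfN.comp PF.fst').pair (pf_en PF.snd'))
  obtain ⟨Q, hQ⟩ : ∃ Q : Polynomial ℕ, ∀ n, Q.eval n =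
      2 * (D.eval n * (D.eval n + 4 + 12 * n + 2 * B.eval n) + 1) :=
    ⟨2 * (D * (D + 4 + 12 * Polynomial.X + 2 * B) + 1), fun n => by
      simp only [Polynomial.eval_add, Polynomial.eval_mul, Polynomial.eval_one,
        Polynomial.eval_X, Polynomial.eval_ofNat]⟩
  obtain ⟨q, hq⟩ := exists_params p Q (fun n => by rw [hQ]; positivity)
  refine ⟨fun x => runG (Vof p V) (accV (fun E => dm0 (NN E)) fun E I => f (NN E, en I))
    (kpV (fun E => dm0 (NN E)) fun E I => f (NN E, en I)) (mkEnv p q Q x),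
    raw_of_pf (PF.runG hW (pacc _ _ hdm hh) (pkp _ _ hdm hh) (pf_mkEnv p q Q)), ?_⟩
  intro x
  rw [hA x, ← witness_iff p V x _ (le_eN p q Q x)]
  have hE := hq x
  have hKE : eK (mkEnv p q Q x) = Q.eval (NN (mkEnv p q Q x)) := eK_mkEnv p q Q x
  have hbeta : beta (mkEnv p q Q x) = D.eval (NN (mkEnv p q Q x)) *
      (D.eval (NN (mkEnv p q Q x)) + 4 + 12 * NN (mkEnv p q Q x) +
        2 * B.eval (NN (mkEnv p q Q x))) + 1 := by
    rw [beta, hKE, hQ]
    omega
  constructor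
  · intro hB0
    obtain ⟨w, hw0, hw1⟩ := hw (NN (mkEnv p q Q x))
    have hlen : ∀ I, Used (mkEnv p q Q x) I → (en I).length ≤ NN (mkEnv p q Q x) := by
      intro I hI
      exact used_sz hE hI
    refine runG_complete hE (goodT (w := fun i => w i) hE ?_) hB0
    refine ⟨?_, ?_, ?_, ?_, ?_⟩
    · rw [Finset.sum_range] at hw0
      exact hw0
    · intro I hI
      have h1 := (hw1 (en I) (hlen I hI)).1
      rw [Finset.sum_range] at h1
      rw [← h1]
      exact (hLT I).symm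
    · intro I hI
      have h1 := (hw1 (en I) (hlen I hI)).2
      rw [Finset.sum_range, Finset.sum_range] at h1
      exact h1
    · rw [hbeta]
      omega
    · intro F hF1 hF2
      refine (form_bound _ (B.eval (NN (mkEnv p q Q x))) _ F hF1 ?_).1.trans ?_
      · intro v hv i
        obtain ⟨I, hI, rfl⟩ := hF2 v hv
        exact hB _ _ (hlen I hI) i
      · refine MainV_arith _ _ (eE (mkEnv p q Q x)) (eR (mkEnv p q Q x)) _
          (NN (mkEnv p q Q x)) _ (hD (NN (mkEnv p q Q x))) ?_ hE.r_lt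
          (by rw [hbeta]; exact Nat.le_succ _)
        unfold NN
        have h1 : 1 ≤ ((eX (mkEnv p q Q x)).length + 1) * (eM (mkEnv p q Q x) + 1) :=
          Nat.one_le_iff_ne_zero.2 (by positivity)
        nlinarith
  · intro hr
    exact runG_sound (Vof p V) _ _ _ hr

end Pool.Agent.W_d799b0_h54
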