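import Pool.Agent.W_d799b0_h54.FVecA
import Pool.Agent.W_d799b0_h54.FEnc
import Pool.Agent.W_d799b0_h54.ZSum
import Pool.Agent.W_d799b0_h54.MainV
import Pool.Agent.W_d799b0_h82.EnvA

/-!
# Mixed threshold reductions to sparse sets are vector reductions

PROOF of `PF.vecW`: `PF.zsum`, `PF.map`, `PF.all`, `PN.bB` (AlgP1; `en` is `pf_en`), `pf_half`-like
division: `j / p`, `j % p` for unary numbers: `pf_mod`, and `j / p = (j - j % p) / p`; simplest:
`PN.div`, `PN.toNat` (bounded by `j`). `PN.eq` or `PF.natEq`.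
`mix_vec`: `P` a polynomial with `(encW (f x)).length ≤ P |x|` (`Poly.length_bound`); every query
and every string of `f x` is shorter than `(encW (f x)).length` (as `length_le_encQ`,
`length_mem_encQ` in Parse), so `OkW k (P N) (f x)` for `|x| ≤ N` (`eval_mono`). `Λ = P N`,
`s = pS (P N)`, `K = (s + 1) ^ k`, `p = firstPrime (2 Λ K (k (4 Λ + 2) + 2) + 2)`
(`firstPrime_spec`, `pf_firstPrime`), `c = (Λ + 2) ^ k + p p K ^ 2 + 1`,
`dm N = (Λ + 2) ^ k + p p + 1`; `vecW_sep`.
-/

set_option autoImplicit false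

namespace Pool.Agent.W_d799b0_h54

open Pool.Agent.PolyTime Function
open Pool.Agent.W_d799b0_h82

section

variable {γ : Type} [ToD γ]

theorem FVecP_tlB {Y : γ → List (List Bool)} (hY : PF Y) : PF (fun c => tlB (Y c)) := by
  unfold tlB
  exact PF.all (g := fun _ y => y.all fun b => b)
    (PF.all (g := fun (_ : γ × List Bool) b => b) PF.snd' PF.snd') hY

theorem FVecP_fold_lt (Λ C : ℕ) (hC : Λ + 2 ≤ C) (l : List (List Bool)) (m : ℕ)
    (hl : ∀ y ∈ l, y.length + 1 ≤ m) (hm : Λ + 2 + m ≤ C) :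
    l.foldr (fun y s => (y.length + 1) + (Λ + 2) * s) 0 < C ^ l.length := by
  induction l with
  | nil => simp
  | cons y l ih =>
    rw [List.foldr_cons, List.length_cons, pow_succ]
    have h1 := ih (fun z hz => hl z (List.mem_cons_of_mem _ hz))
    have h2 := hl y (List.mem_cons_self ..)
    set v := l.foldr (fun y s => (y.length + 1) + (Λ + 2) * s) 0 with hv
    have h3 : (Λ + 2) * (v + 1) ≤ (Λ + 2) * C ^ l.length := Nat.mul_le_mul_left _ h1
    have h4 : 1 ≤ C ^ l.length := Nat.one_le_pow _ _ (by omega)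
    have h5 : m * 1 ≤ m * C ^ l.length := Nat.mul_le_mul_left _ h4
    have h6 : C ^ l.length * (Λ + 2 + m) ≤ C ^ l.length * C := Nat.mul_le_mul_left _ hm
    have h7 : C ^ l.length * (Λ + 2 + m) = (Λ + 2) * C ^ l.length + m * C ^ l.length := by ring
    have h8 : (Λ + 2) * (v + 1) = (Λ + 2) * v + (Λ + 2) := by ring
    omega

theorem FVecP_cdT {Λ : γ → ℕ} {Y : γ → List (List Bool)} (hΛ : PF Λ) (hY : PF Y) :
    PN (fun c => cdT (Λ c) (Y c)) := by
  obtain ⟨P, hP⟩ := hΛ.bound
  obtain ⟨Q, hQ⟩ := hY.bound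
  have h : PN (fun c => (Y c).reverse.foldl (fun s y => (y.length + 1) + (Λ c + 2) * s) 0) := by
    refine PN.foldl (f := fun c s y => (y.length + 1) + (Λ c + 2) * s) ?_ (PN.const 0)
      (PF.reverse hY) ((P + Q + 4) * Q) ?_
    · exact PN.add (PN.ofNat (PF.succ (PF.length PF.snd')))
        (PN.mul (PN.ofNat (PF.add (hΛ.comp PF.fst'.fst) (PF.const 2))) (PN.ofBn PF.fst'.snd))
    · intro c l' hl'
      have hP' := hP c
      have hQ' := hQ c
      rw [sz_nat] at hP'
      have hmem : ∀ y ∈ l', y ∈ Y c := fun y hy => List.mem_reverse.1 (hl'.subset hy)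
      have hlen : l'.length ≤ Q.eval (sz c) := by
        have h1 := hl'.length_le
        rw [List.length_reverse] at h1
        exact h1.trans ((length_le_sz _).trans hQ')
      have h2 : l'.reverse.foldr (fun y s => (y.length + 1) + (Λ c + 2) * s) 0 <
          (P.eval (sz c) + Q.eval (sz c) + 4) ^ l'.reverse.length := by
        refine FVecP_fold_lt (Λ c) _ (by omega) _ (Q.eval (sz c) + 1) ?_ (by omega)
        intro y hy
        have h3 := hmem y (List.mem_reverse.1 hy)
        have h4 := sz_mem h3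
        have h5 := length_le_sz y
        omega
      rw [List.foldr_reverse, List.length_reverse] at h2
      refine Nat.size_le.2 (h2.trans_le ?_)
      simp only [Polynomial.eval_mul, Polynomial.eval_add, Polynomial.eval_ofNat]
      rw [pow_mul]
      refine (Nat.pow_le_pow_left (Nat.lt_two_pow_self).le _).trans ?_
      exact Nat.pow_le_pow_right (Nat.one_le_two_pow) hlen
  exact h.congr (fun c => by rw [cdT, List.foldl_reverse])

theorem FVecP_gT {Λ : γ → ℕ} {L : γ → List WQuery} {j : γ → ℕ} (hΛ : PF Λ) (hL : PF L)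
    (hj : PF j) : PF (fun c => gT (Λ c) (L c) (j c)) := by
  unfold gT
  refine PF.zsum (PF.map (g := fun c (q : WQuery) =>
    if tlB q.2 && decide (cdT (Λ c) q.2 = j c) then q.1 else 0) ?_ hL)
  refine PF.ite (PF.and (FVecP_tlB PF.snd'.snd) ?_) PF.snd'.fst (PF.const 0)
  exact PN.eq (FVecP_cdT (hΛ.comp PF.fst') PF.snd'.snd) (PN.ofNat (hj.comp PF.fst'))

theorem FVecP_gH {p : γ → ℕ} {L : γ → List WQuery} {j : γ → ℕ} (hp : PF p) (hL : PF L)
    (hj : PF j) : PF (fun c => gH (p c) (L c) (j c)) := by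
  unfold gH
  refine PF.zsum (PF.map (g := fun c (q : WQuery) =>
    if !tlB q.2 && decide (hsh (p c) q.2 (j c / p c) = j c % p c) then q.1 else 0) ?_ hL)
  refine PF.ite (PF.and (PF.not (FVecP_tlB PF.snd'.snd)) ?_) PF.snd'.fst (PF.const 0)
  unfold hsh
  have h1 : PN (fun x : γ × WQuery => p x.1) := PN.ofNat (hp.comp PF.fst')
  have h2 : PN (fun x : γ × WQuery => j x.1) := PN.ofNat (hj.comp PF.fst')
  exact PN.eq (PN.bB h1 (PF.append (pf_en PF.snd'.snd) (PF.const [true])) (PN.div h2 h1))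
    (PN.mod h2 h1)

end

theorem pf_vecW {γ : Type} [ToD γ] {c p d Λ : γ → ℕ} {L : γ → List WQuery} (hc : PF c)
    (hp : PF p) (hd : PF d) (hΛ : PF Λ) (hL : PF L) :
    PF (fun a => vecW (c a) (p a) (d a) (Λ a) (L a)) := by
  unfold vecW
  have h2 : PF (fun a => 2 * (c a : ℤ)) := PF.zmul (PF.const 2) (PF.zOfNat hc)
  have hpZ : PF (fun a => (p a : ℤ)) := PF.zOfNat hp
  refine PF.append (PF.map (g := fun a j => 2 * (c a : ℤ) * p a * gT (Λ a) (L a) j) ?_ hd.range)
    (PF.append (PF.map (g := fun a j => 2 * (c a : ℤ) * gH (p a) (L a) j) ?_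
      (PF.range (PF.mul hp hp))) ?_)
  · exact PF.zmul (PF.zmul (h2.comp PF.fst') (hpZ.comp PF.fst'))
      (FVecP_gT (hΛ.comp PF.fst') (hL.comp PF.fst') PF.snd')
  · exact PF.zmul (h2.comp PF.fst') (FVecP_gH (hp.comp PF.fst') (hL.comp PF.fst') PF.snd')
  · exact PF.cons (PF.zneg (PF.zmul (PF.zOfNat hc) hpZ)) (PF.const [])

theorem FVecP_len (L : List WQuery) : L.length ≤ (encW L).length := by
  induction L with
  | nil => simp
  | cons q L ih =>
    have h : encW (q :: L) = (Sym.sign (decide (q.1 < 0)) ::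
        (q.1.natAbs.bits.map Sym.bit ++ q.2.flatMap fun y => Sym.sep :: y.map Sym.bit)) ++
        encW L := rfl
    rw [h, List.length_append, List.length_cons, List.length_cons]
    omega

theorem FVecP_mem {L : List WQuery} {q : WQuery} (hq : q ∈ L) {y : List Bool}
    (hy : y ∈ q.2) : y.length ≤ (encW L).length := by
  have h1 : ∀ Ys : List (List Bool), y ∈ Ys →
      y.length ≤ (Ys.flatMap fun y => Sym.sep :: y.map Sym.bit).length := by
    intro Ys
    induction Ys with
    | nil => intro h; simp at h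
    | cons z Ys ih =>
      intro h
      rw [List.flatMap_cons, List.length_append, List.length_cons, List.length_map]
      rcases List.mem_cons.1 h with h | h
      · subst h; omega
      · have := ih h; omega
  induction L with
  | nil => simp at hq
  | cons p L ih =>
    have h : encW (p :: L) = (Sym.sign (decide (p.1 < 0)) ::
        (p.1.natAbs.bits.map Sym.bit ++ p.2.flatMap fun y => Sym.sep :: y.map Sym.bit)) ++
        encW L := rfl
    rw [h, List.length_append, List.length_cons, List.length_append]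
    rcases List.mem_cons.1 hq with h2 | h2
    · subst h2
      have := h1 _ hy
      omega
    · have := ih h2
      omega

theorem mix_vec {k : ℕ} {A S : Set (List Bool)} (hS : Sparse S) (h : MixRed k A S) :
    VecRed A := by
  obtain ⟨f, hf, hk, hcorr⟩ := h
  obtain ⟨P, hP⟩ := Poly.length_bound hf
  obtain ⟨pS, hpS⟩ := hS
  have hfP : PF f := pf_of_encW hf
  have hK : ∀ {γ : Type} [ToD γ] {n : γ → ℕ}, PF n →
      PF (fun c => (pS.eval (P.eval (n c)) + 1) ^ k) := by
    intro γ _ n hn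
    exact PF.pow (PF.succ (PF.evalPoly pS (PF.evalPoly P hn))) k
  have hp : ∀ {γ : Type} [ToD γ] {n : γ → ℕ}, PF n →
      PF (fun c => firstPrime (2 * (P.eval (n c) * (pS.eval (P.eval (n c)) + 1) ^ k *
        (k * (4 * P.eval (n c) + 2) + 2)) + 2)) := by
    intro γ _ n hn
    have hΛ := PF.evalPoly P hn
    exact pf_firstPrime (PF.add (PF.mul (PF.const 2) (PF.mul (PF.mul hΛ (hK hn))
      (PF.add (PF.mul (PF.const k) (PF.add (PF.mul (PF.const 4) hΛ) (PF.const 2)))
        (PF.const 2)))) (PF.const 2))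
  have hd : ∀ {γ : Type} [ToD γ] {n : γ → ℕ}, PF n →
      PF (fun c => (P.eval (n c) + 2) ^ k) := by
    intro γ _ n hn
    exact PF.pow (PF.add (PF.evalPoly P hn) (PF.const 2)) k
  set p : ℕ → ℕ := fun N => firstPrime (2 * (P.eval N * (pS.eval (P.eval N) + 1) ^ k *
        (k * (4 * P.eval N + 2) + 2)) + 2) with hpdef
  refine ⟨fun N => (P.eval N + 2) ^ k + p N * p N + 1,
    fun a => vecW ((P.eval a.1 + 2) ^ k + p a.1 * p a.1 * ((pS.eval (P.eval a.1) + 1) ^ k) ^ 2 + 1)
      (p a.1) ((P.eval a.1 + 2) ^ k) (P.eval a.1) (f a.2), ?_, ?_, fun N => ?_⟩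
  · exact PF.succ (PF.add (hd PF.id') (PF.mul (hp PF.id') (hp PF.id')))
  · have h1 : PF (fun a : ℕ × List Bool => a.1) := PF.fst'
    refine pf_vecW ?_ (hp h1) (hd h1) (PF.evalPoly P h1) (hfP.comp PF.snd')
    exact PF.succ (PF.add (hd h1) (PF.mul (PF.mul (hp h1) (hp h1)) (PF.pow (hK h1) 2)))
  · obtain ⟨hprime, hlt, _⟩ := firstPrime_spec (2 * (P.eval N * (pS.eval (P.eval N) + 1) ^ k *
        (k * (4 * P.eval N + 2) + 2)) + 2) (by omega)
    obtain ⟨w, hw0, hw⟩ := vecW_sep S k (P.eval N) (pS.eval (P.eval N))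
      ((pS.eval (P.eval N) + 1) ^ k) (p N)
      ((P.eval N + 2) ^ k + p N * p N * ((pS.eval (P.eval N) + 1) ^ k) ^ 2 + 1)
      (hpS (P.eval N)) le_rfl hprime (by
        have : p N = firstPrime (2 * (P.eval N * (pS.eval (P.eval N) + 1) ^ k *
          (k * (4 * P.eval N + 2) + 2)) + 2) := rfl
        omega) le_rfl
    refine ⟨w, hw0, fun x hx => ?_⟩
    have hlen : (encW (f x)).length ≤ P.eval N := (hP x).trans (eval_mono P hx)
    have hOk : OkW k (P.eval N) (f x) :=
      ⟨(FVecP_len _).trans hlen, fun q hq => (hk x q hq).1,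
        fun q hq y hy => (FVecP_mem hq hy).trans hlen, fun q hq => (hk x q hq).2⟩
    obtain ⟨h1, h2⟩ := hw (f x) hOk
    exact ⟨(hcorr x).trans h1, h2⟩

end Pool.Agent.W_d799b0_h54
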