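import Pool.Agent.W_d799b0_h54.Muroga
import Pool.Agent.W_d799b0_h54.FEnc
import Pool.Agent.W_d799b0_h54.ZSum
import Pool.Agent.W_d799b0_h54.MainV

/-!
# Many-one reductions to linear threshold languages are vector reductions

`LT1.small`: see Muroga.lean.
PROOF of `lt_vec`. `g : PF` the reduction (`pf_of_manyOne`), `(g x).length ≤ P |x| ≤ Λ = P N`.
Coordinates `n * (Λ + 1) + i` for `i ≤ n ≤ Λ`, so `dm N = (Λ + 1) ^ 2`. For `y = g x` of length `n`
the vector is `c y_i` at `n (Λ + 1) + i` (`i < n`), `- c` at `n (Λ + 1) + n`, and zero elsewhere, with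
`c = 2 ^ ((Λ + 1) (2 Λ + 8))`: as a list
`(List.range ((Λ + 1) * (Λ + 1))).map fun j => if j / (Λ+1) = n then (if j % (Λ+1) = n then -c else
if y.getD (j % (Λ+1)) false then c else 0) else 0` (for `j % (Λ + 1) > n` the default gives `0`).
`w j = u (j / (Λ + 1)) (j % (Λ + 1))` if `j % (Λ + 1) ≤ j / (Λ + 1)`, otherwise `w j = 0`. The product is `c (∑ i < n, y_i u n i - u n n)`, of absolute
value at least `c`, and `∑ w² ≤ (Λ + 1)^2 ((Λ + 1) ^ (2 Λ + 4))^2 ≤ c²` (`Λ + 1 ≤ 2 ^ Λ`). The
hyperplane is not zero because `u 0 0 ≠ 0`. Powers of two in binary: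
`val (List.replicate e false ++ [true]) = 2 ^ e` (`val_append`, `val_replicate`, `PN.val`).
-/

set_option autoImplicit false

namespace Pool.Agent.W_d799b0_h54

open Pool.Agent.PolyTime Function
open Pool.Agent.W_d799b0_h82

private theorem LTv_ofFn (x : List Bool) :
    List.ofFn (fun i : Fin x.length => x.getD i false) = x := by
  apply List.ext_getElem
  · simp
  · intro i h1 h2
    simp [h2]

open Classical in
theorem LT1.small {L : Set (List Bool)} (h : LT1 L) :
    ∃ u : ℕ → ℕ → ℤ, (∀ n, ∀ i ≤ n, |u n i| ≤ ((n : ℤ) + 1) ^ (2 * n + 4)) ∧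
      ∀ x : List Bool,
        (x ∈ L → 0 < (∑ i ∈ Finset.range x.length,
          if x.getD i false then u x.length i else 0) - u x.length x.length) ∧
        (x ∉ L → (∑ i ∈ Finset.range x.length,
          if x.getD i false then u x.length i else 0) - u x.length x.length < 0) := by
  obtain ⟨w, t, hL⟩ := h
  have key : ∀ n : ℕ, ∃ w' : Fin (n + 1) → ℤ, (∀ i, |w' i| ≤ ((n + 1 : ℕ) : ℤ) ^ (2 * (n + 1) + 2)) ∧
      ∀ b : Fin n → Bool, 0 < (if List.ofFn b ∈ L then (1 : ℤ) else -1) *
        ((∑ i : Fin n, if b i then w' i.castSucc else 0) - w' (Fin.last n)) := by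
    intro n
    set sg : (Fin n → Bool) → ℤ := fun b => if List.ofFn b ∈ L then (1 : ℤ) else -1 with hsg
    have hsg1 : ∀ b, sg b = 1 ∨ sg b = -1 := by
      intro b
      rw [hsg]
      beta_reduce
      split_ifs
      · exact Or.inl rfl
      · exact Or.inr rfl
    set vec : (Fin n → Bool) → Fin (n + 1) → ℤ := fun b =>
      Fin.snoc (α := fun _ => ℤ) (fun i : Fin n => sg b * (if b i then 1 else 0)) (-sg b) with hvec
    have hsum : ∀ (b : Fin n → Bool) (v : Fin (n + 1) → ℤ), ∑ i, vec b i * v i =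
        sg b * ((∑ i : Fin n, if b i then v i.castSucc else 0) - v (Fin.last n)) := by
      intro b v
      rw [Fin.sum_univ_castSucc, hvec]
      beta_reduce
      simp only [Fin.snoc_castSucc, Fin.snoc_last]
      rw [mul_sub, Finset.mul_sum]
      have : ∀ i : Fin n, sg b * (if b i then 1 else 0) * v i.castSucc =
          sg b * (if b i then v i.castSucc else 0) := by
        intro i
        split_ifs <;> ring
      rw [Finset.sum_congr rfl fun i _ => this i]
      ring
    obtain ⟨w', h1, h2⟩ := muroga (n + 1) (Finset.univ.image vec) (by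
      intro a ha i
      obtain ⟨b, -, rfl⟩ := Finset.mem_image.1 ha
      rw [hvec]
      beta_reduce
      refine Fin.lastCases ?_ (fun j => ?_) i
      · rw [Fin.snoc_last, abs_neg]
        rcases hsg1 b with h | h <;> rw [h] <;> simp
      · rw [Fin.snoc_castSucc]
        rcases hsg1 b with h | h <;> rw [h] <;> split_ifs <;> simp)
      (Fin.snoc (α := fun _ => ℤ) (fun i : Fin n => 2 * w n i) (2 * t n + 1)) (by
      intro a ha
      obtain ⟨b, -, rfl⟩ := Finset.mem_image.1 ha
      rw [hsum]
      simp only [Fin.snoc_castSucc, Fin.snoc_last]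
      have hb := hL (List.ofFn b)
      have hs2 : ∑ i ∈ Finset.range (List.ofFn b).length,
          (if (List.ofFn b).getD i false then w (List.ofFn b).length i else 0) =
          ∑ i : Fin n, if b i then w n i else 0 := by
        rw [List.length_ofFn, Finset.sum_range]
        refine Finset.sum_congr rfl fun i _ => ?_
        rw [List.getD_eq_getElem _ _ (by rw [List.length_ofFn]; exact i.2), List.getElem_ofFn]
      rw [hs2, List.length_ofFn] at hb
      have hs3 : ∑ i : Fin n, (if b i then 2 * w n i else 0) =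
          2 * ∑ i : Fin n, if b i then w n i else 0 := by
        rw [Finset.mul_sum]
        refine Finset.sum_congr rfl fun i _ => ?_
        split_ifs <;> ring
      rw [hs3, hsg]
      beta_reduce
      by_cases hm : List.ofFn b ∈ L
      · rw [if_pos hm]
        have := hb.1 hm
        linarith
      · rw [if_neg hm]
        have : ¬ (t n < ∑ i : Fin n, if b i then w n i else 0) := fun h => hm (hb.2 h)
        linarith)
    refine ⟨w', h2, fun b => ?_⟩
    have := h1 (vec b) (Finset.mem_image_of_mem _ (Finset.mem_univ b))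
    rw [hsum] at this
    exact this
  choose w' hw1 hw2 using key
  refine ⟨fun n i => if h : i < n + 1 then w' n ⟨i, h⟩ else 0, ?_, ?_⟩
  · intro n i hi
    beta_reduce
    rw [dif_pos (Nat.lt_succ_of_le hi)]
    have := hw1 n ⟨i, Nat.lt_succ_of_le hi⟩
    push_cast at this
    exact this
  · intro x
    beta_reduce
    have h1 := hw2 x.length (fun i => x.getD i false)
    rw [LTv_ofFn] at h1
    have h2 : ∑ i ∈ Finset.range x.length, (if x.getD i false then
        (if h : i < x.length + 1 then w' x.length ⟨i, h⟩ else 0) else 0) =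
        ∑ i : Fin x.length, if x.getD i false then w' x.length i.castSucc else 0 := by
      rw [Finset.sum_range]
      refine Finset.sum_congr rfl fun i _ => ?_
      have hi : (i : ℕ) < x.length + 1 := Nat.lt_succ_of_lt i.2
      rw [dif_pos hi]
      rfl
    rw [h2, dif_pos (Nat.lt_succ_self _)]
    have h3 : (⟨x.length, Nat.lt_succ_self _⟩ : Fin (x.length + 1)) = Fin.last x.length := rfl
    rw [h3]
    constructor
    · intro hx
      rw [if_pos hx] at h1
      linarith
    · intro hx
      rw [if_neg hx] at h1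
      linarith

/-- the factor -/
private def LTv_c (Λ : ℕ) : ℤ := 2 ^ ((Λ + 1) * (2 * Λ + 8))

/-- the vector of the string `y` -/
private def LTv_vec (Λ : ℕ) (y : List Bool) : List ℤ :=
  (List.range ((Λ + 1) * (Λ + 1))).map fun j =>
    if decide (j / (Λ + 1) = y.length) then
      (if decide (j % (Λ + 1) = y.length) then -LTv_c Λ
        else if y.getD (j % (Λ + 1)) false then LTv_c Λ else 0)
    else 0

private theorem LTv_cd_map (n : ℕ) (f : ℕ → ℤ) (i : ℕ) (h : i < n) :
    cd ((List.range n).map f) i = f i := by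
  unfold cd
  rw [List.getD_eq_getElem _ _ (by simpa using h)]
  simp

private theorem LTv_sum (a b : ℕ) (f : ℕ → ℕ → ℤ) (hb : 0 < b) :
    ∑ j ∈ Finset.range (a * b), f (j / b) (j % b) =
      ∑ m ∈ Finset.range a, ∑ i ∈ Finset.range b, f m i := by
  induction a with
  | zero => simp
  | succ a ih =>
    rw [Nat.succ_mul, Finset.sum_range_add, ih, Finset.sum_range_succ]
    congr 1
    refine Finset.sum_congr rfl fun i hi => ?_
    rw [Finset.mem_range] at hi
    rw [mul_comm a b, Nat.mul_add_div hb, Nat.mul_add_mod, Nat.div_eq_of_lt hi,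
      Nat.mod_eq_of_lt hi, add_zero]

private theorem LTv_inner (Λ : ℕ) (u : ℕ → ℕ → ℤ) (y : List Bool) (hy : y.length ≤ Λ) :
    ∑ j ∈ Finset.range ((Λ + 1) * (Λ + 1)),
      (if j % (Λ + 1) ≤ j / (Λ + 1) then u (j / (Λ + 1)) (j % (Λ + 1)) else 0) *
        cd (LTv_vec Λ y) j =
      LTv_c Λ * ((∑ i ∈ Finset.range y.length, if y.getD i false then u y.length i else 0) -
        u y.length y.length) := by
  have h1 : ∀ j ∈ Finset.range ((Λ + 1) * (Λ + 1)),
      (if j % (Λ + 1) ≤ j / (Λ + 1) then u (j / (Λ + 1)) (j % (Λ + 1)) else 0) *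
        cd (LTv_vec Λ y) j =
      (fun m i => (if i ≤ m then u m i else 0) * (if m = y.length then
        (if i = y.length then -LTv_c Λ else if y.getD i false then LTv_c Λ else 0) else 0))
        (j / (Λ + 1)) (j % (Λ + 1)) := by
    intro j hj
    rw [Finset.mem_range] at hj
    unfold LTv_vec
    rw [LTv_cd_map _ _ _ hj]
    simp only [decide_eq_true_eq]
  rw [Finset.sum_congr rfl h1]
  refine (LTv_sum (Λ + 1) (Λ + 1) (fun m i => (if i ≤ m then u m i else 0) *
    (if m = y.length then
      (if i = y.length then -LTv_c Λ else if y.getD i false then LTv_c Λ else 0) else 0))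
    (Nat.succ_pos _)).trans ?_
  beta_reduce
  rw [Finset.sum_eq_single y.length]
  · have h2 : ∑ i ∈ Finset.range (Λ + 1), (if i ≤ y.length then u y.length i else 0) *
        (if y.length = y.length then
          (if i = y.length then -LTv_c Λ else if y.getD i false then LTv_c Λ else 0) else 0) =
        ∑ i ∈ Finset.range (y.length + 1), (if i ≤ y.length then u y.length i else 0) *
        (if y.length = y.length then
          (if i = y.length then -LTv_c Λ else if y.getD i false then LTv_c Λ else 0) else 0) := by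
      symm
      apply Finset.sum_subset
      · intro i hi
        rw [Finset.mem_range] at hi ⊢
        omega
      · intro i _ hi
        rw [Finset.mem_range] at hi
        rw [if_neg (by omega), zero_mul]
    rw [h2, Finset.sum_range_succ, mul_sub, Finset.mul_sum]
    rw [sub_eq_add_neg]
    congr 1
    · refine Finset.sum_congr rfl fun i hi => ?_
      rw [Finset.mem_range] at hi
      rw [if_pos hi.le, if_pos rfl, if_neg hi.ne]
      split_ifs <;> ring
    · rw [if_pos le_rfl, if_pos rfl, if_pos rfl]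
      ring
  · intro m _ hm
    apply Finset.sum_eq_zero
    intro i _
    rw [if_neg hm, mul_zero]
  · intro h
    exact absurd (Finset.mem_range.2 (Nat.lt_succ_of_le hy)) h

private theorem LTv_norm (Λ : ℕ) (u : ℕ → ℕ → ℤ)
    (hu : ∀ n, ∀ i ≤ n, |u n i| ≤ ((n : ℤ) + 1) ^ (2 * n + 4)) :
    ∑ j ∈ Finset.range ((Λ + 1) * (Λ + 1)),
      (if j % (Λ + 1) ≤ j / (Λ + 1) then u (j / (Λ + 1)) (j % (Λ + 1)) else 0) ^ 2 ≤
      LTv_c Λ ^ 2 := by
  have h1 : ∀ j ∈ Finset.range ((Λ + 1) * (Λ + 1)),
      (if j % (Λ + 1) ≤ j / (Λ + 1) then u (j / (Λ + 1)) (j % (Λ + 1)) else 0) ^ 2 ≤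
        ((Λ : ℤ) + 1) ^ (2 * (2 * Λ + 4)) := by
    intro j hj
    rw [Finset.mem_range] at hj
    have hm : j / (Λ + 1) ≤ Λ := Nat.lt_succ_iff.1 (Nat.div_lt_of_lt_mul hj)
    have hone : (1 : ℤ) ≤ (Λ : ℤ) + 1 := by
      have : (0 : ℤ) ≤ Λ := by positivity
      linarith
    split_ifs with h
    · have h2 := hu _ _ h
      have h3 : (((j / (Λ + 1) : ℕ) : ℤ) + 1) ^ (2 * (j / (Λ + 1)) + 4) ≤
          ((Λ : ℤ) + 1) ^ (2 * Λ + 4) := by
        have h4 : (((j / (Λ + 1) : ℕ) : ℤ) + 1) ≤ (Λ : ℤ) + 1 := by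
          have : ((j / (Λ + 1) : ℕ) : ℤ) ≤ Λ := by exact_mod_cast hm
          linarith
        refine (pow_le_pow_left₀ (by positivity) h4 _).trans ?_
        exact pow_le_pow_right₀ hone (by omega)
      have h5 := abs_le.1 (h2.trans h3)
      have h6 : ((Λ : ℤ) + 1) ^ (2 * (2 * Λ + 4)) = (((Λ : ℤ) + 1) ^ (2 * Λ + 4)) ^ 2 := by
        rw [← pow_mul, mul_comm]
      rw [h6]
      exact sq_le_sq' h5.1 h5.2
    · positivity
  refine (Finset.sum_le_sum h1).trans ?_
  rw [Finset.sum_const, Finset.card_range, nsmul_eq_mul]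
  have h2 : (((Λ + 1) * (Λ + 1) : ℕ) : ℤ) * ((Λ : ℤ) + 1) ^ (2 * (2 * Λ + 4)) =
      ((Λ : ℤ) + 1) ^ (2 * (2 * Λ + 4) + 2) := by
    push_cast
    ring
  have h3 : ((Λ : ℤ) + 1) ≤ 2 ^ Λ := by
    have : Λ + 1 ≤ 2 ^ Λ := Nat.lt_two_pow_self
    exact_mod_cast this
  rw [h2]
  refine (pow_le_pow_left₀ (by positivity) h3 _).trans ?_
  unfold LTv_c
  rw [← pow_mul, ← pow_mul]
  apply pow_le_pow_right₀ (by norm_num)
  nlinarith

private theorem LTv_pow {γ : Type} [ToD γ] {e : γ → ℕ} (he : PF e) :
    PF (fun c => (2 : ℤ) ^ e c) := by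
  have h1 : PN (fun c => 2 ^ e c) := by
    refine PN.congr (f := fun c => val (List.replicate (e c) false ++ [true])) ?_ ?_
    · exact PN.val (PF.append (PF.repl he false) (PF.const [true]))
    · intro c
      rw [val_append, val_replicate, List.length_replicate]
      simp [val]
  exact (PF.zOfPN h1).cast (fun c => by push_cast; rfl)

private theorem LTv_pf {γ : Type} [ToD γ] {Λ : γ → ℕ} {y : γ → List Bool} (hΛ : PF Λ)
    (hy : PF y) : PF (fun c => LTv_vec (Λ c) (y c)) := by
  have hL : PF (fun x : γ × ℕ => Λ x.1) := hΛ.comp PF.id'.fst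
  have hY : PF (fun x : γ × ℕ => y x.1) := hy.comp PF.id'.fst
  have hj : PF (fun x : γ × ℕ => x.2) := PF.id'.snd
  have hc : PF (fun x : γ × ℕ => LTv_c (Λ x.1)) :=
    LTv_pow ((hL.succ).mul (((PF.const 2).mul hL).add (PF.const 8)))
  have hdiv : PF (fun x : γ × ℕ => x.2 / (Λ x.1 + 1)) :=
    PN.toNat (PN.div (PN.ofNat hj) (PN.ofNat hL.succ)) hj (fun x => Nat.div_le_self _ _)
  have hmod : PF (fun x : γ × ℕ => x.2 % (Λ x.1 + 1)) := pf_mod hj hL.succ
  unfold LTv_vec
  refine PF.map (g := fun c j => if decide (j / (Λ c + 1) = (y c).length) then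
      (if decide (j % (Λ c + 1) = (y c).length) then -LTv_c (Λ c)
        else if (y c).getD (j % (Λ c + 1)) false then LTv_c (Λ c) else 0)
    else 0) ?_ ((hΛ.succ.mul hΛ.succ).range)
  exact PF.ite (PF.natEq hdiv hY.length) (PF.ite (PF.natEq hmod hY.length) (PF.zneg hc)
    (PF.ite (pf_getD hmod (PF.const false) hY) hc (PF.const 0))) (PF.const 0)

theorem lt_vec {A L : Set (List Bool)} (hL : LT1 L) (h : ManyOne A L) : VecRed A := by
  obtain ⟨u, hu1, hu2⟩ := hL.small
  obtain ⟨g, hg, hgA⟩ := h
  have hgp : PF g := pf_of_manyOne hg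
  obtain ⟨P, hP⟩ := Poly.length_bound hg
  refine ⟨fun N => (P.eval N + 1) * (P.eval N + 1),
    fun q => LTv_vec (P.eval q.1) (g q.2), ?_, ?_, ?_⟩
  · exact ((PF.evalPoly P PF.id').succ).mul ((PF.evalPoly P PF.id').succ)
  · exact LTv_pf (PF.evalPoly P PF.id'.fst) (hgp.comp PF.id'.snd)
  intro N
  have hu0 : u 0 0 ≠ 0 := by
    intro h0
    have h1 := hu2 []
    simp only [List.length_nil, Finset.range_zero, Finset.sum_empty, zero_sub, h0, neg_zero,
      lt_irrefl, imp_false] at h1
    exact h1.2 h1.1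
  refine ⟨fun j => if j % (P.eval N + 1) ≤ j / (P.eval N + 1) then
    u (j / (P.eval N + 1)) (j % (P.eval N + 1)) else 0, ?_, ?_⟩
  · beta_reduce
    have h1 : (0 : ℤ) < (if 0 % (P.eval N + 1) ≤ 0 / (P.eval N + 1) then
        u (0 / (P.eval N + 1)) (0 % (P.eval N + 1)) else 0) ^ 2 := by
      rw [Nat.zero_mod, Nat.zero_div, if_pos le_rfl]
      positivity
    refine h1.trans_le ?_
    exact Finset.single_le_sum (f := fun j => (if j % (P.eval N + 1) ≤ j / (P.eval N + 1) then
      u (j / (P.eval N + 1)) (j % (P.eval N + 1)) else 0) ^ 2) (fun j _ => sq_nonneg _)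
      (Finset.mem_range.2 (by positivity))
  · intro x hx
    beta_reduce
    have hlen : (g x).length ≤ P.eval N := (hP x).trans (eval_mono P hx)
    rw [LTv_inner (P.eval N) u (g x) hlen]
    have hn := LTv_norm (P.eval N) u hu1
    have hc : 0 < LTv_c (P.eval N) := by
      unfold LTv_c
      positivity
    obtain ⟨h1, h2⟩ := hu2 (g x)
    constructor
    · rw [hgA x]
      constructor
      · intro hm
        exact mul_pos hc (h1 hm)
      · intro hm
        by_contra hcon
        have := h2 hcon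
        nlinarith
    · refine hn.trans ?_
      rw [mul_pow]
      have h3 : (1 : ℤ) ≤ ((∑ i ∈ Finset.range (g x).length,
          if (g x).getD i false then u (g x).length i else 0) -
          u (g x).length (g x).length) ^ 2 := by
        by_cases hm : g x ∈ L
        · have := h1 hm
          nlinarith
        · have := h2 hm
          nlinarith
      have h4 : 0 < LTv_c (P.eval N) ^ 2 := by positivity
      nlinarith

end Pool.Agent.W_d799b0_h54
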