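import Pool.Agent.W_d799b0_h54.FVecP
import Pool.Agent.W_d799b0_h54.LTv
import Pool.Agent.W_d799b0_h54.FBack

/-!
# The final theorems
-/

set_option autoImplicit false

open Turing Computability

namespace Pool.Agent.W_d799b0_h54

open Pool.Agent.W_d799b0_h82

/-- Non-adaptive reductions: to sparse sets, or to linear threshold gates. -/
theorem final_threshold : (∀ A : Set (List Bool), InNP A ↔ InP A) ↔
    ∀ A : Set (List Bool), InNP A →
      (∃ S : Set (List Bool), Sparse S ∧ (DisjRed A S ∨ ConjRed A S ∨ MajRed A S ∨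
        ∃ k : ℕ, TtYesRed k A S ∨ MixRed k A S)) ∨
      ∃ L : Set (List Bool), LT1 L ∧ ManyOne A L := by
  constructor
  · intro h A hA
    exact Or.inl ⟨_, sparse_single, Or.inl (InP.red ((h A).1 hA)).1⟩
  · intro h A
    refine ⟨fun hA => inP_of_vecRed (fun B hB => ?_) A hA, InP.inNP⟩
    rcases h B hB with ⟨S, hS, h1 | h1 | h1 | ⟨k, h1 | h1⟩⟩ | ⟨L, hL, h1⟩
    · exact mix_vec hS (thr_mix h1.thr)
    · exact mix_vec hS (thr_mix h1.thr)
    · exact mix_vec hS (thr_mix h1.thr)
    · exact mix_vec hS (thr_mix (tt_thr h1))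
    · exact mix_vec hS h1
    · exact lt_vec hL h1

/-- Adaptive reductions: to tally sets, with a constant number of wrong predictions. -/
theorem final_adaptive : (∀ A : Set (List Bool), InNP A ↔ InP A) ↔
    ∀ A : Set (List Bool), InNP A →
      ∃ (k : ℕ) (T : Set (List Bool)), Tally T ∧ TuringRed k A T := by
  constructor
  · intro h A hA
    exact ⟨0, ∅, tally_empty, (InP.all ((h A).1 hA)).2.2.1⟩
  · intro h A
    refine ⟨fun hA => inP_of_vecRed (fun B hB => ?_) A hA, InP.inNP⟩
    obtain ⟨k, T, hT, h1⟩ := h B hB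
    exact mix_vec (tally_sparse (tally_T2 T)) (tur_mix hT h1)

end Pool.Agent.W_d799b0_h54
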