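import Pool.Agent.W_d799b0_h54.VDefs

/-!
# The matrix `1 + ∑ v vᵀ`

`MM_append`: immediate. `MM_perm`: sums of permuted lists (`List.Perm.sum_eq`).
`MM_posDef`: over the reals `M = 1 + ∑ v vᵀ`: symmetric, and
`xᵀ M x = ∑ x_i² + ∑ v (x . v)² > 0` for `x ≠ 0` (`MM_quad`; expand `MM`, exchange the list sum
with the sums).
`MM_det_pos`: `Matrix.PosDef.det_pos`, and the determinant commutes with the map `ℤ → ℝ`
(`Int.cast_det` or `RingHom.map_det`).
-/

set_option autoImplicit false

open Matrix

namespace Pool.Agent.W_d799b0_h54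

theorem MM_append (d : ℕ) (F : List (List ℤ)) (v : List ℤ) (i j : Fin d) :
    MM d (F ++ [v]) i j = MM d F i j + cd v i * cd v j := by
  simp only [MM, List.map_append, List.sum_append, List.map_cons, List.map_nil, List.sum_cons,
    List.sum_nil]
  ring

theorem MM_perm (d : ℕ) {F F' : List (List ℤ)} (h : F.Perm F') : MM d F = MM d F' := by
  funext i j
  unfold MM
  rw [(h.map _).sum_eq]

theorem FormA_cons (d : ℕ) (F : List (List ℤ)) (v : List ℤ) (i j : Fin d) :
    MM d (v :: F) i j = MM d F i j + cd v i * cd v j := by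
  simp only [MM, List.map_cons, List.sum_cons]
  ring

theorem FormA_symm (d : ℕ) (F : List (List ℤ)) (i j : Fin d) : MM d F i j = MM d F j i := by
  unfold MM
  have h1 : (if i = j then (1 : ℤ) else 0) = if j = i then 1 else 0 := by
    by_cases h : i = j
    · rw [if_pos h, if_pos h.symm]
    · rw [if_neg h, if_neg (Ne.symm h)]
  have h2 : (fun v : List ℤ => cd v i * cd v j) = fun v => cd v j * cd v i := by
    funext v
    ring
  rw [h1, h2]

theorem FormA_dot (d : ℕ) (A : Matrix (Fin d) (Fin d) ℝ) (w : Fin d → ℝ) :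
    w ⬝ᵥ (A *ᵥ w) = ∑ i, w i * ∑ j, A i j * w j := rfl

theorem MM_quad (d : ℕ) (F : List (List ℤ)) (w : Fin d → ℝ) :
    w ⬝ᵥ ((MM d F).map (Int.cast : ℤ → ℝ) *ᵥ w) =
      ∑ i, w i ^ 2 + (F.map fun v => (∑ i, w i * rv d v i) ^ 2).sum := by
  rw [FormA_dot]
  induction F with
  | nil =>
    simp only [List.map_nil, List.sum_nil, add_zero]
    refine Finset.sum_congr rfl fun i _ => ?_
    have h1 : ∀ j : Fin d, ((MM d []).map (Int.cast : ℤ → ℝ)) i j * w j =
        if i = j then w j else 0 := by
      intro j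
      rw [Matrix.map_apply]
      unfold MM
      by_cases h : i = j
      · simp [h]
      · simp [h]
    rw [Finset.sum_congr rfl fun j _ => h1 j, Finset.sum_ite_eq, if_pos (Finset.mem_univ i)]
    ring
  | cons v F ih =>
    have h1 : ∀ i j : Fin d, ((MM d (v :: F)).map (Int.cast : ℤ → ℝ)) i j =
        ((MM d F).map (Int.cast : ℤ → ℝ)) i j + rv d v i * rv d v j := by
      intro i j
      rw [Matrix.map_apply, Matrix.map_apply, FormA_cons]
      push_cast
      rfl
    have h2 : ∀ i : Fin d, w i * ∑ j, ((MM d (v :: F)).map (Int.cast : ℤ → ℝ)) i j * w j =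
        w i * ∑ j, ((MM d F).map (Int.cast : ℤ → ℝ)) i j * w j +
          (w i * rv d v i) * ∑ j, w j * rv d v j := by
      intro i
      have h3 : ∀ j : Fin d, ((MM d (v :: F)).map (Int.cast : ℤ → ℝ)) i j * w j =
          ((MM d F).map (Int.cast : ℤ → ℝ)) i j * w j + rv d v i * (w j * rv d v j) := by
        intro j
        rw [h1]
        ring
      rw [Finset.sum_congr rfl fun j _ => h3 j, Finset.sum_add_distrib, ← Finset.mul_sum]
      ring
    rw [Finset.sum_congr rfl fun i _ => h2 i, Finset.sum_add_distrib, ih, ← Finset.sum_mul,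
      List.map_cons, List.sum_cons]
    ring

theorem MM_posDef (d : ℕ) (F : List (List ℤ)) :
    ((MM d F).map (Int.cast : ℤ → ℝ)).PosDef := by
  refine Matrix.PosDef.of_dotProduct_mulVec_pos ?_ ?_
  · refine Matrix.IsHermitian.ext fun i j => ?_
    rw [Matrix.map_apply, Matrix.map_apply, FormA_symm d F j i]
    simp
  · intro w hw
    rw [star_trivial, MM_quad]
    have h1 : 0 < ∑ i, w i ^ 2 := by
      obtain ⟨i, hi⟩ := Function.ne_iff.1 hw
      exact Finset.sum_pos' (fun _ _ => sq_nonneg _) ⟨i, Finset.mem_univ i, by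
        have : w i ≠ 0 := hi
        positivity⟩
    have h2 : 0 ≤ (F.map fun v => (∑ i, w i * rv d v i) ^ 2).sum := by
      refine List.sum_nonneg ?_
      intro x hx
      obtain ⟨v, _, rfl⟩ := List.mem_map.1 hx
      positivity
    linarith

theorem MM_det_pos (d : ℕ) (F : List (List ℤ)) : 0 < (MM d F).det := by
  have h1 := (MM_posDef d F).det_pos
  have h2 : ((MM d F).map (Int.cast : ℤ → ℝ)).det = (((MM d F).det : ℤ) : ℝ) := by
    have h3 := RingHom.map_det (Int.castRingHom ℝ) (MM d F)
    rw [eq_intCast] at h3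
    rw [h3]
    rfl
  rw [h2] at h1
  exact_mod_cast h1

end Pool.Agent.W_d799b0_h54
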