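import Pool.Agent.W_d799b0_h54.FormS

/-!
# Bounds for determinant and adjugate

PROOF. The entries of `M = MM d F` are at most `x = 1 + n * 4 ^ b` in absolute value.
`Matrix.det_le` (for the absolute value of `ℤ`) gives `|det A| ≤ d! x ^ d ≤ (d x) ^ d` for every
matrix with entries at most `x`; the entries of the adjugate are determinants of matrices
`M.updateRow j (Pi.single i 1)` (`Matrix.adjugate_apply`), whose entries are also at most `x`
(`1 ≤ x`). Entries with `i ≥ d` or `j ≥ d` vanish (the lists have length `d`: `form` is either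
`(1, idM d)` or an `upd`). `form_perm`: `form_spec`, `MM_perm`.
-/

set_option autoImplicit false

open Matrix

namespace Pool.Agent.W_d799b0_h54

private theorem formB_len (d : ℕ) (f : ℕ → ℕ → ℤ) :
    ((List.range d).map fun i => (List.range d).map fun j => f i j).length = d ∧
      ∀ l ∈ ((List.range d).map fun i => (List.range d).map fun j => f i j), l.length = d := by
  refine ⟨by simp, fun l hl => ?_⟩
  obtain ⟨i, -, rfl⟩ := List.mem_map.1 hl
  simp

private theorem formB_foldl (d : ℕ) (F : List (List ℤ)) : ∀ s : ℤ × List (List ℤ),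
    (s.2.length = d ∧ ∀ l ∈ s.2, l.length = d) →
      ((F.foldl (upd d) s).2.length = d ∧ ∀ l ∈ (F.foldl (upd d) s).2, l.length = d) := by
  induction F with
  | nil => exact fun s h => h
  | cons v F ih =>
    intro s _
    exact ih (upd d s v) (formB_len d _)

private theorem formB_length (d : ℕ) (F : List (List ℤ)) :
    (form d F).2.length = d ∧ ∀ l ∈ (form d F).2, l.length = d :=
  formB_foldl d F (1, idM d) (formB_len d _)

private theorem formB_sum (b : ℕ) (i j : ℕ) (F : List (List ℤ))
    (hb : ∀ v ∈ F, ∀ i, |cd v i| ≤ 2 ^ b) :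
    |(F.map fun v => cd v i * cd v j).sum| ≤ (F.length : ℤ) * 4 ^ b := by
  induction F with
  | nil => simp
  | cons v F ih =>
    have h1 := ih fun u hu => hb u (List.mem_cons_of_mem _ hu)
    have h2 := hb v List.mem_cons_self
    have h3 : |cd v i * cd v j| ≤ 4 ^ b := by
      rw [abs_mul]
      calc |cd v i| * |cd v j| ≤ 2 ^ b * 2 ^ b :=
            mul_le_mul (h2 i) (h2 j) (abs_nonneg _) (by positivity)
        _ = 4 ^ b := by rw [← mul_pow]; norm_num
    rw [List.map_cons, List.sum_cons, List.length_cons]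
    push_cast
    calc |cd v i * cd v j + (F.map fun v => cd v i * cd v j).sum|
        ≤ |cd v i * cd v j| + |(F.map fun v => cd v i * cd v j).sum| := abs_add_le _ _
      _ ≤ 4 ^ b + (F.length : ℤ) * 4 ^ b := add_le_add h3 h1
      _ = ((F.length : ℤ) + 1) * 4 ^ b := by ring

private theorem formB_entry (d b n : ℕ) (F : List (List ℤ)) (hn : F.length ≤ n)
    (hb : ∀ v ∈ F, ∀ i, |cd v i| ≤ 2 ^ b) (i j : Fin d) :
    |MM d F i j| ≤ 1 + (n : ℤ) * 4 ^ b := by
  unfold MM
  refine (abs_add_le _ _).trans ?_
  refine add_le_add ?_ ?_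
  · split_ifs <;> simp
  · refine (formB_sum b i j F hb).trans ?_
    have h1 : (F.length : ℤ) ≤ n := by exact_mod_cast hn
    exact mul_le_mul_of_nonneg_right h1 (by positivity)

private theorem formB_det (d : ℕ) (A : Matrix (Fin d) (Fin d) ℤ) {x : ℤ} (hx : 0 ≤ x)
    (h : ∀ i j, |A i j| ≤ x) : |A.det| ≤ ((d : ℤ) * x) ^ d := by
  have h1 := Matrix.det_le (abv := AbsoluteValue.abs) (A := A) (x := x) h
  rw [Fintype.card_fin, nsmul_eq_mul] at h1
  have h2 : (d.factorial : ℤ) ≤ (d : ℤ) ^ d := by exact_mod_cast Nat.factorial_le_pow d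
  rw [mul_pow]
  refine le_trans h1 ?_
  exact mul_le_mul_of_nonneg_right h2 (pow_nonneg hx d)

theorem form_bound (d b n : ℕ) (F : List (List ℤ)) (hn : F.length ≤ n)
    (hb : ∀ v ∈ F, ∀ i, |cd v i| ≤ 2 ^ b) :
    (form d F).1 ≤ ((d : ℤ) * (1 + n * 4 ^ b)) ^ d ∧
      ∀ i j, |cd ((form d F).2.getD i []) j| ≤ ((d : ℤ) * (1 + n * 4 ^ b)) ^ d := by
  have hx1 : (1 : ℤ) ≤ 1 + (n : ℤ) * 4 ^ b := by
    have : (0 : ℤ) ≤ (n : ℤ) * 4 ^ b := by positivity
    linarith
  have hx : (0 : ℤ) ≤ 1 + (n : ℤ) * 4 ^ b := by linarith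
  have hent := formB_entry d b n F hn hb
  obtain ⟨hs1, hs2⟩ := form_spec d F
  obtain ⟨hl1, hl2⟩ := formB_length d F
  have hnn : (0 : ℤ) ≤ ((d : ℤ) * (1 + (n : ℤ) * 4 ^ b)) ^ d :=
    pow_nonneg (mul_nonneg (Nat.cast_nonneg _) hx) _
  constructor
  · rw [hs1]
    exact (le_abs_self _).trans (formB_det d _ hx hent)
  · intro i j
    by_cases hi : i < d
    · by_cases hj : j < d
      · have h1 := hs2 ⟨i, hi⟩ ⟨j, hj⟩
        simp only at h1
        rw [h1, Matrix.adjugate_apply]
        refine formB_det d _ hx ?_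
        intro i' j'
        rw [Matrix.updateRow_apply]
        split_ifs with h2
        · rw [Pi.single_apply]
          split_ifs
          · rw [abs_one]
            exact hx1
          · rw [abs_zero]
            exact hx
        · exact hent i' j'
      · have h1 : ((form d F).2.getD i []).length = d := by
          rw [List.getD_eq_getElem _ _ (by omega)]
          exact hl2 _ (List.getElem_mem _)
        have h2 : cd ((form d F).2.getD i []) j = 0 := by
          unfold cd
          rw [List.getD_eq_default _ _ (by omega)]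
        rw [h2, abs_zero]
        exact hnn
    · have h2 : cd ((form d F).2.getD i []) j = 0 := by
        unfold cd
        rw [List.getD_eq_default (form d F).2 _ (by omega)]
        simp
      rw [h2, abs_zero]
      exact hnn

theorem form_length (d : ℕ) (F : List (List ℤ)) :
    (form d F).2.length = d ∧ ∀ l ∈ (form d F).2, l.length = d :=
  formB_length d F

end Pool.Agent.W_d799b0_h54
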