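import Pool.Agent.W_d799b0_h54.FormB
import Pool.Agent.W_d799b0_h54.ZSum

/-!
# The quadratic form is computable in polynomial time

PROOF. `PF.foldl'` with `f = fun c s v => upd (d c) s v`; for a prefix `l'` of the list the state is
`form d l'`; its size: `form_length` (d lists of length d), `sz_le_length`, every entry has at most
`Nat.size ≤ d * (size d + size (1 + n * 4 ^ b))` bits by `form_bound` with `b = sz F`
(`size_le_sz_int`, `sz_mem`: every `|cd v i| ≤ 2 ^ sz F`, also if `i` is beyond the length),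
`n = F.length ≤ sz F` (`length_le_sz`), so `(d (1 + n 4^b))^d ≤ 2 ^ (d (d + 1 + 3 b))`; `sz_int`.
Let `Pd`, `PF` be polynomial bounds of `d` and `sz F` (`PF.bound`, `sz_nat`).
-/

set_option autoImplicit false

namespace Pool.Agent.PolyTime

open Function

variable {γ : Type} [ToD γ]

private def FormP_bits (d b : ℕ) : ℕ := d * (d + 3 * b) + 1

private def FormP_tot (d b : ℕ) : ℕ :=
  (4 * FormP_bits d b + 5) + (d * ((d * (4 * FormP_bits d b + 6) + 1) + 1) + 1) + 1

private theorem FormP_mono {d d' b b' : ℕ} (h : d ≤ d') (h' : b ≤ b') :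
    FormP_tot d b ≤ FormP_tot d' b' := by
  unfold FormP_tot FormP_bits
  gcongr

private theorem FormP_cd (F : List (List ℤ)) {v : List ℤ} (hv : v ∈ F) (i : ℕ) :
    |W_d799b0_h54.cd v i| ≤ 2 ^ sz F := by
  unfold W_d799b0_h54.cd
  by_cases hi : i < v.length
  · rw [List.getD_eq_getElem _ _ hi]
    have h1 : v[i] ∈ v := List.getElem_mem hi
    have h2 := sz_mem h1
    have h3 := sz_mem hv
    have h4 : (v[i]).natAbs < 2 ^ sz F :=
      (Nat.lt_size_self _).trans_le (Nat.pow_le_pow_right (by norm_num)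
        ((size_le_sz_int _).trans (by omega)))
    rw [Int.abs_eq_natAbs]
    exact_mod_cast h4.le
  · rw [List.getD_eq_default _ _ (by omega)]
    simp

private theorem FormP_int {d b : ℕ} {n : ℕ} (hn : n ≤ b) {z : ℤ}
    (hz : |z| ≤ ((d : ℤ) * (1 + n * 4 ^ b)) ^ d) : sz z ≤ 4 * FormP_bits d b + 5 := by
  refine (sz_int z).trans ?_
  have h1 : z.natAbs < 2 ^ FormP_bits d b := by
    have h2 : (z.natAbs : ℤ) ≤ ((d : ℤ) * (1 + n * 4 ^ b)) ^ d := by
      rw [← Int.abs_eq_natAbs]
      exact hz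
    have h3 : z.natAbs ≤ (d * (1 + n * 4 ^ b)) ^ d := by exact_mod_cast h2
    have h4 : d * (1 + n * 4 ^ b) ≤ 2 ^ (d + 3 * b) := by
      rw [pow_add]
      refine Nat.mul_le_mul Nat.lt_two_pow_self.le ?_
      have h5 : n + 1 ≤ 2 ^ b := by
        have := @Nat.lt_two_pow_self b
        omega
      have h6 : (2 : ℕ) ^ (3 * b) = 2 ^ b * 4 ^ b := by
        rw [show (4 : ℕ) = 2 ^ 2 by norm_num, ← pow_mul, ← pow_add]
        congr 1
        ring
      rw [h6]
      have h7 : 1 ≤ 4 ^ b := Nat.one_le_pow _ _ (by norm_num)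
      nlinarith
    have h8 : (d * (1 + n * 4 ^ b)) ^ d ≤ 2 ^ (d * (d + 3 * b)) := by
      rw [mul_comm d (d + 3 * b), pow_mul]
      exact Nat.pow_le_pow_left h4 d
    have h9 : (2 : ℕ) ^ (d * (d + 3 * b)) < 2 ^ FormP_bits d b :=
      Nat.pow_lt_pow_right (by norm_num) (by unfold FormP_bits; omega)
    omega
  have h2 := Nat.size_le.2 h1
  omega

private theorem FormP_sz (d : ℕ) (F l : List (List ℤ)) (hl : l <+: F) :
    sz (W_d799b0_h54.form d l) ≤ FormP_tot d (sz F) := by
  have hb : ∀ v ∈ l, ∀ i, |W_d799b0_h54.cd v i| ≤ 2 ^ sz F :=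
    fun v hv i => FormP_cd F (hl.subset hv) i
  have hn : l.length ≤ sz F := hl.length_le.trans (length_le_sz F)
  obtain ⟨h1, h2⟩ := W_d799b0_h54.form_bound d (sz F) (sz F) l hn hb
  obtain ⟨h3, h4⟩ := W_d799b0_h54.form_length d l
  have h5 : 0 < (W_d799b0_h54.form d l).1 := by
    rw [(W_d799b0_h54.form_spec d l).1]
    exact W_d799b0_h54.MM_det_pos d l
  have h6 : sz (W_d799b0_h54.form d l).1 ≤ 4 * FormP_bits d (sz F) + 5 :=
    FormP_int le_rfl (by rw [abs_of_pos h5]; exact h1)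
  have h7 : ∀ r ∈ (W_d799b0_h54.form d l).2,
      sz r ≤ d * (4 * FormP_bits d (sz F) + 6) + 1 := by
    intro r hr
    obtain ⟨i, hi, rfl⟩ := List.getElem_of_mem hr
    have h8 := sz_le_length ((W_d799b0_h54.form d l).2[i]) (4 * FormP_bits d (sz F) + 5) ?_
    · rw [h4 _ hr] at h8
      exact h8
    · intro z hz
      obtain ⟨j, hj, rfl⟩ := List.getElem_of_mem hz
      refine FormP_int le_rfl ?_
      have h9 := h2 i j
      rw [List.getD_eq_getElem _ _ hi] at h9
      unfold W_d799b0_h54.cd at h9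
      rw [List.getD_eq_getElem _ _ hj] at h9
      exact h9
  have h8 := sz_le_length _ _ h7
  rw [h3] at h8
  have h9 : sz (W_d799b0_h54.form d l) =
      sz (W_d799b0_h54.form d l).1 + sz (W_d799b0_h54.form d l).2 + 1 := sz_pair _ _
  rw [h9]
  unfold FormP_tot
  omega

theorem PF.form {d : γ → ℕ} {F : γ → List (List ℤ)} (hd : PF d) (hF : PF F) :
    PF (fun c => W_d799b0_h54.form (d c) (F c)) := by
  obtain ⟨P, hP⟩ := hd.bound
  obtain ⟨Q, hQ⟩ := hF.bound
  unfold W_d799b0_h54.form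
  refine PF.foldl' (f := fun c s v => W_d799b0_h54.upd (d c) s v)
    (PF.upd (hd.comp PF.fst'.fst) PF.fst'.snd PF.snd') ((PF.const 1).pair (PF.idM hd)) hF
    ((4 * (P * (P + 3 * Q) + 1) + 5) +
      (P * ((P * (4 * (P * (P + 3 * Q) + 1) + 6) + 1) + 1) + 1) + 1) ?_
  intro c l hl
  have h1 : d c ≤ P.eval (sz c) := by
    have := hP c
    rw [sz_nat] at this
    omega
  refine ((FormP_sz (d c) (F c) l hl).trans (FormP_mono h1 (hQ c))).trans (le_of_eq ?_)
  unfold FormP_tot FormP_bits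
  simp only [Polynomial.eval_add, Polynomial.eval_mul, Polynomial.eval_ofNat, Polynomial.eval_one]

end Pool.Agent.PolyTime
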