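import Pool.Agent.W_d799b0_h54.FormA

/-!
# Rank one updates compute determinant and adjugate

`form_spec`: induction on `F` from the right (`List.reverseRecOn`); `M' = M + v vᵀ`, `D = det M`,
`N = adj M`, `y = N v`, `q = vᵀ N v`. With `M N = D 1`, `N` symmetric:
`M' (D' N - y yᵀ) = D D' 1` where `D' = D + q`, hence over the integers (`M'` has nonzero
determinant; multiply by `adj M'` from the left) `det M' * (D' N - y yᵀ) = D * D' * adj M'`. One
still needs `det M' = D'`: matrix determinant lemma (`Matrix.det_add_replicateCol_mul_replicateRow`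
over the reals or rationals, or `Matrix.det_one_add_mul_comm`). Then `D' N - y yᵀ = D * adj M'` and
`Int.mul_tdiv_cancel_left` (or `Int.tdiv` of an exact multiple). Determinants are positive by
`MM_det_pos`.
`qf_eq`: `qf d N v = v ⬝ᵥ (N *ᵥ v)` when the entries of the list `N` are those of the matrix
(sums over `List.range d` are sums over `Fin d`: `List.sum_range`-like lemmas, `Fin.sum_univ_def`,
`Finset.sum_range`).
-/

set_option autoImplicit false

open Matrix

namespace Pool.Agent.W_d799b0_h54

private theorem formS_sum (d : ℕ) (g : ℕ → ℤ) :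
    ((List.range d).map g).sum = ∑ i : Fin d, g i := by
  rw [← Finset.sum_range]
  induction d with
  | zero => simp
  | succ n ih =>
    rw [List.range_succ, List.map_append, List.sum_append, ih, Finset.sum_range_succ]
    simp

private theorem formS_getD {α : Type} (d : ℕ) (f : ℕ → α) (x : α) (i : Fin d) :
    ((List.range d).map f).getD i x = f i := by
  rw [List.getD_eq_getElem _ _ (by simp)]
  simp

private theorem formS_dot (d : ℕ) (u v : List ℤ) :
    dotZ d u v = (fun i : Fin d => cd u i) ⬝ᵥ fun i : Fin d => cd v i := by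
  rw [dotZ, formS_sum]
  rfl

private theorem formS_mulV (d : ℕ) (N : List (List ℤ)) (A : Matrix (Fin d) (Fin d) ℤ)
    (h : ∀ i j : Fin d, cd (N.getD i []) j = A i j) (v : List ℤ) (i : Fin d) :
    cd (mulV d N v) i = (A *ᵥ fun i : Fin d => cd v i) i := by
  rw [cd, mulV, formS_getD, formS_dot, Matrix.mulVec]
  congr 1
  funext j
  exact h i j

theorem qf_eq (d : ℕ) (N : List (List ℤ)) (A : Matrix (Fin d) (Fin d) ℤ)
    (h : ∀ i j : Fin d, cd (N.getD i []) j = A i j) (v : List ℤ) :
    qf d N v = (fun i : Fin d => cd v i) ⬝ᵥ (A *ᵥ fun i : Fin d => cd v i) := by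
  rw [qf, formS_dot]
  congr 1
  funext i
  exact formS_mulV d N A h v i

private theorem formS_det {n : ℕ} (M : Matrix (Fin n) (Fin n) ℤ) (v : Fin n → ℤ)
    (hM : M.det ≠ 0) :
    (M + vecMulVec v v).det = M.det + v ⬝ᵥ (M.adjugate *ᵥ v) := by
  have hinj : Function.Injective (Int.castRingHom ℚ) := Int.cast_injective
  apply hinj
  set f : ℤ →+* ℚ := Int.castRingHom ℚ with hf
  set M' : Matrix (Fin n) (Fin n) ℚ := M.map f with hM'
  set v' : Fin n → ℚ := fun i => f (v i) with hv'
  have hdet : M'.det = f M.det := by rw [hM']; exact (RingHom.map_det f M).symm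
  have hne : M'.det ≠ 0 := by
    rw [hdet]
    intro h0
    exact hM (hinj (by rw [h0, map_zero]))
  have hunit : IsUnit M'.det := isUnit_iff_ne_zero.2 hne
  have hadj : M'.adjugate = M.adjugate.map f := by
    rw [hM']
    exact (RingHom.map_adjugate f M).symm
  have h1 : f ((M + vecMulVec v v).det) = (M' + vecMulVec v' v').det := by
    rw [RingHom.map_det]
    congr 1
    ext i j
    simp [hM', hv', vecMulVec_apply]
  have h2 : f (M.det + v ⬝ᵥ (M.adjugate *ᵥ v)) = M'.det + v' ⬝ᵥ (M'.adjugate *ᵥ v') := by
    rw [map_add, hdet, hadj]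
    congr 1
    simp only [dotProduct, mulVec, map_sum, map_mul, Matrix.map_apply, hv']
  rw [h1, h2]
  have h3 : vecMulVec v' v' = replicateCol Unit v' * replicateRow Unit v' :=
    vecMulVec_eq Unit v' v'
  rw [h3, det_add_replicateCol_mul_replicateRow hunit]
  have h4 : (1 + replicateRow Unit v' * M'⁻¹ * replicateCol Unit v').det =
      1 + v' ⬝ᵥ (M'⁻¹ *ᵥ v') := by
    rw [det_unique, Matrix.add_apply, Matrix.one_apply_eq, Matrix.mul_assoc]
    congr 1
  rw [h4, Matrix.inv_def, mul_add, mul_one]
  congr 1
  rw [Matrix.smul_mulVec, dotProduct_smul, smul_eq_mul, ← mul_assoc, Ring.inverse_eq_inv',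
    mul_inv_cancel₀ hne, one_mul]

private theorem formS_adj {n : ℕ} (M : Matrix (Fin n) (Fin n) ℤ) (v : Fin n → ℤ)
    (hs : Mᵀ = M) (hM : M.det ≠ 0) (hM' : (M + vecMulVec v v).det ≠ 0) (i j : Fin n) :
    (M.det + v ⬝ᵥ (M.adjugate *ᵥ v)) * M.adjugate i j -
        (M.adjugate *ᵥ v) i * (M.adjugate *ᵥ v) j =
      M.det * (M + vecMulVec v v).adjugate i j := by
  set N := M.adjugate with hN
  set y := N *ᵥ v with hy
  set D := M.det with hD
  set q := v ⬝ᵥ y with hq
  have hdet : (M + vecMulVec v v).det = D + q := formS_det M v hM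
  have hNs : Nᵀ = N := by rw [hN, adjugate_transpose, hs]
  have hvN : v ᵥ* N = y := by rw [hy, ← vecMul_transpose, hNs]
  have h1 : (M + vecMulVec v v) * ((D + q) • N - vecMulVec y y) = (D * (D + q)) • 1 := by
    have e1 : M * N = D • (1 : Matrix (Fin n) (Fin n) ℤ) := by rw [hN, mul_adjugate]
    have e2 : M *ᵥ y = D • v := by
      rw [hy, mulVec_mulVec, e1, smul_mulVec, one_mulVec]
    rw [Matrix.add_mul, Matrix.mul_sub, Matrix.mul_sub, Matrix.mul_smul, Matrix.mul_smul, e1,
      mul_vecMulVec, vecMulVec_mul, e2, hvN, vecMulVec_mul_vecMulVec, ← hq]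
    ext a b
    simp only [Matrix.add_apply, Matrix.sub_apply, Matrix.smul_apply, vecMulVec_apply,
      Pi.smul_apply, smul_eq_mul]
    ring
  have h2 : (M + vecMulVec v v).det • ((D + q) • N - vecMulVec y y) =
      (D * (D + q)) • (M + vecMulVec v v).adjugate := by
    have := congrArg (fun X => (M + vecMulVec v v).adjugate * X) h1
    beta_reduce at this
    rw [← Matrix.mul_assoc, adjugate_mul, Matrix.smul_mul, Matrix.one_mul, Matrix.mul_smul,
      Matrix.mul_one] at this
    exact this
  have h3 := congrFun (congrFun h2 i) j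
  rw [hdet] at h3 hM'
  simp only [Matrix.sub_apply, Matrix.smul_apply, vecMulVec_apply, smul_eq_mul] at h3
  refine mul_left_cancel₀ hM' ?_
  linear_combination h3

private theorem formS_symm (d : ℕ) (F : List (List ℤ)) : (MM d F)ᵀ = MM d F := by
  ext i j
  rw [Matrix.transpose_apply, MM, MM]
  congr 1
  · by_cases h : i = j
    · rw [if_pos h, if_pos h.symm]
    · rw [if_neg h, if_neg (Ne.symm h)]
  · congr 1
    refine List.map_congr_left fun v _ => mul_comm _ _

theorem form_spec (d : ℕ) (F : List (List ℤ)) :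
    (form d F).1 = (MM d F).det ∧
      ∀ i j : Fin d, cd ((form d F).2.getD i []) j = (MM d F).adjugate i j := by
  induction F using List.reverseRecOn with
  | nil =>
    have h1 : MM d [] = 1 := by
      ext i j
      rw [MM, List.map_nil, List.sum_nil, add_zero, Matrix.one_apply]
    refine ⟨by rw [h1, det_one]; rfl, fun i j => ?_⟩
    rw [h1, adjugate_one]
    show cd ((idM d).getD i []) j = _
    rw [idM, formS_getD, cd, formS_getD, Matrix.one_apply]
    by_cases h : i = j
    · rw [if_pos h, if_pos (by rw [h])]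
    · rw [if_neg h, if_neg (fun h' => h (Fin.ext h'))]
  | append_singleton F v ih =>
    obtain ⟨ih1, ih2⟩ := ih
    have hform : form d (F ++ [v]) = upd d (form d F) v := by
      rw [form, List.foldl_append]
      rfl
    have hMM : MM d (F ++ [v]) = MM d F +
        vecMulVec (fun i : Fin d => cd v i) fun i : Fin d => cd v i := by
      ext i j
      rw [MM_append, Matrix.add_apply, vecMulVec_apply]
    have hD := (MM_det_pos d F).ne'
    have hD' := (MM_det_pos d (F ++ [v])).ne'
    rw [hMM] at hD'
    have hqf : qf d (form d F).2 v = _ := qf_eq d (form d F).2 _ ih2 v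
    rw [hform, hMM]
    refine ⟨?_, fun i j => ?_⟩
    · rw [formS_det _ _ hD, upd, hqf, ih1]
    · rw [upd]
      show cd (((List.range d).map fun i => (List.range d).map fun j =>
        (((form d F).1 + qf d (form d F).2 v) * cd ((form d F).2.getD i []) j -
          cd (mulV d (form d F).2 v) i * cd (mulV d (form d F).2 v) j).tdiv
            (form d F).1).getD i []) j = _
      rw [formS_getD, cd, formS_getD, ih2, formS_mulV _ _ _ ih2, formS_mulV _ _ _ ih2, hqf, ih1,
        formS_adj _ _ (formS_symm d F) hD hD' i j]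
      exact Int.mul_tdiv_cancel_left _ hD

end Pool.Agent.W_d799b0_h54
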