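import Mathlib

/-!
# Small integer weights for linear threshold functions (Muroga)

PROOF of `muroga`. If `X` is empty take `w' = 0`. Otherwise let
`P = {v : Fin m → ℝ | ∀ a ∈ X, 1 ≤ ∑ a_i v_i}`, closed, convex, not empty (`w ∈ P`). Work in
`EuclideanSpace ℝ (Fin m)`: it has a point `v` of minimal norm
(`exists_norm_eq_iInf_of_complete_convex`, or: continuous function on a closed set, compactness of
balls). Let `J = {a ∈ X | ∑ a_i v_i = 1}`. CLAIM: `v ∈ span J`. Otherwise let `v = u + z` with `u` in
the span and `z ≠ 0` orthogonal to it; for small `ε > 0` the point `v - ε z` is still in `P` (the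
constraints in `J` do not change, the others are strict; `X` is finite) and its norm is smaller.
Let `J' ⊆ J` be linearly independent with the same span (`exists_linearIndependent`), `s = card J'`,
`A` the `s × m` integer matrix with the rows `a ∈ J'`, `G = A Aᵀ` (integer, positive definite over
the reals, entries at most `m`). `v = ∑ c_j a_j` with `G c = 1`, so `det G • c = adj G 1` and
`w' = det G • v = ∑ (adj G 1)_j a_j` is an integer vector with `∑ a_i w'_i ≥ det G ≥ 1` for all
`a ∈ X`. Bound: entries of `adj G` are at most `(s - 1)! m ^ (s - 1)`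
(`Matrix.det_le` applied to `updateRow`, or simply at most `s! m ^ s`), so
`|w'_i| ≤ s * s * s! * m ^ s ≤ m ^ (2 m + 2)`.
`LT1.small`: for each `n` apply `muroga` with `m = n + 1` to the set of all vectors
`± (x_0, .., x_{n-1}, -1)`, `x` of length `n`, sign `+` iff `x ∈ L`, and the weights
`(2 w n i, 2 t n + 1)`.
-/

set_option autoImplicit false

open Finset

namespace Pool.Agent.W_d799b0_h54

private noncomputable def murogaR {m : ℕ} (a : Fin m → ℤ) : EuclideanSpace ℝ (Fin m) :=
  WithLp.toLp 2 (fun i => (a i : ℝ))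

private lemma muroga_inner {m : ℕ} (a : Fin m → ℤ) (v : EuclideanSpace ℝ (Fin m)) :
    inner ℝ (murogaR a) v = ∑ i, (a i : ℝ) * v i := by
  rw [PiLp.inner_apply]
  refine Finset.sum_congr rfl fun i _ => ?_
  simp [murogaR, mul_comm]

private lemma muroga_min {m : ℕ} (X : Finset (Fin m → ℤ))
    (w : Fin m → ℤ) (hw : ∀ a ∈ X, 0 < ∑ i, a i * w i) :
    ∃ v : EuclideanSpace ℝ (Fin m), (∀ a ∈ X, 1 ≤ inner ℝ (murogaR a) v) ∧
      v ∈ Submodule.span ℝ (Set.range
        (fun a : {a : Fin m → ℤ // a ∈ X ∧ inner ℝ (murogaR a) v = 1} => murogaR a.1)) := by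
  classical
  set P : Set (EuclideanSpace ℝ (Fin m)) := {v | ∀ a ∈ X, 1 ≤ inner ℝ (murogaR a) v} with hP
  have hPc : IsClosed P := by
    have : P = ⋂ a ∈ X, {v | (1 : ℝ) ≤ inner ℝ (murogaR a) v} := by
      ext v; simp [hP]
    rw [this]
    refine isClosed_biInter fun a _ => ?_
    exact isClosed_le continuous_const (by fun_prop)
  have hPx : Convex ℝ P := by
    intro x hx y hy s t hs ht hst a ha
    rw [inner_add_right, inner_smul_right, inner_smul_right]
    have h1 := hx a ha
    have h2 := hy a ha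
    nlinarith [mul_le_mul_of_nonneg_left h1 hs, mul_le_mul_of_nonneg_left h2 ht]
  have hPn : P.Nonempty := by
    refine ⟨murogaR w, fun a ha => ?_⟩
    rw [muroga_inner]
    have h := hw a ha
    have h1 : (1 : ℤ) ≤ ∑ i, a i * w i := h
    have h2 : ((1 : ℤ) : ℝ) ≤ ((∑ i, a i * w i : ℤ) : ℝ) := by exact_mod_cast h1
    push_cast at h2
    simpa [murogaR] using h2
  obtain ⟨v, hv, hmin⟩ := exists_norm_eq_iInf_of_complete_convex hPn hPc.isComplete hPx 0
  have hvar := (norm_eq_iInf_iff_real_inner_le_zero hPx hv).1 hmin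
  refine ⟨v, hv, ?_⟩
  set S := Submodule.span ℝ (Set.range
        (fun a : {a : Fin m → ℤ // a ∈ X ∧ inner ℝ (murogaR a) v = 1} => murogaR a.1)) with hS
  have key : ∀ z ∈ Sᗮ, 0 ≤ inner ℝ v z := by
    intro z hz
    have hev : ∀ᶠ ε : ℝ in nhdsWithin 0 (Set.Ioi 0), ∀ a ∈ X, 1 ≤ inner ℝ (murogaR a) (v + ε • z) := by
      rw [Filter.eventually_all_finset]
      intro a ha
      by_cases h1 : inner ℝ (murogaR a) v = 1
      · refine Filter.Eventually.of_forall fun ε => ?_
        have h0 : inner ℝ (murogaR a) z = 0 :=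
          (Submodule.mem_orthogonal S z).1 hz _ (Submodule.subset_span ⟨⟨a, ha, h1⟩, rfl⟩)
        rw [inner_add_right, inner_smul_right, h0, h1]
        simp
      · have h2 : 1 < inner ℝ (murogaR a) v := lt_of_le_of_ne (hv a ha) (Ne.symm h1)
        have hc : Continuous fun ε : ℝ => inner ℝ (murogaR a) (v + ε • z) := by fun_prop
        have ht : Filter.Tendsto (fun ε : ℝ => inner ℝ (murogaR a) (v + ε • z))
            (nhdsWithin 0 (Set.Ioi 0)) (nhds (inner ℝ (murogaR a) v)) := by
          have := hc.tendsto 0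
          simp only [zero_smul, add_zero] at this
          exact this.mono_left nhdsWithin_le_nhds
        exact (ht.eventually (lt_mem_nhds h2)).mono fun ε h => h.le
    obtain ⟨ε, hε, hε0⟩ := (hev.and self_mem_nhdsWithin).exists
    have h := hvar (v + ε • z) hε
    simp only [zero_sub, add_sub_cancel_left, inner_neg_left, inner_smul_right] at h
    have hε0' : 0 < ε := hε0
    nlinarith
  have hmem : v ∈ Sᗮᗮ := by
    rw [Submodule.mem_orthogonal]
    intro z hz
    have h1 := key z hz
    have h2 := key (-z) (Submodule.neg_mem _ hz)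
    rw [inner_neg_right] at h2
    rw [real_inner_comm]
    linarith
  rwa [Submodule.orthogonal_orthogonal] at hmem

theorem muroga (m : ℕ) (X : Finset (Fin m → ℤ)) (hX : ∀ a ∈ X, ∀ i, |a i| ≤ 1)
    (w : Fin m → ℤ) (hw : ∀ a ∈ X, 0 < ∑ i, a i * w i) :
    ∃ w' : Fin m → ℤ, (∀ a ∈ X, 0 < ∑ i, a i * w' i) ∧
      ∀ i, |w' i| ≤ (m : ℤ) ^ (2 * m + 2) := by
  classical
  obtain ⟨v, hv, hspan⟩ := muroga_min X w hw
  obtain ⟨κ, f, hf, hsp, hli⟩ := exists_linearIndependent' ℝ
    (fun a : {a : Fin m → ℤ // a ∈ X ∧ inner ℝ (murogaR a) v = 1} => murogaR a.1)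
  have hfin : Finite {a : Fin m → ℤ // a ∈ X ∧ inner ℝ (murogaR a) v = 1} :=
    Finite.of_injective (fun a => (⟨a.1, a.2.1⟩ : {a // a ∈ X})) (by
      intro a b h; simpa [Subtype.ext_iff] using h)
  have hfk : Finite κ := Finite.of_injective f hf
  have : Fintype κ := Fintype.ofFinite κ
  rw [← hsp] at hspan
  obtain ⟨c, hc⟩ := (Submodule.mem_span_range_iff_exists_fun ℝ).1 hspan
  set t : κ → Fin m → ℤ := fun j => (f j).1 with ht
  have htX : ∀ j, t j ∈ X := fun j => (f j).2.1
  have ht1 : ∀ j, inner ℝ (murogaR (t j)) v = 1 := fun j => (f j).2.2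
  have hli' : LinearIndependent ℝ (fun j => murogaR (t j)) := hli
  have hc' : ∑ j, c j • murogaR (t j) = v := hc
  set G : Matrix κ κ ℤ := Matrix.of fun j k => ∑ i, t j i * t k i with hG
  have hGr : G.map (Int.cast : ℤ → ℝ) = Matrix.gram ℝ (fun j => murogaR (t j)) := by
    ext j k
    simp only [hG, Matrix.map_apply, Matrix.of_apply, Matrix.gram_apply]
    rw [muroga_inner]
    push_cast
    simp [murogaR]
  have hdetr : 0 < (G.map (Int.cast : ℤ → ℝ)).det := by
    rw [hGr]
    exact (Matrix.posDef_gram_of_linearIndependent hli').det_pos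
  have hdetc : (G.map (Int.cast : ℤ → ℝ)).det = ((G.det : ℤ) : ℝ) := by
    have := (Int.castRingHom ℝ).map_det G
    simpa using this.symm
  have hdet : 0 < G.det := by
    rw [hdetc] at hdetr
    exact_mod_cast hdetr
  have hGc : (G.map (Int.cast : ℤ → ℝ)).mulVec c = fun _ => 1 := by
    ext j
    rw [hGr]
    simp only [Matrix.mulVec, dotProduct, Matrix.gram_apply]
    rw [← ht1 j, ← hc', inner_sum]
    refine Finset.sum_congr rfl fun k _ => ?_
    rw [inner_smul_right, mul_comm]
  have hDc : ∀ j, ((G.adjugate.mulVec (fun _ => 1)) j : ℝ) = (G.det : ℝ) * c j := by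
    have h1 : ((G.map (Int.cast : ℤ → ℝ)).adjugate).mulVec (fun _ => 1)
        = (G.map (Int.cast : ℤ → ℝ)).det • c := by
      rw [← hGc, Matrix.mulVec_mulVec, Matrix.adjugate_mul, Matrix.smul_mulVec, Matrix.one_mulVec]
    have h2 : (G.map (Int.cast : ℤ → ℝ)).adjugate = G.adjugate.map (Int.cast : ℤ → ℝ) := by
      have := (Int.castRingHom ℝ).map_adjugate G
      simpa using this.symm
    intro j
    have h3 := congrFun h1 j
    rw [h2, hdetc] at h3
    simp only [Pi.smul_apply, smul_eq_mul] at h3
    rw [← h3]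
    simp [Matrix.mulVec, dotProduct]
  set y : κ → ℤ := G.adjugate.mulVec (fun _ => 1) with hy
  have hvi : ∀ i, v i = ∑ j, c j * (t j i : ℝ) := by
    intro i
    have h1 := congrArg (fun u : EuclideanSpace ℝ (Fin m) => u i) hc'
    simp only at h1
    rw [← h1]
    simp [murogaR]
  have hcard : Fintype.card κ ≤ m := by
    have h1 := hli'.fintype_card_le_finrank
    simpa using h1
  refine ⟨fun i => ∑ j, y j * t j i, ?_, ?_⟩
  · intro a ha
    have h1 : ((∑ i, a i * ∑ j, y j * t j i : ℤ) : ℝ) = (G.det : ℝ) * inner ℝ (murogaR a) v := by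
      rw [muroga_inner]
      simp only [Int.cast_sum, Int.cast_mul]
      rw [Finset.mul_sum]
      refine Finset.sum_congr rfl fun i _ => ?_
      rw [hvi i, Finset.mul_sum, Finset.mul_sum, Finset.mul_sum]
      refine Finset.sum_congr rfl fun j _ => ?_
      rw [hDc j]
      ring
    have h2 : (0 : ℝ) < ((∑ i, a i * ∑ j, y j * t j i : ℤ) : ℝ) := by
      rw [h1]
      have h3 : (0 : ℝ) < (G.det : ℝ) := by exact_mod_cast hdet
      have h4 := hv a ha
      positivity
    exact_mod_cast h2
  · intro i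
    have hm : 1 ≤ m := Nat.one_le_iff_ne_zero.2 (by rintro rfl; exact i.elim0)
    have hGe : ∀ j k, |G j k| ≤ (m : ℤ) := by
      intro j k
      simp only [hG, Matrix.of_apply]
      refine (Finset.abs_sum_le_sum_abs _ _).trans ?_
      calc ∑ i, |t j i * t k i| ≤ ∑ _i : Fin m, (1 : ℤ) := by
            refine Finset.sum_le_sum fun i _ => ?_
            rw [abs_mul]
            exact mul_le_one₀ (hX _ (htX j) i) (abs_nonneg _) (hX _ (htX k) i)
        _ = (m : ℤ) := by simp
    have hadj : ∀ j k, |G.adjugate j k| ≤ (Nat.factorial (Fintype.card κ) : ℤ) * (m : ℤ) ^ (Fintype.card κ) := by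
      intro j k
      rw [Matrix.adjugate_apply]
      have h1 := Matrix.det_le (abv := AbsoluteValue.abs) (x := (m : ℤ))
        (A := G.updateRow k (Pi.single j 1)) (by
          intro p q
          rw [Matrix.updateRow_apply]
          split_ifs
          · simp only [AbsoluteValue.abs_apply]
            by_cases hq : q = j
            · subst hq; simpa using (by exact_mod_cast hm : (1 : ℤ) ≤ (m : ℤ))
            · simp [hq]
          · exact hGe p q)
      simpa [nsmul_eq_mul] using h1
    have hyb : ∀ j, |y j| ≤ (Fintype.card κ : ℤ) * ((Nat.factorial (Fintype.card κ) : ℤ) * (m : ℤ) ^ (Fintype.card κ)) := by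
      intro j
      have h1 : y j = ∑ k, G.adjugate j k := by simp [hy, Matrix.mulVec, dotProduct]
      rw [h1]
      refine (Finset.abs_sum_le_sum_abs _ _).trans ?_
      refine (Finset.sum_le_sum fun k _ => hadj j k).trans ?_
      simp
    have h1 : |∑ j, y j * t j i| ≤ (Fintype.card κ : ℤ) * ((Fintype.card κ : ℤ) * ((Nat.factorial (Fintype.card κ) : ℤ) * (m : ℤ) ^ (Fintype.card κ))) := by
      refine (Finset.abs_sum_le_sum_abs _ _).trans ?_
      have h2 : ∀ j ∈ (Finset.univ : Finset κ), |y j * t j i| ≤ (Fintype.card κ : ℤ) * ((Nat.factorial (Fintype.card κ) : ℤ) * (m : ℤ) ^ (Fintype.card κ)) := by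
        intro j _
        rw [abs_mul]
        calc |y j| * |t j i| ≤ |y j| * 1 := mul_le_mul_of_nonneg_left (hX _ (htX j) i) (abs_nonneg _)
          _ = |y j| := mul_one _
          _ ≤ _ := hyb j
      refine (Finset.sum_le_sum h2).trans ?_
      simp
    refine h1.trans ?_
    have h3 : Fintype.card κ * (Fintype.card κ * (Nat.factorial (Fintype.card κ) * m ^ (Fintype.card κ)))
        ≤ m ^ (2 * m + 2) := by
      calc Fintype.card κ * (Fintype.card κ * (Nat.factorial (Fintype.card κ) * m ^ (Fintype.card κ)))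
          ≤ m * (m * (m ^ m * m ^ m)) := by
            have h5 : Nat.factorial (Fintype.card κ) ≤ m ^ m := by
              calc Nat.factorial (Fintype.card κ) ≤ (Fintype.card κ) ^ (Fintype.card κ) := Nat.factorial_le_pow _
                _ ≤ m ^ (Fintype.card κ) := Nat.pow_le_pow_left hcard _
                _ ≤ m ^ m := Nat.pow_le_pow_right hm hcard
            have h6 : m ^ (Fintype.card κ) ≤ m ^ m := Nat.pow_le_pow_right hm hcard
            gcongr
        _ = m ^ (2 * m + 2) := by ring
    exact_mod_cast h3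

end Pool.Agent.W_d799b0_h54
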