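import Pool.Agent.W_d799b0_h54.Emb
import Pool.Agent.W_d799b0_h54.CleanA
import Pool.Agent.W_d799b0_h82.PtsA

/-!
# The cleaned family

PROOF of `exists_pack`. Let `fam = (pts r).map fun u => (u, H u)`, `G = clean d β fam`: a sublist of
`fam` (`clean_spec`, `length_pts`), hence without duplicates (`pts r` has no duplicates: it has
length `r ^ 3` and its elements are exactly the `r ^ 3` points; or prove `Nodup` directly), every
element of `G` is `(toPt u, H (toPt u))` for a unique `u` (`mem_pts`, `exists_toPt`, `toPt_inj`).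
`T` = the set of the `u` with `(toPt u, H (toPt u)) ∈ G`. `sum`: the sum over a list without
duplicates is the sum over `G.toFinset` (`List.sum_toFinset`), and `u ↦ (toPt u, H (toPt u))` is a
bijection from `T` to it. `exists_emb` for `F = G.map Prod.snd` gives `ψ`, `nrm`, and `dual` (the
list sum of squares is a sum over `T` again: prove the sum statement first for every additive
commutative monoid as a private lemma, `ℝ` and the euclidean space are instances of it).
`small`: the last part of `clean_spec`, `nrm`, divide by the determinant (`form_pos`).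
-/

set_option autoImplicit false

namespace Pool.Agent.W_d799b0_h54

open Pool.Agent.W_d799b0_h82

private theorem PackA_toFinset (r : ℕ) [NeZero r] :
    (pts r).toFinset = (Finset.univ : Finset (ZMod r × ZMod r × ZMod r)).image toPt := by
  ext u
  rw [List.mem_toFinset, mem_pts, Finset.mem_image]
  constructor
  · intro h
    obtain ⟨u', hu'⟩ := exists_toPt r u h
    exact ⟨u', Finset.mem_univ _, hu'⟩
  · rintro ⟨u', _, rfl⟩
    exact toPt_lt r u'

private theorem PackA_nodup (r : ℕ) [NeZero r] : (pts r).Nodup := by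
  have h1 : (pts r).toFinset.card = r ^ 3 := by
    rw [PackA_toFinset, Finset.card_image_of_injective _ (fun a b h => toPt_inj r a b h),
      Finset.card_univ, Fintype.card_prod, Fintype.card_prod, ZMod.card]
    ring
  have h2 : (Multiset.toFinset ((pts r : List Pt) : Multiset Pt)).card =
      Multiset.card ((pts r : List Pt) : Multiset Pt) := by
    rw [Multiset.coe_card, length_pts]
    exact h1
  exact Multiset.coe_nodup.1 (Multiset.toFinset_card_eq_card_iff_nodup.1 h2)

private theorem PackA_famNodup (r : ℕ) [NeZero r] (H : Pt → List ℤ) :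
    ((pts r).map fun u => (u, H u)).Nodup :=
  (PackA_nodup r).map (fun a b h => congrArg Prod.fst h)

private theorem PackA_sum {B : Type*} [AddCommMonoid B] (r : ℕ) [NeZero r] (H : Pt → List ℤ)
    (G : List (Pt × List ℤ)) (hG : G.Sublist ((pts r).map fun u => (u, H u)))
    (T : Finset (ZMod r × ZMod r × ZMod r)) (hT : ∀ u, u ∈ T ↔ (toPt u, H (toPt u)) ∈ G)
    (f : Pt → List ℤ → B) :
    (G.map fun p => f p.1 p.2).sum = ∑ u ∈ T, f (toPt u) (H (toPt u)) := by
  classical
  have hn : G.Nodup := (PackA_famNodup r H).sublist hG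
  rw [← List.sum_toFinset (fun p : Pt × List ℤ => f p.1 p.2) hn]
  symm
  refine Finset.sum_bij (fun u _ => (toPt u, H (toPt u))) ?_ ?_ ?_ ?_
  · intro u hu
    exact List.mem_toFinset.2 ((hT u).1 hu)
  · intro u _ u' _ h
    exact toPt_inj r u u' (congrArg Prod.fst h)
  · intro p hp
    rw [List.mem_toFinset] at hp
    obtain ⟨u, hu, rfl⟩ := List.mem_map.1 (hG.subset hp)
    obtain ⟨u', rfl⟩ := exists_toPt r u ((mem_pts r u).1 hu)
    exact ⟨u', (hT u').2 hp, rfl⟩
  · intro u _
    rfl

theorem exists_pack (d β r : ℕ) [NeZero r] (H : Pt → List ℤ) (hβ : 0 < β) (hβr : β ≤ r ^ 3)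
    (hD : (form d ((pts r).map H)).1 ≤ 2 ^ β) :
    ∃ (T : Finset (ZMod r × ZMod r × ZMod r))
      (ψ : (Fin d → ℝ) →ₗ[ℝ] EuclideanSpace ℝ (Fin d)), Pack d β r H T ψ := by
  classical
  obtain ⟨G, hGdef⟩ : ∃ G, G = clean d β ((pts r).map fun u => (u, H u)) := ⟨_, rfl⟩
  have hmap : ((pts r).map fun u => (u, H u)).map (fun p => p.2) = (pts r).map H := by
    rw [List.map_map]
    rfl
  have hlen : ((pts r).map fun u => (u, H u)).length = r ^ 3 := by
    rw [List.length_map, length_pts]
  obtain ⟨hsub, hne, hsm⟩ := clean_spec d β ((pts r).map fun u => (u, H u)) hβ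
    (by rw [hlen]; exact hβr) (by rw [hmap]; exact hD)
  rw [← hGdef] at hsub hne hsm
  rw [hlen] at hsm
  obtain ⟨T, hTdef⟩ : ∃ T : Finset (ZMod r × ZMod r × ZMod r),
    T = Finset.univ.filter (fun u => (toPt u, H (toPt u)) ∈ G) := ⟨_, rfl⟩
  have hT : ∀ u, u ∈ T ↔ (toPt u, H (toPt u)) ∈ G := by
    intro u
    rw [hTdef, Finset.mem_filter, and_iff_right (Finset.mem_univ _)]
  obtain ⟨ψ, hψ1, hψ2⟩ := exists_emb d (G.map fun p => p.2)
  have hpos := form_pos d (G.map fun p => p.2)
  refine ⟨T, ψ, ?_, ?_, ?_, ?_, ?_, ?_⟩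
  · obtain ⟨p, hp⟩ := List.exists_mem_of_ne_nil G hne
    obtain ⟨u, hu, rfl⟩ := List.mem_map.1 (hsub.subset hp)
    obtain ⟨u', rfl⟩ := exists_toPt r u ((mem_pts r u).1 hu)
    exact ⟨u', (hT u').2 hp⟩
  · rw [← hGdef]
    exact hpos
  · rw [← hGdef]
    exact hψ1
  · intro u hu
    have h1 := hsm _ ((hT u).1 hu)
    dsimp only at h1
    have h2 : ((r : ℝ) ^ 3) * ((qf d (form d (G.map fun p => p.2)).2 (H (toPt u)) : ℤ) : ℝ) ≤
        (β : ℝ) * ((form d (G.map fun p => p.2)).1 : ℝ) := by
      exact_mod_cast h1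
    rw [hψ1] at h2
    have h3 : (0 : ℝ) < ((form d (G.map fun p => p.2)).1 : ℝ) := by exact_mod_cast hpos
    generalize ((form d (G.map fun p => p.2)).1 : ℝ) = D at h2 h3
    generalize ‖ψ (rv d (H (toPt u)))‖ ^ 2 = x at h2 ⊢
    have h4 : ((r : ℝ) ^ 3 * x) * D ≤ (β : ℝ) * D := by
      calc ((r : ℝ) ^ 3 * x) * D = (r : ℝ) ^ 3 * (D * x) := by ring
        _ ≤ _ := h2
    exact le_of_mul_le_mul_right h4 h3
  · intro w
    obtain ⟨a, ha1, ha2⟩ := hψ2 w
    refine ⟨a, ha1, ?_⟩
    rw [ha2, List.map_map]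
    congr 1
    exact PackA_sum r H G hsub T hT (fun _ v => (∑ i, w i * rv d v i) ^ 2)
  · intro f
    rw [← hGdef]
    exact PackA_sum r H G hsub T hT f

end Pool.Agent.W_d799b0_h54
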