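import Pool.Agent.W_d799b0_h54.FDefs
import Pool.Agent.W_d799b0_h82.HqA

/-!
# Truth-table reductions with few answers `yes`

`incL k m` = all strictly increasing lists of at most `k` numbers less than `m`; `subL l` = all
sublists. `ttQ`: for every `Y` in `incL k m` and every sublist `Z` of `Y` with `G Z` the query with
the sign `(-1) ^ (|Y| - |Z|)` and the strings with the indices in `Y`.
PROOF of `ttQ_weight`. Let `I` be the increasing list of all `i < m` with `str i ∈ S`,
`I.length ≤ k`. A query of `Y` is satisfied iff `Y` is a sublist of `I`. So the weight is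
`∑ Y ⊆ I, ∑ Z ⊆ Y, (-1)^(|Y| - |Z|) [G Z] = ∑ Z ⊆ I, [G Z] ∑ Z ⊆ Y ⊆ I, (-1)^(|Y \ Z|) = [G I]`
(by induction on the list `I`, for all `G`).
-/

set_option autoImplicit false

namespace Pool.Agent.W_d799b0_h54

open Pool.Agent.W_d799b0_h82

/-- all strictly increasing lists of at most `k` numbers less than `m` -/
def incL : ℕ → ℕ → List (List ℕ)
  | 0, _ => [[]]
  | k + 1, m => [] :: (List.range m).flatMap fun i =>
      ((incL k m).filter fun l => l.all fun j => decide (i < j)).map fun l => i :: l

/-- all sublists -/
def subL (l : List ℕ) : List (List ℕ) :=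
  l.foldr (fun a s => s ++ s.map fun z => a :: z) [[]]

/-- the queries -/
def ttQ (k m : ℕ) (G : List ℕ → Bool) (str : ℕ → List Bool) : List Query :=
  (incL k m).flatMap fun Y => ((subL Y).filter G).map fun Z =>
    (decide ((Y.length - Z.length) % 2 = 0), Y.map str)

theorem incL_mem (k m : ℕ) (l : List ℕ) :
    l ∈ incL k m ↔ l.length ≤ k ∧ l.Pairwise (· < ·) ∧ ∀ i ∈ l, i < m := by
  induction k generalizing l with
  | zero =>
    rw [incL, List.mem_singleton]
    constructor
    · rintro rfl
      simp
    · rintro ⟨h, -⟩
      exact List.length_eq_zero_iff.mp (Nat.le_zero.mp h)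
  | succ k ih =>
    rw [incL, List.mem_cons, List.mem_flatMap]
    constructor
    · rintro (rfl | ⟨i, hi, hl⟩)
      · simp
      · rw [List.mem_map] at hl
        obtain ⟨l', hl', rfl⟩ := hl
        rw [List.mem_filter, ih, List.all_eq_true] at hl'
        obtain ⟨⟨h1, h2, h3⟩, h4⟩ := hl'
        refine ⟨by rw [List.length_cons]; omega, ?_, ?_⟩
        · rw [List.pairwise_cons]
          exact ⟨fun a ha => of_decide_eq_true (h4 a ha), h2⟩
        · intro j hj
          rcases List.mem_cons.mp hj with rfl | hj
          · exact List.mem_range.mp hi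
          · exact h3 j hj
    · rintro ⟨h1, h2, h3⟩
      cases l with
      | nil => exact Or.inl rfl
      | cons i l' =>
        right
        rw [List.pairwise_cons] at h2
        refine ⟨i, List.mem_range.mpr (h3 i (List.mem_cons_self)), ?_⟩
        rw [List.mem_map]
        refine ⟨l', ?_, rfl⟩
        rw [List.mem_filter, ih, List.all_eq_true]
        refine ⟨⟨by rw [List.length_cons] at h1; omega, h2.2,
          fun j hj => h3 j (List.mem_cons_of_mem _ hj)⟩, fun a ha => decide_eq_true (h2.1 a ha)⟩

theorem incL_nodup (k m : ℕ) : (incL k m).Nodup := by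
  induction k with
  | zero => rw [incL]; simp
  | succ k ih =>
    rw [incL, List.nodup_cons]
    constructor
    · rw [List.mem_flatMap]
      rintro ⟨i, -, hl⟩
      rw [List.mem_map] at hl
      obtain ⟨l', -, h⟩ := hl
      exact absurd h (by simp)
    · rw [List.nodup_flatMap]
      constructor
      · intro i _
        refine List.Nodup.map ?_ (ih.filter _)
        intro a b hab
        exact (List.cons.inj hab).2
      · refine List.Pairwise.imp ?_ (List.nodup_range (n := m))
        intro a b hab l hl hl'
        rw [List.mem_map] at hl hl'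
        obtain ⟨l1, -, h1⟩ := hl
        obtain ⟨l2, -, h2⟩ := hl'
        rw [← h2] at h1
        exact hab (List.cons.inj h1).1

theorem subL_eq (l : List ℕ) : subL l = l.sublists' := by
  induction l with
  | nil => simp [subL]
  | cons a l ih =>
    rw [List.sublists'_cons, ← ih]
    rfl

theorem TtA_sum_neg {α : Type} (l : List α) (f : α → ℤ) :
    (l.map fun a => - f a).sum = - (l.map f).sum := by
  induction l with
  | nil => simp
  | cons a l ih => rw [List.map_cons, List.sum_cons, List.map_cons, List.sum_cons, ih]; ring

/-- the inner sum -/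
def TtA_T (Y : List ℕ) (G : List ℕ → Bool) : ℤ :=
  ((subL Y).map fun Z => if G Z then (-1 : ℤ) ^ (Y.length + Z.length) else 0).sum

theorem TtA_T_cons (a : ℕ) (Y : List ℕ) (G : List ℕ → Bool) :
    TtA_T (a :: Y) G = - TtA_T Y G + TtA_T Y (fun Z => G (a :: Z)) := by
  unfold TtA_T
  have h : subL (a :: Y) = subL Y ++ (subL Y).map fun z => a :: z := rfl
  rw [h, List.map_append, List.sum_append, List.map_map]
  congr 1
  · rw [← TtA_sum_neg]
    congr 1
    refine List.map_congr_left fun Z _ => ?_
    split_ifs
    · rw [List.length_cons]; ring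
    · simp
  · congr 1
    refine List.map_congr_left fun Z _ => ?_
    simp only [Function.comp_apply]
    split_ifs
    · rw [List.length_cons, List.length_cons]; ring
    · rfl

theorem TtA_W (I : List ℕ) (G : List ℕ → Bool) :
    ((subL I).map fun Y => TtA_T Y G).sum = if G I then 1 else 0 := by
  induction I generalizing G with
  | nil => simp [subL, TtA_T]
  | cons a I ih =>
    have h : subL (a :: I) = subL I ++ (subL I).map fun z => a :: z := rfl
    rw [h, List.map_append, List.sum_append, List.map_map]
    have h2 : (fun Y => TtA_T Y G) ∘ (fun z => a :: z)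
        = fun Y => - TtA_T Y G + TtA_T Y (fun Z => G (a :: Z)) := by
      funext Y
      exact TtA_T_cons a Y G
    rw [h2, List.sum_map_add, ih (fun Z => G (a :: Z))]
    have h3 : ((subL I).map fun Y => - TtA_T Y G).sum = - ((subL I).map fun Y => TtA_T Y G).sum := by
      rw [TtA_sum_neg]
    rw [h3]
    ring

open Classical in
theorem TtA_inner (S : Set (List Bool)) (G : List ℕ → Bool) (str : ℕ → List Bool) (Y : List ℕ) :
    weight S (((subL Y).filter G).map fun Z =>
      (decide ((Y.length - Z.length) % 2 = 0), Y.map str))
      = if ∀ i ∈ Y, str i ∈ S then TtA_T Y G else 0 := by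
  unfold weight
  rw [List.map_map]
  by_cases h : ∀ i ∈ Y, str i ∈ S
  · rw [if_pos h]
    have h' : ∀ y ∈ Y.map str, y ∈ S := by
      intro y hy
      obtain ⟨i, hi, rfl⟩ := List.mem_map.mp hy
      exact h i hi
    unfold TtA_T
    have key : ∀ L : List (List ℕ), (∀ Z ∈ L, Z.length ≤ Y.length) →
        ((L.filter G).map ((fun q : Query => if ∀ y ∈ q.2, y ∈ S then
          (if q.1 then (1 : ℤ) else -1) else 0) ∘
          fun Z => (decide ((Y.length - Z.length) % 2 = 0), Y.map str))).sum
        = (L.map fun Z => if G Z then (-1 : ℤ) ^ (Y.length + Z.length) else 0).sum := by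
      intro L
      induction L with
      | nil => intro _; simp
      | cons Z L ih =>
        intro hL
        rw [List.map_cons, List.sum_cons, ← ih (fun Z' hZ' => hL Z' (List.mem_cons_of_mem _ hZ'))]
        have hZ := hL Z List.mem_cons_self
        by_cases hG : G Z = true
        · rw [List.filter_cons_of_pos hG, List.map_cons, List.sum_cons, if_pos hG]
          congr 1
          simp only [Function.comp_apply]
          rw [if_pos h']
          by_cases hp : (Y.length - Z.length) % 2 = 0
          · have : Even (Y.length + Z.length) := by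
              rw [Nat.even_iff]; omega
            rw [this.neg_one_pow]
            simp [hp]
          · have : Odd (Y.length + Z.length) := by
              rw [Nat.odd_iff]; omega
            rw [this.neg_one_pow]
            simp [hp]
        · rw [List.filter_cons_of_neg hG, if_neg hG, zero_add]
    refine key (subL Y) ?_
    intro Z hZ
    rw [subL_eq, List.mem_sublists'] at hZ
    exact hZ.length_le
  · rw [if_neg h]
    have h' : ¬ ∀ y ∈ Y.map str, y ∈ S := by
      intro hh
      exact h fun i hi => hh _ (List.mem_map_of_mem hi)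
    apply List.sum_eq_zero
    intro x hx
    rw [List.mem_map] at hx
    obtain ⟨Z, -, rfl⟩ := hx
    simp only [Function.comp_apply]
    rw [if_neg h']

theorem ttQ_weight (S : Set (List Bool)) (k m : ℕ) (G : List ℕ → Bool) (str : ℕ → List Bool)
    (I : List ℕ) (hI : I.Pairwise (· < ·)) (hI2 : ∀ i, i ∈ I ↔ i < m ∧ str i ∈ S)
    (hk : I.length ≤ k) : weight S (ttQ k m G str) = if G I then 1 else 0 := by
  classical
  unfold ttQ
  rw [weight_flatMap]
  simp only [TtA_inner]
  have hInd : I.Nodup := hI.imp (fun h => ne_of_lt h)
  rw [← TtA_W I G]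
  have hsubnd : (subL I).Nodup := by
    rw [subL_eq]
    exact List.nodup_sublists'.mpr hInd
  -- convert to finset sums
  rw [← List.sum_toFinset _ (incL_nodup k m), ← List.sum_toFinset _ hsubnd]
  rw [← Finset.sum_filter]
  refine Finset.sum_congr ?_ fun _ _ => rfl
  ext Y
  rw [Finset.mem_filter, List.mem_toFinset, List.mem_toFinset, incL_mem, subL_eq,
    List.mem_sublists']
  constructor
  · rintro ⟨⟨h1, h2, h3⟩, h4⟩
    have hsub : Y ⊆ I := fun i hi => (hI2 i).mpr ⟨h3 i hi, h4 i hi⟩
    have hnd : Y.Nodup := h2.imp (fun h => ne_of_lt h)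
    exact List.sublist_of_subperm_of_pairwise (r := (· < ·))
      (List.subperm_of_subset hnd hsub) h2 hI
  · intro h
    refine ⟨⟨h.length_le.trans hk, hI.sublist h, fun i hi => ((hI2 i).mp (h.subset hi)).1⟩,
      fun i hi => ((hI2 i).mp (h.subset hi)).2⟩

end Pool.Agent.W_d799b0_h54
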