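import Pool.Agent.W_d799b0_h54.FDefs

/-!
# Adaptive reductions with few wrong predictions: definitions

A node is `(answers, number of wrong predictions, literals)`.
-/

set_option autoImplicit false

namespace Pool.Agent.W_d799b0_h54

/-- answers so far, number of wrong predictions, literals of the wrong predictions -/
abbrev Node := List Bool × (ℕ × List (List Bool))

/-- the literal `q ∈ T` (for `b = true`) or `q ∉ T` (for `b = false`), for a string `q` of ones -/
def lit (q : List Bool) (b : Bool) : List Bool :=
  List.replicate (2 * q.length + if b then 0 else 1) true

/-- the children of a node: the predicted answer comes first; a query that is not a string of ones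
is answered by `false` -/
def expd (F : List Bool × List Bool → Move) (k : ℕ) (x : List Bool) (s : Node) : List Node :=
  if (F (x, s.1)).1 then
    if (F (x, s.1)).2.2.all fun b => b then
      (s.1 ++ [(F (x, s.1)).2.1], (s.2.1, s.2.2)) ::
        (if decide (s.2.1 < k) then
          [(s.1 ++ [!(F (x, s.1)).2.1], (s.2.1 + 1,
            s.2.2 ++ [lit (F (x, s.1)).2.2 (!(F (x, s.1)).2.1)]))] else [])
    else if (F (x, s.1)).2.1 then
      (if decide (s.2.1 < k) then [(s.1 ++ [false], (s.2.1 + 1, s.2.2))] else [])
    else [(s.1 ++ [false], (s.2.1, s.2.2))]
  else [s]

/-- the nodes after `n` steps -/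
def nodes (F : List Bool × List Bool → Move) (k n : ℕ) (x : List Bool) : List Node :=
  (fun l : List Node => l.flatMap (expd F k x))^[n] [([], (0, []))]

/-- the weighted queries: later nodes have exponentially larger weights; the sign of the weight is
the verdict -/
def turQ (F : List Bool × List Bool → Move) (k n : ℕ) (x : List Bool) : List WQuery :=
  (nodes F k n x).zipIdx.map fun p =>
    ((if (F (x, p.1.1)).2.1 then 1 else -1) * 2 ^ p.2, p.1.2.2)

open Classical in
/-- the set of the true literals -/
noncomputable def T2 (T : Set (List Bool)) : Set (List Bool) :=
  {y | IsTally y ∧ (if y.length % 2 = 0 then List.replicate (y.length / 2) true ∈ T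
    else List.replicate (y.length / 2) true ∉ T)}

end Pool.Agent.W_d799b0_h54
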