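import Pool.Agent.W_d799b0_h54.TurA

/-!
# Adaptive reductions with few wrong predictions: correctness

`nodes_count`: by induction on `n`: `∑ s ∈ nodes n, (m + 1) ^ (k - s.2.1) ≤ (n + m + 1) ^ k` for all
`m`: for the children of a node with `c < k` wrong predictions
`(m+1)^(k-c) + (m+1)^(k-c-1) = (m+1)^(k-c-1) (m+2) ≤ (m+2)^(k-c)`, and for a node with one child the
sum does not increase, if one passes from `m + 1` to `m`; all nodes have `s.2.1 ≤ k`. With `m = 0`
the sum is the number of nodes.
`nodes_inv`: induction on `n`.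
-/

set_option autoImplicit false

namespace Pool.Agent.W_d799b0_h54

variable (F : List Bool × List Bool → Move) (k : ℕ)

theorem TurB_nodes_succ (n : ℕ) (x : List Bool) :
    nodes F k (n + 1) x = (nodes F k n x).flatMap (expd F k x) := by
  unfold nodes
  rw [Function.iterate_succ_apply']

theorem TurB_pow (m a : ℕ) (h : 0 < a) : (m + 1) ^ a + (m + 1) ^ (a - 1) ≤ (m + 2) ^ a := by
  obtain ⟨b, rfl⟩ : ∃ b, a = b + 1 := ⟨a - 1, by omega⟩
  rw [Nat.add_sub_cancel, pow_succ, pow_succ]
  have h1 : (m + 1) ^ b ≤ (m + 2) ^ b := Nat.pow_le_pow_left (by omega) b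
  calc (m + 1) ^ b * (m + 1) + (m + 1) ^ b = (m + 1) ^ b * (m + 2) := by ring
    _ ≤ (m + 2) ^ b * (m + 2) := Nat.mul_le_mul_right _ h1

theorem TurB_expd (m : ℕ) (x : List Bool) (s : Node) :
    ((expd F k x s).map fun t : Node => (m + 1) ^ (k - t.2.1)).sum ≤ (m + 2) ^ (k - s.2.1) := by
  have h0 : (m + 1) ^ (k - s.2.1) ≤ (m + 2) ^ (k - s.2.1) := Nat.pow_le_pow_left (by omega) _
  unfold expd
  split_ifs with h1 h2 h3 h4 h5
  · have h3' : s.2.1 < k := by simpa using h3
    have h6 := TurB_pow m (k - s.2.1) (by omega)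
    have h7 : k - (s.2.1 + 1) = k - s.2.1 - 1 := by omega
    simp only [List.map_cons, List.map_nil, List.sum_cons, List.sum_nil, add_zero]
    rw [h7]
    exact h6
  · simpa using h0
  · have h3' : s.2.1 < k := by simpa using h5
    have h6 := TurB_pow m (k - s.2.1) (by omega)
    have h7 : k - (s.2.1 + 1) = k - s.2.1 - 1 := by omega
    simp only [List.map_cons, List.map_nil, List.sum_cons, List.sum_nil, add_zero]
    rw [h7]
    omega
  · simp
  · simpa using h0
  · simpa using h0

theorem TurB_sum_flatMap {α : Type} (l : List α) (f : α → List Node) (w : Node → ℕ)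
    (v : α → ℕ) (h : ∀ s ∈ l, ((f s).map w).sum ≤ v s) :
    ((l.flatMap f).map w).sum ≤ (l.map v).sum := by
  induction l with
  | nil => simp
  | cons a l ih =>
    rw [List.flatMap_cons, List.map_append, List.sum_append, List.map_cons, List.sum_cons]
    exact Nat.add_le_add (h a (by simp)) (ih fun s hs => h s (by simp [hs]))

theorem TurB_sum (n : ℕ) (x : List Bool) : ∀ m : ℕ,
    ((nodes F k n x).map fun t : Node => (m + 1) ^ (k - t.2.1)).sum ≤ (n + m + 1) ^ k := by
  induction n with
  | zero => intro m; simp [nodes]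
  | succ n ih =>
    intro m
    rw [TurB_nodes_succ]
    refine (TurB_sum_flatMap (nodes F k n x) (expd F k x) _
      (fun t : Node => (m + 1 + 1) ^ (k - t.2.1)) fun s _ => TurB_expd F k m x s).trans ?_
    refine (ih (m + 1)).trans (le_of_eq ?_)
    congr 1
    omega

theorem nodes_count (n : ℕ) (x : List Bool) : (nodes F k n x).length ≤ (n + 1) ^ k := by
  have h := TurB_sum F k n x 0
  simpa using h

theorem TurB_lit (q : List Bool) (b : Bool) :
    IsTally (lit q b) ∧ (lit q b).length ≤ 2 * q.length + 1 := by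
  constructor
  · intro c hc
    exact List.eq_of_mem_replicate hc
  · unfold lit
    rw [List.length_replicate]
    split_ifs <;> omega

theorem nodes_inv (n : ℕ) (x : List Bool) (s : Node) (hs : s ∈ nodes F k n x) :
    s.1.length ≤ n ∧ s.2.1 ≤ k ∧ s.2.2.length ≤ s.2.1 ∧
      ∀ y ∈ s.2.2, IsTally y ∧ ∃ a : List Bool, a.length ≤ n ∧
        y.length ≤ 2 * (F (x, a)).2.2.length + 1 := by
  induction n generalizing s with
  | zero =>
    have : s = ([], (0, [])) := by simpa [nodes] using hs
    subst this
    simp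
  | succ n ih =>
    rw [TurB_nodes_succ, List.mem_flatMap] at hs
    obtain ⟨t, ht, hs⟩ := hs
    obtain ⟨i1, i2, i3, i4⟩ := ih t ht
    have i4' : ∀ y ∈ t.2.2, IsTally y ∧ ∃ a : List Bool, a.length ≤ n + 1 ∧
        y.length ≤ 2 * (F (x, a)).2.2.length + 1 := by
      intro y hy
      obtain ⟨j1, a, j2, j3⟩ := i4 y hy
      exact ⟨j1, a, by omega, j3⟩
    unfold expd at hs
    split_ifs at hs with h1 h2 h3 h4 h5
    · have h3' : t.2.1 < k := by simpa using h3
      rcases List.mem_cons.1 hs with rfl | hs
      · exact ⟨by simp; omega, i2, i3, i4'⟩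
      · have hs' := List.mem_singleton.1 hs
        subst hs'
        refine ⟨by simp; omega, by simp; omega, by simp; omega, ?_⟩
        intro y hy
        rcases List.mem_append.1 hy with hy | hy
        · exact i4' y hy
        · have hy' := List.mem_singleton.1 hy
          subst hy'
          exact ⟨(TurB_lit _ _).1, t.1, by omega, (TurB_lit _ _).2⟩
    · have hs' := List.mem_singleton.1 hs
      subst hs'
      exact ⟨by simp; omega, i2, i3, i4'⟩
    · have h3' : t.2.1 < k := by simpa using h5
      have hs' := List.mem_singleton.1 hs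
      subst hs'
      exact ⟨by simp; omega, by simp; omega, by simp; omega, i4'⟩
    · simp at hs
    · have hs' := List.mem_singleton.1 hs
      subst hs'
      exact ⟨by simp; omega, i2, i3, i4'⟩
    · have hs' := List.mem_singleton.1 hs
      subst hs'
      exact ⟨by omega, i2, i3, i4'⟩

end Pool.Agent.W_d799b0_h54
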