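import Pool.Agent.W_d799b0_h54.TurA

/-!
# Adaptive reductions with few wrong predictions: correctness

`TurM_lit`: `lit q b ∈ T2 T ↔ (b = true ↔ q ∈ T)` for a string `q` of ones.
`TurM_split`: by induction on `n`: `nodes F k n x = pre ++ node :: post` where `node` has
the answers `a.take n`, the number of wrong predictions among these, all literals of `node` are in
`T2 T`, and every node in `post` has a literal that is not in `T2 T`. (Steps: descendants of nodes
of `post` keep their literals; the node itself: if the true answer is the predicted one then the
other child goes to `post` and its new literal is false; otherwise the predicted child goes to `pre`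
and the true child has a new true literal, and there is room because at most `k` predictions are
wrong. A query that is not a string of ones is answered `false` by a tally set. If `a.take n = a`
the machine has halted and the node does not change.)
`tur_main`: the sum is `± 2 ^ i + ∑ j < i, (..)`, `i = pre.length`, the terms of `post` vanish and
`|∑ j < i| ≤ 2 ^ i - 1`; the sign is the verdict for the answers `a.take n = a`.
-/

set_option autoImplicit false

namespace Pool.Agent.W_d799b0_h54

variable (F : List Bool × List Bool → Move) (k : ℕ)

private theorem TurM_rep (q : List Bool) (hq : (q.all fun b => b) = true) :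
    q = List.replicate q.length true := by
  rw [List.eq_replicate_iff]
  refine ⟨rfl, fun b hb => ?_⟩
  rw [List.all_eq_true] at hq
  exact hq b hb

private theorem TurM_lit (T : Set (List Bool)) (q : List Bool)
    (hq : (q.all fun b => b) = true) (b : Bool) :
    lit q b ∈ T2 T ↔ (b = true ↔ q ∈ T) := by
  have h := TurM_rep q hq
  have ht : IsTally (lit q b) := by
    intro c hc
    exact (List.mem_replicate.1 hc).2
  cases b
  · have h1 : (lit q false).length % 2 ≠ 0 := by
      simp [lit, List.length_replicate]
    have h2 : (lit q false).length / 2 = q.length := by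
      simp only [lit, List.length_replicate, Bool.false_eq_true, if_false]
      omega
    simp only [T2, Set.mem_setOf_eq, h1, if_false, h2, ← h, ht, true_and, Bool.false_eq_true,
      false_iff]
  · have h1 : (lit q true).length % 2 = 0 := by
      simp [lit, List.length_replicate]
    have h2 : (lit q true).length / 2 = q.length := by
      simp only [lit, List.length_replicate, if_true]
      omega
    simp only [T2, Set.mem_setOf_eq, h1, if_true, h2, ← h, ht, true_and, true_iff]

private theorem TurM_keep (x : List Bool) (s s' : Node) (h : s' ∈ expd F k x s) (y : List Bool)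
    (hy : y ∈ s.2.2) : y ∈ s'.2.2 := by
  unfold expd at h
  split_ifs at h
  all_goals
    simp only [List.mem_cons, List.not_mem_nil, or_false] at h
  all_goals
    first
      | (rcases h with h | h <;> subst h <;> simp [hy])
      | (subst h; simp [hy])
      | skip

/-- the number of wrong predictions among the first `n` -/
private def TurM_wr (x a : List Bool) (n : ℕ) : ℕ :=
  ((List.range (min n a.length)).filter fun i => a.getD i false != (F (x, a.take i)).2.1).length

private theorem TurM_wr_succ (x a : List Bool) (n : ℕ) (hn : n < a.length) :
    TurM_wr F x a (n + 1) = TurM_wr F x a n +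
      (if a.getD n false != (F (x, a.take n)).2.1 then 1 else 0) := by
  unfold TurM_wr
  rw [min_eq_left (by omega : n + 1 ≤ a.length), min_eq_left hn.le, List.range_succ,
    List.filter_append, List.length_append]
  congr 1
  by_cases h : (a.getD n false != (F (x, a.take n)).2.1) = true
  · simp only [List.filter_cons, h, if_true, List.filter_nil, List.length_cons, List.length_nil]
  · simp only [List.filter_cons, h, Bool.false_eq_true, if_false, List.filter_nil,
      List.length_nil]

private theorem TurM_wr_mono (x a : List Bool) {m n : ℕ} (h : m ≤ n) :
    TurM_wr F x a m ≤ TurM_wr F x a n := by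
  induction n, h using Nat.le_induction with
  | base => exact le_rfl
  | succ n _ ih =>
    by_cases hn : n < a.length
    · rw [TurM_wr_succ F x a n hn]
      omega
    · have : TurM_wr F x a (n + 1) = TurM_wr F x a n := by
        unfold TurM_wr
        rw [min_eq_right (by omega : a.length ≤ n + 1), min_eq_right (by omega : a.length ≤ n)]
      omega

private theorem TurM_wr_full (x a : List Bool) {n : ℕ} (h : a.length ≤ n) :
    TurM_wr F x a n = wrong F x a := by
  unfold TurM_wr wrong
  rw [min_eq_right h]

private theorem TurM_split (T : Set (List Bool)) (hT : Tally T) (x a : List Bool)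
    (h1 : Answers F T x a) (h2 : wrong F x a ≤ k) (n : ℕ) :
    ∃ (pre post : List Node) (lab : List (List Bool)),
      nodes F k n x = pre ++ (a.take n, (TurM_wr F x a n, lab)) :: post ∧
      (∀ y ∈ lab, y ∈ T2 T) ∧ ∀ s ∈ post, ∃ y ∈ s.2.2, y ∉ T2 T := by
  induction n with
  | zero =>
    refine ⟨[], [], [], ?_, by simp, by simp⟩
    simp [nodes, TurM_wr]
  | succ n ih =>
    obtain ⟨pre, post, lab, he, hl, hp⟩ := ih
    have hstep : nodes F k (n + 1) x = (nodes F k n x).flatMap (expd F k x) := by
      unfold nodes
      rw [Function.iterate_succ_apply']
    rw [he, List.flatMap_append, List.flatMap_cons] at hstep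
    have hpost : ∀ s ∈ post.flatMap (expd F k x), ∃ y ∈ s.2.2, y ∉ T2 T := by
      intro s hs
      obtain ⟨s0, hs0, hs1⟩ := List.mem_flatMap.1 hs
      obtain ⟨y, hy, hy2⟩ := hp s0 hs0
      exact ⟨y, TurM_keep F k x s0 s hs1 y hy, hy2⟩
    by_cases hn : n < a.length
    · obtain ⟨hq, hb⟩ := h1.1 n hn
      have htake : a.take (n + 1) = a.take n ++ [a.getD n false] := by
        rw [List.take_succ_eq_append_getElem hn, List.getD_eq_getElem _ _ hn]
      have hwr := TurM_wr_succ F x a n hn
      have hwk : TurM_wr F x a (n + 1) ≤ k := by
        refine (TurM_wr_mono F x a (Nat.succ_le_of_lt hn)).trans ?_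
        rw [TurM_wr_full F x a le_rfl]
        exact h2
      rw [htake]
      by_cases hall : ((F (x, a.take n)).2.2.all fun b => b) = true
      · by_cases hp2 : a.getD n false = (F (x, a.take n)).2.1
        · -- the predicted answer is true
          have hw0 : TurM_wr F x a (n + 1) = TurM_wr F x a n := by
            rw [hwr, hp2]; simp
          have hex : expd F k x (a.take n, (TurM_wr F x a n, lab)) =
              (a.take n ++ [a.getD n false], (TurM_wr F x a (n + 1), lab)) ::
              (if decide (TurM_wr F x a n < k) then
                [(a.take n ++ [!(F (x, a.take n)).2.1], (TurM_wr F x a n + 1,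
                  lab ++ [lit (F (x, a.take n)).2.2 (!(F (x, a.take n)).2.1)]))] else []) := by
            unfold expd
            rw [if_pos hq, if_pos hall, hw0, hp2]
          refine ⟨pre.flatMap (expd F k x), (if decide (TurM_wr F x a n < k) then
                [(a.take n ++ [!(F (x, a.take n)).2.1], (TurM_wr F x a n + 1,
                  lab ++ [lit (F (x, a.take n)).2.2 (!(F (x, a.take n)).2.1)]))] else []) ++
              post.flatMap (expd F k x), lab, ?_, hl, ?_⟩
          · rw [hstep, hex]
            rfl
          · intro s hs
            rcases List.mem_append.1 hs with hs | hs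
            · split_ifs at hs
              · rw [List.mem_singleton] at hs
                subst hs
                refine ⟨lit (F (x, a.take n)).2.2 (!(F (x, a.take n)).2.1), by simp, ?_⟩
                rw [TurM_lit T _ hall, ← hb, hp2]
                cases (F (x, a.take n)).2.1 <;> simp
              · simp at hs
            · exact hpost s hs
        · -- the prediction is wrong
          have hp3 : a.getD n false = !(F (x, a.take n)).2.1 := by
            revert hp2
            cases a.getD n false <;> cases (F (x, a.take n)).2.1 <;> simp
          have hw1 : TurM_wr F x a (n + 1) = TurM_wr F x a n + 1 := by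
            rw [hwr, hp3]
            cases (F (x, a.take n)).2.1 <;> simp
          have hlt : TurM_wr F x a n < k := by omega
          have hex : expd F k x (a.take n, (TurM_wr F x a n, lab)) =
              [(a.take n ++ [(F (x, a.take n)).2.1], (TurM_wr F x a n, lab)),
                (a.take n ++ [a.getD n false], (TurM_wr F x a (n + 1),
                  lab ++ [lit (F (x, a.take n)).2.2 (!(F (x, a.take n)).2.1)]))] := by
            unfold expd
            rw [if_pos hq, if_pos hall, hw1, hp3]
            simp only [hlt, decide_true, if_true]
          refine ⟨pre.flatMap (expd F k x) ++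
            [(a.take n ++ [(F (x, a.take n)).2.1], (TurM_wr F x a n, lab))],
            post.flatMap (expd F k x),
            lab ++ [lit (F (x, a.take n)).2.2 (!(F (x, a.take n)).2.1)], ?_, ?_, hpost⟩
          · rw [hstep, hex]
            simp only [List.cons_append, List.nil_append, List.append_assoc]
          · intro y hy
            rcases List.mem_append.1 hy with hy | hy
            · exact hl y hy
            · rw [List.mem_singleton] at hy
              subst hy
              rw [TurM_lit T _ hall, ← hb, hp3]
      · -- not a string of ones
        have hnot : (F (x, a.take n)).2.2 ∉ T := by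
          intro hmem
          apply hall
          rw [List.all_eq_true]
          exact hT _ hmem
        have hb0 : a.getD n false = false := by
          cases hc : a.getD n false
          · rfl
          · exact absurd (hb.1 hc) hnot
        rw [hb0] at hwr ⊢
        cases hpr : (F (x, a.take n)).2.1
        · have hw0 : TurM_wr F x a (n + 1) = TurM_wr F x a n := by
            rw [hwr, hpr]; simp
          have hex : expd F k x (a.take n, (TurM_wr F x a n, lab)) =
              [(a.take n ++ [false], (TurM_wr F x a (n + 1), lab))] := by
            unfold expd
            rw [if_pos hq, if_neg hall, hpr, hw0]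
            simp
          refine ⟨pre.flatMap (expd F k x), post.flatMap (expd F k x), lab, ?_, hl, hpost⟩
          rw [hstep, hex]
          rfl
        · have hw1 : TurM_wr F x a (n + 1) = TurM_wr F x a n + 1 := by
            rw [hwr, hpr]; simp
          have hlt : TurM_wr F x a n < k := by omega
          have hex : expd F k x (a.take n, (TurM_wr F x a n, lab)) =
              [(a.take n ++ [false], (TurM_wr F x a (n + 1), lab))] := by
            unfold expd
            rw [if_pos hq, if_neg hall, hpr, hw1]
            simp only [hlt, decide_true, if_true]
          refine ⟨pre.flatMap (expd F k x), post.flatMap (expd F k x), lab, ?_, hl, hpost⟩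
          rw [hstep, hex]
          rfl
    · have hta : a.take n = a := List.take_of_length_le (by omega)
      have hta1 : a.take (n + 1) = a := List.take_of_length_le (by omega)
      have hw0 : TurM_wr F x a (n + 1) = TurM_wr F x a n := by
        unfold TurM_wr
        rw [min_eq_right (by omega : a.length ≤ n + 1), min_eq_right (by omega : a.length ≤ n)]
      have hex : expd F k x (a.take n, (TurM_wr F x a n, lab)) =
          [(a.take (n + 1), (TurM_wr F x a (n + 1), lab))] := by
        unfold expd
        simp only [hta, hta1, hw0, h1.2, Bool.false_eq_true, if_false]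
      refine ⟨pre.flatMap (expd F k x), post.flatMap (expd F k x), lab, ?_, hl, hpost⟩
      rw [hstep, hex]
      rfl

private theorem TurM_append (S : Set (List Bool)) (L L' : List WQuery) :
    wsum S (L ++ L') = wsum S L + wsum S L' := by
  simp [wsum]

private theorem TurM_small (S : Set (List Bool)) (g : Node → ℤ) (hg : ∀ s, g s = 1 ∨ g s = -1)
    (l : List Node) :
    |wsum S (l.zipIdx.map fun p => (g p.1 * 2 ^ p.2, p.1.2.2))| ≤ 2 ^ l.length - 1 := by
  induction l using List.reverseRecOn with
  | nil => simp [wsum]
  | append_singleton l s ih =>
    rw [List.zipIdx_append, List.map_append, TurM_append]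
    have h1 : |wsum S ((List.zipIdx [s] (0 + l.length)).map
        fun p => (g p.1 * 2 ^ p.2, p.1.2.2))| ≤ 2 ^ l.length := by
      simp only [List.zipIdx_cons, List.zipIdx_nil, List.map_cons, List.map_nil, wsum,
        List.sum_cons, List.sum_nil, add_zero, zero_add]
      split_ifs
      · rw [abs_mul, abs_pow]
        rcases hg s with h | h <;> rw [h] <;> simp
      · simp
    have h2 := abs_add_le (wsum S (l.zipIdx.map fun p => (g p.1 * 2 ^ p.2, p.1.2.2)))
      (wsum S ((List.zipIdx [s] (0 + l.length)).map fun p => (g p.1 * 2 ^ p.2, p.1.2.2)))
    rw [List.length_append, List.length_singleton, pow_succ]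
    linarith

private theorem TurM_zero (S : Set (List Bool)) (g : Node → ℤ) (l : List Node) (j : ℕ)
    (h : ∀ s ∈ l, ∃ y ∈ s.2.2, y ∉ S) :
    wsum S ((l.zipIdx j).map fun p => (g p.1 * 2 ^ p.2, p.1.2.2)) = 0 := by
  unfold wsum
  apply List.sum_eq_zero
  intro z hz
  simp only [List.map_map, List.mem_map, Function.comp_def] at hz
  obtain ⟨p, hp, rfl⟩ := hz
  have hp1 : p.1 ∈ l := by
    obtain ⟨s, i⟩ := p
    exact (List.mem_zipIdx hp).2.2 ▸ List.getElem_mem _
  obtain ⟨y, hy, hyS⟩ := h _ hp1
  rw [if_neg]
  intro hall
  exact hyS (hall y hy)

theorem tur_main (T : Set (List Bool)) (hT : Tally T) (n : ℕ) (x a : List Bool)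
    (ha : a.length ≤ n) (h1 : Answers F T x a) (h2 : wrong F x a ≤ k) :
    0 < wsum (T2 T) (turQ F k n x) ↔ (F (x, a)).2.1 = true := by
  obtain ⟨pre, post, lab, he, hl, hp⟩ := TurM_split F k T hT x a h1 h2 n
  have hta : a.take n = a := List.take_of_length_le ha
  rw [hta] at he
  set g : Node → ℤ := fun s => if (F (x, s.1)).2.1 then 1 else -1 with hgdef
  have hg : ∀ s, g s = 1 ∨ g s = -1 := by
    intro s
    rw [hgdef]
    beta_reduce
    split_ifs
    · exact Or.inl rfl
    · exact Or.inr rfl
  have hQ : turQ F k n x = (pre.zipIdx.map fun p => (g p.1 * 2 ^ p.2, p.1.2.2)) ++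
      ((g (a, (TurM_wr F x a n, lab)) * 2 ^ pre.length, lab) ::
        ((post.zipIdx (pre.length + 1)).map fun p => (g p.1 * 2 ^ p.2, p.1.2.2))) := by
    unfold turQ
    rw [he, List.zipIdx_append, List.map_append, List.zipIdx_cons, List.map_cons]
    simp only [zero_add, hgdef]
  have h3 := TurM_small (T2 T) g hg pre
  have h4 := TurM_zero (T2 T) g post (pre.length + 1) hp
  have hs : wsum (T2 T) (turQ F k n x) =
      wsum (T2 T) (pre.zipIdx.map fun p => (g p.1 * 2 ^ p.2, p.1.2.2)) +
        g (a, (TurM_wr F x a n, lab)) * 2 ^ pre.length := by
    rw [hQ, TurM_append]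
    congr 1
    have h5 : ∀ (q : WQuery) (L : List WQuery), wsum (T2 T) (q :: L) =
        wsum (T2 T) [q] + wsum (T2 T) L := fun q L => TurM_append (T2 T) [q] L
    rw [h5, h4, add_zero]
    unfold wsum
    simp only [List.map_cons, List.map_nil, List.sum_cons, List.sum_nil, add_zero]
    rw [if_pos hl]
  rw [hs]
  have h6 := abs_le.1 h3
  have hpow : (0 : ℤ) < 2 ^ pre.length := by positivity
  cases hv : (F (x, a)).2.1
  · have hg1 : g (a, (TurM_wr F x a n, lab)) = -1 := by
      rw [hgdef]
      beta_reduce
      simp only [hv, Bool.false_eq_true, if_false]
    rw [hg1]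
    simp only [Bool.false_eq_true, iff_false]
    linarith
  · have hg1 : g (a, (TurM_wr F x a n, lab)) = 1 := by
      rw [hgdef]
      beta_reduce
      simp only [hv, if_true]
    rw [hg1]
    simp only [iff_true]
    linarith

end Pool.Agent.W_d799b0_h54
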