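import Pool.Agent.W_d799b0_h54.TurB
import Pool.Agent.W_d799b0_h54.TurM
import Pool.Agent.W_d799b0_h54.FEnc
import Pool.Agent.W_d799b0_h54.ZSum

/-!
# Adaptive reductions with few wrong predictions: machines

PROOF of `pf_turQ`. `PF.iter` for `nodes` with the environment `(x, n)` and
`f = fun c l => l.flatMap (expd F k c.1)`; the size of the list after `i ≤ n` steps: at most
`(i + 1) ^ k` nodes (`nodes_count`), each of size at most: answers `≤ 4 n + 1`, number `≤ 2 k + 1`,
literals: at most `k`, each of length at most `2 |q| + 1` with `|q|` at most a polynomial in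
`sz (x, a) ≤ sz x + 4 n + 2` (`nodes_inv`, `PF.bound` of `F`; `eval_mono`; `sz_le_length`).
`expd` is `PF`: `PF.ite`, `PF.all`, `PF.replicate` (`PF.repl`, BinA), `PF.cons`, ....
Powers of two: `2 ^ p.2` as an integer: `PF.zOf`/`PF.zOfPN` with
`val (List.replicate e false ++ [true]) = 2 ^ e` (`val_append`, `val_replicate`, `PN.val`).
`tur_mix`: `f x = turQ F k (t |x|) x` (`PF.evalPoly`), `toEncW`, degree: literals at most `k`, all
tally; `tur_main`. `tally_T2`, `tally_sparse`: strings of ones of length at most `n` are determined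
by their length (`n + 1` of them).
-/

set_option autoImplicit false

namespace Pool.Agent.W_d799b0_h54

open Pool.Agent.PolyTime Function
open Pool.Agent.W_d799b0_h82

theorem TurC_expd {F : List Bool × List Bool → Move} (hF : PF F) (k : ℕ) :
    PF (fun y : List Bool × Node => expd F k y.1 y.2) := by
  have hm : PF (fun y : List Bool × Node => F (y.1, y.2.1)) :=
    hF.comp (PF.fst'.pair PF.snd'.fst)
  have hq : PF (fun y : List Bool × Node => (F (y.1, y.2.1)).2.2) := hm.snd.snd
  have hb : PF (fun y : List Bool × Node => (F (y.1, y.2.1)).2.1) := hm.snd.fst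
  have ha : PF (fun y : List Bool × Node => y.2.1) := PF.snd'.fst
  have hn : PF (fun y : List Bool × Node => y.2.2.1) := PF.snd'.snd.fst
  have hl : PF (fun y : List Bool × Node => y.2.2.2) := PF.snd'.snd.snd
  have h1 : PF (fun y : List Bool × Node => (F (y.1, y.2.1)).2.2.all fun b => b) :=
    PF.all (g := fun _ b => b) PF.snd' hq
  have h2 : PF (fun y : List Bool × Node => decide (y.2.2.1 < k)) := hn.lt (PF.const k)
  have h3 : PF (fun y : List Bool × Node =>
      lit (F (y.1, y.2.1)).2.2 (!(F (y.1, y.2.1)).2.1)) := by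
    unfold lit
    exact (((PF.const 2).mul hq.length).add (hb.not.ite (PF.const 0) (PF.const 1))).replicate true
  unfold expd
  refine hm.fst.ite (h1.ite ?_ (hb.ite ?_ ?_)) (PF.snd'.cons (PF.const []))
  · refine ((ha.append (hb.cons (PF.const []))).pair (hn.pair hl)).cons ?_
    exact h2.ite (((ha.append (hb.not.cons (PF.const []))).pair
      (hn.succ.pair (hl.append (h3.cons (PF.const []))))).cons (PF.const [])) (PF.const [])
  · exact h2.ite (((ha.append (PF.const [false])).pair (hn.succ.pair hl)).cons (PF.const []))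
      (PF.const [])
  · exact ((ha.append (PF.const [false])).pair (hn.pair hl)).cons (PF.const [])

theorem TurC_nodes {F : List Bool × List Bool → Move} (hF : PF F) (k : ℕ) :
    PF (fun c : List Bool × ℕ => nodes F k c.2 c.1) := by
  obtain ⟨B, hB⟩ := hF.bound
  have h : PF (fun c : List Bool × ℕ =>
      (fun l : List Node => l.flatMap (expd F k c.1))^[c.2] [([], (0, []))]) := by
    refine PF.iter (f := fun (c : List Bool × ℕ) (l : List Node) => l.flatMap (expd F k c.1)) ?_
      (PF.const _) PF.snd'
      ((Polynomial.X + 1) ^ k * (4 * Polynomial.X + 1 + (2 * (k : Polynomial ℕ) + 1) +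
        ((k : Polynomial ℕ) * (8 * B.comp (3 * Polynomial.X) + 6) + 1) + 3) + 1) ?_
    · exact PF.flatMap (g := fun (y : (List Bool × ℕ) × List Node) (s : Node) =>
        expd F k y.1.1 s) ((TurC_expd hF k).comp (PF.fst'.fst.fst.pair PF.snd')) PF.snd'
    · intro c i hi
      change sz (nodes F k i c.1) ≤ _
      have hc : sz c = sz c.1 + (2 * c.2 + 1) + 1 := by
        rw [← sz_nat c.2, ← sz_pair]
      have hlen := nodes_count F k i c.1
      have hM : ∀ s ∈ nodes F k i c.1, sz s ≤ 4 * sz c + 1 + (2 * k + 1) +
          (k * (8 * B.eval (3 * sz c) + 6) + 1) + 2 := by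
        intro s hs
        obtain ⟨i1, i2, i3, i4⟩ := nodes_inv F k i c.1 s hs
        have e : sz s = sz s.1 + (sz s.2.1 + sz s.2.2 + 1) + 1 := by
          rw [← sz_pair, ← sz_pair]
        have e1 := sz_bits_le s.1
        have e2 : sz s.2.1 = 2 * s.2.1 + 1 := sz_nat _
        have e3 : sz s.2.2 ≤ s.2.2.length * (8 * B.eval (3 * sz c) + 5 + 1) + 1 := by
          refine sz_le_length _ _ fun y hy => ?_
          obtain ⟨-, a, ha, hy2⟩ := i4 y hy
          have f1 := sz_bits_le y
          have f2 : (F (c.1, a)).2.2.length ≤ sz (F (c.1, a)).2.2 := length_le_sz _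
          have f3 : sz (F (c.1, a)) = sz (F (c.1, a)).1 + (sz (F (c.1, a)).2.1 +
              sz (F (c.1, a)).2.2 + 1) + 1 := by
            rw [← sz_pair, ← sz_pair]
          have f4 := hB (c.1, a)
          have f5 : sz (c.1, a) ≤ 3 * sz c := by
            rw [sz_pair]
            have := sz_bits_le a
            omega
          have f6 := eval_mono B f5
          omega
        have e4 : s.2.2.length * (8 * B.eval (3 * sz c) + 5 + 1) ≤
            k * (8 * B.eval (3 * sz c) + 6) := Nat.mul_le_mul (by omega) (by omega)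
        omega
      refine (sz_le_length _ _ hM).trans ?_
      have hl2 : (nodes F k i c.1).length ≤ (sz c + 1) ^ k :=
        hlen.trans (Nat.pow_le_pow_left (by omega) k)
      simp only [Polynomial.eval_add, Polynomial.eval_mul, Polynomial.eval_pow, Polynomial.eval_X,
        Polynomial.eval_one, Polynomial.eval_ofNat, Polynomial.eval_comp, Polynomial.eval_natCast]
      exact Nat.add_le_add_right (Nat.mul_le_mul hl2 (by simp only [Nat.cast_id]; omega)) 1
  exact h.cast (fun _ => rfl)

theorem TurC_two {γ : Type} [ToD γ] {e : γ → ℕ} (he : PF e) : PN (fun c => 2 ^ e c) := by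
  refine (PN.val ((he.replicate false).append (PF.const [true]))).congr (fun c => ?_)
  rw [val_append, val_replicate, List.length_replicate]
  simp [val]

theorem pf_turQ {F : List Bool × List Bool → Move} (hF : PF F) (k : ℕ) :
    PF (fun c : List Bool × ℕ => turQ F k c.2 c.1) := by
  unfold turQ
  refine PF.map (g := fun (c : List Bool × ℕ) (p : Node × ℕ) =>
    (((if (F (c.1, p.1.1)).2.1 then 1 else -1) * 2 ^ p.2, p.1.2.2) : WQuery)) ?_
    (TurC_nodes hF k).zipIdx
  refine PF.pair (PF.zmul ?_ ?_) PF.snd'.fst.snd.snd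
  · exact ((hF.comp (PF.fst'.fst.pair PF.snd'.fst.fst)).snd.fst).ite (PF.const (1 : ℤ))
      (PF.const (-1 : ℤ))
  · exact (PF.zOfPN (TurC_two (PF.snd'.snd))).cast (fun c => by push_cast; rfl)

theorem tally_T2 (T : Set (List Bool)) : Tally (T2 T) := fun _ hy => hy.1

theorem tally_sparse {T : Set (List Bool)} (hT : Tally T) : Sparse T := by
  refine ⟨Polynomial.X + 1, fun n => ?_⟩
  have hs : {y | y ∈ T ∧ y.length ≤ n} ⊆
      (fun i => List.replicate i true) '' ((Finset.range (n + 1) : Finset ℕ) : Set ℕ) := by
    rintro y ⟨hy, hn⟩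
    refine ⟨y.length, ?_, ?_⟩
    · simp only [Finset.coe_range, Set.mem_Iio]
      omega
    · symm
      rw [List.eq_replicate_iff]
      exact ⟨rfl, hT y hy⟩
  have hfin : ((fun i => List.replicate i true) '' ((Finset.range (n + 1) : Finset ℕ) :
      Set ℕ)).Finite := (Finset.finite_toSet _).image _
  refine (Set.ncard_le_ncard hs hfin).trans ((Set.ncard_image_le (Finset.finite_toSet _)).trans ?_)
  rw [Set.ncard_coe_finset, Finset.card_range]
  simp

theorem tur_mix {k : ℕ} {A T : Set (List Bool)} (hT : Tally T) (h : TuringRed k A T) :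
    MixRed k A (T2 T) := by
  obtain ⟨t, F, hF, h1⟩ := h
  have hP : PF F := pf_of_encM hF
  refine ⟨fun x => turQ F k (t.eval x.length) x, ?_, ?_, ?_⟩
  · refine toEncW ?_
    exact (pf_turQ hP k).comp (PF.id'.pair (PF.evalPoly t PF.id'.length))
  · intro x q hq
    unfold turQ at hq
    obtain ⟨p, hp, rfl⟩ := List.mem_map.1 hq
    have hp1 : p.1 ∈ nodes F k (t.eval x.length) x := by
      obtain ⟨s, i⟩ := p
      exact List.fst_mem_of_mem_zipIdx hp
    obtain ⟨-, i2, i3, i4⟩ := nodes_inv F k _ x p.1 hp1
    exact ⟨i3.trans i2, Or.inr fun y hy => (i4 y hy).1⟩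
  · intro x
    obtain ⟨a, ha, h2, h3, h4⟩ := h1 x
    rw [h4]
    exact (tur_main F k T hT (t.eval x.length) x a ha h2 h3).symm

theorem TurC_count (a : List Bool) :
    ((List.range a.length).filter fun i => a.getD i false).length = a.count true := by
  induction a using List.reverseRecOn with
  | nil => rfl
  | append_singleton l b ih =>
    rw [List.length_append, List.length_singleton, List.range_succ, List.filter_append,
      List.length_append, List.count_append, ← ih]
    congr 1
    · congr 1
      apply List.filter_congr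
      intro i hi
      rw [List.mem_range] at hi
      rw [List.getD_append _ _ _ _ hi]
    · have : (l ++ [b]).getD l.length false = b := by simp
      cases b <;> simp [this]

theorem yes_tur {k : ℕ} {A T : Set (List Bool)} (h : TuringYesRed k A T) :
    TuringRed k A T := by
  obtain ⟨t, F, hF, h1⟩ := h
  have hP : PF F := pf_of_encM hF
  let G : List Bool × List Bool → Move := fun c =>
    ((F c).1, ((!(F c).1) && (F c).2.1, (F c).2.2))
  have hG : PF G := hP.fst.pair ((hP.fst.not.and hP.snd.fst).pair hP.snd.snd)
  refine ⟨t, G, toEncM hG, fun x => ?_⟩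
  obtain ⟨a, ha, h2, h3, h4⟩ := h1 x
  refine ⟨a, ha, h2, ?_, ?_⟩
  · have e : wrong G x a = a.count true := by
      rw [← TurC_count]
      unfold wrong
      congr 1
      apply List.filter_congr
      intro i hi
      rw [List.mem_range] at hi
      have := (h2.1 i hi).1
      simp [G, this]
    rw [e]
    exact h3
  · rw [h4]
    simp [G, h2.2]

end Pool.Agent.W_d799b0_h54
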